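import Pool.Agent.Helper34.PN.Defs

/-!
Row WTS: sums of the weights of random subsets.
-/

namespace Pool.Agent.Helper34.PN

open Finset

theorem wt_sum {α : Type} [DecidableEq α] (Z : Finset α) (η : ℝ) :
    ∑ V ∈ Z.powerset, wt Z η V = 1 := by
  unfold wt
  rw [Finset.sum_pow_mul_eq_add_pow]
  simp

theorem wt_sum_superset {α : Type} [DecidableEq α] (Z B : Finset α) (hB : B ⊆ Z) (η : ℝ) :
    ∑ V ∈ Z.powerset.filter (fun V => B ⊆ V), wt Z η V = η ^ B.card := by
  have h1 : ∑ V ∈ Z.powerset.filter (fun V => B ⊆ V), wt Z η V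
      = ∑ U ∈ (Z \ B).powerset, η ^ B.card * wt (Z \ B) η U := by
    symm
    refine Finset.sum_nbij' (fun U => B ∪ U) (fun V => V \ B) ?_ ?_ ?_ ?_ ?_
    · intro U hU
      rw [Finset.mem_powerset] at hU
      rw [Finset.mem_filter, Finset.mem_powerset]
      exact ⟨Finset.union_subset hB (hU.trans Finset.sdiff_subset), Finset.subset_union_left⟩
    · intro V hV
      rw [Finset.mem_filter, Finset.mem_powerset] at hV
      rw [Finset.mem_powerset]
      exact Finset.sdiff_subset_sdiff hV.1 (Finset.Subset.refl B)
    · intro U hU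
      rw [Finset.mem_powerset] at hU
      ext x
      simp only [Finset.mem_sdiff, Finset.mem_union]
      constructor
      · rintro ⟨h | h, h2⟩
        · exact absurd h h2
        · exact h
      · intro h
        exact ⟨Or.inr h, (Finset.mem_sdiff.mp (hU h)).2⟩
    · intro V hV
      rw [Finset.mem_filter] at hV
      exact Finset.union_sdiff_of_subset hV.2
    · intro U hU
      rw [Finset.mem_powerset] at hU
      have hd : Disjoint B U := by
        rw [Finset.disjoint_left]
        intro x hx hxU
        exact (Finset.mem_sdiff.mp (hU hxU)).2 hx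
      have hc : (B ∪ U).card = B.card + U.card := Finset.card_union_of_disjoint hd
      have hz : (Z \ B).card = Z.card - B.card := Finset.card_sdiff_of_subset hB
      unfold wt
      rw [hc, hz, pow_add, mul_assoc, Nat.sub_sub]
  rw [h1, ← Finset.mul_sum, wt_sum, mul_one]

theorem wt_sum_card {α : Type} [DecidableEq α] (Z : Finset α) (η : ℝ) :
    ∑ V ∈ Z.powerset, wt Z η V * (V.card : ℝ) = η * (Z.card : ℝ) := by
  have h1 : ∀ V ∈ Z.powerset, wt Z η V * (V.card : ℝ)
      = ∑ x ∈ Z, if x ∈ V then wt Z η V else 0 := by
    intro V hV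
    rw [Finset.mem_powerset] at hV
    rw [← Finset.sum_filter, Finset.sum_const, nsmul_eq_mul, mul_comm]
    congr 2
    congr 1
    ext x
    rw [Finset.mem_filter]
    exact ⟨fun h => ⟨hV h, h⟩, fun h => h.2⟩
  rw [Finset.sum_congr rfl h1, Finset.sum_comm]
  have h2 : ∀ x ∈ Z, ∑ V ∈ Z.powerset, (if x ∈ V then wt Z η V else 0) = η := by
    intro x hx
    rw [← Finset.sum_filter]
    have h3 := wt_sum_superset Z {x} (Finset.singleton_subset_iff.mpr hx) η
    rw [Finset.card_singleton, pow_one] at h3
    have h4 : Z.powerset.filter (fun V => x ∈ V) = Z.powerset.filter (fun V => {x} ⊆ V) := by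
      ext V
      simp [Finset.singleton_subset_iff]
    rw [h4]
    exact h3
  rw [Finset.sum_congr rfl h2, Finset.sum_const, nsmul_eq_mul, mul_comm]

theorem wt_sum_trace {α : Type} [DecidableEq α] (Z E e : Finset α) (hE : E ⊆ Z) (he : e ⊆ E)
    (η : ℝ) :
    ∑ V ∈ Z.powerset.filter (fun V => V ∩ E = e), wt Z η V
      = η ^ e.card * (1 - η) ^ (E.card - e.card) := by
  have h1 : ∑ V ∈ Z.powerset.filter (fun V => V ∩ E = e), wt Z η V
      = ∑ U ∈ (Z \ E).powerset,
        η ^ e.card * (1 - η) ^ (E.card - e.card) * wt (Z \ E) η U := by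
    symm
    refine Finset.sum_nbij' (fun U => e ∪ U) (fun V => V \ E) ?_ ?_ ?_ ?_ ?_
    · intro U hU
      rw [Finset.mem_powerset] at hU
      rw [Finset.mem_filter, Finset.mem_powerset]
      refine ⟨Finset.union_subset (he.trans hE) (hU.trans Finset.sdiff_subset), ?_⟩
      ext x
      rw [Finset.mem_inter, Finset.mem_union]
      constructor
      · rintro ⟨h | h, h2⟩
        · exact h
        · exact absurd h2 (Finset.mem_sdiff.mp (hU h)).2
      · intro h
        exact ⟨Or.inl h, he h⟩
    · intro V hV
      rw [Finset.mem_filter, Finset.mem_powerset] at hV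
      rw [Finset.mem_powerset]
      exact Finset.sdiff_subset_sdiff hV.1 (Finset.Subset.refl E)
    · intro U hU
      rw [Finset.mem_powerset] at hU
      ext x
      simp only [Finset.mem_sdiff, Finset.mem_union]
      constructor
      · rintro ⟨h | h, h2⟩
        · exact absurd (he h) h2
        · exact h
      · intro h
        exact ⟨Or.inr h, (Finset.mem_sdiff.mp (hU h)).2⟩
    · intro V hV
      rw [Finset.mem_filter] at hV
      ext x
      simp only [Finset.mem_sdiff, Finset.mem_union]
      constructor
      · rintro (h | h)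
        · rw [← hV.2] at h
          exact (Finset.mem_inter.mp h).1
        · exact h.1
      · intro h
        by_cases hxE : x ∈ E
        · left
          rw [← hV.2]
          exact Finset.mem_inter.mpr ⟨h, hxE⟩
        · exact Or.inr ⟨h, hxE⟩
    · intro U hU
      rw [Finset.mem_powerset] at hU
      have hd : Disjoint e U := by
        rw [Finset.disjoint_left]
        intro x hx hxU
        exact (Finset.mem_sdiff.mp (hU hxU)).2 (he hx)
      have hc : (e ∪ U).card = e.card + U.card := Finset.card_union_of_disjoint hd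
      have hz : (Z \ E).card = Z.card - E.card := Finset.card_sdiff_of_subset hE
      have hu : U.card ≤ (Z \ E).card := Finset.card_le_card hU
      have hEZ : E.card ≤ Z.card := Finset.card_le_card hE
      have heE : e.card ≤ E.card := Finset.card_le_card he
      have hexp : Z.card - (e.card + U.card) = (E.card - e.card) + ((Z \ E).card - U.card) := by
        omega
      unfold wt
      rw [hc, hexp, pow_add, pow_add]
      ring
  rw [h1, ← Finset.mul_sum, wt_sum, mul_one]

theorem wt_nonneg {α : Type} (Z : Finset α) (η : ℝ) (h0 : 0 ≤ η) (h1 : η ≤ 1)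
    (V : Finset α) : 0 ≤ wt Z η V := by
  unfold wt
  exact mul_nonneg (pow_nonneg h0 _) (pow_nonneg (by linarith) _)

end Pool.Agent.Helper34.PN
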