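import Pool.Agent.Helper34.FQ.Defs
import Pool.Agent.Helper34.PN.AVG
import Pool.Agent.Helper31.FQ_MISC
import Pool.Agent.Helper49.PN_FRESH

/-!
Row FRW of the project FQ (MP_08bd45_co, leader helper34).
-/

namespace Pool.Agent.Helper34.FQ

open Finset Pool.Agent.Helper34.PN

theorem frw {α J : Type} [LinearOrder α] [Fintype J]
    {Z W : Finset α} {r : ℕ} {ε c : ℝ} {X : J → ℕ → α} {M : J → ℝ}
    {D mx : α → ℝ} (s : ↥(Z.powerset) → α → Fin 3) (hd : Dat Z r ε X M D mx)
    (hs : ∀ (ω : ↥(Z.powerset)) (x : α), x ∈ Z → (s ω x = 0 ↔ x ∉ ω.1))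
    (hW : Wd s Z W D c) (hc : 0 < c) (q : ℕ) (hq : q < r) :
    ∑ e, M e * ∑ ω, |1 - 2 * avg s (lw W (X e q)) (ind s (X e q) 0) ω|
      ≤ (Fintype.card ↥(Z.powerset) : ℝ) *
        (Real.sqrt (5 * r / (2 * c)) + r / c) := by
  classical
  obtain ⟨N, hN⟩ : ∃ N : ℝ, N = (Fintype.card ↥(Z.powerset) : ℝ) := ⟨_, rfl⟩
  rw [← hN]
  have hN0 : 0 ≤ N := by rw [hN]; exact Nat.cast_nonneg _
  obtain ⟨χ, hχ⟩ : ∃ χ : α → ↥(Z.powerset) → ℝ,
      χ = fun x ω => if x ∈ ω.1 then (1 : ℝ) else -1 := ⟨_, rfl⟩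
  have hχ1 : ∀ x ω, |χ x ω| ≤ 1 := by
    intro x ω
    rw [hχ]
    change |(if x ∈ ω.1 then (1 : ℝ) else -1)| ≤ 1
    split_ifs <;> simp
  have habs : ∀ (S : Finset α) x ω, |avg s S (χ x) ω| ≤ 1 := by
    intro S x ω
    unfold avg
    have hp : (0 : ℝ) < ((cls s S ω).card : ℝ) := by
      exact_mod_cast cls_card_pos s S ω
    rw [abs_div, abs_of_pos hp, div_le_one hp]
    calc |∑ ω' ∈ cls s S ω, χ x ω'| ≤ ∑ ω' ∈ cls s S ω, |χ x ω'| := abs_sum_le_sum_abs _ _
      _ ≤ ∑ ω' ∈ cls s S ω, (1 : ℝ) := sum_le_sum fun ω' _ => hχ1 x ω'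
      _ = ((cls s S ω).card : ℝ) := by rw [sum_const, nsmul_eq_mul, mul_one]
  have hconv : ∀ x ∈ Z, ∀ (S : Finset α) ω,
      1 - 2 * avg s S (ind s x 0) ω = avg s S (χ x) ω := by
    intro x hx S ω
    unfold avg
    have hp : (0 : ℝ) < ((cls s S ω).card : ℝ) := by
      exact_mod_cast cls_card_pos s S ω
    have h1 : ∑ ω' ∈ cls s S ω, χ x ω'
        = ((cls s S ω).card : ℝ) - 2 * ∑ ω' ∈ cls s S ω, ind s x 0 ω' := by
      have h2 : ∀ ω' ∈ cls s S ω, χ x ω' = 1 - 2 * ind s x 0 ω' := by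
        intro ω' _
        rw [hχ]
        change (if x ∈ ω'.1 then (1 : ℝ) else -1) = _
        unfold ind
        by_cases h3 : x ∈ ω'.1
        · rw [if_pos h3, if_neg (fun h4 => ((hs ω' x hx).1 h4) h3)]
          ring
        · rw [if_neg h3, if_pos ((hs ω' x hx).2 h3)]
          ring
      rw [sum_congr rfl h2, sum_sub_distrib, sum_const, nsmul_eq_mul, mul_one, mul_sum]
    rw [h1]
    field_simp
  obtain ⟨v, hv⟩ : ∃ v : α → ↥(Z.powerset) → ℝ,
      v = fun x ω => avg s (lw W x) (χ x) ω := ⟨_, rfl⟩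
  obtain ⟨u, hu⟩ : ∃ u : α → ℝ, u = fun x => if x ∈ W then 0 else ∑ ω, v x ω ^ 2 := ⟨_, rfl⟩
  obtain ⟨n, hn⟩ : ∃ n : α → ℝ, n = fun x => if x ∈ W then (5 / 2) * N else 0 := ⟨_, rfl⟩
  have hu0 : ∀ x, 0 ≤ u x := by
    intro x
    rw [hu]
    change 0 ≤ (if x ∈ W then 0 else ∑ ω, v x ω ^ 2)
    split_ifs
    · exact le_rfl
    · exact sum_nonneg fun _ _ => sq_nonneg _
  -- the hypothesis of `abel`
  have hab : ∀ y ∈ Z, ∑ x ∈ Z.filter (fun x => x ≤ y), u x
      ≤ ∑ x ∈ Z.filter (fun x => x ≤ y), n x := by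
    intro y hy
    have hlwZ : lw W y ⊆ Z := (filter_subset _ _).trans hW.sub
    have hf := fresh Z (lw W y) hlwZ s
    rw [← hN] at hf
    have h1 : ∑ x ∈ Z.filter (fun x => x ≤ y), u x
        ≤ ∑ x ∈ Z \ lw W y, ∑ ω : ↥(Z.powerset),
          (avg s (lw W y) (fun ω' => if x ∈ ω'.1 then (1 : ℝ) else -1) ω) ^ 2 := by
      have h2 : ∑ x ∈ Z.filter (fun x => x ≤ y), u x
          = ∑ x ∈ (Z.filter (fun x => x ≤ y)).filter (fun x => x ∉ W), ∑ ω, v x ω ^ 2 := by
        rw [sum_filter (fun x => x ∉ W)]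
        refine sum_congr rfl fun x _ => ?_
        rw [hu]
        change (if x ∈ W then 0 else ∑ ω, v x ω ^ 2) = _
        by_cases h3 : x ∈ W
        · rw [if_pos h3, if_neg (fun h4 => h4 h3)]
        · rw [if_neg h3, if_pos h3]
      rw [h2]
      refine le_trans (b := ∑ x ∈ (Z.filter (fun x => x ≤ y)).filter (fun x => x ∉ W),
        ∑ ω : ↥(Z.powerset),
          (avg s (lw W y) (fun ω' => if x ∈ ω'.1 then (1 : ℝ) else -1) ω) ^ 2)
        (sum_le_sum fun x hx => ?_) (sum_le_sum_of_subset_of_nonneg ?_ ?_)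
      · have hx' := (mem_filter.1 (mem_filter.1 hx).1).2
        have hsub : lw W x ⊆ lw W y := by
          intro z hz
          unfold lw at hz ⊢
          rw [mem_filter] at hz ⊢
          exact ⟨hz.1, hz.2.trans hx'⟩
        have hp := avg_pyth s (lw W x) (lw W y) hsub (χ x)
        have hp' : 0 ≤ ∑ ω, (avg s (lw W y) (χ x) ω - avg s (lw W x) (χ x) ω) ^ 2 :=
          sum_nonneg fun _ _ => sq_nonneg _
        have h4 : ∑ ω, v x ω ^ 2 ≤ ∑ ω, (avg s (lw W y) (χ x) ω) ^ 2 := by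
          rw [hv]
          change ∑ ω, (avg s (lw W x) (χ x) ω) ^ 2 ≤ _
          linarith
        rw [hχ] at h4
        exact h4
      · intro x hx
        rw [mem_filter, mem_filter] at hx
        rw [mem_sdiff]
        refine ⟨hx.1.1, fun h3 => hx.2 ?_⟩
        unfold lw at h3
        exact (mem_filter.1 h3).1
      · intro x _ _
        exact sum_nonneg fun _ _ => sq_nonneg _
    have h5 : ∑ x ∈ Z.filter (fun x => x ≤ y), n x = (5 / 2 : ℝ) * ((lw W y).card : ℝ) * N := by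
      have h6 : ∑ x ∈ Z.filter (fun x => x ≤ y), n x
          = ∑ x ∈ (Z.filter (fun x => x ≤ y)).filter (fun x => x ∈ W), (5 / 2) * N := by
        rw [sum_filter (fun x => x ∈ W)]
        refine sum_congr rfl fun x _ => ?_
        rw [hn]
      have h7 : (Z.filter (fun x => x ≤ y)).filter (fun x => x ∈ W) = lw W y := by
        unfold lw
        ext x
        rw [mem_filter, mem_filter, mem_filter]
        constructor
        · rintro ⟨⟨_, h8⟩, h9⟩
          exact ⟨h9, h8⟩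
        · rintro ⟨h9, h8⟩
          exact ⟨⟨hW.sub h9, h8⟩, h9⟩
      rw [h6, h7, sum_const, nsmul_eq_mul]
      ring
    rw [h5]
    exact h1.trans hf
  have habel := abel Z D u n (fun x _ => hd.D0 x) hd.Da hab
  -- the total weight of `W`
  have hDW : ∑ x ∈ W, D x ≤ r / c := by
    rw [le_div_iff₀ hc]
    have h1 := hW.cost
    have h2 := hd.Ds
    linarith
  have hDn : ∑ x ∈ Z, D x * n x ≤ (5 / 2) * N * (r / c) := by
    have h1 : ∑ x ∈ Z, D x * n x = ∑ x ∈ Z.filter (fun x => x ∈ W), D x * ((5 / 2) * N) := by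
      rw [sum_filter (fun x => x ∈ W)]
      refine sum_congr rfl fun x _ => ?_
      rw [hn]
      change D x * (if x ∈ W then (5 / 2) * N else 0) = _
      split_ifs
      · rfl
      · rw [mul_zero]
    have h2 : Z.filter (fun x => x ∈ W) = W := by
      ext x
      rw [mem_filter]
      exact ⟨fun h => h.2, fun h => ⟨hW.sub h, h⟩⟩
    rw [h1, h2, ← sum_mul]
    nlinarith
  -- degrees at position `q`
  have hdeg : ∀ x, ∑ e ∈ univ.filter (fun e => X e q = x), M e ≤ D x := by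
    intro x
    refine le_trans (sum_le_sum_of_subset_of_nonneg ?_ ?_) (hd.De x)
    · intro e he
      rw [mem_filter] at he ⊢
      refine ⟨he.1, ?_⟩
      unfold pre
      rw [mem_image]
      exact ⟨q, mem_range.2 hq, he.2⟩
    · intro e _ _
      exact hd.M0 e
  have hfib : ∀ F : α → ℝ, (∀ x, 0 ≤ F x) → ∑ e, M e * F (X e q) ≤ ∑ x ∈ Z, D x * F x := by
    intro F hF
    have h1 : ∑ e, M e * F (X e q)
        = ∑ x ∈ Z, ∑ e ∈ univ.filter (fun e => X e q = x), M e * F (X e q) := by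
      rw [sum_fiberwise_of_maps_to (fun e _ => hd.mem e q hq)]
    rw [h1]
    refine sum_le_sum fun x _ => ?_
    have h2 : ∑ e ∈ univ.filter (fun e => X e q = x), M e * F (X e q)
        = (∑ e ∈ univ.filter (fun e => X e q = x), M e) * F x := by
      rw [sum_mul]
      refine sum_congr rfl fun e he => ?_
      rw [(mem_filter.1 he).2]
    rw [h2]
    exact mul_le_mul_of_nonneg_right (hdeg x) (hF x)
  -- pointwise estimate for one edge
  have hedge : ∀ e, ∑ ω, |1 - 2 * avg s (lw W (X e q)) (ind s (X e q) 0) ω|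
      ≤ Real.sqrt N * Real.sqrt (u (X e q)) + (if X e q ∈ W then N else 0) := by
    intro e
    have hxZ := hd.mem e q hq
    have h1 : ∑ ω, |1 - 2 * avg s (lw W (X e q)) (ind s (X e q) 0) ω|
        = ∑ ω, |v (X e q) ω| := by
      refine sum_congr rfl fun ω _ => ?_
      rw [hconv _ hxZ, hv]
    rw [h1]
    by_cases hxW : X e q ∈ W
    · rw [if_pos hxW]
      have h2 : ∑ ω, |v (X e q) ω| ≤ N := by
        calc ∑ ω, |v (X e q) ω| ≤ ∑ ω : ↥(Z.powerset), (1 : ℝ) := by
              refine sum_le_sum fun ω _ => ?_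
              rw [hv]
              exact habs _ _ _
          _ = N := by rw [sum_const, nsmul_eq_mul, mul_one, hN]; rfl
      have h3 : 0 ≤ Real.sqrt N * Real.sqrt (u (X e q)) := by positivity
      linarith
    · rw [if_neg hxW, add_zero]
      have h4 : u (X e q) = ∑ ω, v (X e q) ω ^ 2 := by
        rw [hu]
        change (if X e q ∈ W then 0 else ∑ ω, v (X e q) ω ^ 2) = _
        rw [if_neg hxW]
      rw [h4, ← Real.sqrt_mul hN0]
      refine Real.le_sqrt_of_sq_le ?_
      have h5 := sq_sum_le_card_mul_sum_sq (s := (univ : Finset ↥(Z.powerset)))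
        (f := fun ω => |v (X e q) ω|)
      have h6 : ∑ ω, |v (X e q) ω| ^ 2 = ∑ ω, v (X e q) ω ^ 2 :=
        sum_congr rfl fun ω _ => sq_abs _
      rw [h6] at h5
      have h7 : ((univ : Finset ↥(Z.powerset)).card : ℝ) = N := by
        rw [hN]
        rfl
      rw [h7] at h5
      exact h5
  -- summation
  have hsum : ∑ e, M e * ∑ ω, |1 - 2 * avg s (lw W (X e q)) (ind s (X e q) 0) ω|
      ≤ Real.sqrt N * ∑ e, M e * Real.sqrt (u (X e q))
        + ∑ e, M e * (if X e q ∈ W then N else 0) := by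
    rw [mul_sum, ← sum_add_distrib]
    refine sum_le_sum fun e _ => ?_
    have h1 := mul_le_mul_of_nonneg_left (hedge e) (hd.M0 e)
    linarith
  have hA : ∑ e, M e * Real.sqrt (u (X e q)) ≤ Real.sqrt ((5 / 2) * N * (r / c)) := by
    refine Real.le_sqrt_of_sq_le ?_
    have h1 : (∑ e, M e * Real.sqrt (u (X e q))) ^ 2
        ≤ (∑ e, M e) * ∑ e, M e * u (X e q) := by
      refine sum_sq_le_sum_mul_sum_of_sq_le_mul _ (fun e _ => hd.M0 e)
        (fun e _ => mul_nonneg (hd.M0 e) (hu0 _)) (fun e _ => ?_)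
      rw [mul_pow, Real.sq_sqrt (hu0 _)]
      exact le_of_eq (by ring)
    rw [hd.M1, one_mul] at h1
    exact h1.trans (((hfib u hu0).trans habel).trans hDn)
  have hB : ∑ e, M e * (if X e q ∈ W then N else 0) ≤ N * (r / c) := by
    have h1 := hfib (fun x => if x ∈ W then N else 0) (fun x => by
      change 0 ≤ (if x ∈ W then N else 0)
      split_ifs
      · exact hN0
      · exact le_rfl)
    refine h1.trans ?_
    have h2 : ∑ x ∈ Z, D x * (if x ∈ W then N else 0)
        = ∑ x ∈ Z.filter (fun x => x ∈ W), D x * N := by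
      rw [sum_filter (fun x => x ∈ W)]
      refine sum_congr rfl fun x _ => ?_
      split_ifs
      · rfl
      · rw [mul_zero]
    have h3 : Z.filter (fun x => x ∈ W) = W := by
      ext x
      rw [mem_filter]
      exact ⟨fun h => h.2, fun h => ⟨hW.sub h, h⟩⟩
    rw [h2, h3, ← sum_mul]
    nlinarith
  have hC : Real.sqrt N * Real.sqrt ((5 / 2) * N * (r / c)) = N * Real.sqrt (5 * r / (2 * c)) := by
    have h1 : (5 / 2) * N * (r / c) = N * (5 * r / (2 * c)) := by
      field_simp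
    rw [h1, Real.sqrt_mul hN0, ← mul_assoc, Real.mul_self_sqrt hN0]
  calc _ ≤ _ := hsum
    _ ≤ Real.sqrt N * Real.sqrt ((5 / 2) * N * (r / c)) + N * (r / c) :=
        add_le_add (mul_le_mul_of_nonneg_left hA (Real.sqrt_nonneg _)) hB
    _ = N * (Real.sqrt (5 * r / (2 * c)) + r / c) := by
        rw [hC]
        ring

end Pool.Agent.Helper34.FQ
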