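import Pool.Agent.Helper34.FQ.Defs
import Pool.Agent.Helper82.FQ.Van

/-!
Row BRANCH of the project FQ (MP_08bd45_co, leader helper34).
-/

namespace Pool.Agent.Helper34.FQ

open Finset Pool.Agent.Helper34.PN

/-- BRANCH, with the conclusion of DATB (theorem `branch_dat`) as a hypothesis. Use:
`theorem branch (m : ℕ) (hm : 1 ≤ m) := branch_of m (branch_dat m hm)`. -/
theorem branch_of (m : ℕ) (hdatb : ∃ (r : ℕ) (ε : ℝ), 1 ≤ r ∧ 0 < ε ∧
    ∀ (α J : Type) [LinearOrder α] [Fintype J] (Z : Finset α) (X : J → ℕ → α) (M : J → ℝ)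
      (D mx : α → ℝ), Dat Z r ε X M D mx →
      ¬ (∀ Y : Finset α, Y ⊆ Z → ∃ R : Finset α, R ⊆ Y ∧ ∀ e : J,
          m ≤ (pre X r e ∩ Y).card →
          (pre X r e ∩ R).Nonempty ∧ (pre X r e ∩ (Y \ R)).Nonempty)) :
    ∃ (r : ℕ) (ε : ℝ), 1 ≤ r ∧ 0 < ε ∧ BranchAt m r ε := by
  classical
  obtain ⟨r, ε, hr, hε, hmain⟩ := hdatb
  refine ⟨r, ε, hr, hε, ?_⟩
  intro α _ Z L M hLZ hLr hM0 hG
  by_contra hcon
  push Not at hcon
  -- total weight
  obtain ⟨S, hS⟩ : ∃ S, S = ∑ e ∈ L, M e := ⟨_, rfl⟩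
  rw [← hS] at hcon
  have hSpos : 0 < S := by
    have h := hcon id
    have h0 : ∑ c ∈ Z, ∑ e ∈ L.filter (fun e => c ∈ e ∧ id c ∈ e ∧ id c ≠ c), M e = 0 := by
      refine sum_eq_zero fun c _ => ?_
      rw [filter_false_of_mem, sum_empty]
      intro e _ h1
      exact h1.2.2 rfl
    rw [h0] at h
    exact (mul_pos_iff_of_pos_left hε).1 h
  have hLne : L.Nonempty := by
    rw [nonempty_iff_ne_empty]
    intro h
    rw [h, sum_empty] at hS
    linarith
  have hZne : Z.Nonempty := by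
    obtain ⟨e, he⟩ := hLne
    have h1 : 0 < e.card := by
      rw [hLr e he]
      omega
    obtain ⟨x, hx⟩ := card_pos.1 h1
    exact ⟨x, hLZ e he hx⟩
  -- degrees and pair degrees
  obtain ⟨D, hD⟩ : ∃ D : α → ℝ, D = fun x => ∑ e ∈ L.filter (fun e => x ∈ e), M e / S :=
    ⟨_, rfl⟩
  obtain ⟨pd, hpd⟩ : ∃ pd : α → α → ℝ,
      pd = fun x z => ∑ e ∈ L.filter (fun e => x ∈ e ∧ z ∈ e), M e / S := ⟨_, rfl⟩
  have hD0 : ∀ x, 0 ≤ D x := by
    intro x
    rw [hD]
    exact sum_nonneg fun e he => div_nonneg (hM0 e (mem_filter.1 he).1) hSpos.le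
  have hpd0 : ∀ x z, 0 ≤ pd x z := by
    intro x z
    rw [hpd]
    exact sum_nonneg fun e he => div_nonneg (hM0 e (mem_filter.1 he).1) hSpos.le
  have hζ : ∀ c, ∃ z, c ∈ Z → ∀ w ∈ Z, w ≠ c → z ≠ c ∧ pd c w ≤ pd c z := by
    intro c
    by_cases h : (Z.erase c).Nonempty
    · obtain ⟨z, hz, hmax⟩ := exists_max_image (Z.erase c) (pd c) h
      refine ⟨z, fun _ w hw hwc => ⟨ne_of_mem_erase hz, hmax w (mem_erase.2 ⟨hwc, hw⟩)⟩⟩
    · refine ⟨c, fun _ w hw hwc => ?_⟩
      exact absurd ⟨w, mem_erase.2 ⟨hwc, hw⟩⟩ h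
  choose ζ hζ using hζ
  obtain ⟨p, g, hgp, hpD⟩ := sort_exists Z hZne D
  have hpinj : ∀ x ∈ Z, ∀ y ∈ Z, p x = p y → x = y := by
    intro x hx y hy h
    rw [← hgp x hx, ← hgp y hy, h]
  have hpset : Set.InjOn p (Z : Set α) := fun x hx y hy h =>
    hpinj x (mem_coe.1 hx) y (mem_coe.1 hy) h
  obtain ⟨Z', hZ'⟩ : ∃ Z' : Finset ℕ, Z' = Z.image p := ⟨_, rfl⟩
  have hcard : ∀ e : ↥L, (e.1.image p).card = r := by
    intro e
    rw [card_image_of_injOn (hpset.mono (by exact_mod_cast hLZ e.1 e.2)), hLr e.1 e.2]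
  obtain ⟨X, hX⟩ : ∃ X : ↥L → ℕ → ℕ, X = fun e i =>
      if h : i < r then (e.1.image p).orderEmbOfFin (hcard e) ⟨i, h⟩ else 0 := ⟨_, rfl⟩
  have hXlt : ∀ (e : ↥L) (i : ℕ) (h : i < r),
      X e i = (e.1.image p).orderEmbOfFin (hcard e) ⟨i, h⟩ := by
    intro e i h
    rw [hX]
    exact dif_pos h
  have hpre : ∀ e : ↥L, pre X r e = e.1.image p := by
    intro e
    ext x
    unfold pre
    constructor
    · intro hx
      obtain ⟨i, hi, rfl⟩ := mem_image.1 hx
      rw [hXlt e i (mem_range.1 hi)]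
      exact orderEmbOfFin_mem _ _ _
    · intro hx
      have h1 : x ∈ Set.range ((e.1.image p).orderEmbOfFin (hcard e)) := by
        rw [range_orderEmbOfFin]
        exact mem_coe.2 hx
      obtain ⟨i, hi⟩ := h1
      rw [mem_image]
      refine ⟨i.1, mem_range.2 i.2, ?_⟩
      rw [hXlt e i.1 i.2]
      exact hi
  have hmem_iff : ∀ (e : ↥L) (x : α), x ∈ Z → (p x ∈ e.1.image p ↔ x ∈ e.1) := by
    intro e x hx
    constructor
    · intro h
      obtain ⟨y, hy, hyx⟩ := mem_image.1 h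
      rw [← hpinj y (hLZ e.1 e.2 hy) x hx hyx]
      exact hy
    · intro h
      exact mem_image_of_mem p h
  obtain ⟨D', hD'⟩ : ∃ D' : ℕ → ℝ, D' = fun n => if n ∈ Z' then D (g n) else 0 := ⟨_, rfl⟩
  obtain ⟨mx, hmx⟩ : ∃ mx : ℕ → ℝ, mx = fun n =>
      if n ∈ Z' ∧ ζ (g n) ≠ g n then pd (g n) (ζ (g n)) else 0 := ⟨_, rfl⟩
  have hD'p : ∀ x ∈ Z, D' (p x) = D x := by
    intro x hx
    rw [hD']
    change (if p x ∈ Z' then D (g (p x)) else 0) = D x
    rw [if_pos (by rw [hZ']; exact mem_image_of_mem p hx), hgp x hx]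
  have hmx0 : ∀ x, 0 ≤ mx x := by
    intro x
    rw [hmx]
    change 0 ≤ (if x ∈ Z' ∧ ζ (g x) ≠ g x then pd (g x) (ζ (g x)) else 0)
    split_ifs
    · exact hpd0 _ _
    · exact le_rfl
  have hsumL : ∀ F : Finset α → ℝ, ∑ e : ↥L, F e.1 = ∑ e ∈ L, F e := fun F =>
    sum_coe_sort L F
  have hdat : Dat Z' r ε X (fun e : ↥L => M e.1 / S) D' mx := by
    refine ⟨?_, ?_, ?_, ?_, ?_, ?_, ?_, ?_, hmx0, ?_, ?_⟩
    · intro e i hi
      rw [hXlt e i hi, hZ']
      exact image_subset_image (hLZ e.1 e.2) (orderEmbOfFin_mem _ _ _)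
    · intro e i j hij hj
      rw [hXlt e i (hij.trans hj), hXlt e j hj]
      exact (OrderEmbedding.lt_iff_lt _).2 hij
    · intro e
      exact div_nonneg (hM0 e.1 e.2) hSpos.le
    · rw [hsumL (fun e => M e / S), ← sum_div, ← hS]
      exact div_self hSpos.ne'
    · intro x
      rw [hD']
      change 0 ≤ (if x ∈ Z' then D (g x) else 0)
      split_ifs
      · exact hD0 _
      · exact le_rfl
    · intro x
      by_cases hx : x ∈ Z'
      · rw [hZ'] at hx
        obtain ⟨z, hz, rfl⟩ := mem_image.1 hx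
        rw [hD'p z hz, hD]
        change _ ≤ ∑ e ∈ L.filter (fun e => z ∈ e), M e / S
        rw [sum_filter, sum_filter, ← hsumL (fun e => if z ∈ e then M e / S else 0)]
        refine le_of_eq (sum_congr rfl fun e _ => ?_)
        rw [hpre e]
        exact if_congr (hmem_iff e z hz) rfl rfl
      · have h1 : ∑ e ∈ univ.filter (fun e : ↥L => x ∈ pre X r e), M e.1 / S = 0 := by
          rw [filter_false_of_mem, sum_empty]
          intro e _ h2
          apply hx
          rw [hpre e] at h2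
          rw [hZ']
          exact image_subset_image (hLZ e.1 e.2) h2
        rw [h1, hD']
        change 0 ≤ (if x ∈ Z' then D (g x) else 0)
        rw [if_neg hx]
    · have h1 : ∑ x ∈ Z', D' x = ∑ z ∈ Z, D z := by
        rw [hZ', sum_image hpset]
        exact sum_congr rfl fun z hz => hD'p z hz
      have h2 : ∑ z ∈ Z, D z = ∑ e ∈ L, (r : ℝ) * (M e / S) := by
        have h3 : ∀ z ∈ Z, D z = ∑ e ∈ L, if z ∈ e then M e / S else 0 := by
          intro z _
          rw [hD]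
          exact sum_filter _ _
        rw [sum_congr rfl h3, sum_comm]
        refine sum_congr rfl fun e he => ?_
        rw [← sum_filter, sum_const, nsmul_eq_mul]
        have h4 : Z.filter (fun z => z ∈ e) = e := by
          ext z
          rw [mem_filter]
          exact ⟨fun h => h.2, fun h => ⟨hLZ e he h, h⟩⟩
        rw [h4, hLr e he]
      rw [h1, h2, ← mul_sum, ← sum_div, ← hS, div_self hSpos.ne', mul_one]
    · intro x hx y hy hxy
      rw [hZ'] at hx hy
      obtain ⟨z, hz, rfl⟩ := mem_image.1 hx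
      obtain ⟨w, hw, rfl⟩ := mem_image.1 hy
      rw [hD'p z hz, hD'p w hw]
      exact hpD z hz w hw hxy
    · intro x z hxz
      by_cases hx : x ∈ Z' ∧ z ∈ Z'
      · obtain ⟨hx1, hz1⟩ := hx
        rw [hZ'] at hx1 hz1
        obtain ⟨a, ha, rfl⟩ := mem_image.1 hx1
        obtain ⟨b, hb, rfl⟩ := mem_image.1 hz1
        have hba : b ≠ a := fun h => hxz (by rw [h])
        obtain ⟨h1, h2⟩ := hζ a ha b hb hba
        have h3 : mx (p a) = pd a (ζ a) := by
          rw [hmx]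
          change (if p a ∈ Z' ∧ ζ (g (p a)) ≠ g (p a) then pd (g (p a)) (ζ (g (p a))) else 0) = _
          rw [hgp a ha, if_pos ⟨by rw [hZ']; exact hx1, h1⟩]
        rw [h3]
        refine le_trans (le_of_eq ?_) h2
        rw [hpd]
        change _ = ∑ e ∈ L.filter (fun e => a ∈ e ∧ b ∈ e), M e / S
        rw [sum_filter, sum_filter, ← hsumL (fun e => if a ∈ e ∧ b ∈ e then M e / S else 0)]
        refine sum_congr rfl fun e _ => ?_
        rw [hpre e]
        exact if_congr (and_congr (hmem_iff e a ha) (hmem_iff e b hb)) rfl rfl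
      · have h1 : ∑ e ∈ univ.filter (fun e : ↥L => x ∈ pre X r e ∧ z ∈ pre X r e),
            M e.1 / S = 0 := by
          rw [filter_false_of_mem, sum_empty]
          intro e _ h2
          apply hx
          rw [hpre e] at h2
          rw [hZ']
          exact ⟨image_subset_image (hLZ e.1 e.2) h2.1, image_subset_image (hLZ e.1 e.2) h2.2⟩
        rw [h1]
        exact hmx0 x
    · have h1 : ∑ x ∈ Z', mx x = ∑ z ∈ Z, mx (p z) := by
        rw [hZ', sum_image hpset]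
      have h2 : ∀ z ∈ Z, mx (p z)
          = (∑ e ∈ L.filter (fun e => z ∈ e ∧ ζ z ∈ e ∧ ζ z ≠ z), M e) / S := by
        intro z hz
        rw [hmx]
        change (if p z ∈ Z' ∧ ζ (g (p z)) ≠ g (p z) then pd (g (p z)) (ζ (g (p z))) else 0) = _
        rw [hgp z hz]
        by_cases h3 : ζ z ≠ z
        · rw [if_pos ⟨by rw [hZ']; exact mem_image_of_mem p hz, h3⟩, hpd, sum_div]
          change ∑ e ∈ L.filter (fun e => z ∈ e ∧ ζ z ∈ e), M e / S = _
          refine sum_congr (filter_congr fun e _ => ?_) fun _ _ => rfl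
          exact ⟨fun h => ⟨h.1, h.2, h3⟩, fun h => ⟨h.1, h.2.1⟩⟩
        · rw [if_neg (fun h => h3 h.2), filter_false_of_mem, sum_empty, zero_div]
          intro e _ h
          exact h3 h.2.2
      rw [h1, sum_congr rfl h2, ← sum_div, div_le_iff₀ hSpos]
      exact (hcon ζ).le
  refine hmain ℕ ↥L Z' X _ D' mx hdat ?_
  intro Y' hY'
  obtain ⟨R, hRY, hR⟩ := hG (Z.filter (fun x => p x ∈ Y')) (filter_subset _ _)
  have hRZ : R ⊆ Z := hRY.trans (filter_subset _ _)
  refine ⟨R.image p, ?_, ?_⟩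
  · intro y hy
    obtain ⟨x, hx, rfl⟩ := mem_image.1 hy
    exact (mem_filter.1 (hRY hx)).2
  · intro e he
    have h1 : (e.1 ∩ Z.filter (fun x => p x ∈ Y')).image p = pre X r e ∩ Y' := by
      rw [hpre e]
      ext y
      rw [mem_image, mem_inter, mem_image]
      constructor
      · rintro ⟨x, hx, rfl⟩
        rw [mem_inter, mem_filter] at hx
        exact ⟨⟨x, hx.1, rfl⟩, hx.2.2⟩
      · rintro ⟨⟨x, hx, rfl⟩, hy⟩
        refine ⟨x, ?_, rfl⟩
        rw [mem_inter, mem_filter]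
        exact ⟨hx, hLZ e.1 e.2 hx, hy⟩
    have h2 : m ≤ (e.1 ∩ Z.filter (fun x => p x ∈ Y')).card := by
      rw [← h1] at he
      exact he.trans card_image_le
    obtain ⟨⟨x, hx⟩, ⟨y, hy⟩⟩ := hR e.1 e.2 h2
    rw [mem_inter] at hx hy
    rw [mem_sdiff, mem_filter] at hy
    refine ⟨⟨p x, ?_⟩, ⟨p y, ?_⟩⟩
    · rw [mem_inter, hpre e]
      exact ⟨mem_image_of_mem p hx.1, mem_image_of_mem p hx.2⟩
    · rw [mem_inter, hpre e, mem_sdiff]
      refine ⟨mem_image_of_mem p hy.1, hy.2.1.2, ?_⟩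
      intro h3
      obtain ⟨w, hw, hwy⟩ := mem_image.1 h3
      rw [hpinj w (hRZ hw) y hy.2.1.1 hwy] at hw
      exact hy.2.2 hw

end Pool.Agent.Helper34.FQ
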