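import Pool.Agent.Helper27.PN_SAUER
import Pool.Agent.Helper92.PN_DSAMP

/-!
Row NETC: nets of constant size for dense set systems.
-/

namespace Pool.Agent.Helper34.PN

open Finset Filter Topology

theorem exists_exp_big (q D : ℕ) (hq : 1 ≤ q) :
    ∃ t : ℕ, 2 * q * (4 * q * t + 1) ^ D < 2 ^ t := by
  have h1 : Tendsto (fun n : ℕ => (n : ℝ) ^ D / (2 : ℝ) ^ n) atTop (𝓝 0) :=
    tendsto_pow_const_div_const_pow_of_one_lt D (by norm_num)
  have hq' : (0 : ℝ) < q := by exact_mod_cast hq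
  have hc : (0 : ℝ) < 2 * (q : ℝ) * (5 * q) ^ D := by positivity
  have h2 : ∀ᶠ n : ℕ in atTop, (n : ℝ) ^ D / (2 : ℝ) ^ n < 1 / (2 * (q : ℝ) * (5 * q) ^ D) :=
    h1.eventually_lt_const (by positivity)
  obtain ⟨t, ht, ht1⟩ := (h2.and (eventually_ge_atTop 1)).exists
  refine ⟨t, ?_⟩
  have h3 : (2 * (q : ℝ) * (5 * q) ^ D) * (t : ℝ) ^ D < (2 : ℝ) ^ t := by
    rw [div_lt_div_iff₀ (by positivity) hc] at ht
    linarith
  have h4 : 4 * q * t + 1 ≤ 5 * q * t := by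
    have : 1 ≤ q * t := Nat.mul_pos hq ht1
    nlinarith
  have h5 : 2 * q * (4 * q * t + 1) ^ D ≤ 2 * q * (5 * q * t) ^ D :=
    Nat.mul_le_mul_left _ (Nat.pow_le_pow_left h4 D)
  have h6 : 2 * q * (5 * q * t) ^ D < 2 ^ t := by
    have h7 : ((2 * q * (5 * q * t) ^ D : ℕ) : ℝ) < ((2 ^ t : ℕ) : ℝ) := by
      push_cast
      rw [mul_pow (5 * (q : ℝ)) t D, ← mul_assoc]
      exact h3
    exact_mod_cast h7
  omega

theorem net_const (m q : ℕ) (hm : 1 ≤ m) :
    ∃ c : ℕ, ∀ (α : Type) [DecidableEq α] (A : Finset α) (H : Finset (Finset α)),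
      Good A H m → (∀ E ∈ H, A.card ≤ q * (E ∩ A).card) → (∀ E ∈ H, (E ∩ A).Nonempty) →
      ∃ T : Finset α, T ⊆ A ∧ T.card ≤ c ∧ ∀ E ∈ H, (E ∩ T).Nonempty := by
  rcases Nat.eq_zero_or_pos q with hq | hq
  · subst hq
    refine ⟨0, ?_⟩
    intro α _ A H _ h2 h3
    refine ⟨∅, Finset.empty_subset _, by simp, ?_⟩
    intro E hE
    exfalso
    have h4 := h2 E hE
    rw [zero_mul, Nat.le_zero, Finset.card_eq_zero] at h4
    obtain ⟨x, hx⟩ := h3 E hE
    rw [h4, Finset.inter_empty] at hx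
    exact absurd hx (Finset.notMem_empty x)
  · obtain ⟨t, ht⟩ := exists_exp_big q (2 * m - 2) hq
    refine ⟨2 * q * t, ?_⟩
    intro α _ A H hG h2 h3
    rcases H.eq_empty_or_nonempty with hH | ⟨E0, hE0⟩
    · subst hH
      exact ⟨∅, Finset.empty_subset _, by simp, fun E hE => absurd hE (Finset.notMem_empty E)⟩
    · have hA : A.Nonempty := by
        obtain ⟨x, hx⟩ := h3 E0 hE0
        exact ⟨x, (Finset.mem_inter.mp hx).2⟩
      refine net_of_traces A hA H (2 * m - 2) q (2 * q * t) hq ?_ h2 ?_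
      · intro S hS
        exact traces_card m hm A H hG S hS
      · have e1 : 2 * q * t / (2 * q) = t := Nat.mul_div_cancel_left t (by omega)
        have e2 : 2 * (2 * q * t) + 1 = 4 * q * t + 1 := by ring
        rw [e1, e2]
        exact ht

end Pool.Agent.Helper34.PN
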