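import Mathlib

set_option autoImplicit false

/-!
Polynomial time computable functions (Mathlib's multi-stack machines) are closed under
composition.
-/

namespace Pool.Agent.Helper55

open Turing

namespace Compose

section Machine

variable (tm1 tm2 : FinTM2) (B : Type)

/-- stack alphabets of the composite machine -/
abbrev Gam : tm1.K ⊕ (tm2.K ⊕ Unit) → Type
  | .inl k => tm1.Γ k
  | .inr (.inl k) => tm2.Γ k
  | .inr (.inr _) => B

/-- labels -/
abbrev Lam : Type := tm1.Λ ⊕ (tm2.Λ ⊕ Bool)

/-- memory -/
abbrev Sig : Type := tm1.σ × tm2.σ × Option B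

/-- translation of the statements of the first machine -/
def tr1 : TM2.Stmt tm1.Γ tm1.Λ tm1.σ → TM2.Stmt (Gam tm1 tm2 B) (Lam tm1 tm2) (Sig tm1 tm2 B)
  | .push k f q => .push (.inl k) (fun v => f v.1) (tr1 q)
  | .peek k f q => .peek (.inl k) (fun v o => (f v.1 o, v.2)) (tr1 q)
  | .pop k f q => .pop (.inl k) (fun v o => (f v.1 o, v.2)) (tr1 q)
  | .load f q => .load (fun v => (f v.1, v.2)) (tr1 q)
  | .branch f q r => .branch (fun v => f v.1) (tr1 q) (tr1 r)
  | .goto l => .goto (fun v => .inl (l v.1))
  | .halt => .goto (fun _ => .inr (.inr false))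

/-- translation of the statements of the second machine -/
def tr2 : TM2.Stmt tm2.Γ tm2.Λ tm2.σ → TM2.Stmt (Gam tm1 tm2 B) (Lam tm1 tm2) (Sig tm1 tm2 B)
  | .push k f q => .push (.inr (.inl k)) (fun v => f v.2.1) (tr2 q)
  | .peek k f q => .peek (.inr (.inl k)) (fun v o => (v.1, f v.2.1 o, v.2.2)) (tr2 q)
  | .pop k f q => .pop (.inr (.inl k)) (fun v o => (v.1, f v.2.1 o, v.2.2)) (tr2 q)
  | .load f q => .load (fun v => (v.1, f v.2.1, v.2.2)) (tr2 q)
  | .branch f q r => .branch (fun v => f v.2.1) (tr2 q) (tr2 r)
  | .goto l => .goto (fun v => .inr (.inl (l v.2.1)))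
  | .halt => .halt

variable [Inhabited B] (e1 : tm1.Γ tm1.k₁ ≃ B) (e2 : tm2.Γ tm2.k₀ ≃ B)

/-- the composite program -/
def prog : Lam tm1 tm2 → TM2.Stmt (Gam tm1 tm2 B) (Lam tm1 tm2) (Sig tm1 tm2 B)
  | .inl l => tr1 tm1 tm2 B (tm1.m l)
  | .inr (.inl l) => tr2 tm1 tm2 B (tm2.m l)
  | .inr (.inr false) =>
      .pop (.inl tm1.k₁) (fun v o => (v.1, v.2.1, o.map e1))
        (.branch (fun v => v.2.2.isSome)
          (.push (.inr (.inr ())) (fun v => v.2.2.getD default) (.goto fun _ => .inr (.inr false)))
          (.goto fun _ => .inr (.inr true)))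
  | .inr (.inr true) =>
      .pop (.inr (.inr ())) (fun v o => (v.1, v.2.1, o))
        (.branch (fun v => v.2.2.isSome)
          (.push (.inr (.inl tm2.k₀)) (fun v => e2.symm (v.2.2.getD default))
            (.goto fun _ => .inr (.inr true)))
          (.goto fun _ => .inr (.inl tm2.main)))

/-- combine stacks -/
def comb (S1 : ∀ k, List (tm1.Γ k)) (S2 : ∀ k, List (tm2.Γ k)) (T : List B) :
    ∀ k, List (Gam tm1 tm2 B k)
  | .inl k => S1 k
  | .inr (.inl k) => S2 k
  | .inr (.inr _) => T

omit [Inhabited B] in
theorem comb_update1 (S1 : ∀ k, List (tm1.Γ k)) (S2 : ∀ k, List (tm2.Γ k)) (T : List B) (k : tm1.K)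
    (x : List (tm1.Γ k)) : Function.update (comb tm1 tm2 B S1 S2 T) (.inl k) x =
      comb tm1 tm2 B (Function.update S1 k x) S2 T := by
  funext j
  rcases j with j | j | j
  · by_cases h : j = k
    · subst h; simp [comb]
    · rw [Function.update_of_ne (by simpa using h)]
      simp [comb, h]
  · simp [comb]
  · simp [comb]

omit [Inhabited B] in
theorem comb_update2 (S1 : ∀ k, List (tm1.Γ k)) (S2 : ∀ k, List (tm2.Γ k)) (T : List B) (k : tm2.K)
    (x : List (tm2.Γ k)) : Function.update (comb tm1 tm2 B S1 S2 T) (.inr (.inl k)) x =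
      comb tm1 tm2 B S1 (Function.update S2 k x) T := by
  funext j
  rcases j with j | j | j
  · simp [comb]
  · by_cases h : j = k
    · subst h; simp [comb]
    · rw [Function.update_of_ne (by simpa using h)]
      simp [comb, h]
  · simp [comb]

omit [Inhabited B] in
theorem comb_update3 (S1 : ∀ k, List (tm1.Γ k)) (S2 : ∀ k, List (tm2.Γ k)) (T : List B)
    (x : List B) : Function.update (comb tm1 tm2 B S1 S2 T) (.inr (.inr ())) x =
      comb tm1 tm2 B S1 S2 x := by
  funext j
  rcases j with j | j | j
  · simp [comb]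
  · simp [comb]
  · simp [comb]

/-- embedding of the configurations of the first machine -/
def emb1 (w : tm2.σ × Option B) (S2 : ∀ k, List (tm2.Γ k)) (T : List B)
    (c : TM2.Cfg tm1.Γ tm1.Λ tm1.σ) : TM2.Cfg (Gam tm1 tm2 B) (Lam tm1 tm2) (Sig tm1 tm2 B) :=
  ⟨some (match c.l with | some l => .inl l | none => .inr (.inr false)), (c.var, w),
    comb tm1 tm2 B c.stk S2 T⟩

/-- embedding of the configurations of the second machine -/
def emb2 (w : tm1.σ) (b : Option B) (S1 : ∀ k, List (tm1.Γ k)) (T : List B)
    (c : TM2.Cfg tm2.Γ tm2.Λ tm2.σ) : TM2.Cfg (Gam tm1 tm2 B) (Lam tm1 tm2) (Sig tm1 tm2 B) :=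
  ⟨c.l.map fun l => .inr (.inl l), (w, c.var, b), comb tm1 tm2 B S1 c.stk T⟩

omit [Inhabited B] in
theorem stepAux1 (w : tm2.σ × Option B) (S2 : ∀ k, List (tm2.Γ k)) (T : List B)
    (q : TM2.Stmt tm1.Γ tm1.Λ tm1.σ) : ∀ (v : tm1.σ) (S1 : ∀ k, List (tm1.Γ k)),
    TM2.stepAux (tr1 tm1 tm2 B q) (v, w) (comb tm1 tm2 B S1 S2 T) =
      emb1 tm1 tm2 B w S2 T (TM2.stepAux q v S1) := by
  induction q with
  | push k f q ih =>
    intro v S1
    simp only [tr1, TM2.stepAux]
    rw [← ih, ← comb_update1]; rfl
  | peek k f q ih =>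
    intro v S1
    simp only [tr1, TM2.stepAux]
    rw [← ih]; rfl
  | pop k f q ih =>
    intro v S1
    simp only [tr1, TM2.stepAux]
    rw [← ih, ← comb_update1]; rfl
  | load f q ih =>
    intro v S1
    simp only [tr1, TM2.stepAux]
    rw [← ih]
  | branch f q r ih1 ih2 =>
    intro v S1
    simp only [tr1, TM2.stepAux]
    cases f v
    · exact ih2 _ _
    · exact ih1 _ _
  | goto l => intro v S1; rfl
  | halt => intro v S1; rfl

omit [Inhabited B] in
theorem stepAux2 (w : tm1.σ) (b : Option B) (S1 : ∀ k, List (tm1.Γ k)) (T : List B)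
    (q : TM2.Stmt tm2.Γ tm2.Λ tm2.σ) : ∀ (v : tm2.σ) (S2 : ∀ k, List (tm2.Γ k)),
    TM2.stepAux (tr2 tm1 tm2 B q) (w, v, b) (comb tm1 tm2 B S1 S2 T) =
      emb2 tm1 tm2 B w b S1 T (TM2.stepAux q v S2) := by
  induction q with
  | push k f q ih =>
    intro v S2
    simp only [tr2, TM2.stepAux]
    rw [← ih, ← comb_update2]; rfl
  | peek k f q ih =>
    intro v S2
    simp only [tr2, TM2.stepAux]
    rw [← ih]; rfl
  | pop k f q ih =>
    intro v S2
    simp only [tr2, TM2.stepAux]
    rw [← ih, ← comb_update2]; rfl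
  | load f q ih =>
    intro v S2
    simp only [tr2, TM2.stepAux]
    rw [← ih]
  | branch f q r ih1 ih2 =>
    intro v S2
    simp only [tr2, TM2.stepAux]
    cases f v
    · exact ih2 _ _
    · exact ih1 _ _
  | goto l => intro v S2; rfl
  | halt => intro v S2; rfl

theorem step1 (w : tm2.σ × Option B) (S2 : ∀ k, List (tm2.Γ k)) (T : List B)
    (c c' : TM2.Cfg tm1.Γ tm1.Λ tm1.σ) (h : TM2.step tm1.m c = some c') :
    TM2.step (prog tm1 tm2 B e1 e2) (emb1 tm1 tm2 B w S2 T c) =
      some (emb1 tm1 tm2 B w S2 T c') := by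
  obtain ⟨l, v, S⟩ := c
  cases l with
  | none => simp [TM2.step] at h
  | some l =>
    simp only [TM2.step, Option.some.injEq] at h
    subst h
    simp only [emb1, TM2.step]
    congr 1
    exact stepAux1 tm1 tm2 B w S2 T (tm1.m l) v S

theorem step2 (w : tm1.σ) (b : Option B) (S1 : ∀ k, List (tm1.Γ k)) (T : List B)
    (c c' : TM2.Cfg tm2.Γ tm2.Λ tm2.σ) (h : TM2.step tm2.m c = some c') :
    TM2.step (prog tm1 tm2 B e1 e2) (emb2 tm1 tm2 B w b S1 T c) =
      some (emb2 tm1 tm2 B w b S1 T c') := by
  obtain ⟨l, v, S⟩ := c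
  cases l with
  | none => simp [TM2.step] at h
  | some l =>
    simp only [TM2.step, Option.some.injEq] at h
    subst h
    exact congrArg some (stepAux2 tm1 tm2 B w b S1 T (tm2.m l) v S)

theorem iterate_none {α : Type} (f : α → Option α) (n : ℕ) :
    (flip bind f)^[n] (none : Option α) = none := by
  induction n with
  | zero => rfl
  | succ n ih => rw [Function.iterate_succ_apply]; exact ih

theorem iterate_emb {α β : Type} (f : α → Option α) (g : β → Option β) (e : α → β)
    (h : ∀ a a', f a = some a' → g (e a) = some (e a')) :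
    ∀ (n : ℕ) (a a' : α), (flip bind f)^[n] (some a) = some a' →
      (flip bind g)^[n] (some (e a)) = some (e a')
  | 0, a, a', ha => by
      simp only [Function.iterate_zero, id, Option.some.injEq] at ha ⊢
      rw [ha]
  | n + 1, a, a', ha => by
      rw [Function.iterate_succ_apply] at ha ⊢
      cases hf : f a with
      | none =>
        have : (flip bind f) (some a) = none := hf
        rw [this, iterate_none] at ha
        exact absurd ha (by simp)
      | some b =>
        have h1 : (flip bind f) (some a) = some b := hf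
        have h2 : (flip bind g) (some (e a)) = some (e b) := h _ _ hf
        rw [h1] at ha
        rw [h2]
        exact iterate_emb f g e h n b a' ha

theorem transfer1 (v : tm1.σ) (w : tm2.σ) (S2 : ∀ k, List (tm2.Γ k)) (l : List (tm1.Γ tm1.k₁)) :
    ∀ (b : Option B) (S1 : ∀ k, List (tm1.Γ k)) (_ : S1 tm1.k₁ = l) (T : List B),
    (flip bind (TM2.step (prog tm1 tm2 B e1 e2)))^[l.length + 1]
      (some ⟨some (.inr (.inr false)), (v, w, b), comb tm1 tm2 B S1 S2 T⟩) =
      some ⟨some (.inr (.inr true)), (v, w, none),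
        comb tm1 tm2 B (Function.update S1 tm1.k₁ []) S2 ((l.map e1).reverse ++ T)⟩ := by
  induction l with
  | nil =>
    intro b S1 hS T
    have hc : comb tm1 tm2 B S1 S2 T (.inl tm1.k₁) = ([] : List (tm1.Γ tm1.k₁)) := hS
    simp only [List.length_nil, zero_add, Function.iterate_one, flip, Option.bind_eq_bind,
      Option.bind_some, TM2.step, prog, TM2.stepAux, hc]
    rw [comb_update1]
    rfl
  | cons x l ih =>
    intro b S1 hS T
    have hc : comb tm1 tm2 B S1 S2 T (.inl tm1.k₁) = (x :: l : List (tm1.Γ tm1.k₁)) := hS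
    rw [List.length_cons, Function.iterate_succ_apply]
    have hstep : (flip bind (TM2.step (prog tm1 tm2 B e1 e2)))
        (some ⟨some (.inr (.inr false)), (v, w, b), comb tm1 tm2 B S1 S2 T⟩) =
        some ⟨some (.inr (.inr false)), (v, w, some (e1 x)),
          comb tm1 tm2 B (Function.update S1 tm1.k₁ l) S2 (e1 x :: T)⟩ := by
      simp only [flip, Option.bind_eq_bind,
        Option.bind_some, TM2.step, prog, TM2.stepAux, hc]
      rw [comb_update1]
      simp only [List.head?_cons, Option.map_some, Option.isSome_some, cond_true, List.tail_cons,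
        Option.getD_some]
      rw [comb_update3]
      rfl
    rw [hstep, ih _ _ (by simp)]
    simp

theorem transfer2 (v : tm1.σ) (w : tm2.σ) (S1 : ∀ k, List (tm1.Γ k)) (T : List B) :
    ∀ (b : Option B) (S2 : ∀ k, List (tm2.Γ k)),
    (flip bind (TM2.step (prog tm1 tm2 B e1 e2)))^[T.length + 1]
      (some ⟨some (.inr (.inr true)), (v, w, b), comb tm1 tm2 B S1 S2 T⟩) =
      some ⟨some (.inr (.inl tm2.main)), (v, w, none),
        comb tm1 tm2 B S1 (Function.update S2 tm2.k₀ ((T.map e2.symm).reverse ++ S2 tm2.k₀)) []⟩ := by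
  induction T with
  | nil =>
    intro b S2
    have hc : comb tm1 tm2 B S1 S2 [] (.inr (.inr ())) = ([] : List B) := rfl
    simp only [List.length_nil, zero_add, Function.iterate_one, flip, Option.bind_eq_bind,
      Option.bind_some, TM2.step, prog, TM2.stepAux, hc]
    rw [comb_update3]
    simp
  | cons x l ih =>
    intro b S2
    have hc : comb tm1 tm2 B S1 S2 (x :: l) (.inr (.inr ())) = (x :: l : List B) := rfl
    rw [List.length_cons, Function.iterate_succ_apply]
    have hstep : (flip bind (TM2.step (prog tm1 tm2 B e1 e2)))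
        (some ⟨some (.inr (.inr true)), (v, w, b), comb tm1 tm2 B S1 S2 (x :: l)⟩) =
        some ⟨some (.inr (.inr true)), (v, w, some x),
          comb tm1 tm2 B S1 (Function.update S2 tm2.k₀ (e2.symm x :: S2 tm2.k₀)) l⟩ := by
      simp only [flip, Option.bind_eq_bind,
        Option.bind_some, TM2.step, prog, TM2.stepAux, hc]
      rw [comb_update3]
      simp only [List.head?_cons, Option.isSome_some, cond_true, List.tail_cons,
        Option.getD_some]
      rw [comb_update2]
      rfl
    rw [hstep, ih]
    simp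

/-- the composite machine -/
def comp [Fintype B] : FinTM2 :=
  { K := tm1.K ⊕ (tm2.K ⊕ Unit)
    kDecidableEq := inferInstance
    kFin := by
      have := tm1.kFin
      have := tm2.kFin
      exact inferInstance
    k₀ := .inl tm1.k₀
    k₁ := .inr (.inl tm2.k₁)
    Γ := Gam tm1 tm2 B
    Λ := Lam tm1 tm2
    main := .inl tm1.main
    ΛFin := by
      have := tm1.ΛFin
      have := tm2.ΛFin
      exact inferInstance
    σ := Sig tm1 tm2 B
    initialState := (tm1.initialState, tm2.initialState, none)
    σFin := by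
      have := tm1.σFin
      have := tm2.σFin
      exact inferInstance
    Γk₀Fin := tm1.Γk₀Fin
    m := prog tm1 tm2 B e1 e2 }

theorem dite_update {K : Type} [DecidableEq K] {Γ : K → Type} (k₀ : K) (l : List (Γ k₀)) (k : K) :
    (@dite (List (Γ k)) (k = k₀) _ (fun h => by rw [h]; exact l) fun _ => []) =
      Function.update (fun _ => []) k₀ l k := by
  by_cases h : k = k₀
  · subst h; simp
  · simp [h]

theorem initList_eq (tm : FinTM2) (l : List (tm.Γ tm.k₀)) : initList tm l =
    ⟨some tm.main, tm.initialState, Function.update (fun _ => []) tm.k₀ l⟩ := by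
  unfold initList
  congr 1
  funext k
  exact dite_update tm.k₀ l k

theorem haltList_eq (tm : FinTM2) (l : List (tm.Γ tm.k₁)) : haltList tm l =
    ⟨none, tm.initialState, Function.update (fun _ => []) tm.k₁ l⟩ := by
  unfold haltList
  congr 1
  funext k
  exact dite_update tm.k₁ l k

omit [Inhabited B] in
theorem comb_nil : comb tm1 tm2 B (fun _ => []) (fun _ => []) [] = fun _ => [] := by
  funext k
  rcases k with k | k | k <;> rfl

theorem comp_run [Fintype B] (l : List (tm1.Γ tm1.k₀)) (mid : List (tm1.Γ tm1.k₁))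
    (out : List (tm2.Γ tm2.k₁)) (n1 n2 : ℕ)
    (h1 : (flip bind tm1.step)^[n1] (some (initList tm1 l)) = some (haltList tm1 mid))
    (h2 : (flip bind tm2.step)^[n2] (some (initList tm2 ((mid.map e1).map e2.symm))) =
      some (haltList tm2 out)) :
    (flip bind (comp tm1 tm2 B e1 e2).step)^[n2 + ((mid.length + 1) + ((mid.length + 1) + n1))]
      (some (initList (comp tm1 tm2 B e1 e2) l)) = some (haltList (comp tm1 tm2 B e1 e2) out) := by
  have hi : initList (comp tm1 tm2 B e1 e2) l =
      emb1 tm1 tm2 B (tm2.initialState, none) (fun _ => []) [] (initList tm1 l) := by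
    refine (initList_eq (comp tm1 tm2 B e1 e2) l).trans ?_
    rw [initList_eq tm1, emb1]
    simp only
    rw [← comb_update1, comb_nil]
    rfl
  have ha : emb1 tm1 tm2 B (tm2.initialState, none) (fun _ => []) [] (haltList tm1 mid) =
      ⟨some (.inr (.inr false)), (tm1.initialState, tm2.initialState, none),
        comb tm1 tm2 B (Function.update (fun _ => []) tm1.k₁ mid) (fun _ => []) []⟩ := by
    rw [haltList_eq, emb1]
  have hb : (⟨some (.inr (.inl tm2.main)), (tm1.initialState, tm2.initialState, none),
        comb tm1 tm2 B (fun _ => []) (Function.update (fun _ => []) tm2.k₀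
          ((mid.map e1).map e2.symm)) []⟩ :
          TM2.Cfg (Gam tm1 tm2 B) (Lam tm1 tm2) (Sig tm1 tm2 B)) =
      emb2 tm1 tm2 B tm1.initialState none (fun _ => []) []
        (initList tm2 ((mid.map e1).map e2.symm)) := by
    rw [initList_eq, emb2]
    rfl
  have hc : emb2 tm1 tm2 B tm1.initialState none (fun _ => []) [] (haltList tm2 out) =
      haltList (comp tm1 tm2 B e1 e2) out := by
    refine Eq.trans ?_ (haltList_eq (comp tm1 tm2 B e1 e2) out).symm
    rw [haltList_eq tm2, emb2]
    simp only
    rw [← comb_update2, comb_nil]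
    rfl
  have hr1 := iterate_emb tm1.step (TM2.step (prog tm1 tm2 B e1 e2))
    (emb1 tm1 tm2 B (tm2.initialState, none) (fun _ => []) [])
    (fun a a' h => step1 tm1 tm2 B e1 e2 _ _ _ a a' h) n1 _ _ h1
  have hr2 := iterate_emb tm2.step (TM2.step (prog tm1 tm2 B e1 e2))
    (emb2 tm1 tm2 B tm1.initialState none (fun _ => []) [])
    (fun a a' h => step2 tm1 tm2 B e1 e2 _ _ _ _ a a' h) n2 _ _ h2
  have ht1 := transfer1 tm1 tm2 B e1 e2 tm1.initialState tm2.initialState (fun _ => []) mid none
    (Function.update (fun _ => []) tm1.k₁ mid) (by simp) []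
  have ht2 := transfer2 tm1 tm2 B e1 e2 tm1.initialState tm2.initialState (fun _ => [])
    ((mid.map e1).reverse ++ []) none (fun _ => [])
  rw [Function.iterate_add_apply _ n2, Function.iterate_add_apply _ (mid.length + 1),
    Function.iterate_add_apply _ (mid.length + 1)]
  change (flip bind (TM2.step (prog tm1 tm2 B e1 e2)))^[n2]
    ((flip bind (TM2.step (prog tm1 tm2 B e1 e2)))^[mid.length + 1]
    ((flip bind (TM2.step (prog tm1 tm2 B e1 e2)))^[mid.length + 1]
    ((flip bind (TM2.step (prog tm1 tm2 B e1 e2)))^[n1] (some (initList (comp tm1 tm2 B e1 e2) l)))))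
     = _
  rw [hi, hr1, ha, ht1]
  have hl : ((mid.map e1).reverse ++ []).length = mid.length := by simp
  rw [hl] at ht2
  have hu : Function.update (Function.update (fun _ => []) tm1.k₁ mid) tm1.k₁ [] =
      (fun _ => [] : ∀ k, List (tm1.Γ k)) := by
    funext k
    by_cases h : k = tm1.k₁
    · subst h; simp
    · simp [h]
  rw [hu, ht2]
  have hv : (List.map (⇑e2.symm) ((mid.map e1).reverse ++ [])).reverse ++ [] =
      (mid.map e1).map e2.symm := by simp
  rw [hv, hb, hr2, hc]
  rfl

/-- number of pushes in a statement -/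
def pushes {K : Type} {Γ : K → Type} {Λ σ : Type} : TM2.Stmt Γ Λ σ → ℕ
  | .push _ _ q => pushes q + 1
  | .peek _ _ q => pushes q
  | .pop _ _ q => pushes q
  | .load _ q => pushes q
  | .branch _ q r => pushes q + pushes r
  | .goto _ => 0
  | .halt => 0

theorem length_stepAux {K : Type} [DecidableEq K] {Γ : K → Type} {Λ σ : Type}
    (q : TM2.Stmt Γ Λ σ) : ∀ (v : σ) (S : ∀ k, List (Γ k)) (k : K),
    ((TM2.stepAux q v S).stk k).length ≤ (S k).length + pushes q := by
  induction q with
  | push j f q ih =>
    intro v S k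
    refine (ih _ _ k).trans ?_
    by_cases h : k = j
    · subst h
      simp only [pushes, Function.update_self, List.length_cons]
      omega
    · simp only [pushes, Function.update_of_ne h]
      omega
  | peek j f q ih => intro v S k; exact ih _ _ k
  | pop j f q ih =>
    intro v S k
    refine (ih _ _ k).trans ?_
    by_cases h : k = j
    · subst h; simp [pushes]
    · simp [h, pushes]
  | load f q ih => intro v S k; exact ih _ _ k
  | branch f q r ih1 ih2 =>
    intro v S k
    simp only [TM2.stepAux, pushes]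
    cases f v
    · have := ih2 v S k; simp only [cond_false]; omega
    · have := ih1 v S k; simp only [cond_true]; omega
  | goto l => intro v S k; simp [pushes]
  | halt => intro v S k; simp [pushes]

theorem length_bound {K : Type} [DecidableEq K] {Γ : K → Type} {Λ σ : Type}
    (m : Λ → TM2.Stmt Γ Λ σ) (c : ℕ) (hc : ∀ l, pushes (m l) ≤ c) (k : K) :
    ∀ (n : ℕ) (a b : TM2.Cfg Γ Λ σ), (flip bind (TM2.step m))^[n] (some a) = some b →
      (b.stk k).length ≤ (a.stk k).length + c * n
  | 0, a, b, h => by
      simp only [Function.iterate_zero, id, Option.some.injEq] at h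
      rw [h]; omega
  | n + 1, a, b, h => by
      rw [Function.iterate_succ_apply] at h
      cases hf : TM2.step m a with
      | none =>
        have : (flip bind (TM2.step m)) (some a) = none := hf
        rw [this, iterate_none] at h
        exact absurd h (by simp)
      | some a' =>
        have h1 : (flip bind (TM2.step m)) (some a) = some a' := hf
        rw [h1] at h
        have ih := length_bound m c hc k n a' b h
        obtain ⟨l, v, S⟩ := a
        cases l with
        | none => simp [TM2.step] at hf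
        | some l =>
          simp only [TM2.step, Option.some.injEq] at hf
          have h2 := length_stepAux (m l) v S k
          rw [hf] at h2
          have h3 := hc l
          have : c * (n + 1) = c * n + c := by ring
          simp only
          omega

theorem eval_mono (p : Polynomial ℕ) {a b : ℕ} (h : a ≤ b) : p.eval a ≤ p.eval b := by
  rw [Polynomial.eval_eq_sum, Polynomial.eval_eq_sum]
  unfold Polynomial.sum
  exact Finset.sum_le_sum fun i _ => Nat.mul_le_mul_left _ (Nat.pow_le_pow_left h i)

end Machine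

theorem comp_polytime {α β γ αΓ βΓ γΓ : Type} [Inhabited βΓ] {eα : α → List αΓ} {eβ : β → List βΓ}
    {eγ : γ → List γΓ} {f : α → β} {g : β → γ} (h1 : TM2ComputableInPolyTime eα eβ f)
    (h2 : TM2ComputableInPolyTime eβ eγ g) :
    Nonempty (TM2ComputableInPolyTime eα eγ (g ∘ f)) := by
  classical
  have hΛ := h1.tm.ΛFin
  have : Fintype βΓ := @Fintype.ofEquiv _ _ h2.tm.Γk₀Fin h2.inputAlphabet
  obtain ⟨c, hc⟩ : ∃ c, ∀ l, pushes (h1.tm.m l) ≤ c :=
    ⟨∑ l, pushes (h1.tm.m l), fun l => Finset.single_le_sum (f := fun l => pushes (h1.tm.m l))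
      (fun _ _ => Nat.zero_le _) (Finset.mem_univ l)⟩
  have hout : ∀ a, (eβ (f a)).length ≤ (Polynomial.X + Polynomial.C c * h1.time).eval (eα a).length := by
    intro a
    have hrun := (h1.outputsFun a).evals_in_steps
    have hs := (h1.outputsFun a).steps_le_m
    generalize (h1.outputsFun a).steps = n at hrun hs
    have hb := length_bound h1.tm.m c hc h1.tm.k₁ _ _ _ hrun
    rw [initList_eq, haltList_eq] at hb
    simp only [Function.update_self, List.length_map] at hb
    have h3 : (Function.update (fun _ => []) h1.tm.k₀ (List.map h1.inputAlphabet.invFun (eα a))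
        h1.tm.k₁).length ≤ (eα a).length := by
      by_cases h : h1.tm.k₁ = h1.tm.k₀
      · rw [← List.length_map (f := h1.inputAlphabet.invFun)]
        generalize List.map h1.inputAlphabet.invFun (eα a) = l
        revert l
        rw [← h]
        intro l
        simp
      · simp [h]
    have h4 : c * n ≤ c * h1.time.eval (eα a).length :=
      Nat.mul_le_mul_left _ hs
    simp only [Polynomial.eval_add, Polynomial.eval_X, Polynomial.eval_mul, Polynomial.eval_C]
    omega
  refine ⟨{
    tm := comp h1.tm h2.tm βΓ h1.outputAlphabet h2.inputAlphabet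
    inputAlphabet := h1.inputAlphabet
    outputAlphabet := h2.outputAlphabet
    time := h1.time + 2 * (Polynomial.X + Polynomial.C c * h1.time + 1) +
      h2.time.comp (Polynomial.X + Polynomial.C c * h1.time)
    outputsFun := fun a => ?_ }⟩
  have hr1 := (h1.outputsFun a).evals_in_steps
  have hr2 := (h2.outputsFun (f a)).evals_in_steps
  have hs1 := (h1.outputsFun a).steps_le_m
  have hs2 := (h2.outputsFun (f a)).steps_le_m
  have hm : List.map h2.inputAlphabet.symm (List.map h1.outputAlphabet
      (List.map h1.outputAlphabet.invFun (eβ (f a)))) =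
      List.map h2.inputAlphabet.invFun (eβ (f a)) := by
    have : List.map h1.outputAlphabet (List.map h1.outputAlphabet.invFun (eβ (f a))) = eβ (f a) := by
      rw [List.map_map]
      have : (⇑h1.outputAlphabet ∘ h1.outputAlphabet.invFun) = id := by
        funext x; exact h1.outputAlphabet.apply_symm_apply x
      rw [this, List.map_id]
    rw [this]; rfl
  have hrun := comp_run h1.tm h2.tm βΓ h1.outputAlphabet h2.inputAlphabet _ _ _ _ _ hr1
    (by rw [hm]; exact hr2)
  refine ⟨⟨_, hrun⟩, ?_⟩
  have h5 := hout a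
  have h6 := eval_mono h2.time h5
  simp only [List.length_map, Polynomial.eval_add, Polynomial.eval_mul, Polynomial.eval_X,
    Polynomial.eval_C, Polynomial.eval_comp, Polynomial.eval_one, Polynomial.eval_ofNat] at *
  omega

end Compose

end Pool.Agent.Helper55
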