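import Pool.Agent.Helper55.Layers

set_option autoImplicit false

/-!
Completeness of the first and second layers.
-/

namespace Pool.Agent.Helper55

def ACon.names {N : Type} : ACon N → List N
  | .add x y z => [x, y, z]
  | .mul x y z => [x, y, z]
  | .one x y => [x, y]

def SCon.names {N : Type} : SCon N → List N
  | .add x y z => [x, y, z]
  | .mul x y z => [x, y, z]
  | .one x => [x]

def PCon.names {N : Type} : PCon N → List N
  | .col x y z => [x, y, z]
  | .non x y z => [x, y, z]

/-- satisfaction of a condition on points -/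
def PCon.Sat {N : Type} (p : N → V3) : PCon N → Prop
  | .col x y z => det3 (p x) (p y) (p z) = 0
  | .non x y z => det3 (p x) (p y) (p z) ≠ 0

/-- a list of tagged items with different tags is a partial function -/
theorem exists_lookup {T C : Type} (L : List (T × C)) (h : (L.map Prod.fst).Nodup) :
    ∃ g : T → Option C, ∀ x ∈ L, g x.1 = some x.2 := by
  classical
  refine ⟨fun t => if h : ∃ x ∈ L, x.1 = t then some h.choose.2 else none, fun x hx => ?_⟩
  have hex : ∃ y ∈ L, y.1 = x.1 := ⟨x, hx, rfl⟩
  simp only [dif_pos hex]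
  have h1 := hex.choose_spec
  have h2 : hex.choose = x := by
    have := List.inj_on_of_nodup_map h h1.1 hx h1.2
    exact this
  rw [h2]

theorem exists_bound {N : Type} (v : N → ℝ) (l : List N) : ∃ B, ∀ n ∈ l, |v n| ≤ B := by
  obtain ⟨B, hB⟩ := ((List.finite_toSet l).image fun n => |v n|).bddAbove
  exact ⟨B, fun n hn => hB ⟨n, hn, rfl⟩⟩

/-- the values of the second system -/
noncomputable def val1 {N T : Type} (g : T → Option (SCon N)) (v : N → ℝ) (τ : ℝ) : AN N T → ℝ
  | .s n => v n + τ
  | .tt => τ
  | .t2 => τ * τ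
  | .g => τ * τ + τ
  | .f t r => match g t with
    | some (.add x y _) => (v x + τ) + (v y + τ)
    | some (.mul x y _) => match r with
      | 0 => (v x + τ) * (v y + τ)
      | 1 => (v x + τ) * (v y + τ) + (τ * τ + τ)
      | 2 => (v x + τ) + (v y + τ)
      | _ => τ * ((v x + τ) + (v y + τ))
    | _ => 0

theorem complete1 {N T : Type} (L : List (T × SCon N)) (hnd : (L.map Prod.fst).Nodup)
    (v : N → ℝ) (hv : ∀ x ∈ L, x.2.Holds v) :
    ∃ w : AN N T → ℝ, ∀ x ∈ lay1 L, x.2.Holds w ∧ ∀ n ∈ x.2.names, 1 < w n := by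
  obtain ⟨g, hg⟩ := exists_lookup L hnd
  obtain ⟨B, hB⟩ := exists_bound v (L.flatMap fun x => x.2.names)
  set τ : ℝ := max B 0 + 2 with hτ
  have hτ2 : 2 ≤ τ := by have := le_max_right B 0; linarith
  have hlow : ∀ x ∈ L, ∀ n ∈ x.2.names, 2 ≤ v n + τ := by
    intro x hx n hn
    have h1 := hB n (List.mem_flatMap.mpr ⟨x, hx, hn⟩)
    have h2 := le_max_left B 0
    have h3 := (abs_le.mp h1).1
    linarith
  refine ⟨val1 g v τ, fun x hx => ?_⟩
  rcases List.mem_append.mp hx with hx | hx
  · have := mem_of_mem_tag hx
    simp only [glob1, List.mem_cons, List.not_mem_nil, or_false] at this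
    rcases this with h | h
    · rw [h]
      refine ⟨rfl, ?_⟩
      simp only [ACon.names, List.mem_cons, List.not_mem_nil, or_false, forall_eq_or_imp,
        forall_eq, val1]
      refine ⟨by linarith, by linarith, by nlinarith⟩
    · rw [h]
      refine ⟨rfl, ?_⟩
      simp only [ACon.names, List.mem_cons, List.not_mem_nil, or_false, forall_eq_or_imp,
        forall_eq, val1]
      refine ⟨by nlinarith, by linarith, by nlinarith⟩
  · obtain ⟨y, hy, hxy⟩ := List.mem_flatMap.mp hx
    have hc := mem_of_mem_tag hxy
    have hgy := hg y hy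
    have hvy := hv y hy
    have hly := hlow y hy
    obtain ⟨t, c⟩ := y
    cases c with
    | add a b c =>
      simp only [SCon.Holds] at hvy
      simp only [SCon.names, List.mem_cons, List.not_mem_nil, or_false, forall_eq_or_imp,
        forall_eq] at hly
      obtain ⟨l1, l2, l3⟩ := hly
      simp only [expand1, List.mem_cons, List.not_mem_nil, or_false] at hc
      rcases hc with h | h <;> rw [h] <;>
        simp only [ACon.Holds, ACon.names, List.mem_cons, List.not_mem_nil, or_false,
          forall_eq_or_imp, forall_eq, val1, hgy]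
      · refine ⟨trivial, by linarith, by linarith, by linarith⟩
      · refine ⟨by linarith, by linarith, by linarith, by linarith⟩
    | mul a b c =>
      simp only [SCon.Holds] at hvy
      simp only [SCon.names, List.mem_cons, List.not_mem_nil, or_false, forall_eq_or_imp,
        forall_eq] at hly
      obtain ⟨l1, l2, l3⟩ := hly
      simp only [expand1, List.mem_cons, List.not_mem_nil, or_false] at hc
      rcases hc with h | h | h | h | h <;> rw [h] <;>
        simp only [ACon.Holds, ACon.names, List.mem_cons, List.not_mem_nil, or_false,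
          forall_eq_or_imp, forall_eq, val1, hgy]
      · refine ⟨trivial, by linarith, by linarith, by nlinarith⟩
      · refine ⟨trivial, by nlinarith, by nlinarith, by nlinarith⟩
      · refine ⟨trivial, by linarith, by linarith, by linarith⟩
      · refine ⟨trivial, by linarith, by linarith, by nlinarith⟩
      · refine ⟨by linear_combination -hvy, by linarith, by nlinarith, by nlinarith⟩
    | one a =>
      simp only [SCon.Holds] at hvy
      simp only [SCon.names, List.mem_cons, List.not_mem_nil, or_false, forall_eq] at hly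
      simp only [expand1, List.mem_cons, List.not_mem_nil, or_false] at hc
      rw [hc]
      simp only [ACon.Holds, ACon.names, List.mem_cons, List.not_mem_nil, or_false,
          forall_eq_or_imp, forall_eq, val1]
      refine ⟨by linarith, by linarith, by linarith⟩

/-! ### second layer -/

theorem par_of_crs {a s : V3} (h : crs a s = 0) (hs : s ≠ 0) : ∃ x : ℝ, a = x • s := by
  have hn := dot_self_ne hs
  refine ⟨dot a s / dot s s, ?_⟩
  obtain ⟨a1, a2, a3⟩ := a
  obtain ⟨s1, s2, s3⟩ := s
  simp only [crs, Prod.mk_eq_zero] at h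
  obtain ⟨h1, h2, h3⟩ := h
  simp only [dot] at hn ⊢
  simp only [Prod.smul_mk, smul_eq_mul, Prod.mk.injEq]
  refine ⟨?_, ?_, ?_⟩
  · rw [div_mul_eq_mul_div, eq_div_iff hn]
    linear_combination s2 * h3 - s3 * h2
  · rw [div_mul_eq_mul_div, eq_div_iff hn]
    linear_combination s3 * h1 - s1 * h3
  · rw [div_mul_eq_mul_div, eq_div_iff hn]
    linear_combination s1 * h2 - s2 * h1

theorem crs_add_smul (a b s : V3) (t : ℝ) : crs (a + t • b) s = crs a s + t • crs b s := by
  obtain ⟨a1, a2, a3⟩ := a
  obtain ⟨b1, b2, b3⟩ := b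
  obtain ⟨s1, s2, s3⟩ := s
  simp only [crs, Prod.smul_mk, smul_eq_mul, Prod.mk_add_mk, Prod.mk.injEq]
  refine ⟨by ring, by ring, by ring⟩

theorem crs_smul_smul (s : V3) (x y : ℝ) : crs (x • s) (y • s) = 0 := by
  obtain ⟨s1, s2, s3⟩ := s
  simp only [crs, Prod.smul_mk, smul_eq_mul, Prod.mk_eq_zero]
  refine ⟨by ring, by ring, by ring⟩

theorem eventually_np {a b s : V3} (h : NP a b) (hs : s ≠ 0) :
    ∀ᶠ t : ℝ in Filter.cofinite, NP (a + t • b) s := by
  rw [Filter.eventually_cofinite]
  apply Set.Subsingleton.finite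
  intro t ht t' ht'
  simp only [NP, not_not, Set.mem_ofPred_eq, crs_add_smul] at ht ht'
  by_contra hne
  have h1 : (t - t') • crs b s = 0 := by
    have : (t - t') • crs b s = (crs a s + t • crs b s) - (crs a s + t' • crs b s) := by module
    rw [this, ht, ht', sub_zero]
  have h2 : crs b s = 0 := (smul_eq_zero.mp h1).resolve_left (sub_ne_zero.mpr hne)
  have h3 : crs a s = 0 := by rw [h2, smul_zero, add_zero] at ht; exact ht
  obtain ⟨x, rfl⟩ := par_of_crs h2 hs
  obtain ⟨y, rfl⟩ := par_of_crs h3 hs
  exact h (crs_smul_smul s y x)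

theorem eventually_ne_const (c : ℝ) : ∀ᶠ t : ℝ in Filter.cofinite, t ≠ c :=
  (Set.finite_singleton c).eventually_cofinite_notMem

theorem np_of_first {a b : V3} (h : a.2.1 * b.2.2 - a.2.2 * b.2.1 ≠ 0) : NP a b := by
  intro h0
  simp only [crs, Prod.mk_eq_zero] at h0
  exact h h0.1

theorem np_of_second {a b : V3} (h : a.2.2 * b.1 - a.1 * b.2.2 ≠ 0) : NP a b := by
  intro h0
  simp only [crs, Prod.mk_eq_zero] at h0
  exact h h0.2.1

theorem np_of_third {a b : V3} (h : a.1 * b.2.1 - a.2.1 * b.1 ≠ 0) : NP a b := by
  intro h0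
  simp only [crs, Prod.mk_eq_zero] at h0
  exact h h0.2.2

/-- the placement of all points -/
def pl {N T : Type} (H : N → V3) (q : T → ℕ → V3) : PN N T → V3
  | .O => (0, 0, 1)
  | .D => (1, 0, 0)
  | .M => (0, 1, 0)
  | .E => (0, 1, 1)
  | .h n => H n
  | .f t r => q t r

/-- the five new points of a gadget -/
def five (a b c d e : V3) : ℕ → V3
  | 0 => a
  | 1 => b
  | 2 => c
  | 3 => d
  | _ => e

theorem gadget_add {N T : Type} (H : N → V3) (S : Set V3) (hS : S.Finite) (h0 : ∀ s ∈ S, s ≠ 0)
    (a b c : PN N T) (t : T) {ca cb cc u v : ℝ} (hu : 0 < u) (hv : 0 < v)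
    (ha : ∀ q, pl H q a = (ca, u, 1)) (hb : ∀ q, pl H q b = (cb, v, 1))
    (hc : ∀ q, pl H q c = (cc, u + v, 1)) :
    ∃ Q : ℕ → V3, (∀ q : T → ℕ → V3, q t = Q → ∀ x ∈ addlike t a b c, x.Sat (pl H q)) ∧
      (∀ r < 5, ∀ s ∈ S, NP (Q r) s) ∧ (∀ r < 5, ∀ r' < 5, r ≠ r' → NP (Q r) (Q r')) := by
  have e1 : ∀ᶠ α : ℝ in Filter.cofinite, ∀ s ∈ S,
      NP (((0, u, 1) : V3) + α • (1, 0, 0)) s ∧ NP (((0, u, 0) : V3) + α • (1, 0, 0)) s := by
    rw [Filter.eventually_all_finite hS]
    intro s hs
    refine (eventually_np ?_ (h0 s hs)).and (eventually_np ?_ (h0 s hs))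
    · exact np_of_second (by simp)
    · exact np_of_third (by simp [hu.ne'])
  obtain ⟨α, hα⟩ := e1.exists
  set Q0 : V3 := (0, u, 1) + α • (1, 0, 0) with hQ0
  set Q3 : V3 := (0, u, 0) + α • (1, 0, 0) with hQ3
  have q0 : Q0 = (α, u, 1) := by simp [hQ0]
  have q3 : Q3 = (α, u, 0) := by simp [hQ3]
  have hS' : (insert Q0 (insert Q3 S)).Finite := (hS.insert _).insert _
  have h0' : ∀ s ∈ insert Q0 (insert Q3 S), s ≠ 0 := by
    intro s hs
    rcases hs with rfl | rfl | hs
    · rw [q0]; simp
    · rw [q3]; simp [hu.ne']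
    · exact h0 s hs
  have e2 : ∀ᶠ β : ℝ in Filter.cofinite, (∀ s ∈ insert Q0 (insert Q3 S),
      NP (((0, v, 1) : V3) + β • (1, 0, 0)) s ∧ NP (((0, v, 0) : V3) + β • (1, 0, 0)) s ∧
      NP (((α, u + v, 1) : V3) + β • (1, 0, 0)) s) ∧ β ≠ α * v / u := by
    refine Filter.Eventually.and ?_ (eventually_ne_const _)
    rw [Filter.eventually_all_finite hS']
    intro s hs
    refine (eventually_np ?_ (h0' s hs)).and ((eventually_np ?_ (h0' s hs)).and
      (eventually_np ?_ (h0' s hs)))
    · exact np_of_second (by simp)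
    · exact np_of_third (by simp [hv.ne'])
    · exact np_of_second (by simp)
  obtain ⟨β, hβ, hβ2⟩ := e2.exists
  set Q1 : V3 := (0, v, 1) + β • (1, 0, 0) with hQ1
  set Q4 : V3 := (0, v, 0) + β • (1, 0, 0) with hQ4
  set Q2 : V3 := (α, u + v, 1) + β • (1, 0, 0) with hQ2
  have q1 : Q1 = (β, v, 1) := by simp [hQ1]
  have q4 : Q4 = (β, v, 0) := by simp [hQ4]
  have q2 : Q2 = (α + β, u + v, 1) := by simp [hQ2]
  refine ⟨five Q0 Q1 Q2 Q3 Q4, ?_, ?_, ?_⟩
  · intro q hq x hx
    have hf : ∀ r, pl H q (PN.f t r : PN N T) = five Q0 Q1 Q2 Q3 Q4 r := by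
      intro r; rw [← hq]; rfl
    simp only [addlike, List.mem_cons, List.not_mem_nil, or_false] at hx
    have dO : pl H q (PN.O : PN N T) = (0, 0, 1) := rfl
    have dD : pl H q (PN.D : PN N T) = (1, 0, 0) := rfl
    have dM : pl H q (PN.M : PN N T) = (0, 1, 0) := rfl
    rcases hx with rfl | rfl | rfl | rfl | rfl | rfl | rfl | rfl | rfl | rfl | rfl | rfl <;>
      simp only [PCon.Sat, ha, hb, hc, hf, five, dO, dD, dM, q0, q1, q2, q3, q4, det3, dot, crs] <;>
      try ring_nf
    · simp
    · simp
    · rw [ne_eq]
      intro h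
      apply hβ2
      field_simp
      linarith
  · intro r hr s hs
    have a1 := hα s hs
    have a2 := hβ s (Set.mem_insert_of_mem _ (Set.mem_insert_of_mem _ hs))
    interval_cases r
    · exact a1.1
    · exact a2.1
    · exact a2.2.2
    · exact a1.2
    · exact a2.2.1
  · have b0 := hβ Q0 (Set.mem_insert _ _)
    have b3 := hβ Q3 (Set.mem_insert_of_mem _ (Set.mem_insert _ _))
    have n03 : NP Q0 Q3 := np_of_first (by simp [q0, q3, hu.ne'])
    have n12 : NP Q1 Q2 := np_of_first (by simp [q1, q2, hu.ne'])
    have n14 : NP Q1 Q4 := np_of_first (by simp [q1, q4, hv.ne'])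
    have n24 : NP Q2 Q4 := np_of_first (by simp [q2, q4, hv.ne'])
    intro r hr r' hr' hne
    interval_cases r <;> interval_cases r' <;> first
      | exact absurd rfl hne
      | exact n03
      | exact n12
      | exact n14
      | exact n24
      | exact n03.symm
      | exact n12.symm
      | exact n14.symm
      | exact n24.symm
      | exact b0.1
      | exact b0.2.1
      | exact b0.2.2
      | exact b3.1
      | exact b3.2.1
      | exact b3.2.2
      | exact b0.1.symm
      | exact b0.2.1.symm
      | exact b0.2.2.symm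
      | exact b3.1.symm
      | exact b3.2.1.symm
      | exact b3.2.2.symm

theorem gadget_mul {N T : Type} (H : N → V3) (S : Set V3) (hS : S.Finite) (h0 : ∀ s ∈ S, s ≠ 0)
    (a b c : N) (t : T) {ca cb cc u v : ℝ} (hu : 1 < u) (hv : 1 < v)
    (ha : H a = (ca, u, 1)) (hb : H b = (cb, v, 1)) (hc : H c = (cc, u * v, 1)) :
    ∃ Q : ℕ → V3, (∀ q : T → ℕ → V3, q t = Q → ∀ x ∈ expand2 t (.mul a b c), x.Sat (pl H q)) ∧
      (∀ r < 5, ∀ s ∈ S, NP (Q r) s) ∧ (∀ r < 5, ∀ r' < 5, r ≠ r' → NP (Q r) (Q r')) := by
  have hu0 : u ≠ 0 := by linarith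
  have hv0 : v ≠ 0 := by linarith
  have hv1 : 1 - v ≠ 0 := by linarith
  have hu1 : u - 1 ≠ 0 := by linarith
  have e1 : ∀ᶠ α : ℝ in Filter.cofinite, ∀ s ∈ S,
      NP (((0, u, 1) : V3) + α • (1, 0, 0)) s ∧ NP (((0, 1, 1) : V3) + α • (u⁻¹, 0, 0)) s := by
    rw [Filter.eventually_all_finite hS]
    intro s hs
    refine (eventually_np ?_ (h0 s hs)).and (eventually_np ?_ (h0 s hs))
    · exact np_of_second (by simp)
    · exact np_of_second (by simp [hu0])
  obtain ⟨α, hα⟩ := e1.exists
  set Q0 : V3 := (0, u, 1) + α • (1, 0, 0) with hQ0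
  set Q3 : V3 := (0, 1, 1) + α • (u⁻¹, 0, 0) with hQ3
  have q0 : Q0 = (α, u, 1) := by simp [hQ0]
  have q3 : Q3 = (α * u⁻¹, 1, 1) := by simp [hQ3]
  have hS' : (insert Q0 (insert Q3 S)).Finite := (hS.insert _).insert _
  have h0' : ∀ s ∈ insert Q0 (insert Q3 S), s ≠ 0 := by
    intro s hs
    rcases hs with rfl | rfl | hs
    · rw [q0]; simp
    · rw [q3]; simp
    · exact h0 s hs
  have e2 : ∀ᶠ β : ℝ in Filter.cofinite, (∀ s ∈ insert Q0 (insert Q3 S),
      NP (((0, v, 1) : V3) + β • (1, 0, 0)) s ∧ NP (((0, u * v, 1) : V3) + β • (u, 0, 0)) s ∧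
      NP (((α * u⁻¹, 1 - v, 0) : V3) + β • (-1, 0, 0)) s) ∧ β ≠ α * v / u := by
    refine Filter.Eventually.and ?_ (eventually_ne_const _)
    rw [Filter.eventually_all_finite hS']
    intro s hs
    refine (eventually_np ?_ (h0' s hs)).and ((eventually_np ?_ (h0' s hs)).and
      (eventually_np ?_ (h0' s hs)))
    · exact np_of_second (by simp)
    · exact np_of_second (by simp [hu0])
    · exact np_of_third (by simp [hv1])
  obtain ⟨β, hβ, hβ2⟩ := e2.exists
  set Q1 : V3 := (0, v, 1) + β • (1, 0, 0) with hQ1
  set Q2 : V3 := (0, u * v, 1) + β • (u, 0, 0) with hQ2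
  set Q4 : V3 := (α * u⁻¹, 1 - v, 0) + β • (-1, 0, 0) with hQ4
  have q1 : Q1 = (β, v, 1) := by simp [hQ1]
  have q2 : Q2 = (β * u, u * v, 1) := by simp [hQ2]
  have q4 : Q4 = (α * u⁻¹ - β, 1 - v, 0) := by simp [hQ4, sub_eq_add_neg]
  refine ⟨five Q0 Q1 Q2 Q3 Q4, ?_, ?_, ?_⟩
  · intro q hq x hx
    have hf : ∀ r, pl H q (PN.f t r : PN N T) = five Q0 Q1 Q2 Q3 Q4 r := by
      intro r; rw [← hq]; rfl
    simp only [expand2, List.mem_cons, List.not_mem_nil, or_false] at hx
    have dO : pl H q (PN.O : PN N T) = (0, 0, 1) := rfl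
    have dD : pl H q (PN.D : PN N T) = (1, 0, 0) := rfl
    have dM : pl H q (PN.M : PN N T) = (0, 1, 0) := rfl
    have dE : pl H q (PN.E : PN N T) = (0, 1, 1) := rfl
    have da : pl H q (PN.h a : PN N T) = (ca, u, 1) := ha
    have db : pl H q (PN.h b : PN N T) = (cb, v, 1) := hb
    have dc : pl H q (PN.h c : PN N T) = (cc, u * v, 1) := hc
    rcases hx with rfl | rfl | rfl | rfl | rfl | rfl | rfl | rfl | rfl | rfl | rfl | rfl <;>
      simp only [PCon.Sat, da, db, dc, hf, five, dO, dD, dM, dE, q0, q1, q2, q3, q4, det3, dot,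
        crs]
    · simp
    · simp
    · ring
    · ring
    · ring
    · ring
    · field_simp; ring
    · ring
    · ring
    · field_simp; ring
    · ring
    · rw [ne_eq]
      intro h
      apply hβ2
      field_simp
      linarith
  · intro r hr s hs
    have a1 := hα s hs
    have a2 := hβ s (Set.mem_insert_of_mem _ (Set.mem_insert_of_mem _ hs))
    interval_cases r
    · exact a1.1
    · exact a2.1
    · exact a2.2.1
    · exact a1.2
    · exact a2.2.2
  · have b0 := hβ Q0 (Set.mem_insert _ _)
    have b3 := hβ Q3 (Set.mem_insert_of_mem _ (Set.mem_insert _ _))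
    have n03 : NP Q0 Q3 := np_of_first (by simp [q0, q3, hu1])
    have n12 : NP Q1 Q2 := np_of_first (by
      simp only [q1, q2]
      have : v * 1 - 1 * (u * v) = -(v * (u - 1)) := by ring
      rw [this]; exact neg_ne_zero.mpr (mul_ne_zero hv0 hu1))
    have n14 : NP Q1 Q4 := np_of_first (by simp [q1, q4, sub_ne_zero.mpr hv.ne'])
    have n24 : NP Q2 Q4 := np_of_first (by simp [q2, q4, sub_ne_zero.mpr hv.ne'])
    intro r hr r' hr' hne
    interval_cases r <;> interval_cases r' <;> first
      | exact absurd rfl hne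
      | exact n03
      | exact n12
      | exact n14
      | exact n24
      | exact n03.symm
      | exact n12.symm
      | exact n14.symm
      | exact n24.symm
      | exact b0.1
      | exact b0.2.1
      | exact b0.2.2
      | exact b3.1
      | exact b3.2.1
      | exact b3.2.2
      | exact b0.1.symm
      | exact b0.2.1.symm
      | exact b0.2.2.symm
      | exact b3.1.symm
      | exact b3.2.1.symm
      | exact b3.2.2.symm

/-- one gadget -/
theorem gadget {N T : Type} (H : N → V3) (w : N → ℝ) (ι : N → ℝ) (hH : ∀ n, H n = (ι n, w n, 1))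
    (S : Set V3) (hS : S.Finite) (h0 : ∀ s ∈ S, s ≠ 0) (t : T) (c : ACon N) (hc : c.Holds w)
    (hn : ∀ n ∈ c.names, 1 < w n) :
    ∃ Q : ℕ → V3, (∀ q : T → ℕ → V3, q t = Q → ∀ x ∈ expand2 t c, x.Sat (pl H q)) ∧
      (∀ r < 5, ∀ s ∈ S, NP (Q r) s) ∧ (∀ r < 5, ∀ r' < 5, r ≠ r' → NP (Q r) (Q r')) := by
  cases c with
  | add x y z =>
    simp only [ACon.names, List.mem_cons, List.not_mem_nil, or_false, forall_eq_or_imp,
      forall_eq] at hn
    obtain ⟨n1, n2, n3⟩ := hn
    simp only [ACon.Holds] at hc
    exact gadget_add H S hS h0 (.h x) (.h y) (.h z) t (by linarith) (by linarith)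
      (fun q => hH x) (fun q => hH y) (fun q => by rw [hc]; exact hH z)
  | one x y =>
    simp only [ACon.names, List.mem_cons, List.not_mem_nil, or_false, forall_eq_or_imp,
      forall_eq] at hn
    obtain ⟨n1, n2⟩ := hn
    simp only [ACon.Holds] at hc
    exact gadget_add H S hS h0 .E (.h x) (.h y) t one_pos (by linarith)
      (fun q => rfl) (fun q => hH x) (fun q => by rw [← hc]; exact hH y)
  | mul x y z =>
    simp only [ACon.names, List.mem_cons, List.not_mem_nil, or_false, forall_eq_or_imp,
      forall_eq] at hn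
    obtain ⟨n1, n2, n3⟩ := hn
    simp only [ACon.Holds] at hc
    exact gadget_mul H S hS h0 x y z t n1 n2 (hH x) (hH y) (by rw [hc]; exact hH z)

theorem fresh2 {N T : Type} (H : N → V3) (w : N → ℝ) (ι : N → ℝ)
    (hH : ∀ n, H n = (ι n, w n, 1)) (L : List (T × ACon N)) :
    (L.map Prod.fst).Nodup → (∀ x ∈ L, x.2.Holds w) → (∀ x ∈ L, ∀ n ∈ x.2.names, 1 < w n) →
    ∀ S : Set V3, S.Finite → (∀ s ∈ S, s ≠ 0) → ∃ q : T → ℕ → V3,
      (∀ x ∈ L, ∀ c ∈ expand2 x.1 x.2, c.Sat (pl H q)) ∧
      (∀ x ∈ L, ∀ r < 5, ∀ s ∈ S, NP (q x.1 r) s) ∧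
      (∀ x ∈ L, ∀ y ∈ L, ∀ r < 5, ∀ r' < 5, (x.1, r) ≠ (y.1, r') →
        NP (q x.1 r) (q y.1 r')) := by
  classical
  induction L with
  | nil =>
    intro _ _ _ S _ _
    exact ⟨fun _ _ => 0, by simp, by simp, by simp⟩
  | cons y L ih =>
    intro hnd hw h1 S hS h0
    simp only [List.map_cons, List.nodup_cons] at hnd
    obtain ⟨hy, hnd⟩ := hnd
    obtain ⟨Q, hQ1, hQ2, hQ3⟩ := gadget H w ι hH S hS h0 y.1 y.2
      (hw y List.mem_cons_self) (h1 y List.mem_cons_self)
    have hS' : (S ∪ (Q '' {r | r < 5})).Finite := hS.union ((Set.finite_lt_nat 5).image _)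
    have hQ0 : ∀ r < 5, Q r ≠ 0 := by
      intro r hr
      by_cases h : r = 0
      · exact (hQ3 r hr 1 (by norm_num) (by omega)).ne_left
      · exact (hQ3 r hr 0 (by norm_num) h).ne_left
    obtain ⟨q, hq1, hq2, hq3⟩ := ih hnd (fun x hx => hw x (List.mem_cons_of_mem _ hx))
      (fun x hx => h1 x (List.mem_cons_of_mem _ hx)) (S ∪ (Q '' {r | r < 5})) hS' (by
        rintro s (hs | ⟨r, hr, rfl⟩)
        · exact h0 s hs
        · exact hQ0 r hr)
    have hne : ∀ x ∈ L, x.1 ≠ y.1 := by
      intro x hx h
      exact hy (h ▸ List.mem_map_of_mem hx)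
    have hupd : ∀ x ∈ L, (Function.update q y.1 Q) x.1 = q x.1 := fun x hx =>
      Function.update_of_ne (hne x hx) _ _
    refine ⟨Function.update q y.1 Q, ?_, ?_, ?_⟩
    · intro x hx c hc
      rcases List.mem_cons.mp hx with rfl | hx
      · exact hQ1 _ (Function.update_self _ _ _) c hc
      · have h2 := hq1 x hx c hc
        have key : ∀ n ∈ c.names, pl H (Function.update q y.1 Q) n = pl H q n := by
          intro n hn
          have : ∀ t' r, n = PN.f t' r → t' = x.1 := by
            intro t' r hnr
            subst hnr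
            obtain ⟨t0, c0⟩ := x
            cases c0 <;> simp only [expand2, addlike, List.mem_cons, List.not_mem_nil,
              or_false] at hc <;>
              rcases hc with rfl | rfl | rfl | rfl | rfl | rfl | rfl | rfl | rfl | rfl | rfl | rfl <;>
              simp [PCon.names] at hn <;> try tauto
          cases n with
          | f t' r =>
            have := this t' r rfl
            subst this
            show Function.update q y.1 Q x.1 r = q x.1 r
            rw [hupd x hx]
          | _ => rfl
        cases c with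
        | col a b d =>
          simp only [PCon.names, List.mem_cons, List.not_mem_nil, or_false, forall_eq_or_imp,
            forall_eq] at key
          obtain ⟨k1, k2, k3⟩ := key
          simp only [PCon.Sat] at h2 ⊢
          rw [k1, k2, k3]; exact h2
        | non a b d =>
          simp only [PCon.names, List.mem_cons, List.not_mem_nil, or_false, forall_eq_or_imp,
            forall_eq] at key
          obtain ⟨k1, k2, k3⟩ := key
          simp only [PCon.Sat] at h2 ⊢
          rw [k1, k2, k3]; exact h2
    · intro x hx r hr s hs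
      rcases List.mem_cons.mp hx with rfl | hx
      · rw [Function.update_self]; exact hQ2 r hr s hs
      · rw [hupd x hx]; exact hq2 x hx r hr s (Or.inl hs)
    · intro x hx z hz r hr r' hr' hne'
      rcases List.mem_cons.mp hx with hx1 | hx1 <;> rcases List.mem_cons.mp hz with hz1 | hz1
      · rw [hx1, hz1, Function.update_self]
        exact hQ3 r hr r' hr' (fun h => hne' (by rw [h, hx1, hz1]))
      · rw [hx1, Function.update_self, hupd z hz1]
        exact (hq2 z hz1 r' hr' _ (Or.inr ⟨r, hr, rfl⟩)).symm
      · rw [hz1, Function.update_self, hupd x hx1]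
        exact hq2 x hx1 r hr _ (Or.inr ⟨r', hr', rfl⟩)
      · rw [hupd x hx1, hupd z hz1]
        exact hq3 x hx1 z hz1 r hr r' hr' hne'

/-- the names that are used -/
def Used2 {N T : Type} (L : List (T × ACon N)) : PN N T → Prop
  | .O => True
  | .D => True
  | .M => True
  | .E => True
  | .h n => ∃ x ∈ L, n ∈ x.2.names
  | .f t r => r < 5 ∧ ∃ x ∈ L, x.1 = t

theorem used2 {N T : Type} (L : List (T × ACon N)) (x) (hx : x ∈ lay2 L) (a : PN N T)
    (ha : a ∈ x.2.names) : Used2 L a := by
  rcases List.mem_append.mp hx with hx | hx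
  · have := mem_of_mem_tag hx
    simp only [glob2, List.mem_cons, List.not_mem_nil, or_false] at this
    rcases this with h | h | h <;> rw [h] at ha <;>
      simp only [PCon.names, List.mem_cons, List.not_mem_nil, or_false] at ha <;>
      rcases ha with rfl | rfl | rfl <;> trivial
  · obtain ⟨y, hy, hxy⟩ := List.mem_flatMap.mp hx
    have hc := mem_of_mem_tag hxy
    have hf : ∀ r, r < 5 → Used2 L (PN.f y.1 r : PN N T) := fun r hr => ⟨hr, y, hy, rfl⟩
    have hh : ∀ n ∈ y.2.names, Used2 L (PN.h n : PN N T) := fun n hn => ⟨y, hy, hn⟩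
    obtain ⟨t, c⟩ := y
    cases c with
    | add u v w =>
      have h1 := hh u (by simp [ACon.names])
      have h2 := hh v (by simp [ACon.names])
      have h3 := hh w (by simp [ACon.names])
      simp only [expand2, addlike, List.mem_cons, List.not_mem_nil, or_false] at hc
      rcases hc with h | h | h | h | h | h | h | h | h | h | h | h <;> rw [h] at ha <;>
      simp only [PCon.names, List.mem_cons, List.not_mem_nil, or_false] at ha <;>
      rcases ha with rfl | rfl | rfl <;> first
        | trivial
        | exact hf _ (by norm_num)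
        | assumption
    | one u v =>
      have h1 := hh u (by simp [ACon.names])
      have h2 := hh v (by simp [ACon.names])
      simp only [expand2, addlike, List.mem_cons, List.not_mem_nil, or_false] at hc
      rcases hc with h | h | h | h | h | h | h | h | h | h | h | h <;> rw [h] at ha <;>
      simp only [PCon.names, List.mem_cons, List.not_mem_nil, or_false] at ha <;>
      rcases ha with rfl | rfl | rfl <;> first
        | trivial
        | exact hf _ (by norm_num)
        | assumption
    | mul u v w =>
      have h1 := hh u (by simp [ACon.names])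
      have h2 := hh v (by simp [ACon.names])
      have h3 := hh w (by simp [ACon.names])
      simp only [expand2, List.mem_cons, List.not_mem_nil, or_false] at hc
      rcases hc with h | h | h | h | h | h | h | h | h | h | h | h <;> rw [h] at ha <;>
      simp only [PCon.names, List.mem_cons, List.not_mem_nil, or_false] at ha <;>
      rcases ha with rfl | rfl | rfl <;> first
        | trivial
        | exact hf _ (by norm_num)
        | assumption

theorem complete2 {N T : Type} (L : List (T × ACon N)) (hnd : (L.map Prod.fst).Nodup)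
    (w : N → ℝ) (hw : ∀ x ∈ L, x.2.Holds w) (h1 : ∀ x ∈ L, ∀ n ∈ x.2.names, 1 < w n) :
    ∃ p : PN N T → V3, (∀ x ∈ lay2 L, x.2.Sat p) ∧
      ∀ x ∈ lay2 L, ∀ a ∈ x.2.names, ∀ y ∈ lay2 L, ∀ b ∈ y.2.names, a ≠ b →
        NP (p a) (p b) := by
  classical
  set U : List N := L.flatMap fun x => x.2.names with hU
  set ι : N → ℝ := fun n => (U.idxOf n : ℝ) with hι
  set H : N → V3 := fun n => (ι n, w n, 1) with hHdef
  have hinj : ∀ n ∈ U, ∀ m, n ≠ m → ι n ≠ ι m := by
    intro n hn m hnm h
    simp only [hι, Nat.cast_inj] at h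
    exact hnm ((List.idxOf_inj hn).mp h)
  set S : Set V3 := {((0, 0, 1) : V3), (1, 0, 0), (0, 1, 0), (0, 1, 1)} ∪ H '' {n | n ∈ U} with hSdef
  have hS : S.Finite := by
    refine Set.Finite.union ?_ ((List.finite_toSet U).image _)
    simp
  have h0 : ∀ s ∈ S, s ≠ 0 := by
    rintro s (hs | ⟨n, _, rfl⟩)
    · simp only [Set.mem_insert_iff, Set.mem_singleton_iff] at hs
      rcases hs with rfl | rfl | rfl | rfl <;> simp
    · simp [hHdef]
  obtain ⟨q, hq1, hq2, hq3⟩ := fresh2 H w ι (fun n => rfl) L hnd hw h1 S hS h0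
  refine ⟨pl H q, ?_, ?_⟩
  · intro x hx
    rcases List.mem_append.mp hx with hx | hx
    · have := mem_of_mem_tag hx
      simp only [glob2, List.mem_cons, List.not_mem_nil, or_false] at this
      rcases this with h | h | h <;> rw [h] <;> simp [PCon.Sat, pl, det3, dot, crs]
    · obtain ⟨y, hy, hxy⟩ := List.mem_flatMap.mp hx
      exact hq1 y hy _ (mem_of_mem_tag hxy)
  · have hbase : ∀ n, (∃ x ∈ L, n ∈ x.2.names) → n ∈ U := fun n ⟨x, hx, hn⟩ =>
      List.mem_flatMap.mpr ⟨x, hx, hn⟩
    have hbase1 : ∀ n, (∃ x ∈ L, n ∈ x.2.names) → 1 < w n := fun n ⟨x, hx, hn⟩ => h1 x hx n hn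
    -- membership in S of all old points
    have hold : ∀ a : PN N T, Used2 L a → (∀ t r, a ≠ .f t r) → pl H q a ∈ S := by
      intro a ha hna
      cases a with
      | O => left; simp [pl]
      | D => left; simp [pl]
      | M => left; simp [pl]
      | E => left; simp [pl]
      | h n => right; exact ⟨n, hbase n ha, rfl⟩
      | f t r => exact absurd rfl (hna t r)
    have key : ∀ a b : PN N T, Used2 L a → Used2 L b → a ≠ b → NP (pl H q a) (pl H q b) := by
      intro a b ha hb hab
      by_cases fa : ∃ t r, a = .f t r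
      · obtain ⟨t, r, rfl⟩ := fa
        obtain ⟨hr, x, hx, rfl⟩ := ha
        by_cases fb : ∃ t r, b = .f t r
        · obtain ⟨t', r', rfl⟩ := fb
          obtain ⟨hr', y, hy, rfl⟩ := hb
          refine hq3 x hx y hy r hr r' hr' ?_
          intro h
          apply hab
          rw [Prod.mk.injEq] at h
          rw [h.1, h.2]
        · push Not at fb
          exact hq2 x hx r hr _ (hold b hb fb)
      · push Not at fa
        by_cases fb : ∃ t r, b = .f t r
        · obtain ⟨t', r', rfl⟩ := fb
          obtain ⟨hr', y, hy, rfl⟩ := hb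
          exact (hq2 y hy r' hr' _ (hold a ha fa)).symm
        · push Not at fb
          -- both old
          cases a with
          | f t r => exact absurd rfl (fa t r)
          | O => cases b with
            | f t r => exact absurd rfl (fb t r)
            | O => exact absurd rfl hab
            | D => exact np_of_second (by simp [pl])
            | M => exact np_of_first (by simp [pl])
            | E => exact np_of_first (by simp [pl])
            | h n =>
              have := hbase1 n hb
              exact np_of_first (by simp [pl, hHdef]; linarith)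
          | D => cases b with
            | f t r => exact absurd rfl (fb t r)
            | O => exact np_of_second (by simp [pl])
            | D => exact absurd rfl hab
            | M => exact np_of_third (by simp [pl])
            | E => exact np_of_third (by simp [pl])
            | h n => exact np_of_second (by simp [pl, hHdef])
          | M => cases b with
            | f t r => exact absurd rfl (fb t r)
            | O => exact np_of_first (by simp [pl])
            | D => exact np_of_third (by simp [pl])
            | M => exact absurd rfl hab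
            | E => exact np_of_first (by simp [pl])
            | h n => exact np_of_first (by simp [pl, hHdef])
          | E => cases b with
            | f t r => exact absurd rfl (fb t r)
            | O => exact np_of_first (by simp [pl])
            | D => exact np_of_third (by simp [pl])
            | M => exact np_of_first (by simp [pl])
            | E => exact absurd rfl hab
            | h n =>
              have := hbase1 n hb
              exact np_of_first (by simp [pl, hHdef]; linarith)
          | h n =>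
            have hn1 := hbase1 n ha
            cases b with
            | f t r => exact absurd rfl (fb t r)
            | O => exact np_of_first (by simp [pl, hHdef]; linarith)
            | D => exact np_of_second (by simp [pl, hHdef])
            | M => exact np_of_first (by simp [pl, hHdef])
            | E => exact np_of_first (by simp [pl, hHdef]; linarith)
            | h m =>
              by_cases hw' : w n = w m
              · have h3 := hinj n (hbase n ha) m (fun h => hab (by rw [h]))
                exact np_of_second (by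
                  simp only [pl, hHdef, one_mul, mul_one]
                  exact sub_ne_zero.mpr h3.symm)
              · exact np_of_first (by
                  simp only [pl, hHdef, one_mul, mul_one]
                  exact sub_ne_zero.mpr hw')
    intro x hx a ha y hy b hb hab
    exact key a b (used2 L x hx a ha) (used2 L y hy b hb) hab

end Pool.Agent.Helper55
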