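import Pool.Agent.Helper55.Strong2

set_option autoImplicit false

/-!
Completeness of the third layer, and distinctness of tags.
-/

namespace Pool.Agent.Helper55

theorem nodup_flat {T T' C D : Type} (L : List (T × C)) (hnd : (L.map Prod.fst).Nodup)
    (κ : T → T') (hκ : Function.Injective κ) (f : T × C → List ((T' × ℕ) × D))
    (h1 : ∀ x ∈ L, ∀ y ∈ f x, y.1.1 = κ x.1) (h2 : ∀ x ∈ L, ((f x).map Prod.fst).Nodup) :
    ((L.flatMap f).map Prod.fst).Nodup := by
  rw [List.map_flatMap, List.nodup_flatMap]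
  refine ⟨h2, ?_⟩
  have h3 : L.Pairwise fun x y => x.1 ≠ y.1 := List.pairwise_map.mp hnd
  refine List.Pairwise.imp_of_mem ?_ h3
  intro x y hx hy hxy k hk1 hk2
  obtain ⟨u, hu, rfl⟩ := List.mem_map.mp hk1
  obtain ⟨v, hv, huv⟩ := List.mem_map.mp hk2
  apply hxy
  apply hκ
  rw [← h1 x hx u hu, ← h1 y hy v hv, huv]

theorem nodup_tag {T α : Type} (t : T) (l : List α) : ((tag t l).map Prod.fst).Nodup := by
  have h1 : (tag t l).map Prod.fst = (l.zipIdx.map Prod.snd).map fun i => (t, i) := by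
    unfold tag
    rw [List.map_map, List.map_map]; rfl
  rw [h1, List.zipIdx_map_snd]
  exact (List.nodup_range' ..).map (fun a b hab => (Prod.mk.inj hab).2)

theorem nodup_lay {T C D : Type} (G : List D) (ex : T → C → List D)
    (L : List (T × C)) (hnd : (L.map Prod.fst).Nodup) :
    ((tag none G ++ L.flatMap fun c => tag (some c.1) (ex c.1 c.2) :
      List ((Option T × ℕ) × D)).map Prod.fst).Nodup := by
  rw [List.map_append]
  refine List.Nodup.append (nodup_tag _ _) ?_ ?_
  · exact nodup_flat L hnd some (Option.some_injective _) _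
      (fun x _ y hy => (mem_tag hy).1) (fun x _ => nodup_tag _ _)
  · intro k hk1 hk2
    obtain ⟨u, hu, rfl⟩ := List.mem_map.mp hk1
    obtain ⟨v, hv, huv⟩ := List.mem_map.mp hk2
    obtain ⟨c, _, hv⟩ := List.mem_flatMap.mp hv
    have e1 := (mem_tag hu).1
    have e2 := (mem_tag hv).1
    rw [huv, e1] at e2
    exact absurd e2 (by simp)

theorem nodup_lay1 {N T : Type} (L : List (T × SCon N)) (hnd : (L.map Prod.fst).Nodup) :
    ((lay1 L).map Prod.fst).Nodup := nodup_lay _ _ L hnd

theorem nodup_lay2 {N T : Type} (L : List (T × ACon N)) (hnd : (L.map Prod.fst).Nodup) :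
    ((lay2 L).map Prod.fst).Nodup := nodup_lay _ _ L hnd

/-- the facts provided by the triangle gadgets -/
def TriFact {N T : Type} (U : List (HN N T)) (E : List (List (HN N T) × V3)) (p : HN N T → V3)
    (x : T × PCon N) : Prop :=
  match x.2 with
  | .col _ _ _ => True
  | .non a b c => (HN.u x.1 0 ∈ U ∧ HN.u x.1 1 ∈ U ∧ HN.u x.1 2 ∈ U) ∧
      (det3 (p (.b a)) (p (.b b)) (p (.u x.1 0)) = 0 ∧
        det3 (p (.b b)) (p (.b c)) (p (.u x.1 1)) = 0 ∧
        det3 (p (.b a)) (p (.b c)) (p (.u x.1 2)) = 0) ∧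
      ∀ e ∈ (Pool.Agent.Helper55.tri x.1 : List (List (HN N T))), ∃ n, (e, n) ∈ E

theorem stage1 {N T : Type} (U0 : List (HN N T)) (P0 : HN N T → V3)
    (hU0 : ∀ a ∈ U0, ∀ t r, a ≠ .u t r)
    (h0 : Strong U0 [] P0) (L : List (T × PCon N)) :
    (L.map Prod.fst).Nodup → (∀ x ∈ L, ∀ a ∈ x.2.names, HN.b a ∈ U0) →
    (∀ x ∈ L, x.2.Sat fun n => P0 (.b n)) →
    ∃ U E p, Strong U E p ∧ (∀ a ∈ U0, a ∈ U ∧ p a = P0 a) ∧
      (∀ a ∈ U, a ∈ U0 ∨ ∃ t r, a = .u t r ∧ t ∈ L.map Prod.fst) ∧
      (∀ e ∈ E, ∀ a ∈ e.1, ∃ t r, a = .u t r) ∧ ∀ x ∈ L, TriFact U E p x := by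
  induction L with
  | nil =>
    intro _ _ _
    exact ⟨U0, [], P0, h0, fun a ha => ⟨ha, rfl⟩, fun a ha => Or.inl ha, by simp, by simp⟩
  | cons x L ih =>
    intro hnd hn hs
    simp only [List.map_cons, List.nodup_cons] at hnd
    obtain ⟨hx, hnd⟩ := hnd
    obtain ⟨U, E, p, hS, hU, hU', hE, hF⟩ := ih hnd
      (fun y hy => hn y (List.mem_cons_of_mem _ hy)) (fun y hy => hs y (List.mem_cons_of_mem _ hy))
    have hn1 := hn x List.mem_cons_self
    have hs1 := hs x List.mem_cons_self
    obtain ⟨t, c⟩ := x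
    cases c with
    | col a b c =>
      refine ⟨U, E, p, hS, hU, ?_, hE, ?_⟩
      · intro y hy
        rcases hU' y hy with h | ⟨t', r, h, h'⟩
        · exact Or.inl h
        · exact Or.inr ⟨t', r, h, List.mem_cons_of_mem _ h'⟩
      · intro y hy
        rcases List.mem_cons.mp hy with rfl | hy
        · trivial
        · exact hF y hy
    | non a b c =>
      simp only [PCon.names, List.mem_cons, List.not_mem_nil, or_false, forall_eq_or_imp,
        forall_eq] at hn1
      obtain ⟨na, nb, nc⟩ := hn1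
      simp only [PCon.Sat] at hs1
      have hE' : ∀ e ∈ E, (HN.b a : HN N T) ∉ e.1 ∧ (HN.b b : HN N T) ∉ e.1 ∧
          (HN.b c : HN N T) ∉ e.1 := by
        intro e he
        refine ⟨fun h => ?_, fun h => ?_, fun h => ?_⟩ <;>
        · obtain ⟨t', r, h'⟩ := hE e he _ h
          exact absurd h' (by simp)
      have hnm : ∀ r < 3, (HN.u t r : HN N T) ∉ U := by
        intro r _ hr
        rcases hU' _ hr with h | ⟨t', r', h, h'⟩
        · exact hU0 _ h t r rfl
        · simp only [HN.u.injEq] at h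
          exact hx (h.1 ▸ h')
      obtain ⟨p', n0, n1, n2, hS', hp', d0, d1, d2⟩ := step1 hS (hU _ na).1 (hU _ nb).1 (hU _ nc).1
        (by rw [(hU _ na).2, (hU _ nb).2, (hU _ nc).2]; exact hs1) hE' (fun r => HN.u t r) hnm
        (fun r _ r' _ h => by simpa using h)
      refine ⟨_, _, p', hS', ?_, ?_, ?_, ?_⟩
      · intro y hy
        refine ⟨?_, ?_⟩
        · simp only [List.mem_cons]; exact Or.inr (Or.inr (Or.inr (hU y hy).1))
        · rw [hp' y (hU y hy).1]; exact (hU y hy).2
      · intro y hy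
        simp only [List.mem_cons] at hy
        rcases hy with rfl | rfl | rfl | hy
        · exact Or.inr ⟨t, 0, rfl, by simp⟩
        · exact Or.inr ⟨t, 1, rfl, by simp⟩
        · exact Or.inr ⟨t, 2, rfl, by simp⟩
        · rcases hU' y hy with h | ⟨t', r, h, h'⟩
          · exact Or.inl h
          · exact Or.inr ⟨t', r, h, List.mem_cons_of_mem _ h'⟩
      · intro e he y hy
        simp only [List.mem_cons] at he
        rcases he with rfl | rfl | rfl | he
        · simp only [List.mem_cons, List.not_mem_nil, or_false] at hy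
          rcases hy with rfl | rfl
          · exact ⟨t, 0, rfl⟩
          · exact ⟨t, 1, rfl⟩
        · simp only [List.mem_cons, List.not_mem_nil, or_false] at hy
          rcases hy with rfl | rfl
          · exact ⟨t, 1, rfl⟩
          · exact ⟨t, 2, rfl⟩
        · simp only [List.mem_cons, List.not_mem_nil, or_false] at hy
          rcases hy with rfl | rfl
          · exact ⟨t, 0, rfl⟩
          · exact ⟨t, 2, rfl⟩
        · exact hE e he y hy
      · intro y hy
        rcases List.mem_cons.mp hy with rfl | hy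
        · refine ⟨by simp, ⟨d0, d1, d2⟩, ?_⟩
          intro e he
          simp only [Pool.Agent.Helper55.tri, List.mem_cons, List.not_mem_nil, or_false] at he
          rcases he with rfl | rfl | rfl
          · exact ⟨n0, by simp⟩
          · exact ⟨n1, by simp⟩
          · exact ⟨n2, by simp⟩
        · have hFy := hF y hy
          have hny := hn y (List.mem_cons_of_mem _ hy)
          obtain ⟨t', c'⟩ := y
          cases c' with
          | col _ _ _ => trivial
          | non a' b' c' =>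
            simp only [PCon.names, List.mem_cons, List.not_mem_nil, or_false, forall_eq_or_imp,
              forall_eq] at hny
            obtain ⟨ma, mb, mc⟩ := hny
            obtain ⟨⟨u0, u1, u2⟩, ⟨f0, f1, f2⟩, f3⟩ := hFy
            simp only at u0 u1 u2 f0 f1 f2 f3
            refine ⟨⟨?_, ?_, ?_⟩, ⟨?_, ?_, ?_⟩, ?_⟩
            · simp only [List.mem_cons]; exact Or.inr (Or.inr (Or.inr u0))
            · simp only [List.mem_cons]; exact Or.inr (Or.inr (Or.inr u1))
            · simp only [List.mem_cons]; exact Or.inr (Or.inr (Or.inr u2))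
            · simp only
              rw [hp' _ (hU _ ma).1, hp' _ (hU _ mb).1, hp' _ u0]; exact f0
            · simp only
              rw [hp' _ (hU _ mb).1, hp' _ (hU _ mc).1, hp' _ u1]; exact f1
            · simp only
              rw [hp' _ (hU _ ma).1, hp' _ (hU _ mc).1, hp' _ u2]; exact f2
            · intro e he
              obtain ⟨n, hn'⟩ := f3 e he
              exact ⟨n, by simp only [List.mem_cons]; exact Or.inr (Or.inr (Or.inr hn'))⟩

theorem stage2 {N T : Type} (G : List ((T × ℕ) × (HN N T × HN N T × HN N T))) :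
    (G.map Prod.fst).Nodup → ∀ (U : List (HN N T)) (E : List (List (HN N T) × V3))
    (p : HN N T → V3), Strong U E p →
    (∀ g ∈ G, g.2.1 ∈ U ∧ g.2.2.1 ∈ U ∧ g.2.2.2 ∈ U) →
    (∀ g ∈ G, g.2.1 ≠ g.2.2.1 ∧ g.2.2.1 ≠ g.2.2.2 ∧ g.2.1 ≠ g.2.2.2) →
    (∀ g ∈ G, det3 (p g.2.1) (p g.2.2.1) (p g.2.2.2) = 0) →
    (∀ g ∈ G, ∀ r, HN.q g.1.1 g.1.2 r ∉ U) →
    ∃ U' E' p', Strong U' E' p' ∧ (∀ a ∈ U, a ∈ U') ∧ (∀ x ∈ E, x ∈ E') ∧
      ∀ g ∈ G, ∀ e ∈ pap g.1.1 g.1.2 g.2.1 g.2.2.1 g.2.2.2, ∃ n, (e, n) ∈ E' := by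
  induction G with
  | nil =>
    intro _ U E p hS _ _ _ _
    exact ⟨U, E, p, hS, fun a ha => ha, fun x hx => hx, by simp⟩
  | cons g G ih =>
    intro hnd U E p hS hG1 hG2 hG3 hG4
    simp only [List.map_cons, List.nodup_cons] at hnd
    obtain ⟨hg, hnd⟩ := hnd
    obtain ⟨g1, g2, g3⟩ := hG1 g List.mem_cons_self
    obtain ⟨g4, g5, g6⟩ := hG2 g List.mem_cons_self
    obtain ⟨p', E1, hS', hp', hE1⟩ := step2 hS g1 g2 g3 g4 g5 g6 (hG3 g List.mem_cons_self)
      (fun r => HN.q g.1.1 g.1.2 r) (fun r _ => hG4 g List.mem_cons_self r)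
      (fun r _ r' _ h => by simpa using h)
    obtain ⟨U', E', p'', hS'', hU', hE', hF⟩ := ih hnd _ _ p' hS'
      (fun y hy => by
        obtain ⟨h1, h2, h3⟩ := hG1 y (List.mem_cons_of_mem _ hy)
        exact ⟨List.mem_append_right _ h1, List.mem_append_right _ h2,
          List.mem_append_right _ h3⟩)
      (fun y hy => hG2 y (List.mem_cons_of_mem _ hy))
      (fun y hy => by
        obtain ⟨h1, h2, h3⟩ := hG1 y (List.mem_cons_of_mem _ hy)
        rw [hp' _ h1, hp' _ h2, hp' _ h3]
        exact hG3 y (List.mem_cons_of_mem _ hy))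
      (fun y hy r hr => by
        rcases List.mem_append.mp hr with h | h
        · obtain ⟨r', _, h'⟩ := List.mem_map.mp h
          simp only [HN.q.injEq] at h'
          apply hg
          have : g.1 = y.1 := Prod.ext h'.1 h'.2.1
          rw [this]
          exact List.mem_map_of_mem hy
        · exact hG4 y (List.mem_cons_of_mem _ hy) r h)
    refine ⟨U', E', p'', hS'', fun a ha => hU' a (List.mem_append_right _ ha),
      fun x hx => hE' x (List.mem_append_right _ hx), ?_⟩
    intro y hy e he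
    rcases List.mem_cons.mp hy with rfl | hy
    · have h1 : e ∈ E1.map Prod.fst := by rw [hE1]; exact he
      obtain ⟨x, hx, rfl⟩ := List.mem_map.mp h1
      exact ⟨x.2, hE' _ (List.mem_append_left _ hx)⟩
    · exact hF y hy e he

/-- the Pappus gadgets of a condition -/
def gad {N T : Type} (x : T × PCon N) : List ((T × ℕ) × (HN N T × HN N T × HN N T)) :=
  match x.2 with
  | .col a b c => [((x.1, 0), (.b a, .b b, .b c))]
  | .non a b c => [((x.1, 0), (.b a, .b b, .u x.1 0)), ((x.1, 1), (.b b, .b c, .u x.1 1)),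
      ((x.1, 2), (.b a, .b c, .u x.1 2))]

theorem complete3 {N T : Type} (L : List (T × PCon N)) (hnd : (L.map Prod.fst).Nodup)
    (hwf : ∀ x ∈ L, x.2.WF) (p : N → V3) (hsat : ∀ x ∈ L, x.2.Sat p)
    (hnp : ∀ x ∈ L, ∀ a ∈ x.2.names, ∀ y ∈ L, ∀ b ∈ y.2.names, a ≠ b → NP (p a) (p b)) :
    ∃ (U : List (HN N T)) (E : List (List (HN N T) × V3)) (p' : HN N T → V3), Strong U E p' ∧
      ∀ e ∈ lay3 L, ∃ n, (e, n) ∈ E := by
  set U0 : List (HN N T) := L.flatMap fun x => x.2.names.map HN.b with hU0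
  have memU0 : ∀ a : HN N T, a ∈ U0 ↔ ∃ n, a = .b n ∧ ∃ x ∈ L, n ∈ x.2.names := by
    intro a
    simp only [hU0, List.mem_flatMap, List.mem_map]
    constructor
    · rintro ⟨x, hx, n, hn, rfl⟩; exact ⟨n, rfl, x, hx, hn⟩
    · rintro ⟨n, rfl, x, hx, hn⟩; exact ⟨x, hx, n, hn, rfl⟩
  set P0 : HN N T → V3 := fun a => match a with
    | .b n => p n
    | _ => 0 with hP0
  have hne : ∀ n, (∃ x ∈ L, n ∈ x.2.names) → p n ≠ 0 := by
    rintro n ⟨x, hx, hn⟩
    have hw := hwf x hx
    have hnx := hnp x hx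
    obtain ⟨t, c⟩ := x
    cases c with
    | col a b c =>
      obtain ⟨w1, w2, w3⟩ := hw
      simp only [PCon.names, List.mem_cons, List.not_mem_nil, or_false] at hn
      have mb : b ∈ (PCon.col a b c).names := by simp [PCon.names]
      have ma : a ∈ (PCon.col a b c).names := by simp [PCon.names]
      have mc : c ∈ (PCon.col a b c).names := by simp [PCon.names]
      rcases hn with rfl | rfl | rfl
      · exact (hnx _ ma _ hx _ mb w1).ne_left
      · exact (hnx _ mb _ hx _ mc w2).ne_left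
      · exact (hnx _ ma _ hx _ mc w3).ne_right
    | non a b c =>
      obtain ⟨w1, w2, w3⟩ := hw
      simp only [PCon.names, List.mem_cons, List.not_mem_nil, or_false] at hn
      have mb : b ∈ (PCon.non a b c).names := by simp [PCon.names]
      have ma : a ∈ (PCon.non a b c).names := by simp [PCon.names]
      have mc : c ∈ (PCon.non a b c).names := by simp [PCon.names]
      rcases hn with rfl | rfl | rfl
      · exact (hnx _ ma _ hx _ mb w1).ne_left
      · exact (hnx _ mb _ hx _ mc w2).ne_left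
      · exact (hnx _ ma _ hx _ mc w3).ne_right
  have h0 : Strong U0 [] P0 := by
    refine ⟨?_, ?_, by simp, by simp, by simp⟩
    · intro a ha b hb hab
      obtain ⟨n, rfl, x, hx, hn⟩ := (memU0 a).mp ha
      obtain ⟨m, rfl, y, hy, hm⟩ := (memU0 b).mp hb
      exact hnp x hx n hn y hy m hm (fun h => hab (by rw [h]))
    · intro a ha
      obtain ⟨n, rfl, hn⟩ := (memU0 a).mp ha
      exact hne n hn
  obtain ⟨U, E, q, hS, hU, hU', hE, hF⟩ := stage1 U0 P0 (by
    intro a ha t r h
    obtain ⟨n, rfl, _⟩ := (memU0 a).mp ha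
    exact absurd h (by simp)) h0 L hnd (fun x hx a ha => (memU0 _).mpr ⟨a, rfl, x, hx, ha⟩) hsat
  have hb : ∀ x ∈ L, ∀ n ∈ x.2.names, HN.b n ∈ U ∧ q (.b n) = p n := fun x hx n hn =>
    hU (.b n) ((memU0 _).mpr ⟨n, rfl, x, hx, hn⟩)
  have hGnd : ((L.flatMap gad).map Prod.fst).Nodup := by
    refine nodup_flat L hnd id (fun a b h => h) gad ?_ ?_
    · intro x _ y hy
      obtain ⟨t, c⟩ := x
      cases c <;> simp only [gad, List.mem_cons, List.not_mem_nil, or_false] at hy
      · rw [hy]; rfl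
      · rcases hy with rfl | rfl | rfl <;> rfl
    · intro x _
      obtain ⟨t, c⟩ := x
      cases c <;> simp [gad]
  obtain ⟨U', E', q', hS', hUU, hEE, hG⟩ := stage2 (L.flatMap gad) hGnd U E q hS
    (by
      intro g hg
      obtain ⟨x, hx, hg⟩ := List.mem_flatMap.mp hg
      have hbx := hb x hx
      have hFx := hF x hx
      obtain ⟨t, c⟩ := x
      cases c with
      | col a b c =>
        simp only [PCon.names, List.mem_cons, List.not_mem_nil, or_false, forall_eq_or_imp,
          forall_eq] at hbx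
        obtain ⟨⟨b1, _⟩, ⟨b2, _⟩, ⟨b3, _⟩⟩ := hbx
        simp only [gad, List.mem_cons, List.not_mem_nil, or_false] at hg
        rw [hg]; exact ⟨b1, b2, b3⟩
      | non a b c =>
        simp only [PCon.names, List.mem_cons, List.not_mem_nil, or_false, forall_eq_or_imp,
          forall_eq] at hbx
        obtain ⟨⟨b1, _⟩, ⟨b2, _⟩, ⟨b3, _⟩⟩ := hbx
        obtain ⟨⟨u0, u1, u2⟩, _, _⟩ := hFx
        simp only [gad, List.mem_cons, List.not_mem_nil, or_false] at hg
        rcases hg with rfl | rfl | rfl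
        · exact ⟨b1, b2, u0⟩
        · exact ⟨b2, b3, u1⟩
        · exact ⟨b1, b3, u2⟩)
    (by
      intro g hg
      obtain ⟨x, hx, hg⟩ := List.mem_flatMap.mp hg
      have hw := hwf x hx
      obtain ⟨t, c⟩ := x
      cases c with
      | col a b c =>
        obtain ⟨w1, w2, w3⟩ := hw
        simp only [gad, List.mem_cons, List.not_mem_nil, or_false] at hg
        rw [hg]
        refine ⟨?_, ?_, ?_⟩ <;> simpa
      | non a b c =>
        obtain ⟨w1, w2, w3⟩ := hw
        simp only [gad, List.mem_cons, List.not_mem_nil, or_false] at hg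
        rcases hg with rfl | rfl | rfl <;> refine ⟨?_, ?_, ?_⟩ <;> simpa)
    (by
      intro g hg
      obtain ⟨x, hx, hg⟩ := List.mem_flatMap.mp hg
      have hbx := hb x hx
      have hFx := hF x hx
      have hsx := hsat x hx
      obtain ⟨t, c⟩ := x
      cases c with
      | col a b c =>
        simp only [PCon.names, List.mem_cons, List.not_mem_nil, or_false, forall_eq_or_imp,
          forall_eq] at hbx
        obtain ⟨⟨_, b1⟩, ⟨_, b2⟩, ⟨_, b3⟩⟩ := hbx
        simp only [gad, List.mem_cons, List.not_mem_nil, or_false] at hg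
        rw [hg]
        simp only
        rw [b1, b2, b3]
        exact hsx
      | non a b c =>
        obtain ⟨_, ⟨f0, f1, f2⟩, _⟩ := hFx
        simp only [gad, List.mem_cons, List.not_mem_nil, or_false] at hg
        rcases hg with rfl | rfl | rfl
        · exact f0
        · exact f1
        · exact f2)
    (by
      intro g hg r hr
      rcases hU' _ hr with h | ⟨t, r', h, _⟩
      · obtain ⟨n, h, _⟩ := (memU0 _).mp h
        exact absurd h (by simp)
      · exact absurd h (by simp))
  refine ⟨U', E', q', hS', ?_⟩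
  intro e he
  obtain ⟨x, hx, he⟩ := List.mem_flatMap.mp he
  have hFx := hF x hx
  have hGx : ∀ g ∈ gad x, ∀ e ∈ pap g.1.1 g.1.2 g.2.1 g.2.2.1 g.2.2.2, ∃ n, (e, n) ∈ E' :=
    fun g hg => hG g (List.mem_flatMap.mpr ⟨x, hx, hg⟩)
  obtain ⟨t, c⟩ := x
  cases c with
  | col a b c => exact hGx ((t, 0), (.b a, .b b, .b c)) (by simp [gad]) e he
  | non a b c =>
    obtain ⟨_, _, f3⟩ := hFx
    simp only [expand3, List.mem_append] at he
    rcases he with he | he | he | he
    · exact hGx ((t, 0), (.b a, .b b, .u t 0)) (by simp [gad]) e he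
    · exact hGx ((t, 1), (.b b, .b c, .u t 1)) (by simp [gad]) e he
    · exact hGx ((t, 2), (.b a, .b c, .u t 2)) (by simp [gad]) e he
    · obtain ⟨n, hn⟩ := f3 e he
      exact ⟨n, hEE _ hn⟩

end Pool.Agent.Helper55
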