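import Mathlib

set_option autoImplicit false

/-!
Definitions: existential theory of the reals, linear hypergraphs, straight-line realizations,
polynomial time many-one reductions, hardness for the existential theory of the reals.
-/

namespace Pool.Agent.Helper55

/-- Polynomial expressions with integer coefficients, in real unknowns `x_0, x_1, ...`: they are
built from the constants `0, 1, -1` and the unknowns by addition and multiplication. -/
inductive PolyExpr : Type
  | zero : PolyExpr
  | one : PolyExpr
  | negOne : PolyExpr
  | var (i : ℕ) : PolyExpr
  | add (s t : PolyExpr) : PolyExpr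
  | mul (s t : PolyExpr) : PolyExpr

/-- The real value of an expression at the point `x`. -/
def PolyExpr.eval (x : ℕ → ℝ) : PolyExpr → ℝ
  | .zero => 0
  | .one => 1
  | .negOne => -1
  | .var i => x i
  | .add s t => s.eval x + t.eval x
  | .mul s t => s.eval x * t.eval x

/-- Quantifier-free formulas: Boolean combinations of polynomial equations and inequalities. -/
inductive QFFormula : Type
  | eq (s t : PolyExpr) : QFFormula
  | lt (s t : PolyExpr) : QFFormula
  | le (s t : PolyExpr) : QFFormula
  | and (φ ψ : QFFormula) : QFFormula
  | or (φ ψ : QFFormula) : QFFormula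
  | not (φ : QFFormula) : QFFormula

/-- Truth of a quantifier-free formula at the real point `x`. -/
def QFFormula.Holds (x : ℕ → ℝ) : QFFormula → Prop
  | .eq s t => s.eval x = t.eval x
  | .lt s t => s.eval x < t.eval x
  | .le s t => s.eval x ≤ t.eval x
  | .and φ ψ => φ.Holds x ∧ ψ.Holds x
  | .or φ ψ => φ.Holds x ∨ ψ.Holds x
  | .not φ => ¬ φ.Holds x

/-- The alphabet in which formulas are written. -/
inductive FSym : Type
  | tick | var | zero | one | negOne | add | mul | eq | lt | le | and | or | not
  deriving DecidableEq, Fintype

instance : Inhabited FSym := ⟨.tick⟩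

/-- Expressions written in reverse Polish order (without parentheses); the index of a variable is
written in unary.  (Variables can be renamed, so that the indices are at most the number of
occurrences of variables; hence unary and binary notation of indices are equivalent here.) -/
def PolyExpr.enc : PolyExpr → List FSym
  | .zero => [.zero]
  | .one => [.one]
  | .negOne => [.negOne]
  | .var i => List.replicate i .tick ++ [.var]
  | .add s t => s.enc ++ (t.enc ++ [.add])
  | .mul s t => s.enc ++ (t.enc ++ [.mul])

/-- Formulas written in reverse Polish order. -/
def QFFormula.enc : QFFormula → List FSym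
  | .eq s t => s.enc ++ (t.enc ++ [.eq])
  | .lt s t => s.enc ++ (t.enc ++ [.lt])
  | .le s t => s.enc ++ (t.enc ++ [.le])
  | .and φ ψ => φ.enc ++ (ψ.enc ++ [.and])
  | .or φ ψ => φ.enc ++ (ψ.enc ++ [.or])
  | .not φ => φ.enc ++ [.not]

/-- A finite linear hypergraph of rank at most `k` on the vertex set `{0, ..., n-1}`.  The
hyperedges are listed, each one by a list of its vertices: the listed hyperedge is the set of the
entries of the list.  Each hyperedge has at least two and at most `k` vertices and any two distinct
hyperedges have at most one common vertex. -/
structure LinHypergraph (k : ℕ) : Type where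
  /-- the number of vertices -/
  n : ℕ
  /-- the hyperedges -/
  edges : List (List ℕ)
  /-- hyperedges are sets of vertices -/
  lt_n : ∀ e ∈ edges, ∀ v ∈ e, v < n
  /-- hyperedges have at least two vertices -/
  two_le : ∀ e ∈ edges, 2 ≤ e.toFinset.card
  /-- the rank is at most `k` -/
  rank_le : ∀ e ∈ edges, e.toFinset.card ≤ k
  /-- the hypergraph is linear -/
  linear : ∀ e ∈ edges, ∀ f ∈ edges, e.toFinset ≠ f.toFinset →
    (e.toFinset ∩ f.toFinset).card ≤ 1

/-- A straight-line realization: the vertices are mapped injectively to points of the plane, and
each hyperedge `e` to a closed segment, so that the vertices lying on it are exactly those of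
`e`. -/
def LinHypergraph.Realizable {k : ℕ} (H : LinHypergraph k) : Prop :=
  ∃ p : ℕ → ℝ × ℝ, (∀ u < H.n, ∀ v < H.n, p u = p v → u = v) ∧
    ∀ e ∈ H.edges, ∃ a b : ℝ × ℝ, ∀ v < H.n, (p v ∈ segment ℝ a b ↔ v ∈ e)

/-- The alphabet in which hypergraphs are written. -/
inductive HSym : Type
  | one | comma | semi
  deriving DecidableEq, Fintype

/-- A list of hyperedges as a string: vertices in unary, each followed by a comma, each hyperedge
followed by a semicolon. -/
def encEdges (E : List (List ℕ)) : List HSym :=
  E.flatMap fun e => (e.flatMap fun v => List.replicate v .one ++ [.comma]) ++ [.semi]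

/-- A hypergraph as a string: the number of vertices in unary, a semicolon, the hyperedges.  (The
vertices are `0, ..., n-1`, so unary and binary notation are equivalent, up to polynomials, when
the length of the list of all vertices is counted.) -/
def LinHypergraph.enc {k : ℕ} (H : LinHypergraph k) : List HSym :=
  List.replicate H.n .one ++ .semi :: encEdges H.edges

/-- A decision problem: instances, written injectively as strings over a finite alphabet, and the
set of yes-instances. -/
structure DecisionProblem : Type 1 where
  /-- instances -/
  Inst : Type
  /-- alphabet -/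
  Sym : Type
  /-- the alphabet is finite -/
  finite_sym : Finite Sym
  /-- encoding of instances by strings -/
  enc : Inst → List Sym
  /-- the encoding is injective -/
  enc_injective : Function.Injective enc
  /-- yes-instances -/
  Yes : Inst → Prop

/-- Polynomial time many-one reducibility; polynomial time is that of Mathlib
(`Turing.TM2ComputableInPolyTime`, multi-stack Turing machines). -/
def PolyReduces (A B : DecisionProblem) : Prop :=
  ∃ f : A.Inst → B.Inst, Nonempty (Turing.TM2ComputableInPolyTime A.enc B.enc f) ∧
    ∀ x, A.Yes x ↔ B.Yes (f x)

/-! ### injectivity of the encodings -/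

/-- items on the stack of the decoder of formulas -/
inductive Item : Type
  | num (i : ℕ)
  | ex (t : PolyExpr)
  | fo (φ : QFFormula)

/-- a decoder step -/
def decStep : List Item → FSym → List Item
  | .num i :: st, .tick => .num (i + 1) :: st
  | st, .tick => .num 1 :: st
  | .num i :: st, .var => .ex (.var i) :: st
  | st, .var => .ex (.var 0) :: st
  | st, .zero => .ex .zero :: st
  | st, .one => .ex .one :: st
  | st, .negOne => .ex .negOne :: st
  | .ex t :: .ex s :: st, .add => .ex (.add s t) :: st
  | .ex t :: .ex s :: st, .mul => .ex (.mul s t) :: st
  | .ex t :: .ex s :: st, .eq => .fo (.eq s t) :: st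
  | .ex t :: .ex s :: st, .lt => .fo (.lt s t) :: st
  | .ex t :: .ex s :: st, .le => .fo (.le s t) :: st
  | .fo t :: .fo s :: st, .and => .fo (.and s t) :: st
  | .fo t :: .fo s :: st, .or => .fo (.or s t) :: st
  | .fo t :: st, .not => .fo (.not t) :: st
  | st, _ => st

/-- stacks whose top is not a number -/
def NoNum : List Item → Prop
  | .num _ :: _ => False
  | _ => True

theorem foldl_ticks (i j : ℕ) (st : List Item) :
    (List.replicate i FSym.tick).foldl decStep (.num j :: st) = .num (j + i) :: st := by
  induction i generalizing j with
  | zero => rfl
  | succ i ih =>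
    rw [List.replicate_succ, List.foldl_cons]
    show List.foldl decStep (.num (j + 1) :: st) _ = _
    rw [ih]; congr 2; omega

theorem foldl_var (i : ℕ) (st : List Item) (h : NoNum st) :
    (List.replicate i FSym.tick ++ [FSym.var]).foldl decStep st = .ex (.var i) :: st := by
  rw [List.foldl_append]
  cases i with
  | zero =>
    cases st with
    | nil => rfl
    | cons a st => cases a with
      | num _ => exact h.elim
      | ex _ => rfl
      | fo _ => rfl
  | succ i =>
    have h1 : decStep st .tick = .num 1 :: st := by
      cases st with
      | nil => rfl
      | cons a st => cases a with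
        | num _ => exact h.elim
        | ex _ => rfl
        | fo _ => rfl
    have h2 : List.foldl decStep st (List.replicate (i + 1) FSym.tick) = .num (1 + i) :: st := by
      rw [List.replicate_succ, List.foldl_cons, h1, foldl_ticks]
    rw [h2, Nat.add_comm 1 i]; rfl

theorem foldl_expr (t : PolyExpr) : ∀ (st : List Item), NoNum st →
    t.enc.foldl decStep st = .ex t :: st := by
  induction t with
  | zero => intro st h; cases st with
    | nil => rfl
    | cons a st => cases a <;> rfl
  | one => intro st h; cases st with
    | nil => rfl
    | cons a st => cases a <;> rfl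
  | negOne => intro st h; cases st with
    | nil => rfl
    | cons a st => cases a <;> rfl
  | var i => intro st h; exact foldl_var i st h
  | add s t ihs iht =>
    intro st h
    rw [PolyExpr.enc, List.foldl_append, List.foldl_append, ihs st h, iht (.ex s :: st) trivial]; rfl
  | mul s t ihs iht =>
    intro st h
    rw [PolyExpr.enc, List.foldl_append, List.foldl_append, ihs st h, iht (.ex s :: st) trivial]; rfl

theorem foldl_formula (φ : QFFormula) : ∀ (st : List Item), NoNum st →
    φ.enc.foldl decStep st = .fo φ :: st := by
  induction φ with
  | eq s t =>
    intro st h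
    rw [QFFormula.enc, List.foldl_append, List.foldl_append, foldl_expr s st h,
      foldl_expr t (.ex s :: st) trivial]; rfl
  | lt s t =>
    intro st h
    rw [QFFormula.enc, List.foldl_append, List.foldl_append, foldl_expr s st h,
      foldl_expr t (.ex s :: st) trivial]; rfl
  | le s t =>
    intro st h
    rw [QFFormula.enc, List.foldl_append, List.foldl_append, foldl_expr s st h,
      foldl_expr t (.ex s :: st) trivial]; rfl
  | and s t ihs iht =>
    intro st h
    rw [QFFormula.enc, List.foldl_append, List.foldl_append, ihs st h, iht (.fo s :: st) trivial]; rfl
  | or s t ihs iht =>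
    intro st h
    rw [QFFormula.enc, List.foldl_append, List.foldl_append, ihs st h, iht (.fo s :: st) trivial]; rfl
  | not s ihs =>
    intro st h
    rw [QFFormula.enc, List.foldl_append, ihs st h]; rfl

theorem QFFormula.enc_injective : Function.Injective QFFormula.enc := by
  intro φ ψ h
  have h1 := foldl_formula φ [] trivial
  rw [h, foldl_formula ψ [] trivial] at h1
  simpa using h1.symm

/-- decoder of hypergraphs -/
def hdec : List HSym → ℕ → List ℕ → List (List ℕ) → List (List ℕ)
  | [], _, _, E => E
  | .one :: l, c, e, E => hdec l (c + 1) e E
  | .comma :: l, c, e, E => hdec l 0 (e ++ [c]) E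
  | .semi :: l, c, e, E => hdec l 0 [] (E ++ [e ++ [c]])

theorem hdec_ones (n : ℕ) (l : List HSym) : ∀ (c : ℕ) (e : List ℕ) (E : List (List ℕ)),
    hdec (List.replicate n .one ++ l) c e E = hdec l (c + n) e E := by
  induction n with
  | zero => intro c e E; rfl
  | succ n ih =>
    intro c e E
    rw [List.replicate_succ, List.cons_append, hdec, ih]
    congr 1; omega

theorem hdec_edge (f : List ℕ) (l : List HSym) : ∀ (e : List ℕ) (E : List (List ℕ)),
    hdec ((f.flatMap fun v => List.replicate v .one ++ [.comma]) ++ l) 0 e E =
      hdec l 0 (e ++ f) E := by
  induction f with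
  | nil => intro e E; simp
  | cons v f ih =>
    intro e E
    rw [List.flatMap_cons, List.append_assoc, List.append_assoc, hdec_ones]
    simp only [List.singleton_append, hdec, ih, Nat.zero_add, List.append_assoc]

theorem hdec_edges (F : List (List ℕ)) : ∀ (E : List (List ℕ)),
    hdec (encEdges F) 0 [] E = E ++ F.map (· ++ [0]) := by
  induction F with
  | nil => intro E; simp [encEdges, hdec]
  | cons f F ih =>
    intro E
    rw [encEdges, List.flatMap_cons, List.append_assoc, hdec_edge]
    show hdec (encEdges F) 0 [] (E ++ [[] ++ f ++ [0]]) = _
    rw [ih]; simp

theorem LinHypergraph.enc_injective (k : ℕ) :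
    Function.Injective (LinHypergraph.enc : LinHypergraph k → List HSym) := by
  intro H H' h
  have key : ∀ H : LinHypergraph k, hdec H.enc 0 [] [] = [H.n] :: H.edges.map (· ++ [0]) := by
    intro H
    rw [LinHypergraph.enc, hdec_ones, hdec, hdec_edges]
    simp
  have h1 := key H
  rw [h, key H'] at h1
  simp only [List.cons.injEq, and_true] at h1
  obtain ⟨h2, h3⟩ := h1
  have h4 : H'.edges = H.edges :=
    List.map_injective_iff.mpr (fun a b hab => List.append_left_injective [0] hab) h3
  cases H; cases H'; simp_all

/-- ETR: given a quantifier-free formula, decide whether its existential closure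
`∃ x_0 ∃ x_1 ..., φ` is true over the reals. -/
def ETR : DecisionProblem where
  Inst := QFFormula
  Sym := FSym
  finite_sym := inferInstance
  enc := QFFormula.enc
  enc_injective := QFFormula.enc_injective
  Yes := fun φ => ∃ x : ℕ → ℝ, φ.Holds x

/-- The class of decision problems that reduce in polynomial time to ETR. -/
def InExistsR (A : DecisionProblem) : Prop := PolyReduces A ETR

/-- ETR itself belongs to the class. -/
theorem etr_mem : InExistsR ETR :=
  ⟨id, ⟨Turing.idComputableInPolyTime QFFormula.enc⟩, fun _ => Iff.rfl⟩

/-- Hardness: every problem of the class reduces to `B` in polynomial time. -/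
def ExistsRHard (B : DecisionProblem) : Prop := ∀ A : DecisionProblem, InExistsR A → PolyReduces A B

/-- Linear hypergraph realizability restricted to inputs of rank at most `k`. -/
def LinearHypergraphRealizability (k : ℕ) : DecisionProblem where
  Inst := LinHypergraph k
  Sym := HSym
  finite_sym := inferInstance
  enc := LinHypergraph.enc
  enc_injective := LinHypergraph.enc_injective k
  Yes := fun H => H.Realizable

end Pool.Agent.Helper55
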