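import Mathlib

set_option autoImplicit false

/-!
A small structured language of stack programs, its cost semantics, and a compiler
from it to the multi-stack machines of Mathlib.
-/

namespace Pool.Agent.Helper55

open Turing

/-- stack programs -/
inductive Prog (K : Type) (Γ : K → Type) : Type
  | skip : Prog K Γ
  | push (k : K) (a : Γ k) : Prog K Γ
  | seq (p q : Prog K Γ) : Prog K Γ
  | cases (k : K) (f : Option (Γ k) → Prog K Γ) : Prog K Γ
  | loop (k : K) (stop : Option (Γ k) → Bool) (f : Option (Γ k) → Prog K Γ) : Prog K Γ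

namespace Prog

variable {K : Type} [DecidableEq K] {Γ : K → Type}

/-- big-step semantics with an exact step count -/
inductive Exec : Prog K Γ → (∀ k, List (Γ k)) → ℕ → (∀ k, List (Γ k)) → Prop
  | skip (s) : Exec .skip s 1 s
  | push (k) (a : Γ k) (s) : Exec (.push k a) s 1 (Function.update s k (a :: s k))
  | seq {p q s t s' t' s''} : Exec p s t s' → Exec q s' t' s'' → Exec (.seq p q) s (t' + t) s''
  | cases {k f s t s'} : Exec (f (s k).head?) (Function.update s k (s k).tail) t s' →
      Exec (.cases k f) s (t + 1) s'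
  | stop {k st f s} : st (s k).head? = true →
      Exec (.loop k st f) s 1 (Function.update s k (s k).tail)
  | go {k st f s t s' t' s''} : st (s k).head? = false →
      Exec (f (s k).head?) (Function.update s k (s k).tail) t s' →
      Exec (.loop k st f) s' t' s'' →
      Exec (.loop k st f) s (t' + t + 1) s''

/-- labels of a program -/
def Lab : Prog K Γ → Type
  | .skip => Unit
  | .push _ _ => Unit
  | .seq p q => Lab p ⊕ Lab q
  | .cases k f => Unit ⊕ (Σ o : Option (Γ k), Lab (f o))
  | .loop k _ f => Unit ⊕ (Σ o : Option (Γ k), Lab (f o))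

/-- entry label -/
def entry : (p : Prog K Γ) → Lab p
  | .skip => ()
  | .push _ _ => ()
  | .seq p _ => Sum.inl (entry p)
  | .cases _ _ => Sum.inl ()
  | .loop _ _ _ => Sum.inl ()

omit [DecidableEq K] in
theorem finite_lab [∀ k, Finite (Γ k)] : ∀ p : Prog K Γ, Finite (Lab p)
  | .skip => inferInstanceAs (Finite Unit)
  | .push _ _ => inferInstanceAs (Finite Unit)
  | .seq p q => by
      have := finite_lab p
      have := finite_lab q
      exact inferInstanceAs (Finite (Lab p ⊕ Lab q))
  | .cases k f => by
      have := fun o => finite_lab (f o)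
      exact inferInstanceAs (Finite (Unit ⊕ (Σ o : Option (Γ k), Lab (f o))))
  | .loop k _ f => by
      have := fun o => finite_lab (f o)
      exact inferInstanceAs (Finite (Unit ⊕ (Σ o : Option (Γ k), Lab (f o))))

/-- internal memory: the last popped symbol -/
abbrev Mem (K : Type) (Γ : K → Type) : Type := Option (Σ k : K, Γ k)

/-- store the result of a pop -/
def put (k : K) : Option (Γ k) → Mem K Γ
  | none => none
  | some a => some ⟨k, a⟩

/-- read back the result of a pop -/
def get (k : K) : Mem K Γ → Option (Γ k)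
  | none => none
  | some ⟨k', a⟩ => if h : k' = k then some (h ▸ a) else none

@[simp] theorem get_put (k : K) (o : Option (Γ k)) : get k (put k o) = o := by
  cases o with
  | none => rfl
  | some a => simp [get, put]

/-- machine code of a program, placed inside a machine with label type `L` -/
def code {L : Type} : (p : Prog K Γ) → (Lab p → L) → L → Lab p → TM2.Stmt Γ L (Mem K Γ)
  | .skip, _, ex, _ => .goto fun _ => ex
  | .push k a, _, ex, _ => .push k (fun _ => a) (.goto fun _ => ex)
  | .seq p q, emb, ex, l => match l with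
    | .inl l => code p (fun l => emb (.inl l)) (emb (.inr (entry q))) l
    | .inr l => code q (fun l => emb (.inr l)) ex l
  | .cases k f, emb, ex, l => match l with
    | .inl _ => .pop k (fun _ o => put k o) (.goto fun v => emb (.inr ⟨get k v, entry _⟩))
    | .inr ⟨o, l⟩ => code (f o) (fun l => emb (.inr ⟨o, l⟩)) ex l
  | .loop k st f, emb, ex, l => match l with
    | .inl _ => .pop k (fun _ o => put k o)
        (.goto fun v => if st (get k v) then ex else emb (.inr ⟨get k v, entry _⟩))
    | .inr ⟨o, l⟩ => code (f o) (fun l => emb (.inr ⟨o, l⟩)) (emb (.inl ())) l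

/-- the iterated step -/
def Runs {L : Type} (M : L → TM2.Stmt Γ L (Mem K Γ)) (n : ℕ)
    (a b : TM2.Cfg Γ L (Mem K Γ)) : Prop :=
  (flip bind (TM2.step M))^[n] (some a) = some b

theorem Runs.trans {L : Type} {M : L → TM2.Stmt Γ L (Mem K Γ)} {n m : ℕ}
    {a b c : TM2.Cfg Γ L (Mem K Γ)} (h : Runs M n a b) (h' : Runs M m b c) :
    Runs M (m + n) a c := by
  unfold Runs at *
  rw [Function.iterate_add_apply, h, h']

theorem sim {L : Type} (M : L → TM2.Stmt Γ L (Mem K Γ)) {p : Prog K Γ} {s : ∀ k, List (Γ k)}
    {t : ℕ} {s' : ∀ k, List (Γ k)} (h : Exec p s t s') :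
    ∀ (emb : Lab p → L) (ex : L), (∀ l, M (emb l) = code p emb ex l) →
    ∀ v, ∃ v', Runs M t ⟨some (emb (entry p)), v, s⟩ ⟨some ex, v', s'⟩ := by
  induction h with
  | skip s =>
    intro emb ex hM v
    refine ⟨v, ?_⟩
    have h0 : M (emb (entry (.skip : Prog K Γ))) = .goto fun _ => ex := hM _
    simp [Runs, flip, TM2.step, h0]
  | push k a s =>
    intro emb ex hM v
    refine ⟨v, ?_⟩
    have h0 : M (emb (entry (.push k a : Prog K Γ))) = .push k (fun _ => a) (.goto fun _ => ex) :=
      hM _
    simp [Runs, flip, TM2.step, h0]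
  | @seq p q s t s' t' s'' _ _ ih1 ih2 =>
    intro emb ex hM v
    obtain ⟨v1, h1⟩ := ih1 (fun l => emb (.inl l)) (emb (.inr (entry q)))
      (fun l => hM (.inl l)) v
    obtain ⟨v2, h2⟩ := ih2 (fun l => emb (.inr l)) ex (fun l => hM (.inr l)) v1
    exact ⟨v2, h1.trans h2⟩
  | @cases k f s t s' _ ih =>
    intro emb ex hM v
    obtain ⟨v1, h1⟩ := ih (fun l => emb (.inr ⟨_, l⟩)) ex (fun l => hM (.inr ⟨_, l⟩))
      (put k (s k).head?)
    refine ⟨v1, Runs.trans (n := 1) ?_ h1⟩
    have h0 : M (emb (entry (.cases k f : Prog K Γ))) = .pop k (fun _ o => put k o)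
      (.goto fun v => emb (.inr ⟨get k v, entry _⟩)) := hM _
    simp only [Runs, flip, Function.iterate_one, Option.bind_eq_bind, Option.bind_some, TM2.step,
      h0, TM2.stepAux]
    exact congrArg (fun o => some (TM2.Cfg.mk (some (emb (Sum.inr ⟨o, entry (f o)⟩)))
      (put k (s k).head?) (Function.update s k (s k).tail))) (get_put _ _)
  | @stop k st f s hs =>
    intro emb ex hM v
    refine ⟨put k (s k).head?, ?_⟩
    have h0 : M (emb (entry (.loop k st f : Prog K Γ))) = .pop k (fun _ o => put k o)
        (.goto fun v => if st (get k v) then ex else emb (.inr ⟨get k v, entry _⟩)) := hM _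
    simp [Runs, flip, TM2.step, h0, hs]
  | @go k st f s t s' t' s'' hs _ _ ih1 ih2 =>
    intro emb ex hM v
    obtain ⟨v1, h1⟩ := ih1 (fun l => emb (.inr ⟨_, l⟩)) (emb (.inl ()))
      (fun l => hM (.inr ⟨_, l⟩)) (put k (s k).head?)
    obtain ⟨v2, h2⟩ := ih2 emb ex hM v1
    refine ⟨v2, Runs.trans (n := 1) ?_ (h1.trans h2)⟩
    have h0 : M (emb (entry (.loop k st f : Prog K Γ))) = .pop k (fun _ o => put k o)
        (.goto fun v => if st (get k v) then ex else emb (.inr ⟨get k v, entry _⟩)) := hM _
    simp only [Runs, flip, Function.iterate_one, Option.bind_eq_bind, Option.bind_some, TM2.step,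
      h0, TM2.stepAux, get_put, hs, Bool.false_eq_true, if_false]
    exact congrArg (fun o => some (TM2.Cfg.mk (some (emb (Sum.inr ⟨o, entry (f o)⟩)))
      (put k (s k).head?) (Function.update s k (s k).tail))) (get_put _ _)

/-- the machine of a program -/
noncomputable def machine [Fintype K] [∀ k, Fintype (Γ k)] (k₀ k₁ : K) (p : Prog K Γ) :
    FinTM2 :=
  { K := K
    k₀ := k₀
    k₁ := k₁
    Γ := Γ
    Λ := Option (Lab p)
    main := some (entry p)
    ΛFin := by have := finite_lab p; exact Fintype.ofFinite _
    σ := Mem K Γ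
    initialState := none
    m := fun l => match l with
      | some l => code p some none l
      | none => .load (fun _ => none) .halt }

theorem dite_update {K : Type} [DecidableEq K] {Γ : K → Type} (k₀ : K) (l : List (Γ k₀)) (k : K) :
    (@dite (List (Γ k)) (k = k₀) _ (fun h => by rw [h]; exact l) fun _ => []) =
      Function.update (fun _ => []) k₀ l k := by
  by_cases h : k = k₀
  · subst h; simp
  · simp [h]

theorem machine_outputs [Fintype K] [∀ k, Fintype (Γ k)] (k₀ k₁ : K) (p : Prog K Γ)
    {l : List (Γ k₀)} {l' : List (Γ k₁)} {t m : ℕ} {s' : ∀ k, List (Γ k)}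
    (h : Exec p (Function.update (fun _ => []) k₀ l) t s')
    (hs' : s' = Function.update (fun _ => []) k₁ l') (hm : t + 1 ≤ m) :
    Nonempty (TM2OutputsInTime (machine k₀ k₁ p) l (some l') m) := by
  obtain ⟨v, hv⟩ := sim (L := Option (Lab p)) (machine k₀ k₁ p).m h some none (fun _ => rfl) none
  have hi : initList (machine k₀ k₁ p) l =
      ⟨some (some (entry p)), none, Function.update (fun _ => []) k₀ l⟩ := by
    unfold initList
    congr 1
    funext k
    exact dite_update k₀ l k
  have hf : haltList (machine k₀ k₁ p) l' =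
      ⟨none, none, Function.update (fun _ => []) k₁ l'⟩ := by
    unfold haltList
    congr 1
    funext k
    exact dite_update k₁ l' k
  have hv' : (flip bind (machine k₀ k₁ p).step)^[t] (some (initList (machine k₀ k₁ p) l)) =
      some ⟨some none, v, s'⟩ := by
    rw [hi]; exact hv
  have hfin : (flip bind (machine k₀ k₁ p).step)^[1 + t] (some (initList (machine k₀ k₁ p) l)) =
      some (haltList (machine k₀ k₁ p) l') := by
    rw [Function.iterate_add_apply, hv', hf, hs']
    rfl
  exact ⟨⟨⟨1 + t, hfin⟩, by simp only; omega⟩⟩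

end Prog

end Pool.Agent.Helper55
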