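import Pool.Agent.Helper55.Number
import Pool.Agent.Helper55.StackProg

set_option autoImplicit false

/-!
The program which computes the hypergraph of a formula.
-/

namespace Pool.Agent.Helper55

namespace Prog

variable {K : Type} [DecidableEq K] {Γ : K → Type}

/-- execution within a time bound -/
def Does (p : Prog K Γ) (s : ∀ k, List (Γ k)) (B : ℕ) (s' : ∀ k, List (Γ k)) : Prop :=
  ∃ t ≤ B, Exec p s t s'

theorem Does.mono {p : Prog K Γ} {s s' : ∀ k, List (Γ k)} {B B' : ℕ} (h : Does p s B s')
    (hB : B ≤ B') : Does p s B' s' := by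
  obtain ⟨t, ht, h⟩ := h
  exact ⟨t, ht.trans hB, h⟩

theorem Does.seq {p q : Prog K Γ} {s s' s'' : ∀ k, List (Γ k)} {B B' : ℕ} (h : Does p s B s')
    (h' : Does q s' B' s'') : Does (.seq p q) s (B + B') s'' := by
  obtain ⟨t, ht, h⟩ := h
  obtain ⟨t', ht', h'⟩ := h'
  exact ⟨t' + t, by omega, .seq h h'⟩

theorem Exec.height {p : Prog K Γ} {s s' : ∀ k, List (Γ k)} {t : ℕ} (h : Exec p s t s') (k : K) :
    (s' k).length ≤ (s k).length + t := by
  have upd : ∀ (s : ∀ k, List (Γ k)) (k' : K), (Function.update s k' (s k').tail k).length ≤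
      (s k).length := by
    intro s k'
    by_cases hk : k = k'
    · subst hk; simp
    · simp [hk]
  induction h with
  | skip s => omega
  | push k' a s =>
    by_cases hk : k = k'
    · subst hk; simp
    · simp [hk]
  | seq _ _ ih1 ih2 => omega
  | @cases k' f s t s' _ ih => have := upd s k'; omega
  | @stop k' st f s _ => have := upd s k'; omega
  | @go k' st f s t s' t' s'' _ _ _ ih1 ih2 => have := upd s k'; omega

end Prog

/-- the stacks -/
inductive Stk : Type
  | inp | out | rev | st | tmp | cnt | a1 | a2 | vr
  deriving DecidableEq, Fintype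

/-- the stack alphabets -/
def Gm : Stk → Type
  | .inp => FSym
  | .out => HSym
  | .rev => HSym
  | .st => Bool
  | _ => Unit

instance : ∀ k, Fintype (Gm k)
  | .inp => inferInstanceAs (Fintype FSym)
  | .out => inferInstanceAs (Fintype HSym)
  | .rev => inferInstanceAs (Fintype HSym)
  | .st => inferInstanceAs (Fintype Bool)
  | .tmp => inferInstanceAs (Fintype Unit)
  | .cnt => inferInstanceAs (Fintype Unit)
  | .a1 => inferInstanceAs (Fintype Unit)
  | .a2 => inferInstanceAs (Fintype Unit)
  | .vr => inferInstanceAs (Fintype Unit)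

/-- contents of the stacks -/
structure Conf : Type where
  inp : List FSym
  out : List HSym
  rev : List HSym
  st : List Bool
  tmp : ℕ
  cnt : ℕ
  a1 : ℕ
  a2 : ℕ
  vr : ℕ

/-- a stack of height `n` -/
def un (n : ℕ) : List Unit := List.replicate n ()

theorem un_succ (n : ℕ) : un (n + 1) = () :: un n := rfl

/-- the stacks of a configuration -/
def Conf.stk (c : Conf) : ∀ k, List (Gm k)
  | .inp => c.inp
  | .out => c.out
  | .rev => c.rev
  | .st => c.st
  | .tmp => un c.tmp
  | .cnt => un c.cnt
  | .a1 => un c.a1
  | .a2 => un c.a2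
  | .vr => un c.vr

/-- programs -/
abbrev Pr : Type := Prog Stk Gm

/-- execution within a time bound -/
def Ex (p : Pr) (c : Conf) (B : ℕ) (c' : Conf) : Prop := Prog.Does p c.stk B c'.stk

theorem Ex.seq {p q : Pr} {a b c : Conf} {B B' : ℕ} (h : Ex p a B b) (h' : Ex q b B' c) :
    Ex (.seq p q) a (B + B') c := Prog.Does.seq h h'

theorem Ex.mono {p : Pr} {a b : Conf} {B B' : ℕ} (h : Ex p a B b) (hB : B ≤ B') :
    Ex p a B' b := Prog.Does.mono h hB

theorem ex_skip (c : Conf) : Ex .skip c 1 c := ⟨1, le_refl _, .skip _⟩

/-- equality of stacks -/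
theorem stk_ext {s s' : ∀ k, List (Gm k)} (h1 : s .inp = s' .inp) (h2 : s .out = s' .out)
    (h3 : s .rev = s' .rev) (h4 : s .st = s' .st) (h5 : s .tmp = s' .tmp) (h6 : s .cnt = s' .cnt)
    (h7 : s .a1 = s' .a1) (h8 : s .a2 = s' .a2) (h9 : s .vr = s' .vr) : s = s' := by
  funext k
  cases k <;> assumption

/-- write a string to the output (which is kept in reverse order on the stack `rev`) -/
def Conf.app (c : Conf) (l : List HSym) : Conf := { c with rev := l.reverse ++ c.rev }

theorem app_app (c : Conf) (l l' : List HSym) : (c.app l).app l' = c.app (l ++ l') := by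
  simp only [Conf.app, List.reverse_append, List.append_assoc]

theorem app_nil (c : Conf) : c.app [] = c := rfl

theorem ex_push_rev (a : HSym) (c : Conf) : Ex (.push .rev a) c 1 (c.app [a]) := by
  refine ⟨1, le_refl _, ?_⟩
  have : (c.app [a]).stk = Function.update c.stk .rev (a :: c.stk .rev) := by
    apply stk_ext <;> rfl
  rw [this]; exact .push _ _ _

theorem ex_push_out (a : HSym) (c : Conf) :
    Ex (.push .out a) c 1 { c with out := a :: c.out } := by
  refine ⟨1, le_refl _, ?_⟩
  have : ({ c with out := a :: c.out } : Conf).stk = Function.update c.stk .out (a :: c.stk .out) := by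
    apply stk_ext <;> rfl
  rw [this]; exact .push _ _ _

theorem ex_push_st (a : Bool) (c : Conf) :
    Ex (.push .st a) c 1 { c with st := a :: c.st } := by
  refine ⟨1, le_refl _, ?_⟩
  have : ({ c with st := a :: c.st } : Conf).stk = Function.update c.stk .st (a :: c.stk .st) := by
    apply stk_ext <;> rfl
  rw [this]; exact .push _ _ _

/-- unary registers -/
inductive Reg : Type
  | tmp | cnt | a1 | a2 | vr
  deriving DecidableEq

/-- the stack of a register -/
def Reg.stk : Reg → Stk
  | .tmp => .tmp
  | .cnt => .cnt
  | .a1 => .a1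
  | .a2 => .a2
  | .vr => .vr

/-- the value of a register -/
def Conf.get (c : Conf) : Reg → ℕ
  | .tmp => c.tmp
  | .cnt => c.cnt
  | .a1 => c.a1
  | .a2 => c.a2
  | .vr => c.vr

/-- change of a register -/
def Conf.set (c : Conf) : Reg → ℕ → Conf
  | .tmp, n => { c with tmp := n }
  | .cnt, n => { c with cnt := n }
  | .a1, n => { c with a1 := n }
  | .a2, n => { c with a2 := n }
  | .vr, n => { c with vr := n }

/-- increment of a register -/
def inc : Reg → Pr
  | .tmp => .push .tmp ()
  | .cnt => .push .cnt ()
  | .a1 => .push .a1 ()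
  | .a2 => .push .a2 ()
  | .vr => .push .vr ()

theorem ex_inc (r : Reg) (c : Conf) : Ex (inc r) c 1 (c.set r (c.get r + 1)) := by
  refine ⟨1, le_refl _, ?_⟩
  cases r with
  | tmp =>
    have : (c.set .tmp (c.get .tmp + 1)).stk = Function.update c.stk .tmp (() :: c.stk .tmp) := by
      apply stk_ext <;> rfl
    rw [this]; exact .push _ _ _
  | cnt =>
    have : (c.set .cnt (c.get .cnt + 1)).stk = Function.update c.stk .cnt (() :: c.stk .cnt) := by
      apply stk_ext <;> rfl
    rw [this]; exact .push _ _ _
  | a1 =>
    have : (c.set .a1 (c.get .a1 + 1)).stk = Function.update c.stk .a1 (() :: c.stk .a1) := by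
      apply stk_ext <;> rfl
    rw [this]; exact .push _ _ _
  | a2 =>
    have : (c.set .a2 (c.get .a2 + 1)).stk = Function.update c.stk .a2 (() :: c.stk .a2) := by
      apply stk_ext <;> rfl
    rw [this]; exact .push _ _ _
  | vr =>
    have : (c.set .vr (c.get .vr + 1)).stk = Function.update c.stk .vr (() :: c.stk .vr) := by
      apply stk_ext <;> rfl
    rw [this]; exact .push _ _ _

/-- repeat a program for each unit of a register -/
def loopR (r : Reg) (p : Pr) : Pr := .loop r.stk (fun o => o.isNone) (fun _ => p)

theorem ex_stop (r : Reg) (p : Pr) (c : Conf) (h : c.get r = 0) : Ex (loopR r p) c 1 c := by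
  refine ⟨1, le_refl _, ?_⟩
  have h0 : c.stk r.stk = [] := by
    cases r <;> (simp only [Conf.get] at h; simp only [Conf.stk, Reg.stk, h]; rfl)
  have h1 := Prog.Exec.stop (k := r.stk) (st := fun o => o.isNone) (f := fun _ => p) (s := c.stk)
    (by rw [h0]; rfl)
  have h2 : Function.update c.stk r.stk (c.stk r.stk).tail = c.stk := by
    rw [h0]
    funext k
    by_cases hk : k = r.stk
    · subst hk; rw [Function.update_self, h0]; rfl
    · rw [Function.update_of_ne hk]
  rw [h2] at h1
  exact h1

theorem ex_go (r : Reg) (p : Pr) (c c' c'' : Conf) (n B B' : ℕ) (h : c.get r = n + 1)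
    (hp : Ex p (c.set r n) B c') (hl : Ex (loopR r p) c' B' c'') :
    Ex (loopR r p) c (B' + B + 1) c'' := by
  obtain ⟨t, ht, hp⟩ := hp
  obtain ⟨t', ht', hl⟩ := hl
  refine ⟨t' + t + 1, by omega, ?_⟩
  have h2 : Function.update c.stk r.stk (c.stk r.stk).tail = (c.set r n).stk := by
    cases r <;>
    · simp only [Conf.get] at h
      apply stk_ext <;> first
        | rfl
        | (simp only [Reg.stk, Conf.stk, Conf.set, h, un_succ, Function.update_self]
           rfl)
  have h1 : (c.stk r.stk).head?.isNone = false := by
    cases r <;> (simp only [Conf.get] at h; simp only [Reg.stk, Conf.stk, h, un_succ]; rfl)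
  refine Prog.Exec.go (s' := c'.stk) h1 ?_ hl
  rw [h2]; exact hp

theorem set_get (c : Conf) (r : Reg) : c.set r (c.get r) = c := by cases r <;> rfl

theorem get_set (c : Conf) (r : Reg) (n : ℕ) : (c.set r n).get r = n := by cases r <;> rfl

theorem get_set_ne (c : Conf) {r r' : Reg} (h : r ≠ r') (n : ℕ) :
    (c.set r n).get r' = c.get r' := by
  cases r <;> cases r' <;> first | rfl | exact absurd rfl h

theorem set_set (c : Conf) (r : Reg) (m n : ℕ) : (c.set r m).set r n = c.set r n := by
  cases r <;> rfl

theorem set_comm (c : Conf) {r r' : Reg} (h : r ≠ r') (m n : ℕ) :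
    (c.set r m).set r' n = (c.set r' n).set r m := by
  cases r <;> cases r' <;> first | rfl | exact absurd rfl h

theorem app_set (c : Conf) (r : Reg) (n : ℕ) (l : List HSym) :
    (c.set r n).app l = (c.app l).set r n := by cases r <;> rfl

theorem get_app (c : Conf) (r : Reg) (l : List HSym) : (c.app l).get r = c.get r := by
  cases r <;> rfl

/-- sequence of programs -/
def seqs : List Pr → Pr
  | [] => .skip
  | p :: l => .seq p (seqs l)

/-- push `n` ones to the output -/
def ones (n : ℕ) : Pr := seqs (List.replicate n (.push .rev .one))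

theorem ex_ones (n : ℕ) (c : Conf) : Ex (ones n) c (n + 1) (c.app (List.replicate n .one)) := by
  induction n generalizing c with
  | zero => exact ex_skip c
  | succ n ih =>
    have h3 := ((ex_push_rev .one c).seq (ih (c.app [.one]))).mono (B' := n + 1 + 1) (by omega)
    rw [app_app] at h3
    exact h3

/-- clear a register -/
def clear (r : Reg) : Pr := loopR r .skip

theorem ex_clear (r : Reg) (c : Conf) : Ex (clear r) c (2 * c.get r + 1) (c.set r 0) := by
  generalize hn : c.get r = n
  induction n generalizing c with
  | zero =>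
    have h1 := ex_stop r .skip c hn
    have h2 := set_get c r
    rw [hn] at h2
    rw [h2]
    exact h1
  | succ n ih =>
    have h2 := ih (c.set r n) (get_set _ _ _)
    rw [set_set] at h2
    exact (ex_go r .skip c _ _ n _ _ hn (ex_skip _) h2).mono (by omega)

/-- move the contents of `tmp` back to a register -/
def restore (r : Reg) : Pr := loopR .tmp (inc r)

theorem ex_restore (r : Reg) (hr : r ≠ .tmp) (c : Conf) :
    Ex (restore r) c (2 * c.get .tmp + 1) ((c.set .tmp 0).set r (c.get r + c.get .tmp)) := by
  generalize hn : c.get .tmp = n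
  induction n generalizing c with
  | zero =>
    have h2 := ex_stop .tmp (inc r) c hn
    have h3 := set_get c .tmp
    rw [hn] at h3
    simp only [Nat.mul_zero, Nat.add_zero, Nat.zero_add]
    rw [h3, set_get]
    exact h2
  | succ n ih =>
    have h2 := ih ((c.set .tmp n).set r (c.get r + 1)) (by
      rw [get_set_ne _ hr, get_set])
    have h3 := ex_inc r (c.set .tmp n)
    rw [get_set_ne _ hr.symm] at h3
    rw [get_set, set_comm _ hr, set_set, set_set] at h2
    have h5 := (ex_go .tmp (inc r) c _ _ n _ _ hn h3 h2).mono (B' := 2 * (n + 1) + 1) (by omega)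
    have e : c.get r + 1 + n = c.get r + (n + 1) := by omega
    rw [e] at h5
    exact h5

/-- for each unit of a register, push `k` ones to the output; the register goes to `tmp` -/
def unload (r : Reg) (k : ℕ) : Pr := loopR r (.seq (inc .tmp) (ones k))

theorem ex_unload (r : Reg) (hr : r ≠ .tmp) (k : ℕ) (c : Conf) :
    Ex (unload r k) c ((k + 3) * c.get r + 1)
      (((c.app (List.replicate (k * c.get r) HSym.one)).set .tmp (c.get .tmp + c.get r)).set
        r 0) := by
  generalize hn : c.get r = n
  induction n generalizing c with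
  | zero =>
    have h2 := ex_stop r (.seq (inc .tmp) (ones k)) c hn
    have h3 := set_get c r
    rw [hn] at h3
    simp only [Nat.mul_zero, Nat.add_zero, Nat.zero_add, List.replicate_zero, app_nil]
    rw [set_get, h3]
    exact h2
  | succ n ih =>
    have e1 := ex_inc .tmp (c.set r n)
    rw [get_set_ne _ hr] at e1
    have e2 := ex_ones k ((c.set r n).set .tmp (c.get .tmp + 1))
    have h2 := ih (((c.set r n).set .tmp (c.get .tmp + 1)).app (List.replicate k HSym.one)) (by
        rw [get_app, get_set_ne _ hr.symm, get_set])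
    have h5 := (ex_go r _ c _ _ n _ _ hn (e1.seq e2) h2).mono (B' := (k + 3) * (n + 1) + 1) (by
      rw [Nat.mul_add]; omega)
    have e' : c.get .tmp + 1 + n = c.get .tmp + (n + 1) := by omega
    have e'' : k + k * n = k * (n + 1) := by ring
    rw [get_app, get_set, app_app, ← List.replicate_add, e', e'', app_set, set_set, app_set,
      set_comm _ hr, set_set] at h5
    exact h5

/-- the register of a role -/
def Role.reg : Role → Reg
  | .self => .cnt
  | .a1 => .a1
  | .a2 => .a2
  | .vr => .vr

theorem Role.reg_ne (r : Role) : r.reg ≠ .tmp := by cases r <;> simp [Role.reg]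

/-- values of the roles in a configuration -/
def Conf.ro (c : Conf) : Role → ℕ := roles c.cnt c.a1 c.a2 c.vr

theorem Conf.ro_eq (c : Conf) (r : Role) : c.ro r = c.get r.reg := by cases r <;> rfl

theorem ro_app (c : Conf) (l : List HSym) : (c.app l).ro = c.ro := rfl

/-- write the number of a vertex -/
noncomputable def emitV (v : V Role) : Pr :=
  match V.loc v with
  | none => .seq (ones (code (V.shape v))) (.push .rev HSym.comma)
  | some r => .seq (unload r.reg KK) (.seq (restore r.reg) (.seq (ones (code (V.shape v)))
      (.push .rev HSym.comma)))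

theorem num_map (ρ : Role → ℕ) (v : V Role) :
    num (V.map ρ v) = KK * ((V.loc v).map ρ).getD 0 + code (V.shape v) := by
  unfold num V.pos
  rw [V.loc_map, V.shape_map]

/-- code of a number -/
def encN (n : ℕ) : List HSym := List.replicate n HSym.one ++ [HSym.comma]

theorem ex_emitV (v : V Role) (c : Conf) (M : ℕ) (hM : ∀ r : Role, c.ro r ≤ M)
    (h0 : c.get .tmp = 0) (hv : code (V.shape v) < KK) :
    Ex (emitV v) c ((KK + 5) * (M + 1)) (c.app (encN (num (V.map c.ro v)))) := by
  rw [num_map]
  unfold emitV
  cases h : V.loc v with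
  | none =>
    simp only [Option.map_none, Option.getD_none, Nat.mul_zero, Nat.zero_add]
    have h1 := (ex_ones (code (V.shape v)) c).seq (ex_push_rev HSym.comma _)
    rw [app_app] at h1
    refine h1.mono ?_
    have : KK + 5 ≤ (KK + 5) * (M + 1) := Nat.le_mul_of_pos_right _ (by omega)
    omega
  | some r =>
    simp only [Option.map_some, Option.getD_some]
    have hne := r.reg_ne
    have h1 := ex_unload r.reg hne KK c
    rw [h0, Nat.zero_add] at h1
    have h2 := ex_restore r.reg hne (((c.app (List.replicate (KK * c.get r.reg) HSym.one)).set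
      .tmp (c.get r.reg)).set r.reg 0)
    have e0 := set_get (c.app (List.replicate (KK * c.get r.reg) HSym.one)) .tmp
    rw [get_app, h0] at e0
    have e1 := set_get (c.app (List.replicate (KK * c.get r.reg) HSym.one)) r.reg
    rw [get_app] at e1
    rw [get_set, get_set_ne _ hne, get_set, Nat.zero_add, set_comm _ hne, set_set, set_set,
      e0, e1] at h2
    have h4 := h1.seq (h2.seq ((ex_ones (code (V.shape v)) _).seq (ex_push_rev HSym.comma _)))
    rw [app_app, app_app, ← List.append_assoc, ← List.replicate_add, ← c.ro_eq] at h4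
    refine h4.mono ?_
    have hr := hM r
    have : (KK + 3) * c.ro r ≤ (KK + 3) * M := Nat.mul_le_mul_left _ hr
    have h7 : (KK + 5) * (M + 1) = (KK + 3) * M + 2 * M + KK + 5 := by ring
    omega

/-- write a hyperedge -/
noncomputable def emitE (e : List (V Role)) : Pr :=
  .seq (seqs (e.map emitV)) (.push .rev HSym.semi)

theorem ex_emitVs (l : List (V Role)) (c : Conf) (M : ℕ) (hM : ∀ r : Role, c.ro r ≤ M)
    (h0 : c.get .tmp = 0) (hv : ∀ v ∈ l, code (V.shape v) < KK) :
    Ex (seqs (l.map emitV)) c (l.length * ((KK + 5) * (M + 1)) + 1)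
      (c.app ((l.map fun v => num (V.map c.ro v)).flatMap encN)) := by
  induction l generalizing c with
  | nil => exact (ex_skip c).mono (by omega)
  | cons v l ih =>
    have h1 := ex_emitV v c M hM h0 (hv v List.mem_cons_self)
    have h2 := ih (c.app (encN (num (V.map c.ro v)))) hM (by rw [get_app]; exact h0)
      (fun v hv' => hv v (List.mem_cons_of_mem _ hv'))
    rw [ro_app, app_app] at h2
    refine (h1.seq h2).mono ?_
    rw [List.length_cons, Nat.add_mul _ 1 ((KK + 5) * (M + 1))]; omega

/-- the code of one hyperedge -/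
def encE (e : List ℕ) : List HSym := e.flatMap encN ++ [HSym.semi]

theorem encEdges_eq (E : List (List ℕ)) : encEdges E = E.flatMap encE := rfl

theorem ex_emitE (l : List (V Role)) (c : Conf) (M : ℕ) (hM : ∀ r : Role, c.ro r ≤ M)
    (h0 : c.get .tmp = 0) (hv : ∀ v ∈ l, code (V.shape v) < KK) :
    Ex (emitE l) c (l.length * ((KK + 5) * (M + 1)) + 2)
      (c.app (encE (l.map fun v => num (V.map c.ro v)))) := by
  have h := (ex_emitVs l c M hM h0 hv).seq (ex_push_rev HSym.semi _)
  rw [app_app] at h
  exact h.mono (by omega)

/-- write a list of hyperedges -/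
noncomputable def emit (E : List (List (V Role))) : Pr := seqs (E.map emitE)

/-- total size of a template -/
def tsize (E : List (List (V Role))) : ℕ := (E.map fun e => e.length + 2).sum + 1

theorem ex_emit (E : List (List (V Role))) (c : Conf) (M : ℕ) (hM : ∀ r : Role, c.ro r ≤ M)
    (h0 : c.get .tmp = 0) (hv : ∀ e ∈ E, ∀ v ∈ e, code (V.shape v) < KK) :
    Ex (emit E) c (tsize E * ((KK + 5) * (M + 1)))
      (c.app (encEdges ((E.map (List.map (V.map c.ro))).map (List.map num)))) := by
  have hpos : 1 ≤ (KK + 5) * (M + 1) := Nat.mul_pos (by omega) (by omega)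
  induction E generalizing c with
  | nil =>
    refine (ex_skip c).mono ?_
    simp only [tsize, List.map_nil, List.sum_nil, Nat.zero_add, Nat.one_mul]
    exact hpos
  | cons e E ih =>
    have h1 := ex_emitE e c M hM h0 (hv e List.mem_cons_self)
    have h2 := ih (c.app (encE (e.map fun v => num (V.map c.ro v)))) hM
      (by rw [get_app]; exact h0) (fun v hv' => hv v (List.mem_cons_of_mem _ hv'))
    rw [ro_app, app_app] at h2
    have ee : encEdges ((((e :: E).map (List.map (V.map c.ro))).map (List.map num))) =
        encE (e.map fun v => num (V.map c.ro v)) ++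
          encEdges ((E.map (List.map (V.map c.ro))).map (List.map num)) := by
      rw [encEdges_eq, encEdges_eq, List.map_cons, List.map_cons, List.flatMap_cons, List.map_map]
      rfl
    rw [ee]
    refine (h1.seq h2).mono ?_
    have : tsize (e :: E) = tsize E + (e.length + 2) := by
      simp only [tsize, List.map_cons, List.sum_cons]; omega
    rw [this]
    generalize (KK + 5) * (M + 1) = w at *
    rw [Nat.add_mul, Nat.add_mul]
    omega

end Pool.Agent.Helper55
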