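import Pool.Agent.Helper55.Machine
import Pool.Agent.Helper55.Compose

set_option autoImplicit false

/-!
The whole program, its running time, and the hardness theorem.
-/

namespace Pool.Agent.Helper55

/-- reverse the text -/
def revLoop : Pr := .loop .rev (fun o => o.isNone) (fun o => match o with
  | none => .skip
  | some a => .push .out a)

/-- final configurations -/
def fc (out rev : List HSym) (cnt : ℕ) : Conf := ⟨[], out, rev, [], 0, cnt, 0, 0, 0⟩

theorem ex_revLoop (l : List HSym) : ∀ (out : List HSym) (p : ℕ),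
    Ex revLoop (fc out l p) (2 * l.length + 1) (fc (l.reverse ++ out) [] p) := by
  induction l with
  | nil =>
    intro out p
    refine ⟨1, by simp, ?_⟩
    have h0 : (fc out [] p).stk .rev = [] := rfl
    have h1 : Function.update (fc out [] p).stk .rev ((fc out [] p).stk .rev).tail =
        (fc ([].reverse ++ out) [] p).stk := by
      rw [h0]; apply stk_ext <;> rfl
    rw [← h1]
    unfold revLoop
    exact Prog.Exec.stop (by rw [h0]; rfl)
  | cons a l ih =>
    intro out p
    obtain ⟨t, ht, h⟩ := ih (a :: out) p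
    refine ⟨t + 1 + 1, by simp only [List.length_cons]; omega, ?_⟩
    have h0 : (fc out (a :: l) p).stk .rev = a :: l := rfl
    have h1 : Function.update (fc out (a :: l) p).stk .rev ((fc out (a :: l) p).stk .rev).tail =
        (fc out l p).stk := by
      rw [h0]; apply stk_ext <;> rfl
    have h2 : (fc (a :: out) l p).stk = Function.update (fc out l p).stk .out
        (a :: (fc out l p).stk .out) := by
      apply stk_ext <;> rfl
    have e : (a :: l).reverse ++ out = l.reverse ++ (a :: out) := by simp
    rw [e]
    unfold revLoop at h ⊢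
    refine Prog.Exec.go (s' := (fc (a :: out) l p).stk) ?_ ?_ h
    · rw [h0]; rfl
    · rw [h1, h0, h2]
      exact Prog.Exec.push _ _ _

/-- push ones to the final output -/
def onesOut (n : ℕ) : Pr := seqs (List.replicate n (.push .out .one))

theorem ex_onesOut (n : ℕ) : ∀ (out rev : List HSym) (p : ℕ),
    Ex (onesOut n) (fc out rev p) (n + 1) (fc (List.replicate n .one ++ out) rev p) := by
  induction n with
  | zero => exact fun out rev p => ex_skip _
  | succ n ih =>
    intro out rev p
    have h1 : Ex (.push .out .one) (fc out rev p) 1 (fc (.one :: out) rev p) := ex_push_out _ _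
    have h3 := (h1.seq (ih (.one :: out) rev p)).mono (B' := n + 1 + 1) (by omega)
    have e : List.replicate n HSym.one ++ (HSym.one :: out) =
        List.replicate (n + 1) HSym.one ++ out := by
      rw [List.replicate_succ', List.append_assoc]; rfl
    rw [e] at h3
    exact h3

theorem ex_outLoop (k : ℕ) (p : ℕ) : ∀ (out : List HSym),
    Ex (loopR .cnt (onesOut k)) (fc out [] p) ((k + 2) * p + 1)
      (fc (List.replicate (k * p) .one ++ out) [] 0) := by
  induction p with
  | zero =>
    intro out
    exact ex_stop .cnt (onesOut k) (fc out [] 0) rfl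
  | succ p ih =>
    intro out
    have h1 : Ex (onesOut k) ((fc out [] (p + 1)).set .cnt p) (k + 1)
      (fc (List.replicate k .one ++ out) [] p) := ex_onesOut k out [] p
    have h2 := (ex_go .cnt (onesOut k) (fc out [] (p + 1)) _ _ p _ _ rfl h1
      (ih (List.replicate k .one ++ out))).mono (B' := (k + 2) * (p + 1) + 1) (by
        rw [Nat.mul_add]; omega)
    have e : List.replicate (k * p) HSym.one ++ (List.replicate k HSym.one ++ out) =
        List.replicate (k * (p + 1)) HSym.one ++ out := by
      rw [← List.append_assoc, ← List.replicate_add, Nat.mul_add, Nat.mul_one]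
    rw [e] at h2
    exact h2

/-- the last part of the program -/
noncomputable def finish : Pr :=
  .seq (.seq (inc .cnt) (.seq (popNum .a1) (.seq (emit finTmpl) (clear .a1))))
    (.seq revLoop (.seq (.push .out .semi) (.seq (inc .cnt) (loopR .cnt (onesOut KK)))))

/-- the hyperedges which do not depend on the formula, with names of vertices given by roles -/
def globT : List (List (V Role)) := globs

/-- the whole program -/
noncomputable def whole : Pr := .seq (.seq (emit globT) mainLoop) finish

/-- the first half of the output -/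
noncomputable def preText (φ : QFFormula) : List HSym :=
  encEdges ((globs : List (List (V ℕ))).map (List.map num)) ++ txt (φ.inst 0)

theorem code_globT : ∀ e ∈ globT, ∀ v ∈ e, code (V.shape v) < KK := by
  intro e he v hv
  apply code_lt
  apply List.mem_append_left
  have h : e.map V.shape ∈ (globs : List (List (V Unit))) := by
    have := globs_map (SN.map fun _ : Role => ()) (pm fun _ : Role => ())
    rw [← this]
    exact List.mem_map_of_mem he
  exact List.mem_flatten.mpr ⟨_, h, List.mem_map_of_mem hv⟩

theorem ex_pre (φ : QFFormula) :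
    Ex (.seq (emit globT) mainLoop) (cl φ.enc [] 0 0 [])
      (SS * ((KK + 5) * (0 + 1)) + (φ.enc.length * WW φ.enc.length + 1))
      (cl [] (numS φ.enc.length ++ []) φ.enc.length 0 (preText φ)) := by
  have h1 := ex_emit globT (cl φ.enc [] 0 0 []) 0 (by
    intro r; cases r <;> exact le_refl _) rfl code_globT
  have hg : globT.map (List.map (V.map (cl φ.enc [] 0 0 []).ro)) =
      (globs : List (List (V ℕ))) := globs_map _ _
  rw [hg] at h1
  have e1 : (cl φ.enc [] 0 0 []).app (encEdges ((globs : List (List (V ℕ))).map (List.map num))) =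
      cl φ.enc [] 0 0 (encEdges ((globs : List (List (V ℕ))).map (List.map num))) := by
    simp only [Conf.app, cl, List.reverse_nil, List.append_nil]
  rw [e1] at h1
  have h2 := reads_formula φ 0 [] [] (encEdges ((globs : List (List (V ℕ))).map (List.map num)))
    φ.enc.length (by omega)
  rw [Nat.zero_add, List.append_nil] at h2
  have h3 : Ex mainLoop (cl [] (numS φ.enc.length ++ []) φ.enc.length 0 (preText φ)) 1
      (cl [] (numS φ.enc.length ++ []) φ.enc.length 0 (preText φ)) := by
    refine ⟨1, le_refl _, ?_⟩
    have h0 : (cl [] (numS φ.enc.length ++ []) φ.enc.length 0 (preText φ)).stk .inp = [] := rfl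
    have h4 : Function.update (cl [] (numS φ.enc.length ++ []) φ.enc.length 0 (preText φ)).stk .inp
        ((cl [] (numS φ.enc.length ++ []) φ.enc.length 0 (preText φ)).stk .inp).tail =
        (cl [] (numS φ.enc.length ++ []) φ.enc.length 0 (preText φ)).stk := by
      rw [h0]; apply stk_ext <;> rfl
    conv => arg 4; rw [← h4]
    unfold mainLoop
    exact Prog.Exec.stop (by rw [h0]; rfl)
  have h5 := h2 1 _ h3
  refine (h1.seq h5).mono ?_
  have h6 : tsize globT ≤ SS := by
    show tsize (globs : List (List (V Role))) ≤ SS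
    unfold SS
    omega
  exact Nat.add_le_add_right (Nat.mul_le_mul_right _ h6) _

theorem ex_mid (m : ℕ) (o : List HSym) :
    Ex (.seq (inc .cnt) (.seq (popNum .a1) (.seq (emit finTmpl) (clear .a1))))
      (cl [] (numS m ++ []) m 0 o)
      (SS * ((KK + 5) * (m + 1 + 1)) + 4 * m + 3)
      (fc [] (o ++ txt (tag (m + 1) (finCon m))).reverse (m + 1)) := by
  have h1 : Ex (inc .cnt) (cl [] (numS m ++ []) m 0 o) 1 (cl [] (numS m ++ []) (m + 1) 0 o) :=
    ex_inc .cnt _
  have h2 : Ex (popNum .a1) (cl [] (numS m ++ []) (m + 1) 0 o) (2 * m + 1)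
      (cla [] [] (m + 1) (0 + m) 0 0 o) := ex_popNum .a1 m [] _ rfl
  rw [Nat.zero_add] at h2
  have h3 := ex_emit finTmpl (cla [] [] (m + 1) m 0 0 o) (m + 1) (by
    intro r; cases r
    · exact le_refl _
    · exact Nat.le_succ _
    · exact Nat.zero_le _
    · exact Nat.zero_le _) rfl (fun e he v hv => code_fin he hv)
  have hr : (cla [] [] (m + 1) m 0 0 o).ro = roles (m + 1) m 0 0 := rfl
  rw [hr, ← locs_fin] at h3
  have e1 : (cla [] [] (m + 1) m 0 0 o).app
      (encEdges ((locs (tag (m + 1) (finCon m))).map (List.map num))) =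
      cla [] [] (m + 1) m 0 0 (o ++ txt (tag (m + 1) (finCon m))) := by
    simp only [Conf.app, cla, List.reverse_append]; rfl
  rw [e1] at h3
  have h4 : Ex (clear .a1) (cla [] [] (m + 1) m 0 0 (o ++ txt (tag (m + 1) (finCon m))))
      (2 * m + 1) (cla [] [] (m + 1) 0 0 0 (o ++ txt (tag (m + 1) (finCon m)))) :=
    ex_clear .a1 _
  refine (h1.seq (h2.seq (h3.seq h4))).mono ?_
  have h6 : tsize finTmpl ≤ SS := by
    unfold SS
    omega
  have h7 := Nat.mul_le_mul_right ((KK + 5) * (m + 1 + 1)) h6
  generalize (KK + 5) * (m + 1 + 1) = w at *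
  omega

/-- a bound of the length of the text -/
noncomputable def TB (m : ℕ) : ℕ := SS * ((KK + 5) * (0 + 1)) + (m * WW m + 1) +
  (SS * ((KK + 5) * (m + 1 + 1)) + 4 * m + 3)

theorem ex_whole (k : ℕ) (hk : 3 ≤ k) (φ : QFFormula) :
    Ex whole (cl φ.enc [] 0 0 [])
      (3 * TB φ.enc.length + (KK + 2) * (φ.enc.length + 2) + 5)
      (fc (φ.graph k hk).enc [] 0) := by
  set m := φ.enc.length with hm
  have h1 := ex_pre φ
  have h2 := ex_mid m (preText φ)
  rw [← hm] at h1
  have h12 := h1.seq h2
  -- the length of the text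
  have hlen : (preText φ ++ txt (tag (m + 1) (finCon m))).reverse.length ≤ TB m := by
    obtain ⟨t, ht, h⟩ := h12
    have := Prog.Exec.height h .rev
    have e1 : (cl φ.enc [] 0 0 []).stk .rev = [] := rfl
    have e2 : (fc [] (preText φ ++ txt (tag (m + 1) (finCon m))).reverse (m + 1)).stk .rev =
      (preText φ ++ txt (tag (m + 1) (finCon m))).reverse := rfl
    rw [e1, e2] at this
    rw [List.length_nil, Nat.zero_add] at this
    unfold TB
    exact this.trans ht
  have h3 := ex_revLoop (preText φ ++ txt (tag (m + 1) (finCon m))).reverse [] (m + 1)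
  rw [List.reverse_reverse, List.append_nil] at h3
  have h4 : Ex (.push .out .semi) (fc (preText φ ++ txt (tag (m + 1) (finCon m))) [] (m + 1)) 1
      (fc (.semi :: (preText φ ++ txt (tag (m + 1) (finCon m)))) [] (m + 1)) := ex_push_out _ _
  have h5 : Ex (inc .cnt) (fc (.semi :: (preText φ ++ txt (tag (m + 1) (finCon m)))) [] (m + 1)) 1
      (fc (.semi :: (preText φ ++ txt (tag (m + 1) (finCon m)))) [] (m + 2)) := ex_inc .cnt _
  have h6 := ex_outLoop KK (m + 2) (.semi :: (preText φ ++ txt (tag (m + 1) (finCon m))))
  have h7 := h1.seq (h2.seq (h3.seq (h4.seq (h5.seq h6))))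
  have e : List.replicate (KK * (m + 2)) HSym.one ++
      .semi :: (preText φ ++ txt (tag (m + 1) (finCon m))) = (φ.graph k hk).enc := by
    have e1 : encEdges φ.hyp = preText φ ++ txt (tag (m + 1) (finCon m)) := by
      unfold QFFormula.hyp preText txt
      rw [hedges_eq, QFFormula.system, locs_append, List.map_append, List.map_append,
        encEdges_append, encEdges_append, List.append_assoc]
    rw [← e1]
    rfl
  rw [e] at h7
  have e9 : TB m = SS * ((KK + 5) * (0 + 1)) + (m * WW m + 1) +
    (SS * ((KK + 5) * (m + 1 + 1)) + 4 * m + 3) := rfl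
  exact h7.mono (by omega)

theorem whole_outputs (k : ℕ) (hk : 3 ≤ k) (φ : QFFormula) :
    Nonempty (Turing.TM2OutputsInTime (Prog.machine Stk.inp Stk.out whole) φ.enc
      (some (φ.graph k hk).enc) (3 * TB φ.enc.length + (KK + 2) * (φ.enc.length + 2) + 6)) := by
  obtain ⟨t, ht, h⟩ := ex_whole k hk φ
  have e1 : (cl φ.enc [] 0 0 []).stk =
      Function.update (fun _ => [] : ∀ k, List (Gm k)) Stk.inp φ.enc := by
    apply stk_ext <;> rfl
  have e2 : (fc (φ.graph k hk).enc [] 0).stk =
      Function.update (fun _ => [] : ∀ k, List (Gm k)) Stk.out (φ.graph k hk).enc := by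
    apply stk_ext <;> rfl
  rw [e1] at h
  exact Prog.machine_outputs Stk.inp Stk.out whole h e2 (by omega)

theorem graph_polytime (k : ℕ) (hk : 3 ≤ k) : Nonempty (Turing.TM2ComputableInPolyTime
    QFFormula.enc (LinHypergraph.enc : LinHypergraph k → List HSym) (QFFormula.graph k hk)) := by
  refine ⟨{
    tm := Prog.machine Stk.inp Stk.out whole
    inputAlphabet := Equiv.refl FSym
    outputAlphabet := Equiv.refl HSym
    time := 3 * (Polynomial.C SS * Polynomial.C (KK + 5) +
      (Polynomial.X * (Polynomial.C (SS + 3) * (Polynomial.C (KK + 5) * (Polynomial.X + 1))) + 1) +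
      (Polynomial.C SS * (Polynomial.C (KK + 5) * (Polynomial.X + 2)) + 4 * Polynomial.X + 3)) +
      Polynomial.C (KK + 2) * (Polynomial.X + 2) + 6
    outputsFun := fun φ => Classical.choice ?_ }⟩
  have h := whole_outputs k hk φ
  have e1 : List.map (Equiv.refl FSym).invFun φ.enc = φ.enc := List.map_id _
  have e2 : List.map (Equiv.refl HSym).invFun (φ.graph k hk).enc = (φ.graph k hk).enc :=
    List.map_id _
  have e3 : Polynomial.eval φ.enc.length (3 * (Polynomial.C SS * Polynomial.C (KK + 5) +
      (Polynomial.X * (Polynomial.C (SS + 3) * (Polynomial.C (KK + 5) * (Polynomial.X + 1))) + 1) +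
      (Polynomial.C SS * (Polynomial.C (KK + 5) * (Polynomial.X + 2)) + 4 * Polynomial.X + 3)) +
      Polynomial.C (KK + 2) * (Polynomial.X + 2) + 6) =
      3 * TB φ.enc.length + (KK + 2) * (φ.enc.length + 2) + 6 := by
    simp only [Polynomial.eval_add, Polynomial.eval_mul, Polynomial.eval_C, Polynomial.eval_X,
      Polynomial.eval_one, Polynomial.eval_ofNat, TB, WW]
    ring
  rw [e3]
  have key : ∀ (l : List FSym) (l' : List HSym), l = φ.enc → l' = (φ.graph k hk).enc →
      Nonempty (Turing.TM2OutputsInTime (Prog.machine Stk.inp Stk.out whole) l (some l')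
        (3 * TB φ.enc.length + (KK + 2) * (φ.enc.length + 2) + 6)) := by
    rintro _ _ rfl rfl
    exact h
  exact key _ _ e1 e2

theorem etr_reduces (k : ℕ) (hk : 3 ≤ k) : PolyReduces ETR (LinearHypergraphRealizability k) :=
  ⟨QFFormula.graph k hk, graph_polytime k hk, fun φ => (graph_realizable k hk φ).symm⟩

theorem hard (k : ℕ) (hk : 3 ≤ k) : ExistsRHard (LinearHypergraphRealizability k) := by
  rintro A ⟨f, ⟨hf⟩, hA⟩
  obtain ⟨g, ⟨hg⟩, hB⟩ := etr_reduces k hk
  have : Inhabited ETR.Sym := inferInstanceAs (Inhabited FSym)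
  exact ⟨g ∘ f, Compose.comp_polytime hf hg, fun x => (hA x).trans (hB (f x))⟩

end Pool.Agent.Helper55
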