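import Pool.Agent.Helper55.Wrap

set_option autoImplicit false

/-!
From formulas to systems of equations.
-/

namespace Pool.Agent.Helper55

/-- the equations of a symbol of a formula; `p` is its position, `i` and `j` are the positions of
the arguments and `x` is the index of the variable -/
def tokCon {P : Type} (tok : FSym) (p i j x : P) : List (SCon (SN P)) :=
  match tok with
  | .tick => []
  | .var => [.add (.aux p 0) (.aux p 0) (.aux p 0), .add (.var x) (.aux p 0) (.val p)]
  | .zero => [.add (.val p) (.val p) (.val p)]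
  | .one => [.one (.val p)]
  | .negOne => [.one (.aux p 0), .add (.aux p 1) (.aux p 1) (.aux p 1),
      .add (.val p) (.aux p 0) (.aux p 1)]
  | .add => [.add (.val i) (.val j) (.val p)]
  | .mul => [.mul (.val i) (.val j) (.val p)]
  | .eq => [.add (.val i) (.aux p 0) (.val j), .add (.aux p 1) (.aux p 1) (.aux p 1),
      .mul (.aux p 0) (.val p) (.aux p 1), .one (.aux p 2), .mul (.aux p 0) (.aux p 3) (.aux p 4),
      .add (.val p) (.aux p 4) (.aux p 2)]
  | .lt => [.add (.val i) (.aux p 0) (.val j), .mul (.val p) (.val p) (.val p),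
      .mul (.aux p 1) (.aux p 1) (.aux p 2), .mul (.aux p 0) (.aux p 2) (.val p),
      .mul (.aux p 3) (.aux p 3) (.aux p 4), .add (.aux p 0) (.aux p 4) (.aux p 5),
      .mul (.val p) (.aux p 6) (.aux p 5)]
  | .le => [.add (.val j) (.aux p 0) (.val i), .mul (.aux p 7) (.aux p 7) (.aux p 7),
      .mul (.aux p 1) (.aux p 1) (.aux p 2), .mul (.aux p 0) (.aux p 2) (.aux p 7),
      .mul (.aux p 3) (.aux p 3) (.aux p 4), .add (.aux p 0) (.aux p 4) (.aux p 5),
      .mul (.aux p 7) (.aux p 6) (.aux p 5), .one (.aux p 8), .add (.val p) (.aux p 7) (.aux p 8)]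
  | .and => [.mul (.val i) (.val j) (.val p)]
  | .or => [.add (.val i) (.val j) (.aux p 0), .mul (.val i) (.val j) (.aux p 1),
      .add (.val p) (.aux p 1) (.aux p 0)]
  | .not => [.add (.val p) (.val i) (.aux p 0), .one (.aux p 0)]

/-- the tagged equations of a symbol -/
def inst (tok : FSym) (p i j x : ℕ) : List ((ℕ × ℕ) × SCon (SN ℕ)) := tag p (tokCon tok p i j x)

/-- the equations of an expression whose code starts after `c` symbols -/
def PolyExpr.inst : PolyExpr → ℕ → List ((ℕ × ℕ) × SCon (SN ℕ))
  | .zero, c => Helper55.inst .zero (c + 1) 0 0 0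
  | .one, c => Helper55.inst .one (c + 1) 0 0 0
  | .negOne, c => Helper55.inst .negOne (c + 1) 0 0 0
  | .var i, c => Helper55.inst .var (c + i + 1) 0 0 i
  | .add s t, c => s.inst c ++ (t.inst (c + s.enc.length) ++
      Helper55.inst .add (c + s.enc.length + t.enc.length + 1) (c + s.enc.length)
        (c + s.enc.length + t.enc.length) 0)
  | .mul s t, c => s.inst c ++ (t.inst (c + s.enc.length) ++
      Helper55.inst .mul (c + s.enc.length + t.enc.length + 1) (c + s.enc.length)
        (c + s.enc.length + t.enc.length) 0)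

/-- the equations of a formula whose code starts after `c` symbols -/
def QFFormula.inst : QFFormula → ℕ → List ((ℕ × ℕ) × SCon (SN ℕ))
  | .eq s t, c => s.inst c ++ (t.inst (c + s.enc.length) ++
      Helper55.inst .eq (c + s.enc.length + t.enc.length + 1) (c + s.enc.length)
        (c + s.enc.length + t.enc.length) 0)
  | .lt s t, c => s.inst c ++ (t.inst (c + s.enc.length) ++
      Helper55.inst .lt (c + s.enc.length + t.enc.length + 1) (c + s.enc.length)
        (c + s.enc.length + t.enc.length) 0)
  | .le s t, c => s.inst c ++ (t.inst (c + s.enc.length) ++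
      Helper55.inst .le (c + s.enc.length + t.enc.length + 1) (c + s.enc.length)
        (c + s.enc.length + t.enc.length) 0)
  | .and s t, c => s.inst c ++ (t.inst (c + s.enc.length) ++
      Helper55.inst .and (c + s.enc.length + t.enc.length + 1) (c + s.enc.length)
        (c + s.enc.length + t.enc.length) 0)
  | .or s t, c => s.inst c ++ (t.inst (c + s.enc.length) ++
      Helper55.inst .or (c + s.enc.length + t.enc.length + 1) (c + s.enc.length)
        (c + s.enc.length + t.enc.length) 0)
  | .not s, c => s.inst c ++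
      Helper55.inst .not (c + s.enc.length + 1) (c + s.enc.length) 0 0

/-- the equation which asserts that the formula is true -/
def finCon {P : Type} (i : P) : List (SCon (SN P)) := [.one (.val i)]

/-- the system of equations of a formula -/
def QFFormula.system (φ : QFFormula) : List ((ℕ × ℕ) × SCon (SN ℕ)) :=
  φ.inst 0 ++ tag (φ.enc.length + 1) (finCon φ.enc.length)

/-! ### soundness -/

theorem holds_inst {tok : FSym} {p i j x : ℕ} {v : SN ℕ → ℝ}
    (h : ∀ y ∈ inst tok p i j x, y.2.Holds v) : ∀ y ∈ tokCon tok p i j x, y.Holds v := by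
  intro y hy
  obtain ⟨k, hk⟩ := exists_mem_tag p hy
  exact h _ hk

theorem lt_sound {r b w w2 y y2 c u : ℝ} (h2 : b * b = b) (h3 : w * w = w2) (h4 : r * w2 = b)
    (h5 : y * y = y2) (h6 : r + y2 = c) (h7 : b * u = c) :
    (0 < r ∧ b = 1) ∨ (¬ 0 < r ∧ b = 0) := by
  have hb : b = 0 ∨ b = 1 := by
    have : b * (b - 1) = 0 := by linarith
    rcases mul_eq_zero.mp this with h | h
    · exact Or.inl h
    · exact Or.inr (by linarith)
  rcases hb with rfl | rfl
  · right
    have : r = -y2 := by linarith
    refine ⟨?_, rfl⟩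
    rw [this, ← h5]
    nlinarith [mul_self_nonneg y]
  · left
    refine ⟨?_, rfl⟩
    have hw : 0 ≤ w2 := by rw [← h3]; exact mul_self_nonneg w
    by_contra hr
    push Not at hr
    have : r * w2 ≤ 0 := mul_nonpos_of_nonpos_of_nonneg hr hw
    linarith

theorem expr_sound (t : PolyExpr) : ∀ (c : ℕ) (v : SN ℕ → ℝ), (∀ y ∈ t.inst c, y.2.Holds v) →
    v (.val (c + t.enc.length)) = t.eval fun i => v (.var i) := by
  induction t with
  | zero =>
    intro c v h
    have := holds_inst h
    simp only [tokCon, List.mem_cons, List.not_mem_nil, or_false, forall_eq, SCon.Holds] at this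
    simp only [PolyExpr.enc, List.length_singleton, PolyExpr.eval]
    linarith
  | one =>
    intro c v h
    have := holds_inst h
    simp only [tokCon, List.mem_cons, List.not_mem_nil, or_false, forall_eq, SCon.Holds] at this
    simpa only [PolyExpr.enc, List.length_singleton, PolyExpr.eval] using this
  | negOne =>
    intro c v h
    have := holds_inst h
    simp only [tokCon, List.mem_cons, List.not_mem_nil, or_false, forall_eq, forall_eq_or_imp,
      SCon.Holds] at this
    obtain ⟨h1, h2, h3⟩ := this
    simp only [PolyExpr.enc, List.length_singleton, PolyExpr.eval]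
    linarith
  | var i =>
    intro c v h
    have := holds_inst h
    simp only [tokCon, List.mem_cons, List.not_mem_nil, or_false, forall_eq, forall_eq_or_imp,
      SCon.Holds] at this
    obtain ⟨h1, h2⟩ := this
    simp only [PolyExpr.enc, List.length_append, List.length_replicate, List.length_singleton,
      PolyExpr.eval, ← Nat.add_assoc]
    linarith
  | add s t ihs iht =>
    intro c v h
    simp only [PolyExpr.inst, List.forall_mem_append] at h
    obtain ⟨h1, h2, h3⟩ := h
    have e1 := ihs _ v h1
    have e2 := iht _ v h2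
    have := holds_inst h3
    simp only [tokCon, List.mem_cons, List.not_mem_nil, or_false, forall_eq, SCon.Holds] at this
    simp only [PolyExpr.enc, List.length_append, List.length_singleton, PolyExpr.eval,
      ← Nat.add_assoc]
    rw [← this, e1, e2]
  | mul s t ihs iht =>
    intro c v h
    simp only [PolyExpr.inst, List.forall_mem_append] at h
    obtain ⟨h1, h2, h3⟩ := h
    have e1 := ihs _ v h1
    have e2 := iht _ v h2
    have := holds_inst h3
    simp only [tokCon, List.mem_cons, List.not_mem_nil, or_false, forall_eq, SCon.Holds] at this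
    simp only [PolyExpr.enc, List.length_append, List.length_singleton, PolyExpr.eval,
      ← Nat.add_assoc]
    rw [← this, e1, e2]

theorem formula_sound (φ : QFFormula) : ∀ (c : ℕ) (v : SN ℕ → ℝ),
    (∀ y ∈ φ.inst c, y.2.Holds v) →
    (φ.Holds (fun i => v (.var i)) ∧ v (.val (c + φ.enc.length)) = 1) ∨
      (¬ φ.Holds (fun i => v (.var i)) ∧ v (.val (c + φ.enc.length)) = 0) := by
  induction φ with
  | eq s t =>
    intro c v h
    simp only [QFFormula.inst, List.forall_mem_append] at h
    obtain ⟨h1, h2, h3⟩ := h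
    have e1 := expr_sound _ _ v h1
    have e2 := expr_sound _ _ v h2
    have := holds_inst h3
    simp only [tokCon, List.mem_cons, List.not_mem_nil, or_false, forall_eq, forall_eq_or_imp,
      SCon.Holds] at this
    obtain ⟨k1, k2, k3, k4, k5, k6⟩ := this
    simp only [QFFormula.enc, List.length_append, List.length_singleton, QFFormula.Holds,
      ← Nat.add_assoc]
    rw [e1, e2] at k1
    generalize PolyExpr.eval _ s = a at *
    generalize PolyExpr.eval _ t = b at *
    have z : v (.aux (c + s.enc.length + t.enc.length + 1) 1) = 0 := by linarith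
    rw [z] at k3
    rcases mul_eq_zero.mp k3 with h | h
    · left
      rw [h] at k5 k1
      refine ⟨by linarith, ?_⟩
      rw [zero_mul] at k5
      linarith
    · right
      refine ⟨?_, h⟩
      intro hab
      have : v (.aux (c + s.enc.length + t.enc.length + 1) 0) = 0 := by linarith
      rw [this, zero_mul] at k5
      linarith
  | lt s t =>
    intro c v h
    simp only [QFFormula.inst, List.forall_mem_append] at h
    obtain ⟨h1, h2, h3⟩ := h
    have e1 := expr_sound _ _ v h1
    have e2 := expr_sound _ _ v h2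
    have := holds_inst h3
    simp only [tokCon, List.mem_cons, List.not_mem_nil, or_false, forall_eq, forall_eq_or_imp,
      SCon.Holds] at this
    obtain ⟨k1, k2, k3, k4, k5, k6, k7⟩ := this
    simp only [QFFormula.enc, List.length_append, List.length_singleton, QFFormula.Holds,
      ← Nat.add_assoc]
    rw [e1, e2] at k1
    rcases lt_sound k2 k3 k4 k5 k6 k7 with ⟨h, h'⟩ | ⟨h, h'⟩
    · exact Or.inl ⟨by linarith, h'⟩
    · exact Or.inr ⟨fun h0 => h (by linarith), h'⟩
  | le s t =>
    intro c v h
    simp only [QFFormula.inst, List.forall_mem_append] at h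
    obtain ⟨h1, h2, h3⟩ := h
    have e1 := expr_sound _ _ v h1
    have e2 := expr_sound _ _ v h2
    have := holds_inst h3
    simp only [tokCon, List.mem_cons, List.not_mem_nil, or_false, forall_eq, forall_eq_or_imp,
      SCon.Holds] at this
    obtain ⟨k1, k2, k3, k4, k5, k6, k7, k8, k9⟩ := this
    simp only [QFFormula.enc, List.length_append, List.length_singleton, QFFormula.Holds,
      ← Nat.add_assoc]
    rw [e1, e2] at k1
    rcases lt_sound k2 k3 k4 k5 k6 k7 with ⟨h, h'⟩ | ⟨h, h'⟩
    · exact Or.inr ⟨fun h0 => by linarith, by linarith⟩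
    · exact Or.inl ⟨by linarith, by linarith⟩
  | and s t ihs iht =>
    intro c v h
    simp only [QFFormula.inst, List.forall_mem_append] at h
    obtain ⟨h1, h2, h3⟩ := h
    have e1 := ihs _ v h1
    have e2 := iht _ v h2
    have := holds_inst h3
    simp only [tokCon, List.mem_cons, List.not_mem_nil, or_false, forall_eq, SCon.Holds] at this
    simp only [QFFormula.enc, List.length_append, List.length_singleton, QFFormula.Holds,
      ← Nat.add_assoc]
    rw [← this]
    rcases e1 with ⟨e1, f1⟩ | ⟨e1, f1⟩ <;> rcases e2 with ⟨e2, f2⟩ | ⟨e2, f2⟩ <;> rw [f1, f2]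
    · exact Or.inl ⟨⟨e1, e2⟩, by norm_num⟩
    · exact Or.inr ⟨fun h => e2 h.2, by norm_num⟩
    · exact Or.inr ⟨fun h => e1 h.1, by norm_num⟩
    · exact Or.inr ⟨fun h => e1 h.1, by norm_num⟩
  | or s t ihs iht =>
    intro c v h
    simp only [QFFormula.inst, List.forall_mem_append] at h
    obtain ⟨h1, h2, h3⟩ := h
    have e1 := ihs _ v h1
    have e2 := iht _ v h2
    have := holds_inst h3
    simp only [tokCon, List.mem_cons, List.not_mem_nil, or_false, forall_eq, forall_eq_or_imp,
      SCon.Holds] at this
    obtain ⟨k1, k2, k3⟩ := this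
    simp only [QFFormula.enc, List.length_append, List.length_singleton, QFFormula.Holds,
      ← Nat.add_assoc]
    rcases e1 with ⟨e1, f1⟩ | ⟨e1, f1⟩ <;> rcases e2 with ⟨e2, f2⟩ | ⟨e2, f2⟩ <;>
      rw [f1, f2] at k1 k2
    · exact Or.inl ⟨Or.inl e1, by linarith⟩
    · exact Or.inl ⟨Or.inl e1, by linarith⟩
    · exact Or.inl ⟨Or.inr e2, by linarith⟩
    · exact Or.inr ⟨fun h => h.elim e1 e2, by linarith⟩
  | not s ihs =>
    intro c v h
    simp only [QFFormula.inst, List.forall_mem_append] at h
    obtain ⟨h1, h3⟩ := h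
    have e1 := ihs _ v h1
    have := holds_inst h3
    simp only [tokCon, List.mem_cons, List.not_mem_nil, or_false, forall_eq, forall_eq_or_imp,
      SCon.Holds] at this
    obtain ⟨k1, k2⟩ := this
    simp only [QFFormula.enc, List.length_append, List.length_singleton, QFFormula.Holds,
      ← Nat.add_assoc]
    rcases e1 with ⟨e1, f1⟩ | ⟨e1, f1⟩
    · exact Or.inr ⟨fun h => h e1, by linarith⟩
    · exact Or.inl ⟨e1, by linarith⟩

/-! ### completeness -/

/-- names with position in the given interval -/
def Inside (a b : ℕ) : SN ℕ → Prop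
  | .val p => a < p ∧ p ≤ b
  | .aux p _ => a < p ∧ p ≤ b
  | .var _ => False

/-- change of the values of the names of one position -/
noncomputable def ov (v : SN ℕ → ℝ) (p : ℕ) (b : ℝ) (g : ℕ → ℝ) : SN ℕ → ℝ
  | .val q => if q = p then b else v (.val q)
  | .aux q k => if q = p then g k else v (.aux q k)
  | .var x => v (.var x)

theorem holds_congr {N : Type} {c : SCon N} {v w : N → ℝ} (h : ∀ n ∈ c.names, v n = w n) :
    c.Holds v ↔ c.Holds w := by
  cases c <;> simp only [SCon.names, List.mem_cons, List.not_mem_nil, or_false, forall_eq,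
    forall_eq_or_imp] at h <;> simp only [SCon.Holds, h]

theorem lt_complete (r : ℝ) : ∃ b w w2 y y2 c u : ℝ, b * b = b ∧ w * w = w2 ∧ r * w2 = b ∧
    y * y = y2 ∧ r + y2 = c ∧ b * u = c := by
  rcases lt_or_ge 0 r with h | h
  · refine ⟨1, 1 / Real.sqrt r, 1 / r, 0, 0, r, r, by norm_num, ?_, ?_, by norm_num, by ring,
      by ring⟩
    · have := Real.mul_self_sqrt h.le
      rw [div_mul_div_comm, this, one_mul]
    · field_simp
  · refine ⟨0, 0, 0, Real.sqrt (-r), -r, 0, 0, by norm_num, by norm_num, by norm_num, ?_,
      by ring, by norm_num⟩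
    exact Real.mul_self_sqrt (by linarith)

theorem tok_solve (tok : FSym) (p i j x : ℕ) (v : SN ℕ → ℝ) (hi : i ≠ p) (hj : j ≠ p) :
    ∃ b g, ∀ y ∈ tokCon tok p i j x, y.Holds (ov v p b g) := by
  cases tok with
  | tick => exact ⟨0, fun _ => 0, by simp [tokCon]⟩
  | var => exact ⟨v (.var x), fun _ => 0, by simp [tokCon, SCon.Holds, ov]⟩
  | zero => exact ⟨0, fun _ => 0, by simp [tokCon, SCon.Holds, ov]⟩
  | one => exact ⟨1, fun _ => 0, by simp [tokCon, SCon.Holds, ov]⟩
  | negOne => exact ⟨-1, fun k => if k = 0 then 1 else 0, by simp [tokCon, SCon.Holds, ov]⟩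
  | add => exact ⟨v (.val i) + v (.val j), fun _ => 0, by simp [tokCon, SCon.Holds, ov, hi, hj]⟩
  | mul => exact ⟨v (.val i) * v (.val j), fun _ => 0, by simp [tokCon, SCon.Holds, ov, hi, hj]⟩
  | eq =>
    by_cases h : v (.val i) = v (.val j)
    · exact ⟨1, fun k => if k = 2 then 1 else 0, by simp [tokCon, SCon.Holds, ov, hi, hj, h]⟩
    · have h' : v (.val j) - v (.val i) ≠ 0 := fun h0 => h (by linarith)
      exact ⟨0, fun k => if k = 0 then v (.val j) - v (.val i) else if k = 1 then 0 else
        if k = 3 then 1 / (v (.val j) - v (.val i)) else 1, by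
          simp [tokCon, SCon.Holds, ov, hi, hj, h']⟩
  | lt =>
    obtain ⟨b, w, w2, y, y2, c, u, h2, h3, h4, h5, h6, h7⟩ :=
      lt_complete (v (.val j) - v (.val i))
    exact ⟨b, fun k => if k = 0 then v (.val j) - v (.val i) else if k = 1 then w else
      if k = 2 then w2 else if k = 3 then y else if k = 4 then y2 else if k = 5 then c else u, by
        simp [tokCon, SCon.Holds, ov, hi, hj, h2, h3, h4, h5, h6, h7]⟩
  | le =>
    obtain ⟨b, w, w2, y, y2, c, u, h2, h3, h4, h5, h6, h7⟩ :=
      lt_complete (v (.val i) - v (.val j))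
    exact ⟨1 - b, fun k => if k = 0 then v (.val i) - v (.val j) else if k = 1 then w else
      if k = 2 then w2 else if k = 3 then y else if k = 4 then y2 else if k = 5 then c else
      if k = 6 then u else if k = 7 then b else 1, by
        simp [tokCon, SCon.Holds, ov, hi, hj, h2, h3, h4, h5, h6, h7]⟩
  | and => exact ⟨v (.val i) * v (.val j), fun _ => 0, by simp [tokCon, SCon.Holds, ov, hi, hj]⟩
  | or => exact ⟨v (.val i) + v (.val j) - v (.val i) * v (.val j),
      fun k => if k = 0 then v (.val i) + v (.val j) else v (.val i) * v (.val j), by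
        simp [tokCon, SCon.Holds, ov, hi, hj]⟩
  | not => exact ⟨1 - v (.val i), fun _ => 1, by simp [tokCon, SCon.Holds, ov, hi]⟩

/-- properties of the list of equations of an expression or a formula -/
structure Good (a b : ℕ) (A : List ((ℕ × ℕ) × SCon (SN ℕ))) : Prop where
  le : a < b
  nodup : (A.map Prod.fst).Nodup
  tags : ∀ y ∈ A, a < y.1.1 ∧ y.1.1 ≤ b
  names : ∀ y ∈ A, ∀ n ∈ y.2.names, Inside a b n ∨ ∃ i, n = .var i
  ext : ∀ v : SN ℕ → ℝ, ∃ v' : SN ℕ → ℝ, (∀ n, ¬ Inside a b n → v' n = v n) ∧
    ∀ y ∈ A, y.2.Holds v'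

theorem Inside.mono {a b a' b' : ℕ} {n : SN ℕ} (h : Inside a b n) (ha : a' ≤ a) (hb : b ≤ b') :
    Inside a' b' n := by
  cases n <;> simp only [Inside] at * <;> omega

theorem Inside.disj {a b c : ℕ} {n : SN ℕ} (h : Inside a b n) : ¬ Inside b c n := by
  cases n <;> simp only [Inside] at * <;> omega

theorem ov_eq {v : SN ℕ → ℝ} {p : ℕ} {b : ℝ} {g : ℕ → ℝ} {n : SN ℕ} {a c : ℕ}
    (h : Inside a c n ∨ ∃ i, n = .var i) (hp : c < p) : ov v p b g n = v n := by
  rcases h with h | ⟨i, rfl⟩
  · cases n with
    | val q =>
      simp only [Inside] at h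
      simp only [ov]
      rw [if_neg (by omega)]
    | aux q k =>
      simp only [Inside] at h
      simp only [ov]
      rw [if_neg (by omega)]
    | var i => rfl
  · rfl

theorem ov_eq' {v : SN ℕ → ℝ} {p : ℕ} {b : ℝ} {g : ℕ → ℝ} {n : SN ℕ} {a c : ℕ}
    (h : ¬ Inside a c n) (hp : a < p) (hp' : p ≤ c) : ov v p b g n = v n := by
  cases n with
  | val q =>
    simp only [Inside] at h
    simp only [ov]
    rw [if_neg (by rintro rfl; exact h ⟨hp, hp'⟩)]
  | aux q k =>
    simp only [Inside] at h
    simp only [ov]
    rw [if_neg (by rintro rfl; exact h ⟨hp, hp'⟩)]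
  | var i => rfl

theorem good_bin {a b c : ℕ} {A B : List ((ℕ × ℕ) × SCon (SN ℕ))} (hA : Good a b A)
    (hB : Good b c B) (tok : FSym)
    (hn : ∀ y ∈ tokCon tok (c + 1) b c 0, ∀ n ∈ y.names, Inside a (c + 1) n ∨ ∃ i, n = .var i) :
    Good a (c + 1) (A ++ (B ++ inst tok (c + 1) b c 0)) := by
  have h1 := hA.le
  have h2 := hB.le
  refine ⟨by omega, ?_, ?_, ?_, ?_⟩
  · rw [List.map_append, List.map_append]
    refine List.Nodup.append hA.nodup (List.Nodup.append hB.nodup (nodup_tag _ _) ?_) ?_
    · intro k hk1 hk2
      obtain ⟨u, hu, rfl⟩ := List.mem_map.mp hk1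
      obtain ⟨w, hw, huw⟩ := List.mem_map.mp hk2
      have := hB.tags u hu
      have h := (mem_tag hw).1
      rw [huw] at h
      omega
    · intro k hk1 hk2
      obtain ⟨u, hu, rfl⟩ := List.mem_map.mp hk1
      have := hA.tags u hu
      rcases List.mem_append.mp hk2 with hk2 | hk2
      · obtain ⟨w, hw, huw⟩ := List.mem_map.mp hk2
        have h := hB.tags w hw
        rw [huw] at h
        omega
      · obtain ⟨w, hw, huw⟩ := List.mem_map.mp hk2
        have h := (mem_tag hw).1
        rw [huw] at h
        omega
  · intro y hy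
    rcases List.mem_append.mp hy with hy | hy
    · have := hA.tags y hy; omega
    · rcases List.mem_append.mp hy with hy | hy
      · have := hB.tags y hy; omega
      · have := (mem_tag hy).1; omega
  · intro y hy n hny
    rcases List.mem_append.mp hy with hy | hy
    · exact (hA.names y hy n hny).imp (fun h => h.mono (le_refl _) (by omega)) id
    · rcases List.mem_append.mp hy with hy | hy
      · exact (hB.names y hy n hny).imp (fun h => h.mono (by omega) (by omega)) id
      · exact hn _ (mem_of_mem_tag hy) n hny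
  · intro v
    obtain ⟨v1, hv1, hv1'⟩ := hA.ext v
    obtain ⟨v2, hv2, hv2'⟩ := hB.ext v1
    obtain ⟨β, g, hg⟩ := tok_solve tok (c + 1) b c 0 v2 (by omega) (by omega)
    refine ⟨ov v2 (c + 1) β g, ?_, ?_⟩
    · intro n hn
      rw [ov_eq' hn (by omega) (by omega), hv2 n (fun h => hn (h.mono (by omega) (by omega))),
        hv1 n (fun h => hn (h.mono (by omega) (by omega)))]
    · intro y hy
      rcases List.mem_append.mp hy with hy | hy
      · refine (holds_congr fun n hn => ?_).mpr (hv1' y hy)
        have hin := hA.names y hy n hn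
        rw [ov_eq hin (by omega), hv2 n ?_]
        rcases hin with h | ⟨i, rfl⟩
        · exact h.disj
        · exact fun h => h
      · rcases List.mem_append.mp hy with hy | hy
        · refine (holds_congr fun n hn => ?_).mpr (hv2' y hy)
          rw [ov_eq (hB.names y hy n hn) (by omega)]
        · exact hg _ (mem_of_mem_tag hy)

theorem good_un {a b : ℕ} {A : List ((ℕ × ℕ) × SCon (SN ℕ))} (hA : Good a b A) (tok : FSym)
    (hn : ∀ y ∈ tokCon tok (b + 1) b 0 0, ∀ n ∈ y.names, Inside a (b + 1) n ∨ ∃ i, n = .var i) :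
    Good a (b + 1) (A ++ inst tok (b + 1) b 0 0) := by
  have h1 := hA.le
  refine ⟨by omega, ?_, ?_, ?_, ?_⟩
  · rw [List.map_append]
    refine List.Nodup.append hA.nodup (nodup_tag _ _) ?_
    · intro k hk1 hk2
      obtain ⟨u, hu, rfl⟩ := List.mem_map.mp hk1
      obtain ⟨w, hw, huw⟩ := List.mem_map.mp hk2
      have := hA.tags u hu
      have h := (mem_tag hw).1
      rw [huw] at h
      omega
  · intro y hy
    rcases List.mem_append.mp hy with hy | hy
    · have := hA.tags y hy; omega
    · have := (mem_tag hy).1; omega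
  · intro y hy n hny
    rcases List.mem_append.mp hy with hy | hy
    · exact (hA.names y hy n hny).imp (fun h => h.mono (le_refl _) (by omega)) id
    · exact hn _ (mem_of_mem_tag hy) n hny
  · intro v
    obtain ⟨v1, hv1, hv1'⟩ := hA.ext v
    obtain ⟨β, g, hg⟩ := tok_solve tok (b + 1) b 0 0 v1 (by omega) (by omega)
    refine ⟨ov v1 (b + 1) β g, ?_, ?_⟩
    · intro n hn
      rw [ov_eq' hn (by omega) (by omega), hv1 n (fun h => hn (h.mono (by omega) (by omega)))]
    · intro y hy
      rcases List.mem_append.mp hy with hy | hy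
      · refine (holds_congr fun n hn => ?_).mpr (hv1' y hy)
        rw [ov_eq (hA.names y hy n hn) (by omega)]
      · exact hg _ (mem_of_mem_tag hy)

theorem good_leaf (a b : ℕ) (hab : a ≤ b) (tok : FSym) (x : ℕ)
    (hn : ∀ y ∈ tokCon tok (b + 1) 0 0 x, ∀ n ∈ y.names, Inside a (b + 1) n ∨ ∃ i, n = .var i) :
    Good a (b + 1) (inst tok (b + 1) 0 0 x) := by
  refine ⟨by omega, nodup_tag _ _, ?_, ?_, ?_⟩
  · intro y hy
    have := (mem_tag hy).1; omega
  · intro y hy n hny
    exact hn _ (mem_of_mem_tag hy) n hny
  · intro v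
    obtain ⟨β, g, hg⟩ := tok_solve tok (b + 1) 0 0 x v (by omega) (by omega)
    refine ⟨ov v (b + 1) β g, ?_, fun y hy => hg _ (mem_of_mem_tag hy)⟩
    intro n hn
    rw [ov_eq' hn (by omega) (by omega)]

theorem expr_good (t : PolyExpr) : ∀ c, Good c (c + t.enc.length) (t.inst c) := by
  induction t with
  | zero =>
    intro c
    exact good_leaf c c (le_refl _) _ _ (by simp [tokCon, SCon.names, Inside])
  | one =>
    intro c
    exact good_leaf c c (le_refl _) _ _ (by simp [tokCon, SCon.names, Inside])
  | negOne =>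
    intro c
    exact good_leaf c c (le_refl _) _ _ (by simp [tokCon, SCon.names, Inside])
  | var i =>
    intro c
    have := good_leaf c (c + i) (by omega) .var i (by
      simp [tokCon, SCon.names, Inside])
    simpa [PolyExpr.inst, PolyExpr.enc, Nat.add_assoc] using this
  | add s t ihs iht =>
    intro c
    have := good_bin (ihs c) (iht (c + s.enc.length)) .add (by
      have := (ihs c).le
      have := (iht (c + s.enc.length)).le
      simp [tokCon, SCon.names, Inside]; omega)
    simpa [PolyExpr.inst, PolyExpr.enc, Nat.add_assoc] using this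
  | mul s t ihs iht =>
    intro c
    have := good_bin (ihs c) (iht (c + s.enc.length)) .mul (by
      have := (ihs c).le
      have := (iht (c + s.enc.length)).le
      simp [tokCon, SCon.names, Inside]; omega)
    simpa [PolyExpr.inst, PolyExpr.enc, Nat.add_assoc] using this

theorem formula_good (φ : QFFormula) : ∀ c, Good c (c + φ.enc.length) (φ.inst c) := by
  induction φ with
  | eq s t =>
    intro c
    have := good_bin (expr_good s c) (expr_good t (c + s.enc.length)) .eq (by
      have := (expr_good s c).le
      have := (expr_good t (c + s.enc.length)).le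
      simp [tokCon, SCon.names, Inside]; omega)
    simpa [QFFormula.inst, QFFormula.enc, Nat.add_assoc] using this
  | lt s t =>
    intro c
    have := good_bin (expr_good s c) (expr_good t (c + s.enc.length)) .lt (by
      have := (expr_good s c).le
      have := (expr_good t (c + s.enc.length)).le
      simp [tokCon, SCon.names, Inside]; omega)
    simpa [QFFormula.inst, QFFormula.enc, Nat.add_assoc] using this
  | le s t =>
    intro c
    have := good_bin (expr_good s c) (expr_good t (c + s.enc.length)) .le (by
      have := (expr_good s c).le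
      have := (expr_good t (c + s.enc.length)).le
      simp [tokCon, SCon.names, Inside]; omega)
    simpa [QFFormula.inst, QFFormula.enc, Nat.add_assoc] using this
  | and s t ihs iht =>
    intro c
    have := good_bin (ihs c) (iht (c + s.enc.length)) .and (by
      have := (ihs c).le
      have := (iht (c + s.enc.length)).le
      simp [tokCon, SCon.names, Inside]; omega)
    simpa [QFFormula.inst, QFFormula.enc, Nat.add_assoc] using this
  | or s t ihs iht =>
    intro c
    have := good_bin (ihs c) (iht (c + s.enc.length)) .or (by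
      have := (ihs c).le
      have := (iht (c + s.enc.length)).le
      simp [tokCon, SCon.names, Inside]; omega)
    simpa [QFFormula.inst, QFFormula.enc, Nat.add_assoc] using this
  | not s ihs =>
    intro c
    have := good_un (ihs c) .not (by
      have := (ihs c).le
      simp [tokCon, SCon.names, Inside]; omega)
    simpa [QFFormula.inst, QFFormula.enc, Nat.add_assoc] using this

theorem system_nodup (φ : QFFormula) : (φ.system.map Prod.fst).Nodup := by
  have hg := formula_good φ 0
  rw [Nat.zero_add] at hg
  rw [QFFormula.system, List.map_append]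
  refine List.Nodup.append hg.nodup (nodup_tag _ _) ?_
  intro k hk1 hk2
  obtain ⟨u, hu, rfl⟩ := List.mem_map.mp hk1
  obtain ⟨w, hw, huw⟩ := List.mem_map.mp hk2
  have := hg.tags u hu
  have h := (mem_tag hw).1
  rw [huw] at h
  omega

theorem system_iff_formula (φ : QFFormula) :
    (∃ v : SN ℕ → ℝ, ∀ y ∈ φ.system, y.2.Holds v) ↔ ∃ x : ℕ → ℝ, φ.Holds x := by
  constructor
  · rintro ⟨v, hv⟩
    rw [QFFormula.system, List.forall_mem_append] at hv
    obtain ⟨h1, h2⟩ := hv
    refine ⟨fun i => v (.var i), ?_⟩
    obtain ⟨k, hk⟩ := exists_mem_tag (φ.enc.length + 1)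
      (l := (finCon φ.enc.length : List (SCon (SN ℕ)))) (a := .one (.val φ.enc.length))
      (by simp [finCon])
    have h3 : v (.val φ.enc.length) = 1 := h2 _ hk
    rcases formula_sound φ 0 v h1 with ⟨h, _⟩ | ⟨_, h⟩
    · exact h
    · rw [Nat.zero_add, h3] at h
      exact absurd h one_ne_zero
  · rintro ⟨x, hx⟩
    obtain ⟨v, hv1, hv2⟩ := (formula_good φ 0).ext (fun n => match n with
      | .var i => x i
      | _ => 0)
    have hvx : (fun i => v (.var i)) = x := by
      funext i
      exact hv1 (.var i) (fun h => h)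
    refine ⟨v, ?_⟩
    rw [QFFormula.system, List.forall_mem_append]
    refine ⟨hv2, fun y hy => ?_⟩
    have hy' := mem_of_mem_tag hy
    simp only [finCon, List.mem_singleton] at hy'
    rw [hy']
    show v (.val φ.enc.length) = 1
    have := formula_sound φ 0 v hv2
    rw [hvx, Nat.zero_add] at this
    rcases this with ⟨_, h⟩ | ⟨h, _⟩
    · exact h
    · exact absurd hx h

end Pool.Agent.Helper55
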