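import Mathlib

set_option autoImplicit false

/-!
Elementary projective geometry of real three-dimensional vectors.
-/

namespace Pool.Agent.Helper55

/-- three-dimensional vectors -/
abbrev V3 : Type := ℝ × ℝ × ℝ

/-- dot product -/
def dot (a b : V3) : ℝ := a.1 * b.1 + a.2.1 * b.2.1 + a.2.2 * b.2.2

/-- cross product -/
def crs (a b : V3) : V3 :=
  (a.2.1 * b.2.2 - a.2.2 * b.2.1, a.2.2 * b.1 - a.1 * b.2.2, a.1 * b.2.1 - a.2.1 * b.1)

/-- determinant -/
def det3 (a b c : V3) : ℝ := dot (crs a b) c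

/-- not parallel -/
def NP (a b : V3) : Prop := crs a b ≠ 0

theorem dot_add (n a b : V3) : dot n (a + b) = dot n a + dot n b := by
  simp only [dot, Prod.fst_add, Prod.snd_add]; ring

theorem dot_smul (n a : V3) (x : ℝ) : dot n (x • a) = x * dot n a := by
  simp only [dot, Prod.smul_fst, Prod.smul_snd, smul_eq_mul]; ring

theorem dot_zero (n : V3) : dot n 0 = 0 := by simp [dot]

theorem dot_comm' (a b : V3) : dot a b = dot b a := by simp only [dot]; ring

theorem dot_self_ne {a : V3} (h : a ≠ 0) : dot a a ≠ 0 := by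
  obtain ⟨x, y, z⟩ := a
  simp only [dot]
  intro h0
  apply h
  have hx : x = 0 := by nlinarith [sq_nonneg x, sq_nonneg y, sq_nonneg z]
  have hy : y = 0 := by nlinarith [sq_nonneg x, sq_nonneg y, sq_nonneg z]
  have hz : z = 0 := by nlinarith [sq_nonneg x, sq_nonneg y, sq_nonneg z]
  rw [hx, hy, hz]; rfl

theorem det3_rot (a b c : V3) : det3 a b c = det3 b c a := by
  simp only [det3, dot, crs]; ring

theorem det3_swap (a b c : V3) : det3 a b c = -det3 b a c := by
  simp only [det3, dot, crs]; ring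

theorem NP.symm {a b : V3} (h : NP a b) : NP b a := by
  intro h0
  apply h
  have : crs a b = - crs b a := by
    simp only [crs, Prod.neg_mk]; ext <;> simp only <;> ring
  rw [this, h0, neg_zero]

theorem NP.ne_left {a b : V3} (h : NP a b) : a ≠ 0 := by
  rintro rfl; apply h; simp [crs]

theorem NP.ne_right {a b : V3} (h : NP a b) : b ≠ 0 := h.symm.ne_left

theorem np_of_det {a b c : V3} (h : det3 a b c ≠ 0) : NP a b := by
  intro h0; apply h; rw [det3, h0]; simp [dot]

theorem exists_det {a b : V3} (h : NP a b) : ∃ c, det3 a b c ≠ 0 :=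
  ⟨crs a b, dot_self_ne h⟩

/-- if `c` lies in the plane of `a` and `b` it is a combination of them -/
theorem exists_comb {a b c : V3} (h : NP a b) (hd : det3 a b c = 0) :
    ∃ x y : ℝ, c = x • a + y • b := by
  have hn : dot (crs a b) (crs a b) ≠ 0 := dot_self_ne h
  refine ⟨dot (crs c b) (crs a b) / dot (crs a b) (crs a b),
    dot (crs a c) (crs a b) / dot (crs a b) (crs a b), ?_⟩
  obtain ⟨a1, a2, a3⟩ := a
  obtain ⟨b1, b2, b3⟩ := b
  obtain ⟨c1, c2, c3⟩ := c
  simp only [det3, dot, crs] at hn hd ⊢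
  simp only [Prod.smul_mk, smul_eq_mul, Prod.mk_add_mk, Prod.mk.injEq]
  refine ⟨?_, ?_, ?_⟩
  · rw [div_mul_eq_mul_div, div_mul_eq_mul_div, ← add_div, eq_div_iff hn]
    linear_combination (a2 * b3 - a3 * b2) * hd
  · rw [div_mul_eq_mul_div, div_mul_eq_mul_div, ← add_div, eq_div_iff hn]
    linear_combination (a3 * b1 - a1 * b3) * hd
  · rw [div_mul_eq_mul_div, div_mul_eq_mul_div, ← add_div, eq_div_iff hn]
    linear_combination (a1 * b2 - a2 * b1) * hd

theorem det3_comb (a b c : V3) (x1 x2 x3 y1 y2 y3 z1 z2 z3 : ℝ) :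
    det3 (x1 • a + x2 • b + x3 • c) (y1 • a + y2 • b + y3 • c) (z1 • a + z2 • b + z3 • c) =
      (x1 * (y2 * z3 - y3 * z2) - x2 * (y1 * z3 - y3 * z1) + x3 * (y1 * z2 - y2 * z1)) *
        det3 a b c := by
  obtain ⟨a1, a2, a3⟩ := a
  obtain ⟨b1, b2, b3⟩ := b
  obtain ⟨c1, c2, c3⟩ := c
  simp only [det3, dot, crs, Prod.smul_mk, smul_eq_mul, Prod.mk_add_mk]
  ring

/-- uniqueness of coordinates -/
theorem coord_unique {a b c : V3} (h : det3 a b c ≠ 0) {x y z x' y' z' : ℝ}
    (he : x • a + y • b + z • c = x' • a + y' • b + z' • c) : x = x' ∧ y = y' ∧ z = z' := by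
  have key : ∀ u v w : ℝ, u • a + v • b + w • c = 0 → u = 0 ∧ v = 0 ∧ w = 0 := by
    intro u v w h0
    have h1 : det3 (u • a + v • b + w • c) b c = u * det3 a b c := by
      obtain ⟨a1, a2, a3⟩ := a
      obtain ⟨b1, b2, b3⟩ := b
      obtain ⟨c1, c2, c3⟩ := c
      simp only [det3, dot, crs, Prod.smul_mk, smul_eq_mul, Prod.mk_add_mk]; ring
    have h2 : det3 a (u • a + v • b + w • c) c = v * det3 a b c := by
      obtain ⟨a1, a2, a3⟩ := a
      obtain ⟨b1, b2, b3⟩ := b
      obtain ⟨c1, c2, c3⟩ := c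
      simp only [det3, dot, crs, Prod.smul_mk, smul_eq_mul, Prod.mk_add_mk]; ring
    have h3 : det3 a b (u • a + v • b + w • c) = w * det3 a b c := by
      obtain ⟨a1, a2, a3⟩ := a
      obtain ⟨b1, b2, b3⟩ := b
      obtain ⟨c1, c2, c3⟩ := c
      simp only [det3, dot, crs, Prod.smul_mk, smul_eq_mul, Prod.mk_add_mk]; ring
    rw [h0] at h1 h2 h3
    have e1 : det3 0 b c = 0 := by simp [det3, dot, crs]
    have e2 : det3 a 0 c = 0 := by simp [det3, dot, crs]
    have e3 : det3 a b 0 = 0 := by simp [det3, dot, crs]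
    rw [e1] at h1; rw [e2] at h2; rw [e3] at h3
    exact ⟨(mul_eq_zero.mp h1.symm).resolve_right h, (mul_eq_zero.mp h2.symm).resolve_right h,
      (mul_eq_zero.mp h3.symm).resolve_right h⟩
  have h0 : (x - x') • a + (y - y') • b + (z - z') • c = 0 := by
    have : (x - x') • a + (y - y') • b + (z - z') • c =
      (x • a + y • b + z • c) - (x' • a + y' • b + z' • c) := by
        simp only [sub_smul]; abel
    rw [this, he, sub_self]
  obtain ⟨h1, h2, h3⟩ := key _ _ _ h0
  exact ⟨by linarith, by linarith, by linarith⟩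

/-- three vectors orthogonal to a nonzero vector are dependent -/
theorem det3_of_orth {n x y z : V3} (hn : n ≠ 0) (hx : dot n x = 0) (hy : dot n y = 0)
    (hz : dot n z = 0) : det3 x y z = 0 := by
  obtain ⟨n1, n2, n3⟩ := n
  obtain ⟨x1, x2, x3⟩ := x
  obtain ⟨y1, y2, y3⟩ := y
  obtain ⟨z1, z2, z3⟩ := z
  simp only [det3, dot, crs] at *
  have h1 : n1 * ((x2 * y3 - x3 * y2) * z1 + (x3 * y1 - x1 * y3) * z2 + (x1 * y2 - x2 * y1) * z3)
      = 0 := by
    linear_combination (y2 * z3 - y3 * z2) * hx - (x2 * z3 - x3 * z2) * hy +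
      (x2 * y3 - x3 * y2) * hz
  have h2 : n2 * ((x2 * y3 - x3 * y2) * z1 + (x3 * y1 - x1 * y3) * z2 + (x1 * y2 - x2 * y1) * z3)
      = 0 := by
    linear_combination -(y1 * z3 - y3 * z1) * hx + (x1 * z3 - x3 * z1) * hy -
      (x1 * y3 - x3 * y1) * hz
  have h3 : n3 * ((x2 * y3 - x3 * y2) * z1 + (x3 * y1 - x1 * y3) * z2 + (x1 * y2 - x2 * y1) * z3)
      = 0 := by
    linear_combination (y1 * z2 - y2 * z1) * hx - (x1 * z2 - x2 * z1) * hy +
      (x1 * y2 - x2 * y1) * hz
  by_contra hne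
  have e1 := (mul_eq_zero.mp h1).resolve_right hne
  have e2 := (mul_eq_zero.mp h2).resolve_right hne
  have e3 := (mul_eq_zero.mp h3).resolve_right hne
  apply hn
  rw [e1, e2, e3]; rfl

/-- a point collinear with two points of a plane lies in the plane -/
theorem in_plane {n a b c : V3} (ha : dot n a = 0) (hb : dot n b = 0) (h : NP a b)
    (hd : det3 a b c = 0) : dot n c = 0 := by
  obtain ⟨x, y, rfl⟩ := exists_comb h hd
  rw [dot_add, dot_smul, dot_smul, ha, hb]; ring

theorem det3_perm1 {a b c : V3} (h : det3 a b c = 0) : det3 b c a = 0 := by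
  rw [← det3_rot]; exact h

theorem det3_perm2 {a b c : V3} (h : det3 a b c = 0) : det3 c a b = 0 :=
  det3_perm1 (det3_perm1 h)

theorem det3_perm3 {a b c : V3} (h : det3 a b c = 0) : det3 b a c = 0 := by
  rw [det3_swap, h, neg_zero]

theorem det3_perm4 {a b c : V3} (h : det3 a b c = 0) : det3 a c b = 0 :=
  det3_perm1 (det3_perm3 h)

/-- Pappus's theorem, without non-degeneracy hypotheses besides distinctness -/
theorem pappus {A B C D E F X Y Z : V3} (hAB : NP A B) (hAC : NP A C) (hBC : NP B C)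
    (hDE : NP D E) (hDF : NP D F) (hEF : NP E F)
    (hAX : NP A X) (hEX : NP E X) (hBX : NP B X) (hDX : NP D X)
    (hAY : NP A Y) (hFY : NP F Y) (hCY : NP C Y) (hDY : NP D Y)
    (hBZ : NP B Z) (hFZ : NP F Z) (hCZ : NP C Z) (hEZ : NP E Z)
    (hAE : NP A E) (hBD : NP B D) (hAF : NP A F) (hCD : NP C D) (hBF : NP B F) (hCE : NP C E)
    (h1 : det3 A B C = 0) (h2 : det3 D E F = 0) (h3 : det3 A E X = 0) (h4 : det3 B D X = 0)
    (h5 : det3 A F Y = 0) (h6 : det3 C D Y = 0) (h7 : det3 B F Z = 0) (h8 : det3 C E Z = 0) :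
    det3 X Y Z = 0 := by
  set n := crs A B with hn
  set m := crs D E with hm
  have nA : dot n A = 0 := by simp only [hn, dot, crs]; ring
  have nB : dot n B = 0 := by simp only [hn, dot, crs]; ring
  have nC : dot n C = 0 := h1
  have mD : dot m D = 0 := by simp only [hm, dot, crs]; ring
  have mE : dot m E = 0 := by simp only [hm, dot, crs]; ring
  have mF : dot m F = 0 := h2
  by_cases hc : dot n D = 0 ∧ dot n E = 0
  · obtain ⟨nD, nE⟩ := hc
    have nF : dot n F = 0 := in_plane nD nE hDE h2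
    have nX : dot n X = 0 := in_plane nA nE hAE h3
    have nY : dot n Y = 0 := in_plane nA nF hAF h5
    have nZ : dot n Z = 0 := in_plane nB nF hBF h7
    exact det3_of_orth hAB nX nY nZ
  -- the lines are different
  have nD : dot n D ≠ 0 := by
    intro nD
    have nX := in_plane nB nD hBD h4
    exact hc ⟨nD, in_plane nA nX hAX (det3_perm4 h3)⟩
  have mA : dot m A ≠ 0 := by
    intro mA
    have mX := in_plane mA mE hAE h3
    have mB := in_plane mD mX hDX (det3_perm1 h4)
    exact nD (by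
      have := det3_of_orth hDE mA mB mD
      exact this)
  obtain ⟨κ, hκ⟩ : ∃ κ, dot m B = κ * dot m A := ⟨dot m B / dot m A, by field_simp⟩
  obtain ⟨g, hg⟩ : ∃ g : V3, B = g + κ • A := ⟨B - κ • A, by abel⟩
  have mg : dot m g = 0 := by
    have : dot m B = dot m g + κ * dot m A := by rw [hg, dot_add, dot_smul]
    linarith
  have ng : dot n g = 0 := by
    have : dot n B = dot n g + κ * dot n A := by rw [hg, dot_add, dot_smul]
    rw [nA, nB] at this; linarith
  have hdet : det3 g A D ≠ 0 := by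
    have : det3 g A D = - dot n D := by
      rw [hn, hg]
      obtain ⟨g1, g2, g3⟩ := g
      obtain ⟨a1, a2, a3⟩ := A
      obtain ⟨d1, d2, d3⟩ := D
      simp only [det3, dot, crs, Prod.smul_mk, smul_eq_mul, Prod.mk_add_mk]; ring
    rw [this]; exact neg_ne_zero.mpr nD
  have hgA : NP g A := np_of_det hdet
  have hgD : NP g D := by
    have : det3 g D A ≠ 0 := by
      intro h0; exact hdet (det3_perm4 h0)
    exact np_of_det this
  obtain ⟨c, γ, hC⟩ := exists_comb hgA (det3_of_orth hAB ng nA nC)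
  obtain ⟨e, ε, hE⟩ := exists_comb hgD (det3_of_orth hDE mg mD mE)
  obtain ⟨f, φ, hF⟩ := exists_comb hgD (det3_of_orth hDE mg mD mF)
  obtain ⟨x1, x2, hX⟩ := exists_comb hAE h3
  obtain ⟨x3, x4, hX'⟩ := exists_comb hBD h4
  obtain ⟨y1, y2, hY⟩ := exists_comb hAF h5
  obtain ⟨y3, y4, hY'⟩ := exists_comb hCD h6
  obtain ⟨z1, z2, hZ⟩ := exists_comb hBF h7
  obtain ⟨z3, z4, hZ'⟩ := exists_comb hCE h8
  have eX : (x2 * e) • g + x1 • A + (x2 * ε) • D = x3 • g + (x3 * κ) • A + x4 • D := by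
    have : x1 • A + x2 • E = x3 • B + x4 • D := by rw [← hX, ← hX']
    rw [hE, hg] at this
    calc _ = x1 • A + x2 • (e • g + ε • D) := by module
      _ = _ := this
      _ = _ := by module
  have eY : (y2 * f) • g + y1 • A + (y2 * φ) • D = (y3 * c) • g + (y3 * γ) • A + y4 • D := by
    have : y1 • A + y2 • F = y3 • C + y4 • D := by rw [← hY, ← hY']
    rw [hF, hC] at this
    calc _ = y1 • A + y2 • (f • g + φ • D) := by module
      _ = _ := this
      _ = _ := by module
  have eZ : (z1 + z2 * f) • g + (z1 * κ) • A + (z2 * φ) • D =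
      (z3 * c + z4 * e) • g + (z3 * γ) • A + (z4 * ε) • D := by
    have : z1 • B + z2 • F = z3 • C + z4 • E := by rw [← hZ, ← hZ']
    rw [hF, hC, hE, hg] at this
    calc _ = z1 • (g + κ • A) + z2 • (f • g + φ • D) := by module
      _ = _ := this
      _ = _ := by module
  obtain ⟨x5, x6, x7⟩ := coord_unique hdet eX
  obtain ⟨y5, y6, y7⟩ := coord_unique hdet eY
  obtain ⟨z5, z6, z7⟩ := coord_unique hdet eZ
  have fX : X = (x2 * e) • g + x1 • A + (x2 * ε) • D := by rw [hX, hE]; module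
  have fY : Y = (y2 * f) • g + y1 • A + (y2 * φ) • D := by rw [hY, hF]; module
  have fZ : Z = (z3 * c + z4 * e) • g + (z3 * γ) • A + (z4 * ε) • D := by rw [hZ', hC, hE]; module
  rw [fX, fY, fZ, det3_comb]
  have hx1 : x1 = x2 * e * κ := by rw [x6, x5]
  have hS : (x2 * e * (y1 * (z4 * ε) - y2 * φ * (z3 * γ)) -
      x1 * (y2 * f * (z4 * ε) - y2 * φ * (z3 * c + z4 * e)) +
      x2 * ε * (y2 * f * (z3 * γ) - y1 * (z3 * c + z4 * e))) = 0 := by
    linear_combination (-(y2 * f * z4 * ε - y2 * φ * (z3 * c + z4 * e))) * hx1 +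
      (-x2 * ε * z3 * c) * y6 + (x2 * ε * z3 * γ) * y5 + (x2 * e * y2 * φ) * z6 +
      (x2 * e * y2 * κ * f) * z7 - (x2 * e * y2 * κ * φ) * z5
  rw [hS, zero_mul]

end Pool.Agent.Helper55
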