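import Pool.Agent.Helper55.Geom

set_option autoImplicit false

/-!
The layers of the reduction: systems of equations, systems with large values, point
configurations, hypergraphs.
-/

namespace Pool.Agent.Helper55

/-- names of the unknowns of the first system -/
inductive SN (P : Type) : Type
  | val (p : P)
  | aux (p : P) (c : ℕ)
  | var (x : P)

/-- equations of the first system -/
inductive SCon (N : Type) : Type
  | add (x y z : N)
  | mul (x y z : N)
  | one (x : N)

/-- names of the second system -/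
inductive AN (N T : Type) : Type
  | s (n : N)
  | f (t : T) (r : ℕ)
  | tt
  | t2
  | g

/-- equations of the second system -/
inductive ACon (N : Type) : Type
  | add (x y z : N)
  | mul (x y z : N)
  | one (x y : N)

/-- names of points -/
inductive PN (N T : Type) : Type
  | O
  | D
  | M
  | E
  | h (n : N)
  | f (t : T) (r : ℕ)

/-- conditions on points -/
inductive PCon (N : Type) : Type
  | col (x y z : N)
  | non (x y z : N)

/-- names of vertices -/
inductive HN (N T : Type) : Type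
  | b (n : N)
  | u (t : T) (r : ℕ)
  | q (t : T) (s r : ℕ)

/-- attach tags -/
def tag {T α : Type} (t : T) (l : List α) : List ((T × ℕ) × α) :=
  l.zipIdx.map fun a => ((t, a.2), a.1)

def SCon.Holds {N : Type} (v : N → ℝ) : SCon N → Prop
  | .add x y z => v x + v y = v z
  | .mul x y z => v x * v y = v z
  | .one x => v x = 1

def ACon.Holds {N : Type} (v : N → ℝ) : ACon N → Prop
  | .add x y z => v x + v y = v z
  | .mul x y z => v x * v y = v z
  | .one x y => v y = 1 + v x

/-- validity of a condition on points, with non-parallelism of the three vectors -/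
def PCon.Holds {N : Type} (p : N → V3) : PCon N → Prop
  | .col x y z => det3 (p x) (p y) (p z) = 0 ∧ NP (p x) (p y) ∧ NP (p y) (p z) ∧ NP (p x) (p z)
  | .non x y z => det3 (p x) (p y) (p z) ≠ 0

section Expand

variable {N T : Type}

def expand1 (t : T) : SCon N → List (ACon (AN N T))
  | .add x y z => [.add (.s x) (.s y) (.f t 0), .add (.s z) .tt (.f t 0)]
  | .mul x y z => [.mul (.s x) (.s y) (.f t 0), .add (.f t 0) .g (.f t 1),
      .add (.s x) (.s y) (.f t 2), .mul .tt (.f t 2) (.f t 3), .add (.s z) (.f t 3) (.f t 1)]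
  | .one x => [.one .tt (.s x)]

def glob1 : List (ACon (AN N T)) := [.mul .tt .tt .t2, .add .t2 .tt .g]

def addlike (t : T) (a b c : PN N T) : List (PCon (PN N T)) :=
  [.non a .D .M, .non b .D .M, .col .D a (.f t 0), .col .D b (.f t 1), .col .D c (.f t 2),
    .col .O (.f t 0) (.f t 3), .col .O (.f t 1) (.f t 4), .col .D .M (.f t 3),
    .col .D .M (.f t 4), .col (.f t 2) (.f t 0) (.f t 4), .col (.f t 2) (.f t 1) (.f t 3),
    .non .O (.f t 0) (.f t 1)]

def expand2 (t : T) : ACon N → List (PCon (PN N T))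
  | .add x y z => addlike t (.h x) (.h y) (.h z)
  | .one x y => addlike t .E (.h x) (.h y)
  | .mul x y z => [.non (.h x) .D .M, .non (.h y) .D .M, .col .D (.h x) (.f t 0),
      .col .D (.h y) (.f t 1), .col .D (.h z) (.f t 2), .col .D .E (.f t 3),
      .col .O (.f t 0) (.f t 3), .col .D .M (.f t 4), .col (.f t 4) (.f t 3) (.f t 1),
      .col (.f t 4) (.f t 0) (.f t 2), .col .O (.f t 1) (.f t 2), .non .O (.f t 0) (.f t 1)]

def glob2 : List (PCon (PN N T)) := [.non .O .D .M, .non .E .D .M, .non .E .D .O]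

/-- the Pappus gadget -/
def pap (t : T) (s : ℕ) (X Y Z : HN N T) : List (List (HN N T)) :=
  [[.q t s 0, .q t s 1, .q t s 2], [.q t s 3, .q t s 4, .q t s 5],
    [.q t s 0, .q t s 4, X], [.q t s 1, .q t s 3, X],
    [.q t s 0, .q t s 5, Y], [.q t s 2, .q t s 3, Y],
    [.q t s 1, .q t s 5, Z], [.q t s 2, .q t s 4, Z]]

def tri (t : T) : List (List (HN N T)) := [[.u t 0, .u t 1], [.u t 1, .u t 2], [.u t 0, .u t 2]]

def expand3 (t : T) : PCon N → List (List (HN N T))
  | .col x y z => pap t 0 (.b x) (.b y) (.b z)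
  | .non x y z => pap t 0 (.b x) (.b y) (.u t 0) ++ (pap t 1 (.b y) (.b z) (.u t 1) ++
      (pap t 2 (.b x) (.b z) (.u t 2) ++ tri t))

end Expand

/-- all equations of the second system -/
def lay1 {N T : Type} (L : List (T × SCon N)) : List ((Option T × ℕ) × ACon (AN N T)) :=
  tag none glob1 ++ L.flatMap fun c => tag (some c.1) (expand1 c.1 c.2)

/-- all conditions on points -/
def lay2 {N T : Type} (L : List (T × ACon N)) : List ((Option T × ℕ) × PCon (PN N T)) :=
  tag none glob2 ++ L.flatMap fun c => tag (some c.1) (expand2 c.1 c.2)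

/-- all hyperedges -/
def lay3 {N T : Type} (L : List (T × PCon N)) : List (List (HN N T)) :=
  L.flatMap fun c => expand3 c.1 c.2

theorem mem_tag {T α : Type} {t : T} {l : List α} {x : (T × ℕ) × α} (h : x ∈ tag t l) :
    x.1.1 = t ∧ l[x.1.2]? = some x.2 := by
  unfold tag at h
  rw [List.mem_map] at h
  obtain ⟨a, ha, rfl⟩ := h
  exact ⟨rfl, List.mem_zipIdx_iff_getElem?.mp ha⟩

theorem mem_of_mem_tag {T α : Type} {t : T} {l : List α} {x : (T × ℕ) × α} (h : x ∈ tag t l) :
    x.2 ∈ l := List.mem_of_getElem? (mem_tag h).2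

theorem exists_mem_tag {T α : Type} (t : T) {l : List α} {a : α} (h : a ∈ l) :
    ∃ i, ((t, i), a) ∈ tag t l := by
  obtain ⟨i, hi⟩ := List.mem_iff_getElem?.mp h
  exact ⟨i, List.mem_map.mpr ⟨(a, i), List.mem_zipIdx_iff_getElem?.mpr hi, rfl⟩⟩

/-! ### soundness of the first layer -/

theorem sound1 {N T : Type} (L : List (T × SCon N)) (w : AN N T → ℝ)
    (h : ∀ x ∈ lay1 L, x.2.Holds w) : ∃ v : N → ℝ, ∀ x ∈ L, x.2.Holds v := by
  have hT : w .tt * w .tt = w .t2 := by
    obtain ⟨i, hi⟩ := exists_mem_tag (T := Option T) none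
      (l := (glob1 : List (ACon (AN N T)))) (a := .mul .tt .tt .t2) (by simp [glob1])
    exact h _ (List.mem_append_left _ hi)
  have hG : w .t2 + w .tt = w .g := by
    obtain ⟨i, hi⟩ := exists_mem_tag (T := Option T) none
      (l := (glob1 : List (ACon (AN N T)))) (a := .add .t2 .tt .g) (by simp [glob1])
    exact h _ (List.mem_append_left _ hi)
  refine ⟨fun n => w (.s n) - w .tt, fun x hx => ?_⟩
  have key : ∀ a ∈ expand1 x.1 x.2, a.Holds w := by
    intro a ha
    obtain ⟨i, hi⟩ := exists_mem_tag (some x.1) ha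
    exact h _ (List.mem_append_right _ (List.mem_flatMap.mpr ⟨x, hx, hi⟩))
  obtain ⟨t, c⟩ := x
  cases c with
  | add x y z =>
    simp only [expand1, List.mem_cons, List.not_mem_nil, or_false, forall_eq_or_imp, forall_eq,
      ACon.Holds] at key
    obtain ⟨h1, h2⟩ := key
    simp only [SCon.Holds]
    linarith
  | mul x y z =>
    simp only [expand1, List.mem_cons, List.not_mem_nil, or_false, forall_eq_or_imp, forall_eq,
      ACon.Holds] at key
    obtain ⟨h1, h2, h3, h4, h5⟩ := key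
    simp only [SCon.Holds]
    linear_combination h1 + h2 - w .tt * h3 - h4 - h5 + hT + hG
  | one x =>
    simp only [expand1, List.mem_cons, List.not_mem_nil, or_false, forall_eq,
      ACon.Holds] at key
    simp only [SCon.Holds]
    linarith

/-! ### soundness of the third layer -/

/-- what is used of a realization -/
structure VReal {α : Type} (p : α → V3) (E : List (List α)) : Prop where
  np : ∀ e ∈ E, ∀ a ∈ e, ∀ f ∈ E, ∀ b ∈ f, a ≠ b → NP (p a) (p b)
  col : ∀ e ∈ E, ∀ a ∈ e, ∀ b ∈ e, ∀ c ∈ e, det3 (p a) (p b) (p c) = 0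
  tri : ∀ a b c, [a, b] ∈ E → [b, c] ∈ E → [a, c] ∈ E → a ≠ b → b ≠ c → a ≠ c →
    det3 (p a) (p b) (p c) ≠ 0

theorem pap_sound {N T : Type} {p : HN N T → V3} {E : List (List (HN N T))} (hp : VReal p E)
    {t : T} {s : ℕ} {X Y Z : HN N T} (hE : ∀ e ∈ pap t s X Y Z, e ∈ E)
    (hX : ∀ r, X ≠ .q t s r) (hY : ∀ r, Y ≠ .q t s r) (hZ : ∀ r, Z ≠ .q t s r) :
    det3 (p X) (p Y) (p Z) = 0 := by
  have e1 : [HN.q t s 0, .q t s 1, .q t s 2] ∈ E := hE _ (by simp [pap])
  have e2 : [HN.q t s 3, .q t s 4, .q t s 5] ∈ E := hE _ (by simp [pap])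
  have e3 : [HN.q t s 0, .q t s 4, X] ∈ E := hE _ (by simp [pap])
  have e4 : [HN.q t s 1, .q t s 3, X] ∈ E := hE _ (by simp [pap])
  have e5 : [HN.q t s 0, .q t s 5, Y] ∈ E := hE _ (by simp [pap])
  have e6 : [HN.q t s 2, .q t s 3, Y] ∈ E := hE _ (by simp [pap])
  have e7 : [HN.q t s 1, .q t s 5, Z] ∈ E := hE _ (by simp [pap])
  have e8 : [HN.q t s 2, .q t s 4, Z] ∈ E := hE _ (by simp [pap])
  have hq : ∀ i j, i ≠ j → (∃ e ∈ E, HN.q t s i ∈ e) → (∃ e ∈ E, HN.q t s j ∈ e) →
      NP (p (.q t s i)) (p (.q t s j)) := by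
    rintro i j hij ⟨e, he, hie⟩ ⟨f, hf, hjf⟩
    exact hp.np e he _ hie f hf _ hjf (by simpa using hij)
  have m0 : ∃ e ∈ E, HN.q t s 0 ∈ e := ⟨_, e1, by simp⟩
  have m1 : ∃ e ∈ E, HN.q t s 1 ∈ e := ⟨_, e1, by simp⟩
  have m2 : ∃ e ∈ E, HN.q t s 2 ∈ e := ⟨_, e1, by simp⟩
  have m3 : ∃ e ∈ E, HN.q t s 3 ∈ e := ⟨_, e2, by simp⟩
  have m4 : ∃ e ∈ E, HN.q t s 4 ∈ e := ⟨_, e2, by simp⟩
  have m5 : ∃ e ∈ E, HN.q t s 5 ∈ e := ⟨_, e2, by simp⟩
  have hqX : ∀ i, (∃ e ∈ E, HN.q t s i ∈ e) → NP (p (.q t s i)) (p X) := by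
    rintro i ⟨e, he, hie⟩
    exact hp.np e he _ hie _ e3 _ (by simp) (hX i).symm
  have hqY : ∀ i, (∃ e ∈ E, HN.q t s i ∈ e) → NP (p (.q t s i)) (p Y) := by
    rintro i ⟨e, he, hie⟩
    exact hp.np e he _ hie _ e5 _ (by simp) (hY i).symm
  have hqZ : ∀ i, (∃ e ∈ E, HN.q t s i ∈ e) → NP (p (.q t s i)) (p Z) := by
    rintro i ⟨e, he, hie⟩
    exact hp.np e he _ hie _ e7 _ (by simp) (hZ i).symm
  exact pappus (A := p (.q t s 0)) (B := p (.q t s 1)) (C := p (.q t s 2)) (D := p (.q t s 3))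
    (E := p (.q t s 4)) (F := p (.q t s 5))
    (hq 0 1 (by decide) m0 m1) (hq 0 2 (by decide) m0 m2) (hq 1 2 (by decide) m1 m2)
    (hq 3 4 (by decide) m3 m4) (hq 3 5 (by decide) m3 m5) (hq 4 5 (by decide) m4 m5)
    (hqX 0 m0) (hqX 4 m4) (hqX 1 m1) (hqX 3 m3)
    (hqY 0 m0) (hqY 5 m5) (hqY 2 m2) (hqY 3 m3)
    (hqZ 1 m1) (hqZ 5 m5) (hqZ 2 m2) (hqZ 4 m4)
    (hq 0 4 (by decide) m0 m4) (hq 1 3 (by decide) m1 m3) (hq 0 5 (by decide) m0 m5)
    (hq 2 3 (by decide) m2 m3) (hq 1 5 (by decide) m1 m5) (hq 2 4 (by decide) m2 m4)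
    (hp.col _ e1 _ (by simp) _ (by simp) _ (by simp))
    (hp.col _ e2 _ (by simp) _ (by simp) _ (by simp))
    (hp.col _ e3 _ (by simp) _ (by simp) _ (by simp))
    (hp.col _ e4 _ (by simp) _ (by simp) _ (by simp))
    (hp.col _ e5 _ (by simp) _ (by simp) _ (by simp))
    (hp.col _ e6 _ (by simp) _ (by simp) _ (by simp))
    (hp.col _ e7 _ (by simp) _ (by simp) _ (by simp))
    (hp.col _ e8 _ (by simp) _ (by simp) _ (by simp))

/-- conditions involve three different points -/
def PCon.WF {N : Type} : PCon N → Prop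
  | .col x y z => x ≠ y ∧ y ≠ z ∧ x ≠ z
  | .non x y z => x ≠ y ∧ y ≠ z ∧ x ≠ z

theorem sound3 {N T : Type} (L : List (T × PCon N)) (hL : ∀ x ∈ L, x.2.WF)
    (p : HN N T → V3) (hp : VReal p (lay3 L)) : ∀ x ∈ L, x.2.Holds fun n => p (.b n) := by
  intro x hx
  have hE : ∀ e ∈ expand3 x.1 x.2, e ∈ lay3 L := fun e he =>
    List.mem_flatMap.mpr ⟨x, hx, he⟩
  have hw := hL x hx
  obtain ⟨t, c⟩ := x
  cases c with
  | col x y z =>
    obtain ⟨w1, w2, w3⟩ := hw
    have hd := pap_sound hp (X := .b x) (Y := .b y) (Z := .b z) hE (by simp) (by simp) (by simp)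
    have e3 := hE [HN.q t 0 0, .q t 0 4, .b x] (by simp [expand3, pap])
    have e5 := hE [HN.q t 0 0, .q t 0 5, .b y] (by simp [expand3, pap])
    have e7 := hE [HN.q t 0 1, .q t 0 5, .b z] (by simp [expand3, pap])
    exact ⟨hd, hp.np _ e3 _ (by simp) _ e5 _ (by simp) (by simpa using w1),
      hp.np _ e5 _ (by simp) _ e7 _ (by simp) (by simpa using w2),
      hp.np _ e3 _ (by simp) _ e7 _ (by simp) (by simpa using w3)⟩
  | non x y z =>
    obtain ⟨w1, w2, w3⟩ := hw
    have d0 := pap_sound hp (t := t) (s := 0) (X := .b x) (Y := .b y) (Z := .u t 0)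
      (fun e he => hE e (by simp only [expand3, List.mem_append]; tauto))
      (by simp) (by simp) (by simp)
    have d1 := pap_sound hp (t := t) (s := 1) (X := .b y) (Y := .b z) (Z := .u t 1)
      (fun e he => hE e (by simp only [expand3, List.mem_append]; tauto))
      (by simp) (by simp) (by simp)
    have d2 := pap_sound hp (t := t) (s := 2) (X := .b x) (Y := .b z) (Z := .u t 2)
      (fun e he => hE e (by simp only [expand3, List.mem_append]; tauto))
      (by simp) (by simp) (by simp)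
    have ex := hE [HN.q t 0 0, .q t 0 4, .b x] (by simp [expand3, pap])
    have ey := hE [HN.q t 0 0, .q t 0 5, .b y] (by simp [expand3, pap])
    have ez := hE [HN.q t 1 0, .q t 1 5, .b z] (by simp [expand3, pap])
    have nxy : NP (p (.b x)) (p (.b y)) :=
      hp.np _ ex _ (by simp) _ ey _ (by simp) (by simpa using w1)
    have nyz : NP (p (.b y)) (p (.b z)) :=
      hp.np _ ey _ (by simp) _ ez _ (by simp) (by simpa using w2)
    have nxz : NP (p (.b x)) (p (.b z)) :=
      hp.np _ ex _ (by simp) _ ez _ (by simp) (by simpa using w3)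
    have ht := hp.tri (.u t 0) (.u t 1) (.u t 2) (hE _ (by simp [expand3, Pool.Agent.Helper55.tri]))
      (hE _ (by simp [expand3, Pool.Agent.Helper55.tri]))
      (hE _ (by simp [expand3, Pool.Agent.Helper55.tri])) (by simp) (by simp) (by simp)
    intro h0
    apply ht
    have cx : dot (crs (p (.b x)) (p (.b y))) (p (.b x)) = 0 := by
      simp only [dot, crs]; ring
    have cy : dot (crs (p (.b x)) (p (.b y))) (p (.b y)) = 0 := by
      simp only [dot, crs]; ring
    have cz : dot (crs (p (.b x)) (p (.b y))) (p (.b z)) = 0 := h0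
    exact det3_of_orth nxy (in_plane cx cy nxy d0) (in_plane cy cz nyz d1)
      (in_plane cx cz nxz d2)

end Pool.Agent.Helper55
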