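import Pool.Agent.Helper55.Emit

set_option autoImplicit false

/-!
The main loop of the program.
-/

namespace Pool.Agent.Helper55

/-- change of the stack of positions -/
def Conf.pst (c : Conf) (l : List Bool) : Conf := { c with st := l }

theorem pst_set (c : Conf) (r : Reg) (n : ℕ) (l : List Bool) :
    (c.set r n).pst l = (c.pst l).set r n := by cases r <;> rfl

theorem get_pst (c : Conf) (r : Reg) (l : List Bool) : (c.pst l).get r = c.get r := by
  cases r <;> rfl

theorem pst_pst (c : Conf) (l l' : List Bool) : (c.pst l).pst l' = c.pst l' := rfl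

theorem st_set (c : Conf) (r : Reg) (n : ℕ) : (c.set r n).st = c.st := by cases r <;> rfl

theorem ex_push_st' (a : Bool) (c : Conf) : Ex (.push .st a) c 1 (c.pst (a :: c.st)) :=
  ex_push_st a c

/-- a number on the stack of positions -/
def numS (n : ℕ) : List Bool := List.replicate n true ++ [false]

theorem ex_pushLoop (c : Conf) :
    Ex (loopR .cnt (.seq (inc .tmp) (.push .st true))) c (3 * c.get .cnt + 1)
      ((((c.pst (List.replicate (c.get .cnt) true ++ c.st)).set .tmp
        (c.get .tmp + c.get .cnt))).set .cnt 0) := by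
  generalize hn : c.get .cnt = n
  induction n generalizing c with
  | zero =>
    have h2 := ex_stop .cnt (.seq (inc .tmp) (.push .st true)) c hn
    have h3 := set_get c .cnt
    rw [hn] at h3
    simp only [Nat.mul_zero, Nat.add_zero, Nat.zero_add, List.replicate_zero, List.nil_append]
    have h4 : c.pst c.st = c := rfl
    rw [h4, set_get, h3]
    exact h2
  | succ n ih =>
    have e1 := ex_inc .tmp (c.set .cnt n)
    rw [get_set_ne _ (by decide)] at e1
    have e2 := ex_push_st' true ((c.set .cnt n).set .tmp (c.get .tmp + 1))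
    rw [st_set, st_set] at e2
    have h2 := ih (((c.set .cnt n).set .tmp (c.get .tmp + 1)).pst (true :: c.st)) (by
        rw [get_pst, get_set_ne _ (by decide), get_set])
    have h5 := (ex_go .cnt _ c _ _ n _ _ hn (e1.seq e2) h2).mono (B' := 3 * (n + 1) + 1) (by
      omega)
    have e' : c.get .tmp + 1 + n = c.get .tmp + (n + 1) := by omega
    have e3 : List.replicate n true ++ (true :: c.st) = List.replicate (n + 1) true ++ c.st := by
      rw [List.replicate_succ', List.append_assoc]; rfl
    have e4 : (((c.set .cnt n).set .tmp (c.get .tmp + 1)).pst (true :: c.st)).st =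
        true :: c.st := rfl
    rw [get_pst, get_set, pst_pst, e4, e3, e', pst_set, set_set, pst_set,
      set_comm _ (by decide : Reg.cnt ≠ .tmp), set_set] at h5
    exact h5

/-- write the number in `cnt` on the stack of positions -/
def pushNum : Pr := .seq (.push .st false) (.seq (loopR .cnt (.seq (inc .tmp) (.push .st true)))
  (restore .cnt))

theorem ex_pushNum (c : Conf) (h0 : c.get .tmp = 0) :
    Ex pushNum c (5 * c.get .cnt + 3) (c.pst (numS (c.get .cnt) ++ c.st)) := by
  have h1 := ex_push_st' false c
  have h2 := ex_pushLoop (c.pst (false :: c.st))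
  have e1 : (c.pst (false :: c.st)).st = false :: c.st := rfl
  rw [e1, pst_pst, get_pst, get_pst, h0, Nat.zero_add] at h2
  have h3 := ex_restore .cnt (by decide) (((c.pst (List.replicate (c.get .cnt) true ++
    (false :: c.st))).set .tmp (c.get .cnt)).set .cnt 0)
  have e2 := set_get (c.pst (List.replicate (c.get .cnt) true ++ (false :: c.st))) .tmp
  rw [get_pst, h0] at e2
  have e3 := set_get (c.pst (List.replicate (c.get .cnt) true ++ (false :: c.st))) .cnt
  rw [get_pst] at e3
  rw [get_set, get_set_ne _ (by decide), get_set, Nat.zero_add,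
    set_comm _ (by decide : Reg.cnt ≠ .tmp), set_set, set_set, e2, e3] at h3
  have h4 := (h1.seq (h2.seq h3)).mono (B' := 5 * c.get .cnt + 3) (by omega)
  have e4 : List.replicate (c.get .cnt) true ++ (false :: c.st) =
      numS (c.get .cnt) ++ c.st := by
    unfold numS; rw [List.append_assoc]; rfl
  rw [e4] at h4
  exact h4

/-- end of a number -/
def sepS : Option Bool → Bool
  | some true => false
  | _ => true

/-- read a number from the stack of positions -/
def popNum (r : Reg) : Pr := .loop .st (fun o => sepS o) (fun _ => inc r)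

theorem ex_popNum (r : Reg) (n : ℕ) (l : List Bool) (c : Conf) (h : c.st = numS n ++ l) :
    Ex (popNum r) c (2 * n + 1) ((c.pst l).set r (c.get r + n)) := by
  induction n generalizing c with
  | zero =>
    refine ⟨1, by omega, ?_⟩
    have h0 : c.stk .st = false :: l := h
    have h1 := Prog.Exec.stop (k := Stk.st) (st := fun o => sepS o) (f := fun _ => inc r)
      (s := c.stk) (by rw [h0]; rfl)
    have h2 : Function.update c.stk .st (c.stk .st).tail = ((c.pst l).set r (c.get r + 0)).stk := by
      have e := set_get (c.pst l) r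
      rw [get_pst] at e
      rw [h0, Nat.add_zero, e]
      apply stk_ext <;> rfl
    rw [h2] at h1
    exact h1
  | succ n ih =>
    have h0 : c.stk .st = true :: (numS n ++ l) := h
    have h1 := ex_inc r (c.pst (numS n ++ l))
    obtain ⟨t, ht, h1⟩ := h1
    have h2 := ih ((c.pst (numS n ++ l)).set r ((c.pst (numS n ++ l)).get r + 1)) (by
      rw [st_set]; rfl)
    obtain ⟨t', ht', h2⟩ := h2
    refine ⟨t' + t + 1, by omega, ?_⟩
    have e1 : Function.update c.stk .st (c.stk .st).tail = (c.pst (numS n ++ l)).stk := by
      rw [h0]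
      apply stk_ext <;> rfl
    have e2 : c.get r + 1 + n = c.get r + (n + 1) := by omega
    rw [get_set, pst_set, set_set, pst_pst, get_pst, e2] at h2
    rw [get_pst] at h1
    unfold popNum at h2 ⊢
    refine Prog.Exec.go ?_ ?_ h2
    · rw [h0]; rfl
    · rw [e1]; exact h1

/-! ### the body of the main loop -/

/-- read the arguments of a symbol -/
def pops : FSym → Pr
  | .add => .seq (popNum .a2) (popNum .a1)
  | .mul => .seq (popNum .a2) (popNum .a1)
  | .eq => .seq (popNum .a2) (popNum .a1)
  | .lt => .seq (popNum .a2) (popNum .a1)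
  | .le => .seq (popNum .a2) (popNum .a1)
  | .and => .seq (popNum .a2) (popNum .a1)
  | .or => .seq (popNum .a2) (popNum .a1)
  | .not => popNum .a1
  | _ => .skip

/-- the effect of `pops` -/
def Pops (tok : FSym) (st : List Bool) (i j : ℕ) (st' : List Bool) : Prop :=
  match tok with
  | .tick => False
  | .var => st = st' ∧ i = 0 ∧ j = 0
  | .zero => st = st' ∧ i = 0 ∧ j = 0
  | .one => st = st' ∧ i = 0 ∧ j = 0
  | .negOne => st = st' ∧ i = 0 ∧ j = 0
  | .not => st = numS i ++ st' ∧ j = 0
  | _ => st = numS j ++ (numS i ++ st')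

/-- clean configurations -/
def cl (inp : List FSym) (st : List Bool) (cnt vr : ℕ) (o : List HSym) : Conf :=
  ⟨inp, [], o.reverse, st, 0, cnt, 0, 0, vr⟩

/-- configurations with arguments -/
def cla (inp : List FSym) (st : List Bool) (cnt i j vr : ℕ) (o : List HSym) : Conf :=
  ⟨inp, [], o.reverse, st, 0, cnt, i, j, vr⟩

theorem ex_pops (tok : FSym) (inp : List FSym) (st st' : List Bool) (p i j x : ℕ) (o : List HSym)
    (h : Pops tok st i j st') (M : ℕ) (hi : i ≤ M) (hj : j ≤ M) :
    Ex (pops tok) (cl inp st p x o) (4 * M + 2) (cla inp st' p i j x o) := by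
  have bin : st = numS j ++ (numS i ++ st') →
      Ex (.seq (popNum .a2) (popNum .a1)) (cl inp st p x o) (4 * M + 2)
        (cla inp st' p i j x o) := by
    intro h
    have h1 := ex_popNum .a2 j (numS i ++ st') (cl inp st p x o) h
    have h2 := ex_popNum .a1 i st' (((cl inp st p x o).pst (numS i ++ st')).set .a2
      ((cl inp st p x o).get .a2 + j)) rfl
    have h3 := (h1.seq h2).mono (B' := 4 * M + 2) (by omega)
    have e : ((((cl inp st p x o).pst (numS i ++ st')).set .a2
        ((cl inp st p x o).get .a2 + j)).pst st').set .a1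
        ((((cl inp st p x o).pst (numS i ++ st')).set .a2
        ((cl inp st p x o).get .a2 + j)).get .a1 + i) = cla inp st' p i j x o := by
      simp only [cl, cla, Conf.pst, Conf.set, Conf.get, Nat.zero_add]
    rw [e] at h3
    exact h3
  have leaf : st = st' ∧ i = 0 ∧ j = 0 → Ex .skip (cl inp st p x o) (4 * M + 2)
      (cla inp st' p i j x o) := by
    rintro ⟨rfl, rfl, rfl⟩
    exact (ex_skip _).mono (by omega)
  cases tok with
  | tick => exact h.elim
  | var => exact leaf h
  | zero => exact leaf h
  | one => exact leaf h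
  | negOne => exact leaf h
  | add => exact bin h
  | mul => exact bin h
  | eq => exact bin h
  | lt => exact bin h
  | le => exact bin h
  | and => exact bin h
  | or => exact bin h
  | not =>
    obtain ⟨h, rfl⟩ := h
    have h1 := (ex_popNum .a1 i st' (cl inp st p x o) h).mono (B' := 4 * M + 2) (by omega)
    have e : ((cl inp st p x o).pst st').set .a1 ((cl inp st p x o).get .a1 + i) =
        cla inp st' p i 0 x o := by
      simp only [cl, cla, Conf.pst, Conf.set, Conf.get, Nat.zero_add]
    rw [e] at h1
    exact h1

/-- the text of the hyperedges of a list of equations -/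
noncomputable def txt (L : List ((ℕ × ℕ) × SCon (SN ℕ))) : List HSym :=
  encEdges ((locs L).map (List.map num))

theorem encEdges_append (A B : List (List ℕ)) : encEdges (A ++ B) = encEdges A ++ encEdges B := by
  unfold encEdges; rw [List.flatMap_append]

theorem txt_append (A B : List ((ℕ × ℕ) × SCon (SN ℕ))) : txt (A ++ B) = txt A ++ txt B := by
  unfold txt
  rw [locs_append, List.map_append, encEdges_append]

/-- the part of the body after reading the arguments -/
noncomputable def work (E : List (List (V Role))) : Pr :=
  .seq (emit E) (.seq (clear .a1) (.seq (clear .a2) (.seq (clear .vr) pushNum)))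

/-- the body of the main loop -/
noncomputable def body : Option FSym → Pr
  | none => .skip
  | some .tick => .seq (inc .cnt) (inc .vr)
  | some tok => .seq (inc .cnt) (.seq (pops tok) (work (tmpl tok)))

/-- sizes of all templates -/
def SS : ℕ := (List.map (fun tok => tsize (tmpl tok)) [.tick, .var, .zero, .one, .negOne, .add,
  .mul, .eq, .lt, .le, .and, .or, .not]).sum + tsize finTmpl + tsize (globs : List (List (V Role)))

theorem tsize_le (tok : FSym) : tsize (tmpl tok) ≤ SS := by
  have h : tsize (tmpl tok) ∈ List.map (fun tok => tsize (tmpl tok)) [.tick, .var, .zero, .one,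
      .negOne, .add, .mul, .eq, .lt, .le, .and, .or, .not] :=
    List.mem_map.mpr ⟨tok, by cases tok <;> simp, rfl⟩
  have := List.single_le_sum (fun _ _ => Nat.zero_le _) _ h
  unfold SS
  omega

theorem ex_work (E : List (List (V Role))) (hE : ∀ e ∈ E, ∀ v ∈ e, code (V.shape v) < KK)
    (inp : List FSym) (st : List Bool) (p i j x : ℕ) (o : List HSym) (M : ℕ) (hp : p ≤ M)
    (hi : i ≤ M) (hj : j ≤ M) (hx : x ≤ M) :
    Ex (work E) (cla inp st p i j x o) (tsize E * ((KK + 5) * (M + 1)) + 11 * M + 6)
      (cl inp (numS p ++ st) p 0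
        (o ++ encEdges ((E.map (List.map (V.map (roles p i j x)))).map (List.map num)))) := by
  set w := encEdges ((E.map (List.map (V.map (roles p i j x)))).map (List.map num)) with hw
  have h1 : Ex (emit E) (cla inp st p i j x o) (tsize E * ((KK + 5) * (M + 1)))
      (cla inp st p i j x (o ++ w)) := by
    have := ex_emit E (cla inp st p i j x o) M (by intro r; cases r <;> assumption) rfl hE
    have e : (cla inp st p i j x o).app (encEdges ((E.map (List.map (V.map
        (cla inp st p i j x o).ro))).map (List.map num))) = cla inp st p i j x (o ++ w) := by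
      have : (cla inp st p i j x o).ro = roles p i j x := rfl
      rw [this, ← hw]
      simp only [Conf.app, cla, List.reverse_append]
    rw [e] at this
    exact this
  have h2 : Ex (clear .a1) (cla inp st p i j x (o ++ w)) (2 * i + 1)
      (cla inp st p 0 j x (o ++ w)) := ex_clear .a1 _
  have h3 : Ex (clear .a2) (cla inp st p 0 j x (o ++ w)) (2 * j + 1)
      (cla inp st p 0 0 x (o ++ w)) := ex_clear .a2 _
  have h4 : Ex (clear .vr) (cla inp st p 0 0 x (o ++ w)) (2 * x + 1)
      (cla inp st p 0 0 0 (o ++ w)) := ex_clear .vr _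
  have h5 : Ex pushNum (cla inp st p 0 0 0 (o ++ w)) (5 * p + 3)
      (cl inp (numS p ++ st) p 0 (o ++ w)) := ex_pushNum _ rfl
  exact (h1.seq (h2.seq (h3.seq (h4.seq h5)))).mono (by omega)

/-- time for one symbol -/
noncomputable def WW (M : ℕ) : ℕ := (SS + 3) * ((KK + 5) * (M + 1))

theorem ex_body (tok : FSym) (inp : List FSym) (st st' : List Bool) (p i j x : ℕ)
    (o : List HSym) (h : Pops tok st i j st') (M : ℕ) (hp : p + 1 ≤ M) (hi : i ≤ M) (hj : j ≤ M)
    (hx : x ≤ M) :
    Ex (body (some tok)) (cl inp st p x o) (tsize (tmpl tok) * ((KK + 5) * (M + 1)) + 15 * M + 9)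
      (cl inp (numS (p + 1) ++ st') (p + 1) 0 (o ++ txt (inst tok (p + 1) i j x))) := by
  have h1 : Ex (inc .cnt) (cl inp st p x o) 1 (cl inp st (p + 1) x o) := ex_inc .cnt _
  have h2 := ex_pops tok inp st st' (p + 1) i j x o h M hi hj
  have h3 := ex_work (tmpl tok) (fun e he v hv => code_tmpl he hv) inp st' (p + 1) i j x o M hp
    hi hj hx
  have h4 := (h1.seq (h2.seq h3)).mono
    (B' := tsize (tmpl tok) * ((KK + 5) * (M + 1)) + 15 * M + 9) (by omega)
  have e : txt (inst tok (p + 1) i j x) = encEdges (((tmpl tok).map (List.map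
      (V.map (roles (p + 1) i j x)))).map (List.map num)) := by
    unfold txt; rw [locs_inst]
  rw [e]
  have hb : body (some tok) = .seq (inc .cnt) (.seq (pops tok) (work (tmpl tok))) := by
    cases tok with
    | tick => exact h.elim
    | var => rfl
    | zero => rfl
    | one => rfl
    | negOne => rfl
    | add => rfl
    | mul => rfl
    | eq => rfl
    | lt => rfl
    | le => rfl
    | and => rfl
    | or => rfl
    | not => rfl
  rw [hb]
  exact h4

/-- the main loop -/
noncomputable def mainLoop : Pr := .loop .inp (fun o => o.isNone) body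

/-- the loop goes from one configuration to another one within a time bound -/
def Cont (c : Conf) (B : ℕ) (c' : Conf) : Prop :=
  ∀ B' c'', Ex mainLoop c' B' c'' → Ex mainLoop c (B + B') c''

theorem Cont.refl (c : Conf) : Cont c 0 c := fun B' c'' h => h.mono (by omega)

theorem Cont.trans {a b c : Conf} {B B' : ℕ} (h : Cont a B b) (h' : Cont b B' c) :
    Cont a (B + B') c := fun B'' c'' h'' => (h _ _ (h' _ _ h'')).mono (by omega)

theorem Cont.mono {a b : Conf} {B B' : ℕ} (h : Cont a B b) (hB : B ≤ B') : Cont a B' b :=
  fun B'' c'' h'' => (h _ _ h'').mono (by omega)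

theorem cont_body (tok : FSym) (inp : List FSym) (st : List Bool) (p x : ℕ) (o : List HSym)
    (B : ℕ) (c' : Conf) (h : Ex (body (some tok)) (cl inp st p x o) B c') :
    Cont (cl (tok :: inp) st p x o) (B + 1) c' := by
  intro B' c'' h'
  obtain ⟨t, ht, h⟩ := h
  obtain ⟨t', ht', h'⟩ := h'
  refine ⟨t' + t + 1, by omega, ?_⟩
  have h0 : (cl (tok :: inp) st p x o).stk .inp = tok :: inp := rfl
  have e1 : Function.update (cl (tok :: inp) st p x o).stk .inp
      ((cl (tok :: inp) st p x o).stk .inp).tail = (cl inp st p x o).stk := by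
    rw [h0]
    apply stk_ext <;> rfl
  unfold mainLoop at h' ⊢
  refine Prog.Exec.go ?_ ?_ h'
  · rw [h0]; rfl
  · rw [e1, h0]; exact h

theorem cont_tok (tok : FSym) (inp : List FSym) (st st' : List Bool) (p i j x : ℕ)
    (o : List HSym) (h : Pops tok st i j st') (M : ℕ) (hp : p + 1 ≤ M) (hi : i ≤ M) (hj : j ≤ M)
    (hx : x ≤ M) :
    Cont (cl (tok :: inp) st p x o) (WW M)
      (cl inp (numS (p + 1) ++ st') (p + 1) 0 (o ++ txt (inst tok (p + 1) i j x))) := by
  refine (cont_body _ _ _ _ _ _ _ _ (ex_body tok inp st st' p i j x o h M hp hi hj hx)).mono ?_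
  unfold WW
  have h1 : tsize (tmpl tok) * ((KK + 5) * (M + 1)) ≤ SS * ((KK + 5) * (M + 1)) :=
    Nat.mul_le_mul_right _ (tsize_le tok)
  have h2 : 5 * (M + 1) ≤ (KK + 5) * (M + 1) := Nat.mul_le_mul_right _ (by omega)
  generalize (KK + 5) * (M + 1) = w at *
  rw [Nat.add_mul]
  omega

theorem WW_pos (M : ℕ) : 3 ≤ WW M := by
  unfold WW
  have h2 : 5 * (M + 1) ≤ (KK + 5) * (M + 1) := Nat.mul_le_mul_right _ (by omega)
  generalize (KK + 5) * (M + 1) = w at *
  rw [Nat.add_mul]
  omega

theorem cont_ticks (k : ℕ) : ∀ (inp : List FSym) (st : List Bool) (p x : ℕ) (o : List HSym)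
    (M : ℕ), Cont (cl (List.replicate k .tick ++ inp) st p x o) (k * WW M)
      (cl inp st (p + k) (x + k) o) := by
  induction k with
  | zero =>
    intro inp st p x o M
    rw [Nat.zero_mul]
    exact Cont.refl _
  | succ k ih =>
    intro inp st p x o M
    have h1 : Ex (body (some .tick)) (cl (List.replicate k .tick ++ inp) st p x o) 2
        (cl (List.replicate k .tick ++ inp) st (p + 1) (x + 1) o) :=
      (ex_inc .cnt _).seq (ex_inc .vr _)
    have h2 := cont_body .tick _ st p x o _ _ h1
    have h3 := (h2.mono (WW_pos M)).trans (ih inp st (p + 1) (x + 1) o M)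
    have e1 : p + 1 + k = p + (k + 1) := by omega
    have e2 : x + 1 + k = x + (k + 1) := by omega
    have e3 : WW M + k * WW M = (k + 1) * WW M := by ring
    rw [e1, e2, e3] at h3
    exact h3

/-- what the loop does with a string -/
def Reads (s : List FSym) (c : ℕ) (L : List ((ℕ × ℕ) × SCon (SN ℕ))) : Prop :=
  ∀ (rest : List FSym) (st : List Bool) (o : List HSym) (M : ℕ), c + s.length ≤ M →
    Cont (cl (s ++ rest) st c 0 o) (s.length * WW M)
      (cl rest (numS (c + s.length) ++ st) (c + s.length) 0 (o ++ txt L))

theorem reads_leaf (tok : FSym) (c : ℕ) (h : ∀ st, Pops tok st 0 0 st) :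
    Reads [tok] c (inst tok (c + 1) 0 0 0) := by
  intro rest st o M hM
  simp only [List.length_singleton] at hM
  have := cont_tok tok rest st st c 0 0 0 o (h st) M hM (by omega) (by omega) (by omega)
  simpa using this

theorem reads_var (k c : ℕ) :
    Reads (List.replicate k .tick ++ [.var]) c (inst .var (c + k + 1) 0 0 k) := by
  intro rest st o M hM
  simp only [List.length_append, List.length_replicate, List.length_singleton] at hM
  have h1 := cont_ticks k (.var :: rest) st c 0 o M
  have h2 := cont_tok .var rest st st (c + k) 0 0 k o ⟨rfl, rfl, rfl⟩ M (by omega) (by omega)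
    (by omega) (by omega)
  rw [Nat.zero_add] at h1
  have h3 := h1.trans h2
  have e : (k * WW M + WW M) = (List.replicate k FSym.tick ++ [FSym.var]).length * WW M := by
    simp only [List.length_append, List.length_replicate, List.length_singleton]
    ring
  rw [e] at h3
  have e2 : c + k + 1 = c + (List.replicate k FSym.tick ++ [FSym.var]).length := by
    simp only [List.length_append, List.length_replicate, List.length_singleton]
    omega
  have e3 : List.replicate k FSym.tick ++ [FSym.var] ++ rest =
      List.replicate k FSym.tick ++ FSym.var :: rest := by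
    rw [List.append_assoc]; rfl
  rw [e3]
  rw [← e2]
  exact h3

theorem reads_bin {s t : List FSym} {c : ℕ} {A B : List ((ℕ × ℕ) × SCon (SN ℕ))}
    (hs : Reads s c A) (ht : Reads t (c + s.length) B) (tok : FSym)
    (h : ∀ st i j, Pops tok (numS j ++ (numS i ++ st)) i j st) :
    Reads (s ++ (t ++ [tok])) c (A ++ (B ++ inst tok (c + s.length + t.length + 1)
      (c + s.length) (c + s.length + t.length) 0)) := by
  intro rest st o M hM
  simp only [List.length_append, List.length_singleton] at hM
  have h1 := hs (t ++ (tok :: rest)) st o M (by omega)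
  have h2 := ht (tok :: rest) (numS (c + s.length) ++ st) (o ++ txt A) M (by omega)
  have h3 := cont_tok tok rest (numS (c + s.length + t.length) ++ (numS (c + s.length) ++ st)) st
    (c + s.length + t.length) (c + s.length) (c + s.length + t.length) 0
    (o ++ txt A ++ txt B) (h _ _ _) M (by omega) (by omega) (by omega) (by omega)
  have h4 := (h1.trans h2).trans h3
  have e1 : s ++ (t ++ [tok]) ++ rest = s ++ (t ++ (tok :: rest)) := by
    rw [List.append_assoc, List.append_assoc]; rfl
  have e2 : (s ++ (t ++ [tok])).length = s.length + t.length + 1 := by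
    simp only [List.length_append, List.length_singleton]; omega
  have e3 : s.length * WW M + t.length * WW M + WW M = (s.length + t.length + 1) * WW M := by
    ring
  have e4 : c + (s.length + t.length + 1) = c + s.length + t.length + 1 := by omega
  rw [e1, e2, e4, txt_append, txt_append, ← e3]
  simp only [List.append_assoc] at h4 ⊢
  exact h4

theorem reads_un {s : List FSym} {c : ℕ} {A : List ((ℕ × ℕ) × SCon (SN ℕ))}
    (hs : Reads s c A) (tok : FSym) (h : ∀ st i, Pops tok (numS i ++ st) i 0 st) :
    Reads (s ++ [tok]) c (A ++ inst tok (c + s.length + 1) (c + s.length) 0 0) := by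
  intro rest st o M hM
  simp only [List.length_append, List.length_singleton] at hM
  have h1 := hs (tok :: rest) st o M (by omega)
  have h3 := cont_tok tok rest (numS (c + s.length) ++ st) st
    (c + s.length) (c + s.length) 0 0 (o ++ txt A) (h _ _) M (by omega) (by omega) (by omega)
    (by omega)
  have h4 := h1.trans h3
  have e1 : s ++ [tok] ++ rest = s ++ (tok :: rest) := by
    rw [List.append_assoc]; rfl
  have e2 : (s ++ [tok]).length = s.length + 1 := by
    simp only [List.length_append, List.length_singleton]
  have e3 : s.length * WW M + WW M = (s.length + 1) * WW M := by ring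
  have e4 : c + (s.length + 1) = c + s.length + 1 := by omega
  rw [e1, e2, e4, txt_append, ← e3, ← List.append_assoc]
  exact h4

theorem reads_expr (t : PolyExpr) : ∀ c, Reads t.enc c (t.inst c) := by
  induction t with
  | zero => exact fun c => reads_leaf .zero c (fun st => ⟨rfl, rfl, rfl⟩)
  | one => exact fun c => reads_leaf .one c (fun st => ⟨rfl, rfl, rfl⟩)
  | negOne => exact fun c => reads_leaf .negOne c (fun st => ⟨rfl, rfl, rfl⟩)
  | var i => exact fun c => reads_var i c
  | add s t ihs iht => exact fun c => reads_bin (ihs c) (iht _) .add (fun st i j => rfl)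
  | mul s t ihs iht => exact fun c => reads_bin (ihs c) (iht _) .mul (fun st i j => rfl)

theorem reads_formula (φ : QFFormula) : ∀ c, Reads φ.enc c (φ.inst c) := by
  induction φ with
  | eq s t => exact fun c => reads_bin (reads_expr s c) (reads_expr t _) .eq (fun st i j => rfl)
  | lt s t => exact fun c => reads_bin (reads_expr s c) (reads_expr t _) .lt (fun st i j => rfl)
  | le s t => exact fun c => reads_bin (reads_expr s c) (reads_expr t _) .le (fun st i j => rfl)
  | and s t ihs iht => exact fun c => reads_bin (ihs c) (iht _) .and (fun st i j => rfl)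
  | or s t ihs iht => exact fun c => reads_bin (ihs c) (iht _) .or (fun st i j => rfl)
  | not s ihs => exact fun c => reads_un (ihs c) .not (fun st i => ⟨rfl, rfl⟩)

end Pool.Agent.Helper55
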