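import Pool.Agent.Helper55.Formula

set_option autoImplicit false

/-!
Numbers of vertices, the hypergraph of a formula.
-/

namespace Pool.Agent.Helper55

/-! ### maps -/

section Maps

variable {N M T S : Type}

def SN.map (f : N → M) : SN N → SN M
  | .val p => .val (f p)
  | .aux p c => .aux (f p) c
  | .var x => .var (f x)

def SCon.map (f : N → M) : SCon N → SCon M
  | .add x y z => .add (f x) (f y) (f z)
  | .mul x y z => .mul (f x) (f y) (f z)
  | .one x => .one (f x)

def AN.map (f : N → M) (g : T → S) : AN N T → AN M S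
  | .s n => .s (f n)
  | .f t r => .f (g t) r
  | .tt => .tt
  | .t2 => .t2
  | .g => .g

def ACon.map (f : N → M) : ACon N → ACon M
  | .add x y z => .add (f x) (f y) (f z)
  | .mul x y z => .mul (f x) (f y) (f z)
  | .one x y => .one (f x) (f y)

def PN.map (f : N → M) (g : T → S) : PN N T → PN M S
  | .O => .O
  | .D => .D
  | .M => .M
  | .E => .E
  | .h n => .h (f n)
  | .f t r => .f (g t) r

def PCon.map (f : N → M) : PCon N → PCon M
  | .col x y z => .col (f x) (f y) (f z)
  | .non x y z => .non (f x) (f y) (f z)

def HN.map (f : N → M) (g : T → S) : HN N T → HN M S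
  | .b n => .b (f n)
  | .u t r => .u (g t) r
  | .q t s r => .q (g t) s r

/-- map of tags -/
def tm (g : T → S) (x : Option T × ℕ) : Option S × ℕ := (x.1.map g, x.2)

/-- map of a tagged condition -/
def both {α β : Type} (g : T → S) (f : α → β) (x : T × α) : S × β := (g x.1, f x.2)

theorem tag_map {α β : Type} (g : T → S) (f : α → β) (t : T) (l : List α) :
    (tag t l).map (fun x => ((g x.1.1, x.1.2), f x.2)) = tag (g t) (l.map f) := by
  unfold tag
  rw [List.zipIdx_map, List.map_map, List.map_map]
  rfl

theorem expand1_map (f : N → M) (g : T → S) (t : T) (c : SCon N) :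
    (expand1 t c).map (ACon.map (AN.map f g)) = expand1 (g t) (c.map f) := by
  cases c <;> rfl

theorem expand2_map (f : N → M) (g : T → S) (t : T) (c : ACon N) :
    (expand2 t c).map (PCon.map (PN.map f g)) = expand2 (g t) (c.map f) := by
  cases c <;> rfl

theorem expand3_map (f : N → M) (g : T → S) (t : T) (c : PCon N) :
    (expand3 t c).map (List.map (HN.map f g)) = expand3 (g t) (c.map f) := by
  cases c <;> rfl

theorem flat_tag_map {A B C D : Type} (g : T → S) (f : A → B) (h : C → D)
    (ex : T → A → List C) (ex' : S → B → List D)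
    (hex : ∀ t a, (ex t a).map h = ex' (g t) (f a)) (L : List (T × A)) :
    (L.flatMap fun c => tag (some c.1) (ex c.1 c.2)).map (both (tm g) h) =
      (L.map (both g f)).flatMap fun c => tag (some c.1) (ex' c.1 c.2) := by
  rw [List.map_flatMap, List.flatMap_map]
  congr 1
  funext c
  have := tag_map (Option.map g) h (some c.1) (ex c.1 c.2)
  rw [hex] at this
  exact this

theorem lay3_map (f : N → M) (g : T → S) (L : List (T × PCon N)) :
    (lay3 L).map (List.map (HN.map f g)) = lay3 (L.map (both g (PCon.map f))) := by
  unfold lay3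
  rw [List.map_flatMap, List.flatMap_map]
  congr 1
  funext c
  exact expand3_map f g c.1 c.2

end Maps

/-- names of vertices, for a system of equations with given types of names and tags -/
abbrev W (N T : Type) : Type := HN (PN (AN N T) (Option T × ℕ)) (Option (Option T × ℕ) × ℕ)

/-- names of vertices -/
abbrev V (P : Type) : Type := W (SN P) (P × ℕ)

/-- the map of names of vertices -/
def W.map {N M T S : Type} (f : N → M) (g : T → S) : W N T → W M S :=
  HN.map (PN.map (AN.map f g) (tm g)) (tm (tm g))

/-- map of the tags of the first system -/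
def pm {P Q : Type} (f : P → Q) (x : P × ℕ) : Q × ℕ := (f x.1, x.2)

def V.map {P Q : Type} (f : P → Q) : V P → V Q := W.map (SN.map f) (pm f)

section Parts

variable {N T : Type}

/-- hyperedges coming from the given equations -/
def locs (L : List (T × SCon N)) : List (List (W N T)) :=
  lay3 ((L.flatMap fun c => tag (some c.1) (expand1 c.1 c.2)).flatMap fun c =>
    tag (some c.1) (expand2 c.1 c.2))

/-- the other hyperedges -/
def globs : List (List (W N T)) :=
  lay3 (tag none glob2 ++ (tag none glob1).flatMap fun c => tag (some c.1) (expand2 c.1 c.2))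

theorem lay3_append {N T : Type} (A B : List (T × PCon N)) :
    lay3 (A ++ B) = lay3 A ++ lay3 B := by
  unfold lay3; rw [List.flatMap_append]

theorem hedges_eq (L : List (T × SCon N)) : hedges L = globs ++ locs L := by
  unfold hedges globs locs lay2 lay1
  rw [List.flatMap_append, ← List.append_assoc, lay3_append]

theorem locs_append (A B : List (T × SCon N)) : locs (A ++ B) = locs A ++ locs B := by
  unfold locs
  rw [List.flatMap_append, List.flatMap_append, lay3_append]

variable {M S : Type}

theorem locs_map (f : N → M) (g : T → S) (L : List (T × SCon N)) :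
    (locs L).map (List.map (W.map f g)) = locs (L.map (both g (SCon.map f))) := by
  unfold locs W.map
  rw [lay3_map, flat_tag_map (tm g) (ACon.map (AN.map f g)) _ expand2 expand2
    (fun t a => expand2_map _ _ t a), flat_tag_map g (SCon.map f) _ expand1 expand1
    (fun t a => expand1_map _ _ t a)]

theorem globs_map (f : N → M) (g : T → S) :
    (globs : List (List (W N T))).map (List.map (W.map f g)) = globs := by
  unfold globs W.map
  rw [lay3_map, List.map_append, flat_tag_map (tm g) (ACon.map (AN.map f g)) _ expand2 expand2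
    (fun t a => expand2_map _ _ t a)]
  have h1 := tag_map (Option.map (tm g)) (PCon.map (PN.map (AN.map f g) (tm g)))
    (none : Option (Option T × ℕ)) glob2
  have h2 := tag_map (Option.map g) (ACon.map (AN.map f g)) (none : Option T) glob1
  have h3 : List.map (both (tm (tm g)) (PCon.map (PN.map (AN.map f g) (tm g))))
      (tag none glob2) = tag none glob2 := h1
  have h4 : List.map (both (tm g) (ACon.map (AN.map f g))) (tag none glob1) =
      tag none glob1 := h2
  rw [h3, h4]

end Parts

/-! ### roles and templates -/

/-- the positions on which the equations of a symbol depend -/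
inductive Role : Type
  | self | a1 | a2 | vr
  deriving DecidableEq

/-- the values of the roles -/
def roles (p i j x : ℕ) : Role → ℕ
  | .self => p
  | .a1 => i
  | .a2 => j
  | .vr => x

theorem tokCon_map {P Q : Type} (f : P → Q) (tok : FSym) (p i j x : P) :
    (tokCon tok p i j x).map (SCon.map (SN.map f)) = tokCon tok (f p) (f i) (f j) (f x) := by
  cases tok <;> rfl

/-- the hyperedges of a symbol -/
def tmpl (tok : FSym) : List (List (V Role)) :=
  locs (tag (T := Role) .self (tokCon tok .self .a1 .a2 .vr))

/-- the hyperedges of the last equation -/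
def finTmpl : List (List (V Role)) := locs (tag (T := Role) .self (finCon .a1))

theorem locs_inst (tok : FSym) (p i j x : ℕ) :
    locs (inst tok p i j x) = (tmpl tok).map (List.map (V.map (roles p i j x))) := by
  unfold tmpl V.map
  rw [locs_map]
  have := tag_map (roles p i j x) (SCon.map (SN.map (roles p i j x))) Role.self
    (tokCon tok .self .a1 .a2 .vr)
  rw [tokCon_map] at this
  exact congrArg locs this.symm

theorem locs_fin (p i : ℕ) : locs (tag p (finCon i)) =
    finTmpl.map (List.map (V.map (roles p i 0 0))) := by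
  rfl

/-! ### positions and shapes -/

section Where

variable {N T P : Type}

def SN.loc : SN P → Option P
  | .val p => some p
  | .aux p _ => some p
  | .var x => some x

def AN.loc (f : N → Option P) (g : T → Option P) : AN N T → Option P
  | .s n => f n
  | .f t _ => g t
  | _ => none

def PN.loc (f : N → Option P) (g : T → Option P) : PN N T → Option P
  | .h n => f n
  | .f t _ => g t
  | _ => none

def HN.loc (f : N → Option P) (g : T → Option P) : HN N T → Option P
  | .b n => f n
  | .u t _ => g t
  | .q t _ _ => g t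

def tloc (g : T → Option P) (x : Option T × ℕ) : Option P := x.1.bind g

def ploc (x : P × ℕ) : Option P := some x.1

end Where

/-- the position of a vertex, if there is one -/
def V.loc {P : Type} : V P → Option P :=
  HN.loc (PN.loc (AN.loc SN.loc ploc) (tloc ploc)) (tloc (tloc ploc))

/-- forget the position -/
def V.shape {P : Type} : V P → V Unit := V.map fun _ => ()

theorem V.loc_map {P Q : Type} (f : P → Q) (v : V P) : (V.map f v).loc = v.loc.map f := by
  rcases v with n | ⟨t, r⟩ | ⟨t, s, r⟩
  · rcases n with _ | _ | _ | _ | n | ⟨t, r⟩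
    · rfl
    · rfl
    · rfl
    · rfl
    · rcases n with n | ⟨t, r⟩ | _ | _ | _
      · cases n <;> rfl
      · rfl
      · rfl
      · rfl
      · rfl
    · obtain ⟨t, _⟩ := t
      cases t <;> rfl
  · obtain ⟨t, _⟩ := t
    rcases t with _ | ⟨t, _⟩
    · rfl
    · cases t <;> rfl
  · obtain ⟨t, _⟩ := t
    rcases t with _ | ⟨t, _⟩
    · rfl
    · cases t <;> rfl

theorem V.shape_map {P Q : Type} (f : P → Q) (v : V P) : (V.map f v).shape = v.shape := by
  rcases v with n | ⟨t, r⟩ | ⟨t, s, r⟩
  · rcases n with _ | _ | _ | _ | n | ⟨t, r⟩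
    · rfl
    · rfl
    · rfl
    · rfl
    · rcases n with n | ⟨t, r⟩ | _ | _ | _
      · cases n <;> rfl
      · rfl
      · rfl
      · rfl
      · rfl
    · obtain ⟨t, _⟩ := t
      cases t <;> rfl
  · obtain ⟨t, _⟩ := t
    rcases t with _ | ⟨t, _⟩
    · rfl
    · cases t <;> rfl
  · obtain ⟨t, _⟩ := t
    rcases t with _ | ⟨t, _⟩
    · rfl
    · cases t <;> rfl

/-- shape and position determine the object -/
def Sep {A B P : Type} (m : A → B) (q : A → Option P) : Prop :=
  ∀ a b, m a = m b → q a = q b → a = b

theorem sep_sn {P : Type} : Sep (SN.map fun _ : P => ()) (SN.loc : SN P → Option P) := by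
  intro a b h1 h2
  cases a <;> cases b <;> simp_all [SN.map, SN.loc]

theorem sep_pm {P : Type} : Sep (pm fun _ : P => ()) (ploc : P × ℕ → Option P) := by
  rintro ⟨a, _⟩ ⟨b, _⟩ h1 h2
  simp_all [pm, ploc]

theorem sep_an {N M T S P : Type} {f : N → M} {g : T → S} {f' : N → Option P}
    {g' : T → Option P} (hf : Sep f f') (hg : Sep g g') : Sep (AN.map f g) (AN.loc f' g') := by
  intro a b h1 h2
  cases a <;> cases b <;> simp only [AN.map, AN.loc, AN.s.injEq, AN.f.injEq, reduceCtorEq] at *
  · exact hf _ _ h1 h2
  · exact ⟨hg _ _ h1.1 h2, h1.2⟩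

theorem sep_pn {N M T S P : Type} {f : N → M} {g : T → S} {f' : N → Option P}
    {g' : T → Option P} (hf : Sep f f') (hg : Sep g g') : Sep (PN.map f g) (PN.loc f' g') := by
  intro a b h1 h2
  cases a <;> cases b <;> simp only [PN.map, PN.loc, PN.h.injEq, PN.f.injEq, reduceCtorEq] at *
  · exact hf _ _ h1 h2
  · exact ⟨hg _ _ h1.1 h2, h1.2⟩

theorem sep_hn {N M T S P : Type} {f : N → M} {g : T → S} {f' : N → Option P}
    {g' : T → Option P} (hf : Sep f f') (hg : Sep g g') : Sep (HN.map f g) (HN.loc f' g') := by
  intro a b h1 h2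
  cases a <;> cases b <;> simp only [HN.map, HN.loc, HN.b.injEq, HN.u.injEq, HN.q.injEq,
    reduceCtorEq] at *
  · exact hf _ _ h1 h2
  · exact ⟨hg _ _ h1.1 h2, h1.2⟩
  · exact ⟨hg _ _ h1.1 h2, h1.2⟩

theorem sep_tm {T S P : Type} {g : T → S} {g' : T → Option P} (hg : Sep g g') :
    Sep (tm g) (tloc g') := by
  rintro ⟨a, x⟩ ⟨b, y⟩ h1 h2
  cases a <;> cases b <;> simp only [tm, tloc, Option.map, Option.bind, Prod.mk.injEq,
    Option.some.injEq, reduceCtorEq, true_and, false_and] at *
  · exact h1
  · exact ⟨hg _ _ h1.1 h2, h1.2⟩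

theorem sep_v {P : Type} : Sep (V.shape : V P → V Unit) V.loc :=
  sep_hn (sep_pn (sep_an sep_sn sep_pm) (sep_tm sep_pm)) (sep_tm (sep_tm sep_pm))

/-- the position of a vertex as a number -/
def V.pos (v : V ℕ) : ℕ := v.loc.getD 0

theorem V.eq_of_pos {a b : V ℕ} (h1 : a.shape = b.shape) (h2 : a.pos = b.pos) : a = b := by
  apply sep_v a b h1
  have h3 : a.loc.map (fun _ => ()) = b.loc.map (fun _ => ()) := by
    have := congrArg V.loc h1
    unfold V.shape at this
    rwa [V.loc_map, V.loc_map] at this
  unfold V.pos at h2
  cases ha : a.loc <;> cases hb : b.loc <;> simp_all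

/-! ### countability -/

section Count

variable {N T : Type}

instance [Countable N] : Countable (SN N) := by
  let f : SN N → N ⊕ (N × ℕ) ⊕ N := fun a => match a with
    | .val p => .inl p
    | .aux p c => .inr (.inl (p, c))
    | .var x => .inr (.inr x)
  refine Function.Injective.countable (f := f) ?_
  intro a b h
  cases a <;> cases b <;> simp_all [f]

instance [Countable N] [Countable T] : Countable (AN N T) := by
  let f : AN N T → N ⊕ (T × ℕ) ⊕ ℕ := fun a => match a with
    | .s n => .inl n
    | .f t r => .inr (.inl (t, r))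
    | .tt => .inr (.inr 0)
    | .t2 => .inr (.inr 1)
    | .g => .inr (.inr 2)
  refine Function.Injective.countable (f := f) ?_
  intro a b h
  cases a <;> cases b <;> simp_all [f]

instance [Countable N] [Countable T] : Countable (PN N T) := by
  let f : PN N T → N ⊕ (T × ℕ) ⊕ ℕ := fun a => match a with
    | .h n => .inl n
    | .f t r => .inr (.inl (t, r))
    | .O => .inr (.inr 0)
    | .D => .inr (.inr 1)
    | .M => .inr (.inr 2)
    | .E => .inr (.inr 3)
  refine Function.Injective.countable (f := f) ?_
  intro a b h
  cases a <;> cases b <;> simp_all [f]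

instance [Countable N] [Countable T] : Countable (HN N T) := by
  let f : HN N T → N ⊕ (T × ℕ) ⊕ (T × ℕ × ℕ) := fun a => match a with
    | .b n => .inl n
    | .u t r => .inr (.inl (t, r))
    | .q t s r => .inr (.inr (t, s, r))
  refine Function.Injective.countable (f := f) ?_
  intro a b h
  cases a <;> cases b <;> simp_all [f]

end Count

/-- numbers of the shapes -/
noncomputable def code : V Unit → ℕ := (exists_injective_nat (V Unit)).choose

theorem code_injective : Function.Injective code := (exists_injective_nat (V Unit)).choose_spec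

/-- the shapes which are used -/
def shapes : List (V Unit) :=
  (globs : List (List (V Unit))).flatten ++
    ((List.flatMap (fun tok => (tmpl tok).flatten) [.tick, .var, .zero, .one, .negOne, .add, .mul,
      .eq, .lt, .le, .and, .or, .not] ++ finTmpl.flatten).map V.shape)

/-- a bound of the numbers of the shapes -/
noncomputable def KK : ℕ := (shapes.map code).foldr max 0 + 1

theorem le_foldr_max (l : List ℕ) : ∀ x ∈ l, x ≤ l.foldr max 0 := by
  induction l with
  | nil => simp
  | cons a l ih =>
    intro x hx
    rw [List.foldr_cons]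
    rcases List.mem_cons.mp hx with rfl | hx
    · exact le_max_left _ _
    · exact (ih x hx).trans (le_max_right _ _)

theorem code_lt {s : V Unit} (h : s ∈ shapes) : code s < KK :=
  Nat.lt_succ_of_le (le_foldr_max _ _ (List.mem_map_of_mem h))

theorem code_glob {e : List (V ℕ)} (he : e ∈ (globs : List (List (V ℕ)))) {v : V ℕ} (hv : v ∈ e) :
    code v.shape < KK := by
  apply code_lt
  apply List.mem_append_left
  have h : e.map V.shape ∈ (globs : List (List (V Unit))) := by
    have := globs_map (SN.map fun _ : ℕ => ()) (pm fun _ : ℕ => ())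
    rw [← this]
    exact List.mem_map_of_mem he
  exact List.mem_flatten.mpr ⟨_, h, List.mem_map_of_mem hv⟩

theorem code_tmpl {tok : FSym} {e : List (V Role)} (he : e ∈ tmpl tok) {v : V Role} (hv : v ∈ e) :
    code v.shape < KK := by
  apply code_lt
  apply List.mem_append_right
  apply List.mem_map_of_mem
  apply List.mem_append_left
  refine List.mem_flatMap.mpr ⟨tok, ?_, List.mem_flatten.mpr ⟨e, he, hv⟩⟩
  cases tok <;> simp

theorem code_fin {e : List (V Role)} (he : e ∈ finTmpl) {v : V Role} (hv : v ∈ e) :
    code v.shape < KK := by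
  apply code_lt
  apply List.mem_append_right
  apply List.mem_map_of_mem
  apply List.mem_append_right
  exact List.mem_flatten.mpr ⟨e, he, hv⟩

/-- the number of a vertex -/
noncomputable def num (v : V ℕ) : ℕ := KK * v.pos + code v.shape

theorem num_inj {a b : V ℕ} (ha : code a.shape < KK) (hb : code b.shape < KK)
    (h : num a = num b) : a = b := by
  unfold num at h
  have hK : 0 < KK := by unfold KK; omega
  have h1 : a.pos = b.pos := by
    have e1 : (KK * a.pos + code a.shape) / KK = a.pos := by
      rw [Nat.mul_add_div hK, Nat.div_eq_of_lt ha, Nat.add_zero]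
    have e2 : (KK * b.pos + code b.shape) / KK = b.pos := by
      rw [Nat.mul_add_div hK, Nat.div_eq_of_lt hb, Nat.add_zero]
    rw [← e1, ← e2, h]
  have h2 : code a.shape = code b.shape := by
    rw [h1] at h
    exact Nat.add_left_cancel h
  exact V.eq_of_pos (code_injective h2) h1

/-! ### bounds for positions -/

theorem pos_glob {e : List (V ℕ)} (he : e ∈ (globs : List (List (V ℕ)))) {v : V ℕ} (hv : v ∈ e) :
    v.pos = 0 := by
  have h := globs_map (SN.map fun _ : Unit => (0 : ℕ)) (pm fun _ : Unit => (0 : ℕ))
  rw [← h] at he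
  obtain ⟨f, hf, rfl⟩ := List.mem_map.mp he
  obtain ⟨w, hw, rfl⟩ := List.mem_map.mp hv
  have h' : V.loc (V.map (fun _ : Unit => (0 : ℕ)) w) = (V.loc w).map fun _ => 0 :=
    V.loc_map _ w
  unfold V.pos
  show (V.loc (V.map (fun _ : Unit => (0 : ℕ)) w)).getD 0 = 0
  rw [h']
  cases V.loc w <;> rfl

theorem pos_map (ρ : Role → ℕ) (w : V Role) (B : ℕ) (h : ∀ r, ρ r ≤ B) :
    (V.map ρ w).pos ≤ B := by
  unfold V.pos
  rw [V.loc_map]
  cases w.loc with
  | none => exact Nat.zero_le _
  | some r => exact h r

/-- a vertex is fine for the bound `B` -/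
def Fine (B : ℕ) (v : V ℕ) : Prop := v.pos ≤ B ∧ code v.shape < KK

theorem fine_inst {tok : FSym} {p i j x B : ℕ} (hp : p ≤ B) (hi : i ≤ B) (hj : j ≤ B)
    (hx : x ≤ B) : ∀ e ∈ locs (inst tok p i j x), ∀ v ∈ e, Fine B v := by
  intro e he v hv
  rw [locs_inst] at he
  obtain ⟨f, hf, rfl⟩ := List.mem_map.mp he
  obtain ⟨w, hw, rfl⟩ := List.mem_map.mp hv
  refine ⟨pos_map _ _ _ (by intro r; cases r <;> assumption), ?_⟩
  rw [V.shape_map]
  exact code_tmpl hf hw

theorem fine_fin {p i B : ℕ} (hp : p ≤ B) (hi : i ≤ B) :
    ∀ e ∈ locs (tag p (finCon i)), ∀ v ∈ e, Fine B v := by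
  intro e he v hv
  rw [locs_fin] at he
  obtain ⟨f, hf, rfl⟩ := List.mem_map.mp he
  obtain ⟨w, hw, rfl⟩ := List.mem_map.mp hv
  refine ⟨pos_map _ _ _ (by intro r; cases r <;> first | assumption | exact Nat.zero_le _), ?_⟩
  rw [V.shape_map]
  exact code_fin hf hw

theorem fine_expr (t : PolyExpr) : ∀ (c B : ℕ), c + t.enc.length ≤ B →
    ∀ e ∈ locs (t.inst c), ∀ v ∈ e, Fine B v := by
  induction t with
  | zero =>
    intro c B h
    simp only [PolyExpr.enc, List.length_singleton] at h
    exact fine_inst h (by omega) (by omega) (by omega)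
  | one =>
    intro c B h
    simp only [PolyExpr.enc, List.length_singleton] at h
    exact fine_inst h (by omega) (by omega) (by omega)
  | negOne =>
    intro c B h
    simp only [PolyExpr.enc, List.length_singleton] at h
    exact fine_inst h (by omega) (by omega) (by omega)
  | var i =>
    intro c B h
    simp only [PolyExpr.enc, List.length_singleton, List.length_append,
      List.length_replicate] at h
    exact fine_inst (by omega) (by omega) (by omega) (by omega)
  | add s t ihs iht =>
    intro c B h
    simp only [PolyExpr.enc, List.length_singleton, List.length_append] at h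
    simp only [PolyExpr.inst, locs_append, List.forall_mem_append]
    exact ⟨ihs _ _ (by omega), iht _ _ (by omega),
      fine_inst (by omega) (by omega) (by omega) (by omega)⟩
  | mul s t ihs iht =>
    intro c B h
    simp only [PolyExpr.enc, List.length_singleton, List.length_append] at h
    simp only [PolyExpr.inst, locs_append, List.forall_mem_append]
    exact ⟨ihs _ _ (by omega), iht _ _ (by omega),
      fine_inst (by omega) (by omega) (by omega) (by omega)⟩

theorem fine_formula (φ : QFFormula) : ∀ (c B : ℕ), c + φ.enc.length ≤ B →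
    ∀ e ∈ locs (φ.inst c), ∀ v ∈ e, Fine B v := by
  induction φ with
  | eq s t =>
    intro c B h
    simp only [QFFormula.enc, List.length_singleton, List.length_append] at h
    simp only [QFFormula.inst, locs_append, List.forall_mem_append]
    exact ⟨fine_expr _ _ _ (by omega), fine_expr _ _ _ (by omega),
      fine_inst (by omega) (by omega) (by omega) (by omega)⟩
  | lt s t =>
    intro c B h
    simp only [QFFormula.enc, List.length_singleton, List.length_append] at h
    simp only [QFFormula.inst, locs_append, List.forall_mem_append]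
    exact ⟨fine_expr _ _ _ (by omega), fine_expr _ _ _ (by omega),
      fine_inst (by omega) (by omega) (by omega) (by omega)⟩
  | le s t =>
    intro c B h
    simp only [QFFormula.enc, List.length_singleton, List.length_append] at h
    simp only [QFFormula.inst, locs_append, List.forall_mem_append]
    exact ⟨fine_expr _ _ _ (by omega), fine_expr _ _ _ (by omega),
      fine_inst (by omega) (by omega) (by omega) (by omega)⟩
  | and s t ihs iht =>
    intro c B h
    simp only [QFFormula.enc, List.length_singleton, List.length_append] at h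
    simp only [QFFormula.inst, locs_append, List.forall_mem_append]
    exact ⟨ihs _ _ (by omega), iht _ _ (by omega),
      fine_inst (by omega) (by omega) (by omega) (by omega)⟩
  | or s t ihs iht =>
    intro c B h
    simp only [QFFormula.enc, List.length_singleton, List.length_append] at h
    simp only [QFFormula.inst, locs_append, List.forall_mem_append]
    exact ⟨ihs _ _ (by omega), iht _ _ (by omega),
      fine_inst (by omega) (by omega) (by omega) (by omega)⟩
  | not s ihs =>
    intro c B h
    simp only [QFFormula.enc, List.length_singleton, List.length_append] at h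
    simp only [QFFormula.inst, locs_append, List.forall_mem_append]
    exact ⟨ihs _ _ (by omega), fine_inst (by omega) (by omega) (by omega) (by omega)⟩

theorem fine_system (φ : QFFormula) :
    ∀ e ∈ hedges φ.system, ∀ v ∈ e, Fine (φ.enc.length + 1) v := by
  rw [hedges_eq, QFFormula.system, locs_append]
  simp only [List.forall_mem_append]
  refine ⟨?_, fine_formula φ 0 _ (by omega), fine_fin (by omega) (by omega)⟩
  intro e he v hv
  exact ⟨by rw [pos_glob he hv]; exact Nat.zero_le _, code_glob he hv⟩

/-! ### the hypergraph of a formula -/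

/-- the number of vertices of the hypergraph of a formula -/
noncomputable def QFFormula.size (φ : QFFormula) : ℕ := KK * (φ.enc.length + 2)

/-- the hyperedges of the hypergraph of a formula -/
noncomputable def QFFormula.hyp (φ : QFFormula) : List (List ℕ) :=
  (hedges φ.system).map (List.map num)

theorem num_lt {B : ℕ} {v : V ℕ} (h : Fine B v) : num v < KK * (B + 1) := by
  unfold num
  have h1 : KK * v.pos ≤ KK * B := Nat.mul_le_mul_left _ h.1
  have h2 := h.2
  rw [Nat.mul_add, Nat.mul_one]
  omega

theorem hyp_inj (φ : QFFormula) : ∀ e ∈ hedges φ.system, ∀ a ∈ e, ∀ f ∈ hedges φ.system,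
    ∀ b ∈ f, num a = num b → a = b := fun e he a ha f hf b hb =>
  num_inj (fine_system φ e he a ha).2 (fine_system φ f hf b hb).2

theorem hyp_lt (φ : QFFormula) : ∀ e ∈ hedges φ.system, ∀ a ∈ e, num a < φ.size :=
  fun e he a ha => num_lt (fine_system φ e he a ha)

theorem hyp_card (φ : QFFormula) : ∀ e ∈ φ.hyp, 2 ≤ e.toFinset.card ∧ e.toFinset.card ≤ 3 := by
  intro e he
  obtain ⟨f, hf, rfl⟩ := List.mem_map.mp he
  have hinj : ∀ a ∈ f, ∀ b ∈ f, a ≠ b → num a ≠ num b := fun a ha b hb hab h =>
    hab (hyp_inj φ f hf a ha f hf b hb h)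
  rcases lay3_shape (wf2 _) hf with ⟨a, b, hab, h⟩ | ⟨a, b, c, hab, hac, hbc, h⟩
  · have h1 : num a ≠ num b := hinj a (by simp [h]) b (by simp [h]) hab
    rw [h, List.toFinset_card_of_nodup (by simp [h1])]
    simp
  · have h1 : num a ≠ num b := hinj a (by simp [h]) b (by simp [h]) hab
    have h2 : num a ≠ num c := hinj a (by simp [h]) c (by simp [h]) hac
    have h3 : num b ≠ num c := hinj b (by simp [h]) c (by simp [h]) hbc
    rw [h, List.toFinset_card_of_nodup (by simp [h1, h2, h3])]
    simp

theorem hyp_linear (φ : QFFormula) : ∀ e ∈ φ.hyp, ∀ f ∈ φ.hyp, e.toFinset ≠ f.toFinset →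
    (e.toFinset ∩ f.toFinset).card ≤ 1 := by
  intro e he f hf hef
  obtain ⟨e', he', rfl⟩ := List.mem_map.mp he
  obtain ⟨f', hf', rfl⟩ := List.mem_map.mp hf
  by_contra hcon
  push Not at hcon
  obtain ⟨x, hx, y, hy, hxy⟩ := Finset.one_lt_card.mp hcon
  rw [Finset.mem_inter, List.mem_toFinset, List.mem_toFinset] at hx hy
  obtain ⟨a, ha, rfl⟩ := List.mem_map.mp hx.1
  obtain ⟨b, hb, rfl⟩ := List.mem_map.mp hy.1
  obtain ⟨a', ha', h1⟩ := List.mem_map.mp hx.2
  obtain ⟨b', hb', h2⟩ := List.mem_map.mp hy.2
  have e1 := hyp_inj φ _ hf' _ ha' _ he' _ ha h1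
  have e2 := hyp_inj φ _ hf' _ hb' _ he' _ hb h2
  rw [e1] at ha'
  rw [e2] at hb'
  apply hef
  rw [lay3_linear (nodup_lay2 _ (nodup_lay1 _ (system_nodup φ))) (wf2 _) he' hf' ha hb
    (fun h => hxy (by rw [h])) ha' hb']

/-- the hypergraph of a formula -/
noncomputable def QFFormula.graph (k : ℕ) (hk : 3 ≤ k) (φ : QFFormula) : LinHypergraph k where
  n := φ.size
  edges := φ.hyp
  lt_n := by
    intro e he v hv
    obtain ⟨f, hf, rfl⟩ := List.mem_map.mp he
    obtain ⟨a, ha, rfl⟩ := List.mem_map.mp hv
    exact hyp_lt φ f hf a ha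
  two_le := fun e he => (hyp_card φ e he).1
  rank_le := fun e he => ((hyp_card φ e he).2).trans hk
  linear := hyp_linear φ

theorem graph_realizable (k : ℕ) (hk : 3 ≤ k) (φ : QFFormula) :
    (φ.graph k hk).Realizable ↔ ∃ x : ℕ → ℝ, φ.Holds x := by
  rw [← system_iff_formula, system_iff φ.system (system_nodup φ) num φ.size (hyp_inj φ)
    (hyp_lt φ)]
  rfl

end Pool.Agent.Helper55
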