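import Pool.Agent.Helper55.Strong

set_option autoImplicit false

/-!
Generic placement of the Pappus gadget.
-/

namespace Pool.Agent.Helper55

/-- first coordinates of the six points -/
def Wx (b e : ℝ) : ℕ → ℝ
  | 0 => 0
  | 1 => b
  | 2 => -(e * b)
  | 3 => -(b * e)
  | 4 => e
  | _ => 0

/-- second coordinates of the six points -/
def Wy (b e : ℝ) : ℕ → ℝ
  | 0 => 0
  | 1 => b + 1
  | 2 => -(e * (b + 1))
  | 3 => b + 1
  | 4 => 0
  | _ => 1

theorem planar0 {b e : ℝ} (hb : 0 < b) (he : 0 < e) : ∀ r < 6,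
    (b * (Wy b e r - Wy b e 0) - (b + 1) * (Wx b e r - Wx b e 0) = 0 ↔ r = 0 ∨ r = 1 ∨ r = 2) := by
  intro r hr
  interval_cases r
  · exact ⟨fun _ => by omega, fun _ => by simp only [Wx, Wy]; ring⟩
  · exact ⟨fun _ => by omega, fun _ => by simp only [Wx, Wy]; ring⟩
  · exact ⟨fun _ => by omega, fun _ => by simp only [Wx, Wy]; ring⟩
  · refine ⟨fun h => absurd h (ne_of_gt ?_), fun h => by omega⟩
    have h1 : b * (Wy b e 3 - Wy b e 0) - (b + 1) * (Wx b e 3 - Wx b e 0) = b * (b + 1) * (1 + e) := by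
      simp only [Wx, Wy]; ring
    rw [h1]; positivity
  · refine ⟨fun h => absurd h (ne_of_lt ?_), fun h => by omega⟩
    have h1 : b * (Wy b e 4 - Wy b e 0) - (b + 1) * (Wx b e 4 - Wx b e 0) = -((b + 1) * e) := by
      simp only [Wx, Wy]; ring
    have h2 : 0 < (b + 1) * e := by positivity
    rw [h1]; linarith
  · refine ⟨fun h => absurd h (ne_of_gt ?_), fun h => by omega⟩
    have h1 : b * (Wy b e 5 - Wy b e 0) - (b + 1) * (Wx b e 5 - Wx b e 0) = b := by
      simp only [Wx, Wy]; ring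
    rw [h1]; positivity

theorem planar1 {b e : ℝ} (hb : 0 < b) (he : 0 < e) : ∀ r < 6,
    (e * (Wy b e r - Wy b e 5) - (-1) * (Wx b e r - Wx b e 5) = 0 ↔ r = 3 ∨ r = 4 ∨ r = 5) := by
  intro r hr
  interval_cases r
  · refine ⟨fun h => absurd h (ne_of_lt ?_), fun h => by omega⟩
    have h1 : e * (Wy b e 0 - Wy b e 5) - (-1) * (Wx b e 0 - Wx b e 5) = -(e) := by
      simp only [Wx, Wy]; ring
    have h2 : 0 < e := by positivity
    rw [h1]; linarith
  · refine ⟨fun h => absurd h (ne_of_gt ?_), fun h => by omega⟩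
    have h1 : e * (Wy b e 1 - Wy b e 5) - (-1) * (Wx b e 1 - Wx b e 5) = b * (e + 1) := by
      simp only [Wx, Wy]; ring
    rw [h1]; positivity
  · refine ⟨fun h => absurd h (ne_of_lt ?_), fun h => by omega⟩
    have h1 : e * (Wy b e 2 - Wy b e 5) - (-1) * (Wx b e 2 - Wx b e 5) = -(e * (b + 1) * (e + 1)) := by
      simp only [Wx, Wy]; ring
    have h2 : 0 < e * (b + 1) * (e + 1) := by positivity
    rw [h1]; linarith
  · exact ⟨fun _ => by omega, fun _ => by simp only [Wx, Wy]; ring⟩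
  · exact ⟨fun _ => by omega, fun _ => by simp only [Wx, Wy]; ring⟩
  · exact ⟨fun _ => by omega, fun _ => by simp only [Wx, Wy]; ring⟩

theorem planar2 {b e : ℝ} (hb : 0 < b) (he : 0 < e) : ∀ r < 6,
    (1 * (Wy b e r - Wy b e 0) - 0 * (Wx b e r - Wx b e 0) = 0 ↔ r = 0 ∨ r = 4) := by
  intro r hr
  interval_cases r
  · exact ⟨fun _ => by omega, fun _ => by simp only [Wx, Wy]; ring⟩
  · refine ⟨fun h => absurd h (ne_of_gt ?_), fun h => by omega⟩
    have h1 : 1 * (Wy b e 1 - Wy b e 0) - 0 * (Wx b e 1 - Wx b e 0) = (b + 1) := by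
      simp only [Wx, Wy]; ring
    rw [h1]; positivity
  · refine ⟨fun h => absurd h (ne_of_lt ?_), fun h => by omega⟩
    have h1 : 1 * (Wy b e 2 - Wy b e 0) - 0 * (Wx b e 2 - Wx b e 0) = -(e * (b + 1)) := by
      simp only [Wx, Wy]; ring
    have h2 : 0 < e * (b + 1) := by positivity
    rw [h1]; linarith
  · refine ⟨fun h => absurd h (ne_of_gt ?_), fun h => by omega⟩
    have h1 : 1 * (Wy b e 3 - Wy b e 0) - 0 * (Wx b e 3 - Wx b e 0) = (b + 1) := by
      simp only [Wx, Wy]; ring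
    rw [h1]; positivity
  · exact ⟨fun _ => by omega, fun _ => by simp only [Wx, Wy]; ring⟩
  · refine ⟨fun h => absurd h (ne_of_gt ?_), fun h => by omega⟩
    have h1 : 1 * (Wy b e 5 - Wy b e 0) - 0 * (Wx b e 5 - Wx b e 0) = 1 := by
      simp only [Wx, Wy]; ring
    rw [h1]; positivity

theorem planar3 {b e : ℝ} (hb : 0 < b) (he : 0 < e) : ∀ r < 6,
    (1 * (Wy b e r - Wy b e 1) - 0 * (Wx b e r - Wx b e 1) = 0 ↔ r = 1 ∨ r = 3) := by
  intro r hr
  interval_cases r
  · refine ⟨fun h => absurd h (ne_of_lt ?_), fun h => by omega⟩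
    have h1 : 1 * (Wy b e 0 - Wy b e 1) - 0 * (Wx b e 0 - Wx b e 1) = -((b + 1)) := by
      simp only [Wx, Wy]; ring
    have h2 : 0 < (b + 1) := by positivity
    rw [h1]; linarith
  · exact ⟨fun _ => by omega, fun _ => by simp only [Wx, Wy]; ring⟩
  · refine ⟨fun h => absurd h (ne_of_lt ?_), fun h => by omega⟩
    have h1 : 1 * (Wy b e 2 - Wy b e 1) - 0 * (Wx b e 2 - Wx b e 1) = -((e + 1) * (b + 1)) := by
      simp only [Wx, Wy]; ring
    have h2 : 0 < (e + 1) * (b + 1) := by positivity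
    rw [h1]; linarith
  · exact ⟨fun _ => by omega, fun _ => by simp only [Wx, Wy]; ring⟩
  · refine ⟨fun h => absurd h (ne_of_lt ?_), fun h => by omega⟩
    have h1 : 1 * (Wy b e 4 - Wy b e 1) - 0 * (Wx b e 4 - Wx b e 1) = -((b + 1)) := by
      simp only [Wx, Wy]; ring
    have h2 : 0 < (b + 1) := by positivity
    rw [h1]; linarith
  · refine ⟨fun h => absurd h (ne_of_lt ?_), fun h => by omega⟩
    have h1 : 1 * (Wy b e 5 - Wy b e 1) - 0 * (Wx b e 5 - Wx b e 1) = -(b) := by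
      simp only [Wx, Wy]; ring
    have h2 : 0 < b := by positivity
    rw [h1]; linarith

theorem planar4 {b e : ℝ} (hb : 0 < b) (he : 0 < e) : ∀ r < 6,
    (0 * (Wy b e r - Wy b e 0) - 1 * (Wx b e r - Wx b e 0) = 0 ↔ r = 0 ∨ r = 5) := by
  intro r hr
  interval_cases r
  · exact ⟨fun _ => by omega, fun _ => by simp only [Wx, Wy]; ring⟩
  · refine ⟨fun h => absurd h (ne_of_lt ?_), fun h => by omega⟩
    have h1 : 0 * (Wy b e 1 - Wy b e 0) - 1 * (Wx b e 1 - Wx b e 0) = -(b) := by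
      simp only [Wx, Wy]; ring
    have h2 : 0 < b := by positivity
    rw [h1]; linarith
  · refine ⟨fun h => absurd h (ne_of_gt ?_), fun h => by omega⟩
    have h1 : 0 * (Wy b e 2 - Wy b e 0) - 1 * (Wx b e 2 - Wx b e 0) = e * b := by
      simp only [Wx, Wy]; ring
    rw [h1]; positivity
  · refine ⟨fun h => absurd h (ne_of_gt ?_), fun h => by omega⟩
    have h1 : 0 * (Wy b e 3 - Wy b e 0) - 1 * (Wx b e 3 - Wx b e 0) = b * e := by
      simp only [Wx, Wy]; ring
    rw [h1]; positivity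
  · refine ⟨fun h => absurd h (ne_of_lt ?_), fun h => by omega⟩
    have h1 : 0 * (Wy b e 4 - Wy b e 0) - 1 * (Wx b e 4 - Wx b e 0) = -(e) := by
      simp only [Wx, Wy]; ring
    have h2 : 0 < e := by positivity
    rw [h1]; linarith
  · exact ⟨fun _ => by omega, fun _ => by simp only [Wx, Wy]; ring⟩

theorem planar5 {b e : ℝ} (hb : 0 < b) (he : 0 < e) : ∀ r < 6,
    (0 * (Wy b e r - Wy b e 2) - 1 * (Wx b e r - Wx b e 2) = 0 ↔ r = 2 ∨ r = 3) := by
  intro r hr
  interval_cases r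
  · refine ⟨fun h => absurd h (ne_of_lt ?_), fun h => by omega⟩
    have h1 : 0 * (Wy b e 0 - Wy b e 2) - 1 * (Wx b e 0 - Wx b e 2) = -(e * b) := by
      simp only [Wx, Wy]; ring
    have h2 : 0 < e * b := by positivity
    rw [h1]; linarith
  · refine ⟨fun h => absurd h (ne_of_lt ?_), fun h => by omega⟩
    have h1 : 0 * (Wy b e 1 - Wy b e 2) - 1 * (Wx b e 1 - Wx b e 2) = -((b + e * b)) := by
      simp only [Wx, Wy]; ring
    have h2 : 0 < (b + e * b) := by positivity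
    rw [h1]; linarith
  · exact ⟨fun _ => by omega, fun _ => by simp only [Wx, Wy]; ring⟩
  · exact ⟨fun _ => by omega, fun _ => by simp only [Wx, Wy]; ring⟩
  · refine ⟨fun h => absurd h (ne_of_lt ?_), fun h => by omega⟩
    have h1 : 0 * (Wy b e 4 - Wy b e 2) - 1 * (Wx b e 4 - Wx b e 2) = -((e + e * b)) := by
      simp only [Wx, Wy]; ring
    have h2 : 0 < (e + e * b) := by positivity
    rw [h1]; linarith
  · refine ⟨fun h => absurd h (ne_of_lt ?_), fun h => by omega⟩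
    have h1 : 0 * (Wy b e 5 - Wy b e 2) - 1 * (Wx b e 5 - Wx b e 2) = -(e * b) := by
      simp only [Wx, Wy]; ring
    have h2 : 0 < e * b := by positivity
    rw [h1]; linarith

theorem planar6 {b e : ℝ} (hb : 0 < b) (he : 0 < e) : ∀ r < 6,
    (1 * (Wy b e r - Wy b e 1) - 1 * (Wx b e r - Wx b e 1) = 0 ↔ r = 1 ∨ r = 5) := by
  intro r hr
  interval_cases r
  · refine ⟨fun h => absurd h (ne_of_lt ?_), fun h => by omega⟩
    have h1 : 1 * (Wy b e 0 - Wy b e 1) - 1 * (Wx b e 0 - Wx b e 1) = -(1) := by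
      simp only [Wx, Wy]; ring
    have h2 : 0 < 1 := by positivity
    rw [h1]; linarith
  · exact ⟨fun _ => by omega, fun _ => by simp only [Wx, Wy]; ring⟩
  · refine ⟨fun h => absurd h (ne_of_lt ?_), fun h => by omega⟩
    have h1 : 1 * (Wy b e 2 - Wy b e 1) - 1 * (Wx b e 2 - Wx b e 1) = -((e + 1)) := by
      simp only [Wx, Wy]; ring
    have h2 : 0 < (e + 1) := by positivity
    rw [h1]; linarith
  · refine ⟨fun h => absurd h (ne_of_gt ?_), fun h => by omega⟩
    have h1 : 1 * (Wy b e 3 - Wy b e 1) - 1 * (Wx b e 3 - Wx b e 1) = b * (1 + e) := by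
      simp only [Wx, Wy]; ring
    rw [h1]; positivity
  · refine ⟨fun h => absurd h (ne_of_lt ?_), fun h => by omega⟩
    have h1 : 1 * (Wy b e 4 - Wy b e 1) - 1 * (Wx b e 4 - Wx b e 1) = -((e + 1)) := by
      simp only [Wx, Wy]; ring
    have h2 : 0 < (e + 1) := by positivity
    rw [h1]; linarith
  · exact ⟨fun _ => by omega, fun _ => by simp only [Wx, Wy]; ring⟩

theorem planar7 {b e : ℝ} (hb : 0 < b) (he : 0 < e) : ∀ r < 6,
    (1 * (Wy b e r - Wy b e 2) - 1 * (Wx b e r - Wx b e 2) = 0 ↔ r = 2 ∨ r = 4) := by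
  intro r hr
  interval_cases r
  · refine ⟨fun h => absurd h (ne_of_gt ?_), fun h => by omega⟩
    have h1 : 1 * (Wy b e 0 - Wy b e 2) - 1 * (Wx b e 0 - Wx b e 2) = e := by
      simp only [Wx, Wy]; ring
    rw [h1]; positivity
  · refine ⟨fun h => absurd h (ne_of_gt ?_), fun h => by omega⟩
    have h1 : 1 * (Wy b e 1 - Wy b e 2) - 1 * (Wx b e 1 - Wx b e 2) = (1 + e) := by
      simp only [Wx, Wy]; ring
    rw [h1]; positivity
  · exact ⟨fun _ => by omega, fun _ => by simp only [Wx, Wy]; ring⟩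
  · refine ⟨fun h => absurd h (ne_of_gt ?_), fun h => by omega⟩
    have h1 : 1 * (Wy b e 3 - Wy b e 2) - 1 * (Wx b e 3 - Wx b e 2) = (b + 1) * (1 + e) := by
      simp only [Wx, Wy]; ring
    rw [h1]; positivity
  · exact ⟨fun _ => by omega, fun _ => by simp only [Wx, Wy]; ring⟩
  · refine ⟨fun h => absurd h (ne_of_gt ?_), fun h => by omega⟩
    have h1 : 1 * (Wy b e 5 - Wy b e 2) - 1 * (Wx b e 5 - Wx b e 2) = (1 + e) := by
      simp only [Wx, Wy]; ring
    rw [h1]; positivity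

theorem Wdist {b e : ℝ} (hb : 0 < b) (he : 0 < e) : ∀ i < 6, ∀ j < 6, i < j →
    Wx b e i ≠ Wx b e j ∨ Wy b e i ≠ Wy b e j := by
  have hbe : 0 < e * b := mul_pos he hb
  have hbe' : 0 < b * e := mul_pos hb he
  intro i hi j hj hij
  interval_cases i <;> interval_cases j <;> first
    | (exfalso; omega)
    | (left; refine ne_of_lt ?_; simp only [Wx]; nlinarith)
    | (left; refine ne_of_gt ?_; simp only [Wx]; nlinarith)
    | (right; refine ne_of_lt ?_; simp only [Wy]; nlinarith)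
    | (right; refine ne_of_gt ?_; simp only [Wy]; nlinarith)

theorem Wdist' {b e : ℝ} (hb : 0 < b) (he : 0 < e) : ∀ i < 6, ∀ j < 6, i ≠ j →
    Wx b e j - Wx b e i ≠ 0 ∨ Wy b e j - Wy b e i ≠ 0 := by
  intro i hi j hj hij
  rcases Nat.lt_or_gt_of_ne hij with h | h
  · rcases Wdist hb he i hi j hj h with h | h
    · exact Or.inl (sub_ne_zero.mpr h.symm)
    · exact Or.inr (sub_ne_zero.mpr h.symm)
  · rcases Wdist hb he j hj i hi h with h | h
    · exact Or.inl (sub_ne_zero.mpr h)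
    · exact Or.inr (sub_ne_zero.mpr h)

end Pool.Agent.Helper55
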