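import Pool.Agent.Helper55.Complete3
import Pool.Agent.Helper55.ERDefs

set_option autoImplicit false

/-!
Straight-line realizations and placements of vectors.
-/

namespace Pool.Agent.Helper55

/-- three collinear points of the plane, the first two different: one of them lies between the
other two -/
theorem between {P Q R : ℝ × ℝ} (hPQ : P ≠ Q)
    (h : (Q.1 - P.1) * (R.2 - P.2) - (Q.2 - P.2) * (R.1 - P.1) = 0) :
    R ∈ segment ℝ P Q ∨ P ∈ segment ℝ Q R ∨ Q ∈ segment ℝ P R := by
  obtain ⟨t, ht⟩ : ∃ t : ℝ, R = P + t • (Q - P) := by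
    obtain ⟨p1, p2⟩ := P
    obtain ⟨q1, q2⟩ := Q
    obtain ⟨r1, r2⟩ := R
    simp only at h
    by_cases h1 : q1 - p1 = 0
    · have h2 : q2 - p2 ≠ 0 := by
        intro h2
        apply hPQ
        rw [sub_eq_zero.mp h1, sub_eq_zero.mp h2]
      refine ⟨(r2 - p2) / (q2 - p2), ?_⟩
      have h3 : r1 - p1 = 0 := by
        rw [h1] at h
        have : (q2 - p2) * (r1 - p1) = 0 := by linarith
        exact (mul_eq_zero.mp this).resolve_left h2
      simp only [Prod.mk_sub_mk, Prod.smul_mk, smul_eq_mul, Prod.mk_add_mk, Prod.mk.injEq]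
      constructor
      · rw [h1]; linarith
      · field_simp; ring
    · refine ⟨(r1 - p1) / (q1 - p1), ?_⟩
      simp only [Prod.mk_sub_mk, Prod.smul_mk, smul_eq_mul, Prod.mk_add_mk, Prod.mk.injEq]
      constructor
      · field_simp; ring
      · field_simp
        linear_combination h
  rcases lt_or_ge t 0 with h0 | h0
  · right; left
    -- P between Q and R
    have h1 : (1 - t) ≠ 0 := by linarith
    refine ⟨-t / (1 - t), 1 / (1 - t), div_nonneg (by linarith) (by linarith),
      div_nonneg (by norm_num) (by linarith), by field_simp; ring, ?_⟩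
    rw [ht]
    have e1 : (-t / (1 - t)) • Q + (1 / (1 - t)) • (P + t • (Q - P)) =
      ((-t / (1 - t)) + (1 / (1 - t)) * t) • Q + ((1 / (1 - t)) * (1 - t)) • P := by module
    have e2 : (-t / (1 - t)) + (1 / (1 - t)) * t = 0 := by field_simp; ring
    have e3 : (1 / (1 - t)) * (1 - t) = 1 := by field_simp
    rw [e1, e2, e3]; simp
  · rcases le_or_gt t 1 with h1 | h1
    · left
      refine ⟨1 - t, t, by linarith, h0, by ring, ?_⟩
      rw [ht]; module
    · right; right
      have h2 : t ≠ 0 := by linarith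
      refine ⟨1 - 1 / t, 1 / t, ?_, by positivity, by ring, ?_⟩
      · have : 1 / t ≤ 1 := by rw [div_le_one (by linarith)]; exact h1.le
        linarith
      · rw [ht]
        have e1 : (1 - 1 / t) • P + (1 / t) • (P + t • (Q - P)) =
          (1 - (1 / t) * t) • P + ((1 / t) * t) • Q := by module
        have e2 : (1 / t) * t = 1 := by field_simp
        rw [e1, e2]; simp

theorem collinear_of_mem {A B P Q R : ℝ × ℝ} (hP : P ∈ segment ℝ A B) (hQ : Q ∈ segment ℝ A B)
    (hR : R ∈ segment ℝ A B) :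
    (Q.1 - P.1) * (R.2 - P.2) - (Q.2 - P.2) * (R.1 - P.1) = 0 := by
  obtain ⟨a, b, _, _, hab, rfl⟩ := hP
  obtain ⟨c, d, _, _, hcd, rfl⟩ := hQ
  obtain ⟨e, f, _, _, hef, rfl⟩ := hR
  have h1 : a = 1 - b := by linarith
  have h2 : c = 1 - d := by linarith
  have h3 : e = 1 - f := by linarith
  subst h1 h2 h3
  simp only [Prod.fst_add, Prod.snd_add, Prod.smul_fst, Prod.smul_snd, smul_eq_mul]
  ring

/-- lift of a point of the plane -/
def lift3 (P : ℝ × ℝ) : V3 := (P.1, P.2, 1)

theorem det3_lift (P Q R : ℝ × ℝ) : det3 (lift3 P) (lift3 Q) (lift3 R) =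
    (Q.1 - P.1) * (R.2 - P.2) - (Q.2 - P.2) * (R.1 - P.1) := by
  simp only [det3, dot, crs, lift3]; ring

theorem np_lift {P Q : ℝ × ℝ} (h : P ≠ Q) : NP (lift3 P) (lift3 Q) := by
  intro h0
  apply h
  simp only [crs, lift3, Prod.mk_eq_zero] at h0
  obtain ⟨h1, h2, _⟩ := h0
  exact Prod.ext (by linarith) (by linarith)

/-- from a realization to a placement -/
theorem vreal_of_realizable {α : Type} (E : List (List α)) (ν : α → ℕ) (n : ℕ)
    (hν : ∀ e ∈ E, ∀ a ∈ e, ∀ f ∈ E, ∀ b ∈ f, ν a = ν b → a = b)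
    (hn : ∀ e ∈ E, ∀ a ∈ e, ν a < n)
    (pt : ℕ → ℝ × ℝ) (hinj : ∀ u < n, ∀ v < n, pt u = pt v → u = v)
    (hseg : ∀ e ∈ E, ∃ a b : ℝ × ℝ, ∀ v < n, (pt v ∈ segment ℝ a b ↔ v ∈ e.map ν)) :
    VReal (fun a => lift3 (pt (ν a))) E := by
  have hmem : ∀ e ∈ E, ∀ a b : ℝ × ℝ, (∀ v < n, (pt v ∈ segment ℝ a b ↔ v ∈ e.map ν)) →
      ∀ x ∈ e, pt (ν x) ∈ segment ℝ a b := fun e he a b h x hx =>
    (h _ (hn e he x hx)).mpr (List.mem_map_of_mem hx)
  refine ⟨?_, ?_, ?_⟩
  · intro e he a ha f hf b hb hab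
    apply np_lift
    intro h
    exact hab (hν e he a ha f hf b hb (hinj _ (hn e he a ha) _ (hn f hf b hb) h))
  · intro e he a ha b hb c hc
    obtain ⟨A, B, hAB⟩ := hseg e he
    have hm := hmem e he A B hAB
    rw [det3_lift]
    exact collinear_of_mem (hm a ha) (hm b hb) (hm c hc)
  · intro a b c hab hbc hac nab nbc nac hdet
    rw [det3_lift] at hdet
    have ma : a ∈ [a, b] := by simp
    have mb : b ∈ [a, b] := by simp
    have mc : c ∈ [b, c] := by simp
    have iab : ν a ≠ ν b := fun h => nab (hν _ hab a ma _ hab b mb h)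
    have ibc : ν b ≠ ν c := fun h => nbc (hν _ hab b mb _ hbc c mc h)
    have iac : ν a ≠ ν c := fun h => nac (hν _ hab a ma _ hbc c mc h)
    have la := hn _ hab a ma
    have lb := hn _ hab b mb
    have lc := hn _ hbc c mc
    have key : ∀ x y z : α, [x, y] ∈ E → ν z < n → ν x ≠ ν z → ν y ≠ ν z →
        pt (ν z) ∉ segment ℝ (pt (ν x)) (pt (ν y)) := by
      intro x y z hxy hz h1 h2 hmz
      obtain ⟨A, B, hAB⟩ := hseg _ hxy
      have hm := hmem _ hxy A B hAB
      have hx := hm x (by simp)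
      have hy := hm y (by simp)
      have hz' := (convex_segment A B).segment_subset hx hy hmz
      have := (hAB _ hz).mp hz'
      simp only [List.map_cons, List.map_nil, List.mem_cons, List.not_mem_nil, or_false] at this
      rcases this with h | h
      · exact h1 h.symm
      · exact h2 h.symm
    rcases between (fun h => iab (hinj _ la _ lb h)) hdet with h | h | h
    · exact key a b c hab lc iac ibc h
    · exact key b c a hbc la iab.symm iac.symm h
    · exact key a c b hac lb iab ibc.symm h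

/-! ### from placements to realizations -/

theorem exists_np {s : V3} (hs : s ≠ 0) : ∃ r, NP s r := by
  by_contra hcon
  push Not at hcon
  apply hs
  have h1 := hcon (1, 0, 0)
  have h2 := hcon (0, 1, 0)
  obtain ⟨s1, s2, s3⟩ := s
  simp only [NP, not_not, crs, Prod.mk_eq_zero] at h1 h2
  obtain ⟨_, h3, h4⟩ := h1
  obtain ⟨_, _, h5⟩ := h2
  have e3 : s3 = 0 := by linarith
  have e2 : s2 = 0 := by linarith
  have e1 : s1 = 0 := by linarith
  rw [e1, e2, e3]; rfl

theorem add_isolated {α : Type} {U : List α} {E : List (List α × V3)} {p : α → V3}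
    (h : Strong U E p) (x : α) : ∃ (U' : List α) (p' : α → V3), Strong U' E p' ∧
      (∀ a ∈ U, a ∈ U') ∧ x ∈ U' := by
  by_cases hx : x ∈ U
  · exact ⟨U, p, h, fun a ha => ha, hx⟩
  have finU : {a | a ∈ U}.Finite := List.finite_toSet U
  have finE : {a | a ∈ E}.Finite := List.finite_toSet E
  have et : ∀ᶠ t : ℝ in Filter.cofinite,
      (∀ e ∈ {a | a ∈ E}, dot e.2 (mc t) ≠ 0) ∧ (∀ s ∈ {a | a ∈ U}, NP (p s) (mc t)) ∧
      dot (1, 0, 0) (mc t) ≠ 0 := by
    refine Filter.Eventually.and ?_ (Filter.Eventually.and ?_ ?_)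
    · rw [Filter.eventually_all_finite finE]
      exact fun e he => eventually_mc (h.nz e he) 0
    · rw [Filter.eventually_all_finite finU]
      intro s hs
      obtain ⟨r, hr⟩ := exists_np (h.ne s hs)
      have hr' : crs (p s) r ≠ 0 := hr
      filter_upwards [eventually_mc hr' 0] with t ht
      have h1 : det3 (p s) (mc t) r ≠ 0 := fun h0 => ht (det3_perm4 h0)
      exact np_of_det h1
    · exact eventually_mc (by simp) 0
  obtain ⟨t, t1, t2, t3⟩ := et.exists
  obtain ⟨p', hp1, hp2⟩ := exists_ext U p 1 (fun _ => x) (fun _ => mc t) (fun _ _ => hx)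
    (fun r hr r' hr' _ => by omega)
  have hpx : p' x = mc t := hp2 0 (by norm_num)
  refine ⟨x :: U, p', ⟨?_, ?_, h.nz, ?_, ?_⟩, fun a ha => List.mem_cons_of_mem _ ha,
    List.mem_cons_self⟩
  · intro a ha b hb hab
    rcases List.mem_cons.mp ha with h1 | h1 <;> rcases List.mem_cons.mp hb with h2 | h2
    · exact absurd (h1.trans h2.symm) hab
    · rw [h1, hpx, hp1 b h2]; exact (t2 b h2).symm
    · rw [h2, hpx, hp1 a h1]; exact t2 a h1
    · rw [hp1 a h1, hp1 b h2]; exact h.np a h1 b h2 hab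
  · intro a ha
    rcases List.mem_cons.mp ha with h1 | h1
    · rw [h1, hpx]
      intro h0
      rw [h0, dot_zero] at t3
      exact t3 rfl
    · rw [hp1 a h1]; exact h.ne a h1
  · intro e he a ha
    rcases List.mem_cons.mp ha with h1 | h1
    · rw [h1, hpx]
      exact ⟨fun h0 => absurd h0 (t1 e he), fun h0 => absurd (h.sub e he _ h0) hx⟩
    · rw [hp1 a h1]; exact h.line e he a h1
  · exact fun e he a ha => List.mem_cons_of_mem _ (h.sub e he a ha)

theorem extend_all {U : List ℕ} {E : List (List ℕ × V3)} {p : ℕ → V3} (h : Strong U E p) :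
    ∀ n : ℕ, ∃ (U' : List ℕ) (p' : ℕ → V3), Strong U' E p' ∧ ∀ v < n, v ∈ U' := by
  intro n
  induction n with
  | zero => exact ⟨U, p, h, fun v hv => absurd hv (by omega)⟩
  | succ n ih =>
    obtain ⟨U', p', h', hn⟩ := ih
    obtain ⟨U'', p'', h'', h1, h2⟩ := add_isolated h' n
    refine ⟨U'', p'', h'', fun v hv => ?_⟩
    rcases Nat.lt_succ_iff_lt_or_eq.mp hv with hv | rfl
    · exact h1 v (hn v hv)
    · exact h2

theorem map_strong {α β : Type} {U : List α} {E : List (List α × V3)} {p : α → V3}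
    (h : Strong U E p) (ν : α → β) (hν : ∀ a ∈ U, ∀ b ∈ U, ν a = ν b → a = b) :
    ∃ p' : β → V3, Strong (U.map ν) (E.map fun x => (x.1.map ν, x.2)) p' := by
  classical
  obtain ⟨p', hp'⟩ : ∃ p' : β → V3, ∀ a ∈ U, p' (ν a) = p a := by
    refine ⟨fun b => if hb : ∃ a, a ∈ U ∧ ν a = b then p hb.choose else 0, fun a ha => ?_⟩
    have hex : ∃ a', a' ∈ U ∧ ν a' = ν a := ⟨a, ha, rfl⟩
    simp only [dif_pos hex]
    exact congrArg p (hν _ hex.choose_spec.1 _ ha hex.choose_spec.2)
  refine ⟨p', ?_, ?_, ?_, ?_, ?_⟩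
  · intro a' ha' b' hb' hab
    obtain ⟨a, ha, rfl⟩ := List.mem_map.mp ha'
    obtain ⟨b, hb, rfl⟩ := List.mem_map.mp hb'
    rw [hp' a ha, hp' b hb]
    exact h.np a ha b hb (fun h0 => hab (by rw [h0]))
  · intro a' ha'
    obtain ⟨a, ha, rfl⟩ := List.mem_map.mp ha'
    rw [hp' a ha]; exact h.ne a ha
  · intro x' hx'
    obtain ⟨x, hx, rfl⟩ := List.mem_map.mp hx'
    exact h.nz x hx
  · intro x' hx' a' ha'
    obtain ⟨x, hx, rfl⟩ := List.mem_map.mp hx'
    obtain ⟨a, ha, rfl⟩ := List.mem_map.mp ha'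
    rw [hp' a ha, h.line x hx a ha]
    constructor
    · exact fun h1 => List.mem_map_of_mem h1
    · intro h1
      obtain ⟨b, hb, hab⟩ := List.mem_map.mp h1
      rw [← hν b (h.sub x hx b hb) a ha hab]; exact hb
  · intro x' hx' a' ha'
    obtain ⟨x, hx, rfl⟩ := List.mem_map.mp hx'
    obtain ⟨b, hb, rfl⟩ := List.mem_map.mp ha'
    exact List.mem_map_of_mem (h.sub x hx b hb)

/-- another curve -/
def mc' (t : ℝ) : V3 := (t, t ^ 2, 1)

theorem eventually_mc' {n : V3} (hn : n ≠ 0) :
    ∀ᶠ t : ℝ in Filter.cofinite, dot (mc' t) n ≠ 0 := by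
  obtain ⟨n1, n2, n3⟩ := n
  rw [Filter.eventually_cofinite]
  set q : Polynomial ℝ := Polynomial.C n1 * Polynomial.X + Polynomial.C n2 * Polynomial.X ^ 2 +
    Polynomial.C n3 with hq
  have hq0 : q ≠ 0 := by
    intro h0
    apply hn
    have h1 : q.coeff 1 = n1 := by
      simp [hq, Polynomial.coeff_C]
    have h2 : q.coeff 2 = n2 := by
      simp [hq, Polynomial.coeff_X, Polynomial.coeff_C]
    have h3 : q.coeff 0 = n3 := by
      simp [hq]
    rw [h0] at h1 h2 h3
    simp only [Polynomial.coeff_zero] at h1 h2 h3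
    rw [← h1, ← h2, ← h3]; rfl
  refine (Polynomial.finite_setOfPred_isRoot hq0).subset ?_
  intro t ht
  simp only [ne_eq, not_not, Set.mem_ofPred_eq, dot, mc'] at ht
  simp only [Set.mem_ofPred_eq, Polynomial.IsRoot, hq, Polynomial.eval_add,
    Polynomial.eval_mul, Polynomial.eval_C, Polynomial.eval_X, Polynomial.eval_pow]
  linarith

/-- projection to the plane -/
noncomputable def proj (t : ℝ) (v : V3) : ℝ × ℝ :=
  (v.1 / dot (mc' t) v, v.2.1 / dot (mc' t) v)

theorem proj_third {t : ℝ} {v : V3} (h : dot (mc' t) v ≠ 0) :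
    v.2.2 / dot (mc' t) v = 1 - t * (proj t v).1 - t ^ 2 * (proj t v).2 := by
  simp only [proj]
  field_simp
  simp only [dot, mc']; ring

theorem proj_inj {t : ℝ} {u v : V3} (hu : dot (mc' t) u ≠ 0) (hv : dot (mc' t) v ≠ 0)
    (huv : proj t u = proj t v) : ¬ NP u v := by
  have h3 : u.2.2 / dot (mc' t) u = v.2.2 / dot (mc' t) v := by
    rw [proj_third hu, proj_third hv, huv]
  have h1 : u.1 / dot (mc' t) u = v.1 / dot (mc' t) v := congrArg Prod.fst huv
  have h2 : u.2.1 / dot (mc' t) u = v.2.1 / dot (mc' t) v := congrArg Prod.snd huv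
  generalize dot (mc' t) u = a at *
  generalize dot (mc' t) v = b at *
  have eu : u = (a * (v.1 / b), a * (v.2.1 / b), a * (v.2.2 / b)) := by
    rw [← h1, ← h2, ← h3]
    refine Prod.ext ?_ (Prod.ext ?_ ?_) <;> simp only <;> field_simp
  intro hn
  apply hn
  rw [eu]
  simp only [crs, Prod.mk_eq_zero]
  refine ⟨?_, ?_, ?_⟩ <;> ring

/-- the affine function of a line -/
theorem line_proj {t : ℝ} {n v : V3} (h : dot (mc' t) v ≠ 0) :
    n.1 * (proj t v).1 + n.2.1 * (proj t v).2 + n.2.2 * (1 - t * (proj t v).1 -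
      t ^ 2 * (proj t v).2) = dot n v / dot (mc' t) v := by
  rw [← proj_third h]
  simp only [proj]
  field_simp
  simp only [dot]

theorem realize {n : ℕ} {U : List ℕ} {E : List (List ℕ × V3)} {p : ℕ → V3} (h : Strong U E p)
    (hn : ∀ v < n, v ∈ U)
    (hE : ∀ e ∈ E, (∃ a b, a ≠ b ∧ e.1 = [a, b]) ∨ ∃ a b c, a ≠ b ∧ a ≠ c ∧ b ≠ c ∧ e.1 = [a, b, c]) :
    ∃ pt : ℕ → ℝ × ℝ, (∀ u < n, ∀ v < n, pt u = pt v → u = v) ∧
      ∀ e ∈ E, ∃ a b : ℝ × ℝ, ∀ v < n, (pt v ∈ segment ℝ a b ↔ v ∈ e.1) := by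
  have finU : {a | a ∈ U}.Finite := List.finite_toSet U
  have et : ∀ᶠ t : ℝ in Filter.cofinite, ∀ s ∈ {a | a ∈ U}, dot (mc' t) (p s) ≠ 0 := by
    rw [Filter.eventually_all_finite finU]
    exact fun s hs => eventually_mc' (h.ne s hs)
  obtain ⟨t, ht⟩ := et.exists
  have hinj : ∀ u ∈ U, ∀ v ∈ U, proj t (p u) = proj t (p v) → u = v := by
    intro u hu v hv huv
    by_contra hne
    exact proj_inj (ht u hu) (ht v hv) huv (h.np u hu v hv hne)
  -- points on a segment between two vertices of a hyperedge are vertices of the hyperedge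
  have key : ∀ e ∈ E, ∀ a ∈ e.1, ∀ b ∈ e.1, ∀ v ∈ U,
      proj t (p v) ∈ segment ℝ (proj t (p a)) (proj t (p b)) → v ∈ e.1 := by
    intro e he a ha b hb v hv hmem
    have ua := h.sub e he a ha
    have ub := h.sub e he b hb
    rw [← h.line e he v hv]
    have la := line_proj (n := e.2) (ht a ua)
    have lb := line_proj (n := e.2) (ht b ub)
    have lv := line_proj (n := e.2) (ht v hv)
    rw [(h.line e he a ua).mpr ha, zero_div] at la
    rw [(h.line e he b ub).mpr hb, zero_div] at lb
    obtain ⟨x, y, _, _, hxy, hsum⟩ := hmem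
    have h1 : (proj t (p v)).1 = x * (proj t (p a)).1 + y * (proj t (p b)).1 := by
      rw [← hsum]; rfl
    have h2 : (proj t (p v)).2 = x * (proj t (p a)).2 + y * (proj t (p b)).2 := by
      rw [← hsum]; rfl
    have h3 : dot e.2 (p v) / dot (mc' t) (p v) = 0 := by
      rw [← lv, h1, h2]
      have hx : x = 1 - y := by linarith
      rw [hx]
      linear_combination (1 - y) * la + y * lb
    exact (div_eq_zero_iff.mp h3).resolve_right (ht v hv)
  refine ⟨fun v => proj t (p v), fun u hu v hv huv => hinj u (hn u hu) v (hn v hv) huv, ?_⟩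
  intro e he
  rcases hE e he with ⟨a, b, hab, heq⟩ | ⟨a, b, c, hab, hac, hbc, heq⟩
  · refine ⟨proj t (p a), proj t (p b), fun v hv => ⟨fun hm => ?_, fun hm => ?_⟩⟩
    · exact key e he a (by rw [heq]; simp) b (by rw [heq]; simp) v (hn v hv) hm
    · rw [heq] at hm
      simp only [List.mem_cons, List.not_mem_nil, or_false] at hm
      rcases hm with rfl | rfl
      · exact left_mem_segment _ _ _
      · exact right_mem_segment _ _ _
  · have ma : a ∈ e.1 := by rw [heq]; simp
    have mb : b ∈ e.1 := by rw [heq]; simp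
    have mc : c ∈ e.1 := by rw [heq]; simp
    have ua := h.sub e he a ma
    have ub := h.sub e he b mb
    have uc := h.sub e he c mc
    -- collinearity of the projections
    have hcol : ((proj t (p b)).1 - (proj t (p a)).1) * ((proj t (p c)).2 - (proj t (p a)).2) -
        ((proj t (p b)).2 - (proj t (p a)).2) * ((proj t (p c)).1 - (proj t (p a)).1) = 0 := by
      have hd : det3 (p a) (p b) (p c) = 0 := det3_of_orth (h.nz e he)
        ((h.line e he a ua).mpr ma) ((h.line e he b ub).mpr mb) ((h.line e he c uc).mpr mc)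
      have wa := ht a ua
      have wb := ht b ub
      have wc := ht c uc
      have ta := proj_third wa
      have tb := proj_third wb
      have tc := proj_third wc
      have fa : p a = dot (mc' t) (p a) • ((proj t (p a)).1, (proj t (p a)).2,
          1 - t * (proj t (p a)).1 - t ^ 2 * (proj t (p a)).2) := by
        rw [← ta]
        refine Prod.ext ?_ (Prod.ext ?_ ?_) <;>
          simp only [Prod.smul_fst, Prod.smul_snd, smul_eq_mul, proj] <;> field_simp
      have fb : p b = dot (mc' t) (p b) • ((proj t (p b)).1, (proj t (p b)).2,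
          1 - t * (proj t (p b)).1 - t ^ 2 * (proj t (p b)).2) := by
        rw [← tb]
        refine Prod.ext ?_ (Prod.ext ?_ ?_) <;>
          simp only [Prod.smul_fst, Prod.smul_snd, smul_eq_mul, proj] <;> field_simp
      have fc : p c = dot (mc' t) (p c) • ((proj t (p c)).1, (proj t (p c)).2,
          1 - t * (proj t (p c)).1 - t ^ 2 * (proj t (p c)).2) := by
        rw [← tc]
        refine Prod.ext ?_ (Prod.ext ?_ ?_) <;>
          simp only [Prod.smul_fst, Prod.smul_snd, smul_eq_mul, proj] <;> field_simp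
      have hd2 : dot (mc' t) (p a) * dot (mc' t) (p b) * dot (mc' t) (p c) *
          (((proj t (p b)).1 - (proj t (p a)).1) * ((proj t (p c)).2 - (proj t (p a)).2) -
        ((proj t (p b)).2 - (proj t (p a)).2) * ((proj t (p c)).1 - (proj t (p a)).1)) =
          det3 (p a) (p b) (p c) := by
        conv_rhs => rw [fa, fb, fc]
        generalize dot (mc' t) (p a) = ka
        generalize dot (mc' t) (p b) = kb
        generalize dot (mc' t) (p c) = kc
        simp only [det3, dot, crs, Prod.smul_mk, smul_eq_mul]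
        ring
      rw [hd] at hd2
      exact (mul_eq_zero.mp hd2).resolve_left (mul_ne_zero (mul_ne_zero wa wb) wc)
    have hne : proj t (p a) ≠ proj t (p b) := fun h0 => hab (hinj a ua b ub h0)
    have fin : ∀ x ∈ e.1, ∀ y ∈ e.1, (∀ z ∈ e.1, proj t (p z) ∈
        segment ℝ (proj t (p x)) (proj t (p y))) → ∃ A B : ℝ × ℝ, ∀ v < n,
        (proj t (p v) ∈ segment ℝ A B ↔ v ∈ e.1) := by
      intro x hx y hy hz
      exact ⟨_, _, fun v hv => ⟨fun hm => key e he x hx y hy v (hn v hv) hm, fun hm => hz v hm⟩⟩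
    rcases between hne hcol with h1 | h1 | h1
    · refine fin a ma b mb fun z hz => ?_
      rw [heq] at hz
      simp only [List.mem_cons, List.not_mem_nil, or_false] at hz
      rcases hz with rfl | rfl | rfl
      · exact left_mem_segment _ _ _
      · exact right_mem_segment _ _ _
      · exact h1
    · refine fin b mb c mc fun z hz => ?_
      rw [heq] at hz
      simp only [List.mem_cons, List.not_mem_nil, or_false] at hz
      rcases hz with rfl | rfl | rfl
      · exact h1
      · exact left_mem_segment _ _ _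
      · exact right_mem_segment _ _ _
    · refine fin a ma c mc fun z hz => ?_
      rw [heq] at hz
      simp only [List.mem_cons, List.not_mem_nil, or_false] at hz
      rcases hz with rfl | rfl | rfl
      · exact left_mem_segment _ _ _
      · exact h1
      · exact right_mem_segment _ _ _

end Pool.Agent.Helper55
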