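import Pool.Agent.Helper55.Layers

set_option autoImplicit false

/-!
Soundness of the second layer.
-/

namespace Pool.Agent.Helper55

theorem dot_mk (f1 f2 f3 a : V3) :
    det3 (dot f1 a, dot f2 a, dot f3 a) (dot f1 a, dot f2 a, dot f3 a) a =
      det3 (dot f1 a, dot f2 a, dot f3 a) (dot f1 a, dot f2 a, dot f3 a) a := rfl

theorem det3_lin (f1 f2 f3 a b c : V3) :
    det3 (dot f1 a, dot f2 a, dot f3 a) (dot f1 b, dot f2 b, dot f3 b)
      (dot f1 c, dot f2 c, dot f3 c) = det3 f1 f2 f3 * det3 a b c := by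
  obtain ⟨a1, a2, a3⟩ := a
  obtain ⟨b1, b2, b3⟩ := b
  obtain ⟨c1, c2, c3⟩ := c
  obtain ⟨u1, u2, u3⟩ := f1
  obtain ⟨v1, v2, v3⟩ := f2
  obtain ⟨w1, w2, w3⟩ := f3
  simp only [det3, dot, crs]
  ring

theorem det3_crs (a b c : V3) : det3 (crs b c) (crs c a) (crs a b) = det3 a b c ^ 2 := by
  obtain ⟨a1, a2, a3⟩ := a
  obtain ⟨b1, b2, b3⟩ := b
  obtain ⟨c1, c2, c3⟩ := c
  simp only [det3, dot, crs]
  ring

theorem det3_smul (a b c : V3) (x y z : ℝ) :
    det3 (x • a) (y • b) (z • c) = x * y * z * det3 a b c := by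
  obtain ⟨a1, a2, a3⟩ := a
  obtain ⟨b1, b2, b3⟩ := b
  obtain ⟨c1, c2, c3⟩ := c
  simp only [det3, dot, crs, Prod.smul_mk, smul_eq_mul]
  ring

theorem PCon.Holds.map {N : Type} {p : N → V3} (f1 f2 f3 : V3) (hf : det3 f1 f2 f3 ≠ 0)
    {c : PCon N} (h : c.Holds p) :
    c.Holds fun n => (dot f1 (p n), dot f2 (p n), dot f3 (p n)) := by
  have hnp : ∀ a b : V3, NP a b → NP (dot f1 a, dot f2 a, dot f3 a) (dot f1 b, dot f2 b, dot f3 b) := by
    intro a b hab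
    obtain ⟨c, hc⟩ := exists_det hab
    apply np_of_det (c := (dot f1 c, dot f2 c, dot f3 c))
    rw [det3_lin]
    exact mul_ne_zero hf hc
  cases c with
  | col x y z =>
    obtain ⟨h1, h2, h3, h4⟩ := h
    refine ⟨?_, hnp _ _ h2, hnp _ _ h3, hnp _ _ h4⟩
    rw [det3_lin, h1, mul_zero]
  | non x y z =>
    simp only [PCon.Holds] at h ⊢
    rw [det3_lin]
    exact mul_ne_zero hf h

theorem par2 {x1 x2 z1 z2 : ℝ} (h : x1 * z2 = x2 * z1) (hx : ¬ (x1 = 0 ∧ x2 = 0)) :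
    ∃ l, z1 = l * x1 ∧ z2 = l * x2 := by
  by_cases h1 : x1 = 0
  · have h2 : x2 ≠ 0 := fun h2 => hx ⟨h1, h2⟩
    refine ⟨z2 / x2, ?_, by field_simp⟩
    rw [h1] at h ⊢
    have : z1 = 0 := by
      have : x2 * z1 = 0 := by linarith
      exact (mul_eq_zero.mp this).resolve_left h2
    rw [this]; ring
  · refine ⟨z1 / x1, by field_simp, ?_⟩
    field_simp
    linarith

/-- `NP` with a multiple of the first basis vector -/
theorem np_first {d : ℝ} {x : V3} (h : NP (d, 0, 0) x) : ¬ (x.2.1 = 0 ∧ x.2.2 = 0) := by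
  rintro ⟨h1, h2⟩
  apply h
  simp [crs, h1, h2]

theorem sound_add {d m o : ℝ} (hd : d ≠ 0) (hm : m ≠ 0) (ho : o ≠ 0) {a b c x y q z z' : V3}
    (ha : det3 a (d, 0, 0) (0, m, 0) ≠ 0) (hb : det3 b (d, 0, 0) (0, m, 0) ≠ 0)
    (h1 : det3 (d, 0, 0) a x = 0) (n1 : NP (d, 0, 0) x)
    (h2 : det3 (d, 0, 0) b y = 0) (n2 : NP (d, 0, 0) y)
    (h3 : det3 (d, 0, 0) c q = 0) (n3 : NP (d, 0, 0) c) (n3' : NP (d, 0, 0) q)
    (h4 : det3 (0, 0, o) x z = 0) (h5 : det3 (0, 0, o) y z' = 0)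
    (h6 : det3 (d, 0, 0) (0, m, 0) z = 0) (n6 : NP (d, 0, 0) z)
    (h7 : det3 (d, 0, 0) (0, m, 0) z' = 0) (n7 : NP (d, 0, 0) z')
    (h8 : det3 q x z' = 0) (h9 : det3 q y z = 0) (h10 : det3 (0, 0, o) x y ≠ 0) :
    c.2.1 / c.2.2 = a.2.1 / a.2.2 + b.2.1 / b.2.2 := by
  have k1 := np_first n1
  have k2 := np_first n2
  have k3 := np_first n3
  have k3' := np_first n3'
  have k6 := np_first n6
  have k7 := np_first n7
  obtain ⟨a1, a2, a3⟩ := a
  obtain ⟨b1, b2, b3⟩ := b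
  obtain ⟨c1, c2, c3⟩ := c
  obtain ⟨x1, x2, x3⟩ := x
  obtain ⟨y1, y2, y3⟩ := y
  obtain ⟨q1, q2, q3⟩ := q
  obtain ⟨z1, z2, z3⟩ := z
  obtain ⟨w1, w2, w3⟩ := z'
  simp only [det3, dot, crs, mul_zero, zero_mul, sub_zero, zero_sub, add_zero, zero_add,
    neg_zero] at *
  have ha3 : a3 ≠ 0 := by rintro rfl; simp at ha
  have hb3 : b3 ≠ 0 := by rintro rfl; simp at hb
  have hz3 : z3 = 0 := by
    rcases mul_eq_zero.mp h6 with h | h
    · exact absurd h (mul_ne_zero hd hm)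
    · exact h
  have hw3 : w3 = 0 := by
    rcases mul_eq_zero.mp h7 with h | h
    · exact absurd h (mul_ne_zero hd hm)
    · exact h
  subst hz3 hw3
  have e1 : a2 * x3 = a3 * x2 := by
    have : d * (a2 * x3 - a3 * x2) = 0 := by linarith
    rcases mul_eq_zero.mp this with h | h
    · exact absurd h hd
    · linarith
  have e2 : b2 * y3 = b3 * y2 := by
    have : d * (b2 * y3 - b3 * y2) = 0 := by linarith
    rcases mul_eq_zero.mp this with h | h
    · exact absurd h hd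
    · linarith
  have e3 : c2 * q3 = c3 * q2 := by
    have : d * (c2 * q3 - c3 * q2) = 0 := by linarith
    rcases mul_eq_zero.mp this with h | h
    · exact absurd h hd
    · linarith
  have e4 : x1 * z2 = x2 * z1 := by
    have : o * (x1 * z2 - x2 * z1) = 0 := by linarith
    rcases mul_eq_zero.mp this with h | h
    · exact absurd h ho
    · linarith
  have e5 : y1 * w2 = y2 * w1 := by
    have : o * (y1 * w2 - y2 * w1) = 0 := by linarith
    rcases mul_eq_zero.mp this with h | h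
    · exact absurd h ho
    · linarith
  have hΔ : x1 * y2 - x2 * y1 ≠ 0 := by
    intro h
    apply h10
    linear_combination o * h
  have hx3 : x3 ≠ 0 := by
    intro h
    apply k1
    refine ⟨?_, h⟩
    rw [h, mul_zero] at e1
    exact (mul_eq_zero.mp e1.symm).resolve_left ha3
  have hy3 : y3 ≠ 0 := by
    intro h
    apply k2
    refine ⟨?_, h⟩
    rw [h, mul_zero] at e2
    exact (mul_eq_zero.mp e2.symm).resolve_left hb3
  obtain ⟨l, hl1, hl2⟩ := par2 e4 (by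
    rintro ⟨rfl, rfl⟩; simp at hΔ)
  obtain ⟨k, hk1, hk2⟩ := par2 e5 (by
    rintro ⟨rfl, rfl⟩; simp at hΔ)
  have hl : l ≠ 0 := by
    rintro rfl; apply k6; simp [hl2]
  have hk : k ≠ 0 := by
    rintro rfl; apply k7; simp [hk2]
  subst hl1 hl2 hk1 hk2
  have g1 : x3 * (q1 * y2 - q2 * y1) = q3 * (x1 * y2 - x2 * y1) := by
    have : k * (x3 * (q1 * y2 - q2 * y1) - q3 * (x1 * y2 - x2 * y1)) = 0 := by
      linear_combination -h8
    rcases mul_eq_zero.mp this with h | h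
    · exact absurd h hk
    · linarith
  have g2 : y3 * (q2 * x1 - q1 * x2) = q3 * (x1 * y2 - x2 * y1) := by
    have : l * (y3 * (q2 * x1 - q1 * x2) - q3 * (x1 * y2 - x2 * y1)) = 0 := by
      linear_combination h9
    rcases mul_eq_zero.mp this with h | h
    · exact absurd h hl
    · linarith
  have g3 : q2 * x3 * y3 = q3 * (x2 * y3 + y2 * x3) := by
    have : (x1 * y2 - x2 * y1) * (q2 * x3 * y3 - q3 * (x2 * y3 + y2 * x3)) = 0 := by
      linear_combination (x2 * y3) * g1 + (y2 * x3) * g2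
    rcases mul_eq_zero.mp this with h | h
    · exact absurd h hΔ
    · linarith
  have hq3 : q3 ≠ 0 := by
    intro h
    apply k3'
    refine ⟨?_, h⟩
    rw [h, zero_mul] at g3
    have : q2 * (x3 * y3) = 0 := by linarith
    exact (mul_eq_zero.mp this).resolve_right (mul_ne_zero hx3 hy3)
  have hc3 : c3 ≠ 0 := by
    intro h
    apply k3
    refine ⟨?_, h⟩
    rw [h, zero_mul] at e3
    exact (mul_eq_zero.mp e3).resolve_right hq3
  have f1 : a2 / a3 = x2 / x3 := by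
    rw [div_eq_div_iff ha3 hx3]; linarith
  have f2 : b2 / b3 = y2 / y3 := by
    rw [div_eq_div_iff hb3 hy3]; linarith
  have f3 : c2 / c3 = q2 / q3 := by
    rw [div_eq_div_iff hc3 hq3]; linarith
  have f4 : q2 / q3 = (x2 * y3 + y2 * x3) / (x3 * y3) := by
    rw [div_eq_div_iff hq3 (mul_ne_zero hx3 hy3)]; linarith
  rw [f1, f2, f3, f4]
  field_simp

theorem sound_mul {d m o e k : ℝ} (hd : d ≠ 0) (hm : m ≠ 0) (ho : o ≠ 0) (hk : k ≠ 0)
    {a b c x y q F g : V3}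
    (ha : det3 a (d, 0, 0) (0, m, 0) ≠ 0) (hb : det3 b (d, 0, 0) (0, m, 0) ≠ 0)
    (h1 : det3 (d, 0, 0) a x = 0) (n1 : NP (d, 0, 0) x)
    (h2 : det3 (d, 0, 0) b y = 0) (n2 : NP (d, 0, 0) y)
    (h3 : det3 (d, 0, 0) c q = 0) (n3 : NP (d, 0, 0) c) (n3' : NP (d, 0, 0) q)
    (h4 : det3 (d, 0, 0) (e, k, k) F = 0) (n4 : NP (d, 0, 0) F)
    (h5 : det3 (0, 0, o) x F = 0)
    (h6 : det3 (d, 0, 0) (0, m, 0) g = 0) (n6 : NP (d, 0, 0) g)
    (h7 : det3 g F y = 0) (h8 : det3 g x q = 0) (h9 : det3 (0, 0, o) y q = 0)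
    (h10 : det3 (0, 0, o) x y ≠ 0) :
    c.2.1 / c.2.2 = a.2.1 / a.2.2 * (b.2.1 / b.2.2) := by
  have k1 := np_first n1
  have k2 := np_first n2
  have k3 := np_first n3
  have k3' := np_first n3'
  have k4 := np_first n4
  have k6 := np_first n6
  obtain ⟨a1, a2, a3⟩ := a
  obtain ⟨b1, b2, b3⟩ := b
  obtain ⟨c1, c2, c3⟩ := c
  obtain ⟨x1, x2, x3⟩ := x
  obtain ⟨y1, y2, y3⟩ := y
  obtain ⟨q1, q2, q3⟩ := q
  obtain ⟨F1, F2, F3⟩ := F
  obtain ⟨g1, g2, g3⟩ := g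
  simp only [det3, dot, crs, mul_zero, zero_mul, sub_zero, zero_sub, add_zero, zero_add,
    neg_zero] at *
  have ha3 : a3 ≠ 0 := by rintro rfl; simp at ha
  have hb3 : b3 ≠ 0 := by rintro rfl; simp at hb
  have hg3 : g3 = 0 := by
    rcases mul_eq_zero.mp h6 with h | h
    · exact absurd h (mul_ne_zero hd hm)
    · exact h
  subst hg3
  have e1 : a2 * x3 = a3 * x2 := by
    have : d * (a2 * x3 - a3 * x2) = 0 := by linarith
    rcases mul_eq_zero.mp this with h | h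
    · exact absurd h hd
    · linarith
  have e2 : b2 * y3 = b3 * y2 := by
    have : d * (b2 * y3 - b3 * y2) = 0 := by linarith
    rcases mul_eq_zero.mp this with h | h
    · exact absurd h hd
    · linarith
  have e3 : c2 * q3 = c3 * q2 := by
    have : d * (c2 * q3 - c3 * q2) = 0 := by linarith
    rcases mul_eq_zero.mp this with h | h
    · exact absurd h hd
    · linarith
  have e4 : F3 = F2 := by
    have : d * k * (F3 - F2) = 0 := by linear_combination h4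
    rcases mul_eq_zero.mp this with h | h
    · exact absurd h (mul_ne_zero hd hk)
    · linarith
  subst e4
  have hF : F3 ≠ 0 := fun h => k4 ⟨h, h⟩
  have e5 : x1 * F3 = x2 * F1 := by
    have : o * (x1 * F3 - x2 * F1) = 0 := by linear_combination h5
    rcases mul_eq_zero.mp this with h | h
    · exact absurd h ho
    · linarith
  have e9 : y1 * q2 = y2 * q1 := by
    have : o * (y1 * q2 - y2 * q1) = 0 := by linear_combination h9
    rcases mul_eq_zero.mp this with h | h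
    · exact absurd h ho
    · linarith
  have hΔ : x1 * y2 - x2 * y1 ≠ 0 := by
    intro h
    apply h10
    linear_combination o * h
  have hx3 : x3 ≠ 0 := by
    intro h
    apply k1
    refine ⟨?_, h⟩
    rw [h, mul_zero] at e1
    exact (mul_eq_zero.mp e1.symm).resolve_left ha3
  have hy3 : y3 ≠ 0 := by
    intro h
    apply k2
    refine ⟨?_, h⟩
    rw [h, mul_zero] at e2
    exact (mul_eq_zero.mp e2.symm).resolve_left hb3
  obtain ⟨l, hl1, hl2⟩ := par2 e5 (by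
    rintro ⟨rfl, rfl⟩; simp at hΔ)
  obtain ⟨σ, hs1, hs2⟩ := par2 e9 (by
    rintro ⟨rfl, rfl⟩; simp at hΔ)
  have hl : l ≠ 0 := by
    rintro rfl; apply hF; rw [hl2]; ring
  have hx2 : x2 ≠ 0 := by
    rintro rfl; apply hF; rw [hl2]; ring
  subst hl1 hl2 hs1 hs2
  have hg2 : g2 ≠ 0 := fun h => k6 ⟨h, rfl⟩
  have r1 : g1 * x2 * (y3 - y2) = g2 * (x1 * y3 - x2 * y1) := by
    have : l * (g1 * x2 * (y3 - y2) - g2 * (x1 * y3 - x2 * y1)) = 0 := by
      linear_combination h7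
    rcases mul_eq_zero.mp this with h | h
    · exact absurd h hl
    · linarith
  have r2 : g1 * (x2 * q3 - x3 * (σ * y2)) = g2 * (x1 * q3 - x3 * (σ * y1)) := by
    linear_combination h8
  have r3 : σ * x3 * y3 = q3 * x2 := by
    have : g2 * ((x1 * y2 - x2 * y1) * (σ * x3 * y3 - q3 * x2)) = 0 := by
      linear_combination (x2 * q3 - x3 * (σ * y2)) * r1 - (x2 * (y3 - y2)) * r2
    rcases mul_eq_zero.mp this with h | h
    · exact absurd h hg2
    · rcases mul_eq_zero.mp h with h | h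
      · exact absurd h hΔ
      · linarith
  have hσ : σ ≠ 0 := by
    rintro rfl
    apply k3'
    refine ⟨by ring, ?_⟩
    have : q3 * x2 = 0 := by linarith
    exact (mul_eq_zero.mp this).resolve_right hx2
  have hq3 : q3 ≠ 0 := by
    intro h
    rw [h, zero_mul] at r3
    exact mul_ne_zero (mul_ne_zero hσ hx3) hy3 r3
  have hc3 : c3 ≠ 0 := by
    intro h
    apply k3
    refine ⟨?_, h⟩
    rw [h, zero_mul] at e3
    exact (mul_eq_zero.mp e3).resolve_right hq3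
  have f1 : a2 / a3 = x2 / x3 := by
    rw [div_eq_div_iff ha3 hx3]; linarith
  have f2 : b2 / b3 = y2 / y3 := by
    rw [div_eq_div_iff hb3 hy3]; linarith
  have f3 : c2 / c3 = (σ * y2) / q3 := by
    rw [div_eq_div_iff hc3 hq3]; linarith
  rw [f1, f2, f3, div_mul_div_comm, div_eq_div_iff hq3 (mul_ne_zero hx3 hy3)]
  linear_combination y2 * r3

theorem sound2 {N T : Type} (L : List (T × ACon N)) (p : PN N T → V3)
    (hp : ∀ x ∈ lay2 L, x.2.Holds p) : ∃ w : N → ℝ, ∀ x ∈ L, x.2.Holds w := by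
  have hglob : ∀ c ∈ (glob2 : List (PCon (PN N T))), c.Holds p := by
    intro c hc
    obtain ⟨i, hi⟩ := exists_mem_tag (T := Option T) none hc
    exact hp _ (List.mem_append_left _ hi)
  have g1 : det3 (p .O) (p .D) (p .M) ≠ 0 := hglob (.non .O .D .M) (by simp [glob2])
  have g2 : det3 (p .E) (p .D) (p .M) ≠ 0 := hglob (.non .E .D .M) (by simp [glob2])
  have g3 : det3 (p .E) (p .D) (p .O) ≠ 0 := hglob (.non .E .D .O) (by simp [glob2])
  -- coordinate functionals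
  set k2 : ℝ := (dot (crs (p .O) (p .D)) (p .E))⁻¹ with hk2
  set k3 : ℝ := (dot (crs (p .D) (p .M)) (p .E))⁻¹ with hk3
  have nz2 : dot (crs (p .O) (p .D)) (p .E) ≠ 0 := by
    change det3 (p .O) (p .D) (p .E) ≠ 0
    intro h; exact g3 (det3_perm3 (det3_perm1 h))
  have nz3 : dot (crs (p .D) (p .M)) (p .E) ≠ 0 := by
    change det3 (p .D) (p .M) (p .E) ≠ 0
    intro h; exact g2 (det3_perm2 h)
  have nk2 : k2 ≠ 0 := inv_ne_zero nz2
  have nk3 : k3 ≠ 0 := inv_ne_zero nz3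
  set f1 : V3 := crs (p .M) (p .O) with hf1
  set f2 : V3 := k2 • crs (p .O) (p .D) with hf2
  set f3 : V3 := k3 • crs (p .D) (p .M) with hf3
  have hf : det3 f1 f2 f3 ≠ 0 := by
    have : det3 f1 f2 f3 = k2 * k3 * det3 (p .D) (p .M) (p .O) ^ 2 := by
      have h1 : f1 = (1 : ℝ) • crs (p .M) (p .O) := by rw [one_smul]
      rw [h1, hf2, hf3, det3_smul, det3_crs]; ring
    rw [this]
    refine mul_ne_zero (mul_ne_zero nk2 nk3) (pow_ne_zero _ ?_)
    intro h; exact g1 (det3_perm2 h)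
  set P : PN N T → V3 := fun n => (dot f1 (p n), dot f2 (p n), dot f3 (p n)) with hP
  have hH : ∀ x ∈ lay2 L, x.2.Holds P := fun x hx => (hp x hx).map f1 f2 f3 hf
  have z : ∀ a b : V3, dot (crs a b) a = 0 := by intro a b; simp only [dot, crs]; ring
  have z' : ∀ a b : V3, dot (crs a b) b = 0 := by intro a b; simp only [dot, crs]; ring
  have ds : ∀ (t : ℝ) (a b : V3), dot (t • a) b = t * dot a b := by
    intro t a b; rw [dot_comm', dot_smul, dot_comm']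
  obtain ⟨d, hd, hD⟩ : ∃ d : ℝ, d ≠ 0 ∧ P .D = (d, 0, 0) := by
    refine ⟨dot f1 (p .D), ?_, ?_⟩
    · change det3 (p .M) (p .O) (p .D) ≠ 0
      intro h; exact g1 (det3_perm1 h)
    · simp only [hP, hf2, hf3, ds, z, z', mul_zero]
  obtain ⟨m, hm, hM⟩ : ∃ m : ℝ, m ≠ 0 ∧ P .M = (0, m, 0) := by
    refine ⟨dot f2 (p .M), ?_, ?_⟩
    · rw [hf2, ds]
      refine mul_ne_zero nk2 ?_
      exact g1
    · simp only [hP, hf1, hf3, ds, z, z', mul_zero]
  obtain ⟨o, ho, hO⟩ : ∃ o : ℝ, o ≠ 0 ∧ P .O = (0, 0, o) := by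
    refine ⟨dot f3 (p .O), ?_, ?_⟩
    · rw [hf3, ds]
      refine mul_ne_zero nk3 ?_
      change det3 (p .D) (p .M) (p .O) ≠ 0
      intro h; exact g1 (det3_perm2 h)
    · simp only [hP, hf1, hf2, ds, z, z', mul_zero]
  obtain ⟨e, hE⟩ : ∃ e : ℝ, P .E = (e, 1, 1) := by
    refine ⟨dot f1 (p .E), ?_⟩
    simp only [hP, hf2, hf3, ds]
    rw [hk2, hk3, inv_mul_cancel₀ nz2, inv_mul_cancel₀ nz3]
  refine ⟨fun n => (P (.h n)).2.1 / (P (.h n)).2.2, fun x hx => ?_⟩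
  have key : ∀ c ∈ expand2 x.1 x.2, c.Holds P := by
    intro c hc
    obtain ⟨i, hi⟩ := exists_mem_tag (some x.1) hc
    exact hH _ (List.mem_append_right _ (List.mem_flatMap.mpr ⟨x, hx, hi⟩))
  obtain ⟨t, c⟩ := x
  cases c with
  | add x y z =>
    simp only [expand2, addlike, List.mem_cons, List.not_mem_nil, or_false, forall_eq_or_imp,
      forall_eq, PCon.Holds, hD, hM, hO] at key
    obtain ⟨c1, c2, ⟨c3, _, n3, n3'⟩, ⟨c4, _, n4, n4'⟩, ⟨c5, n5, _, n5'⟩, ⟨c6, _⟩, ⟨c7, _⟩,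
      ⟨c8, _, _, n8⟩, ⟨c9, _, _, n9⟩, ⟨c10, _⟩, ⟨c11, _⟩, c12⟩ := key
    exact (sound_add hd hm ho c1 c2 c3 n3' c4 n4' c5 n5 n5' c6 c7 c8 n8 c9 n9 c10 c11 c12).symm
  | one x y =>
    simp only [expand2, addlike, List.mem_cons, List.not_mem_nil, or_false, forall_eq_or_imp,
      forall_eq, PCon.Holds, hD, hM, hO, hE] at key
    obtain ⟨c1, c2, ⟨c3, _, n3, n3'⟩, ⟨c4, _, n4, n4'⟩, ⟨c5, n5, _, n5'⟩, ⟨c6, _⟩, ⟨c7, _⟩,
      ⟨c8, _, _, n8⟩, ⟨c9, _, _, n9⟩, ⟨c10, _⟩, ⟨c11, _⟩, c12⟩ := key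
    have := sound_add hd hm ho c1 c2 c3 n3' c4 n4' c5 n5 n5' c6 c7 c8 n8 c9 n9 c10 c11 c12
    simpa [ACon.Holds] using this
  | mul x y z =>
    simp only [expand2, List.mem_cons, List.not_mem_nil, or_false, forall_eq_or_imp,
      forall_eq, PCon.Holds, hD, hM, hO, hE] at key
    obtain ⟨c1, c2, ⟨c3, _, n3, n3'⟩, ⟨c4, _, n4, n4'⟩, ⟨c5, n5, _, n5'⟩, ⟨c6, _, _, n6⟩,
      ⟨c7, _⟩, ⟨c8, _, _, n8⟩, ⟨c9, _⟩, ⟨c10, _⟩, ⟨c11, _⟩, c12⟩ := key
    exact (sound_mul hd hm ho one_ne_zero c1 c2 c3 n3' c4 n4' c5 n5 n5' c6 n6 c7 c8 n8 c9 c10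
      c11 c12).symm

end Pool.Agent.Helper55
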