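import Pool.Agent.Helper55.Complete2

set_option autoImplicit false

/-!
Generic placements of gadgets.
-/

namespace Pool.Agent.Helper55

/-- a placement of the vertices in `U` in which the line of each hyperedge meets exactly the
vertices of the hyperedge; the hyperedges come with normal vectors of their lines -/
structure Strong {α : Type} (U : List α) (E : List (List α × V3)) (p : α → V3) : Prop where
  np : ∀ a ∈ U, ∀ b ∈ U, a ≠ b → NP (p a) (p b)
  ne : ∀ a ∈ U, p a ≠ 0
  nz : ∀ x ∈ E, x.2 ≠ 0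
  line : ∀ x ∈ E, ∀ a ∈ U, (dot x.2 (p a) = 0 ↔ a ∈ x.1)
  sub : ∀ x ∈ E, ∀ a ∈ x.1, a ∈ U

theorem dot_sub' (n a b : V3) : dot n (a - b) = dot n a - dot n b := by
  simp only [dot, Prod.fst_sub, Prod.snd_sub]; ring

theorem eventually_dot {n a b : V3} (h : ¬ (dot n a = 0 ∧ dot n b = 0)) :
    ∀ᶠ t : ℝ in Filter.cofinite, dot n (a + t • b) ≠ 0 := by
  rw [Filter.eventually_cofinite]
  apply Set.Subsingleton.finite
  intro t ht t' ht'
  simp only [ne_eq, not_not, Set.mem_ofPred_eq, dot_add, dot_smul] at ht ht'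
  by_contra hne
  have h1 : (t - t') * dot n b = 0 := by linarith
  have h2 : dot n b = 0 := (mul_eq_zero.mp h1).resolve_left (sub_ne_zero.mpr hne)
  have h3 : dot n a = 0 := by rw [h2, mul_zero, add_zero] at ht; exact ht
  exact h ⟨h3, h2⟩

theorem exists_pos_of_eventually {P : ℝ → Prop} (h : ∀ᶠ t : ℝ in Filter.cofinite, P t) :
    ∃ t > 0, P t := by
  rw [Filter.eventually_cofinite] at h
  obtain ⟨t, ht, ht'⟩ := (Set.Ioi_infinite (0 : ℝ)).exists_notMem_finite h
  exact ⟨t, ht, not_not.mp ht'⟩

/-- the moment curve -/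
def mc (t : ℝ) : V3 := (t, t ^ 2, t ^ 3)

theorem eventually_mc {n : V3} (hn : n ≠ 0) (c : ℝ) :
    ∀ᶠ t : ℝ in Filter.cofinite, dot n (mc t) ≠ c := by
  obtain ⟨n1, n2, n3⟩ := n
  rw [Filter.eventually_cofinite]
  set q : Polynomial ℝ := Polynomial.C n1 * Polynomial.X + Polynomial.C n2 * Polynomial.X ^ 2 +
    Polynomial.C n3 * Polynomial.X ^ 3 - Polynomial.C c with hq
  have hq0 : q ≠ 0 := by
    intro h0
    apply hn
    have h1 : q.coeff 1 = n1 := by
      simp [hq, Polynomial.coeff_X, Polynomial.coeff_C]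
    have h2 : q.coeff 2 = n2 := by
      simp [hq, Polynomial.coeff_X, Polynomial.coeff_C]
    have h3 : q.coeff 3 = n3 := by
      simp [hq, Polynomial.coeff_X, Polynomial.coeff_C]
    rw [h0] at h1 h2 h3
    simp only [Polynomial.coeff_zero] at h1 h2 h3
    rw [← h1, ← h2, ← h3]; rfl
  refine (Polynomial.finite_setOfPred_isRoot hq0).subset ?_
  intro t ht
  simp only [ne_eq, not_not, Set.mem_ofPred_eq, dot, mc] at ht
  simp only [Set.mem_ofPred_eq, Polynomial.IsRoot, hq, Polynomial.eval_sub, Polynomial.eval_add,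
    Polynomial.eval_mul, Polynomial.eval_C, Polynomial.eval_X, Polynomial.eval_pow]
  linarith

theorem exists_ext {α : Type} (U : List α) (p : α → V3) (k : ℕ) (nm : ℕ → α) (Q : ℕ → V3)
    (hnm : ∀ r < k, nm r ∉ U) (hinj : ∀ r < k, ∀ r' < k, nm r = nm r' → r = r') :
    ∃ p' : α → V3, (∀ a ∈ U, p' a = p a) ∧ ∀ r < k, p' (nm r) = Q r := by
  classical
  refine ⟨fun a => if h : ∃ r, r < k ∧ a = nm r then Q h.choose else p a, ?_, ?_⟩
  · intro a ha
    have : ¬ ∃ r, r < k ∧ a = nm r := by
      rintro ⟨r, hr, rfl⟩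
      exact hnm r hr ha
    simp only [dif_neg this]
  · intro r hr
    have h : ∃ r', r' < k ∧ nm r = nm r' := ⟨r, hr, rfl⟩
    simp only [dif_pos h]
    exact congrArg Q (hinj r hr _ h.choose_spec.1 h.choose_spec.2).symm

theorem not_np_of_two {a y z s : V3} (h : det3 a y z ≠ 0) (h1 : det3 a y s = 0)
    (h2 : det3 a z s = 0) : ¬ NP a s := by
  intro hn
  apply h
  refine det3_of_orth (n := crs a s) hn (by simp only [dot, crs]; ring) ?_ ?_
  · have : dot (crs a s) y = - det3 a y s := by simp only [det3, dot, crs]; ring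
    rw [this, h1, neg_zero]
  · have : dot (crs a s) z = - det3 a z s := by simp only [det3, dot, crs]; ring
    rw [this, h2, neg_zero]

theorem det3_add_smul (a b c s : V3) (t : ℝ) :
    det3 a (b + t • c) s = det3 a b s + t * det3 a c s := by
  obtain ⟨a1, a2, a3⟩ := a
  obtain ⟨b1, b2, b3⟩ := b
  obtain ⟨c1, c2, c3⟩ := c
  obtain ⟨s1, s2, s3⟩ := s
  simp only [det3, dot, crs, Prod.smul_mk, smul_eq_mul, Prod.mk_add_mk]
  ring

theorem eventually_det {a b c s : V3} (h : ¬ (det3 a b s = 0 ∧ det3 a c s = 0)) :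
    ∀ᶠ t : ℝ in Filter.cofinite, det3 a (b + t • c) s ≠ 0 := by
  have h1 := eventually_dot (n := crs s a) (a := b) (b := c) (by
    rintro ⟨h1, h2⟩
    apply h
    constructor
    · have : det3 a b s = dot (crs s a) b := by simp only [det3, dot, crs]; ring
      rw [this, h1]
    · have : det3 a c s = dot (crs s a) c := by simp only [det3, dot, crs]; ring
      rw [this, h2])
  filter_upwards [h1] with t ht
  have : det3 a (b + t • c) s = dot (crs s a) (b + t • c) := by
    simp only [det3, dot, crs]; ring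
  rw [this]; exact ht

/-- the triangle gadget -/
theorem step1 {α : Type} {U : List α} {E : List (List α × V3)} {p : α → V3} (h : Strong U E p)
    {x y z : α} (hx : x ∈ U) (hy : y ∈ U) (hz : z ∈ U)
    (hdet : det3 (p x) (p y) (p z) ≠ 0)
    (hE : ∀ e ∈ E, x ∉ e.1 ∧ y ∉ e.1 ∧ z ∉ e.1)
    (nm : ℕ → α) (hnm : ∀ r < 3, nm r ∉ U) (hinj : ∀ r < 3, ∀ r' < 3, nm r = nm r' → r = r') :
    ∃ (p' : α → V3) (n0 n1 n2 : V3),
      Strong (nm 0 :: nm 1 :: nm 2 :: U)
        (([nm 0, nm 1], n0) :: ([nm 1, nm 2], n1) :: ([nm 0, nm 2], n2) :: E) p' ∧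
      (∀ a ∈ U, p' a = p a) ∧ det3 (p' x) (p' y) (p' (nm 0)) = 0 ∧
      det3 (p' y) (p' z) (p' (nm 1)) = 0 ∧ det3 (p' x) (p' z) (p' (nm 2)) = 0 := by
  have hxy : NP (p x) (p y) := np_of_det hdet
  have hyz : NP (p y) (p z) := np_of_det (c := p x) (fun h0 => hdet (det3_perm2 h0))
  have hzx : NP (p z) (p x) := np_of_det (c := p y) (fun h0 => hdet (det3_perm1 h0))
  have finU : {a | a ∈ U}.Finite := List.finite_toSet U
  have finE : {a | a ∈ E}.Finite := List.finite_toSet E
  -- first point
  have e1 : ∀ᶠ t : ℝ in Filter.cofinite, (∀ s ∈ {a | a ∈ U}, NP (p x + t • p y) (p s)) ∧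
      (∀ e ∈ {a | a ∈ E}, dot e.2 (p x + t • p y) ≠ 0) ∧ t ≠ 0 := by
    refine Filter.Eventually.and ?_ (Filter.Eventually.and ?_ (eventually_ne_const 0))
    · rw [Filter.eventually_all_finite finU]
      exact fun s hs => eventually_np hxy (h.ne s hs)
    · rw [Filter.eventually_all_finite finE]
      intro e he
      refine eventually_dot ?_
      rintro ⟨h1, _⟩
      exact (hE e he).1 ((h.line e he x hx).mp h1)
  obtain ⟨α', a1, a2, a3⟩ := e1.exists
  set A : V3 := p x + α' • p y with hA
  have hAyz : det3 A (p y) (p z) ≠ 0 := by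
    have : det3 A (p y) (p z) = det3 (p x) (p y) (p z) := by
      rw [hA]; simp only [det3, dot, crs, Prod.fst_add, Prod.snd_add, Prod.smul_fst,
        Prod.smul_snd, smul_eq_mul]; ring
    rw [this]; exact hdet
  have hAzx : det3 A (p z) (p x) ≠ 0 := by
    have : det3 A (p z) (p x) = α' * det3 (p x) (p y) (p z) := by
      rw [hA]; simp only [det3, dot, crs, Prod.fst_add, Prod.snd_add, Prod.smul_fst,
        Prod.smul_snd, smul_eq_mul]; ring
    rw [this]; exact mul_ne_zero a3 hdet
  -- second point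
  have e2 : ∀ᶠ t : ℝ in Filter.cofinite, (∀ s ∈ {a | a ∈ U}, NP (p y + t • p z) (p s)) ∧
      (∀ e ∈ {a | a ∈ E}, dot e.2 (p y + t • p z) ≠ 0) ∧ NP (p y + t • p z) A ∧
      (∀ s ∈ {a | a ∈ U}, det3 A (p y + t • p z) (p s) ≠ 0) := by
    refine Filter.Eventually.and ?_ (Filter.Eventually.and ?_ (Filter.Eventually.and ?_ ?_))
    · rw [Filter.eventually_all_finite finU]
      exact fun s hs => eventually_np hyz (h.ne s hs)
    · rw [Filter.eventually_all_finite finE]
      intro e he
      refine eventually_dot ?_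
      rintro ⟨h1, _⟩
      exact (hE e he).2.1 ((h.line e he y hy).mp h1)
    · exact eventually_np hyz (a1 x hx).ne_left
    · rw [Filter.eventually_all_finite finU]
      intro s hs
      refine eventually_det ?_
      rintro ⟨h1, h2⟩
      exact not_np_of_two hAyz h1 h2 (a1 s hs)
  obtain ⟨β', b1, b2, b3, b4⟩ := e2.exists
  set B : V3 := p y + β' • p z with hB
  have hBzx : det3 B (p z) (p x) ≠ 0 := by
    have : det3 B (p z) (p x) = det3 (p x) (p y) (p z) := by
      rw [hB]; simp only [det3, dot, crs, Prod.fst_add, Prod.snd_add, Prod.smul_fst,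
        Prod.smul_snd, smul_eq_mul]; ring
    rw [this]; exact hdet
  -- third point
  have e3 : ∀ᶠ t : ℝ in Filter.cofinite, (∀ s ∈ {a | a ∈ U}, NP (p z + t • p x) (p s)) ∧
      (∀ e ∈ {a | a ∈ E}, dot e.2 (p z + t • p x) ≠ 0) ∧ NP (p z + t • p x) A ∧
      NP (p z + t • p x) B ∧
      (∀ s ∈ {a | a ∈ U}, det3 A (p z + t • p x) (p s) ≠ 0) ∧
      (∀ s ∈ {a | a ∈ U}, det3 B (p z + t • p x) (p s) ≠ 0) ∧
      det3 A (p z + t • p x) B ≠ 0 := by
    refine Filter.Eventually.and ?_ (Filter.Eventually.and ?_ (Filter.Eventually.and ?_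
      (Filter.Eventually.and ?_ (Filter.Eventually.and ?_ (Filter.Eventually.and ?_ ?_)))))
    · rw [Filter.eventually_all_finite finU]
      exact fun s hs => eventually_np hzx (h.ne s hs)
    · rw [Filter.eventually_all_finite finE]
      intro e he
      refine eventually_dot ?_
      rintro ⟨h1, _⟩
      exact (hE e he).2.2 ((h.line e he z hz).mp h1)
    · exact eventually_np hzx (a1 x hx).ne_left
    · exact eventually_np hzx (b1 x hx).ne_left
    · rw [Filter.eventually_all_finite finU]
      intro s hs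
      refine eventually_det ?_
      rintro ⟨h1, h2⟩
      exact not_np_of_two hAzx h1 h2 (a1 s hs)
    · rw [Filter.eventually_all_finite finU]
      intro s hs
      refine eventually_det ?_
      rintro ⟨h1, h2⟩
      exact not_np_of_two hBzx h1 h2 (b1 s hs)
    · refine eventually_det ?_
      rintro ⟨h1, h2⟩
      exact not_np_of_two hAzx h1 h2 b3.symm
  obtain ⟨γ', c1, c2, c3, c4, c5, c6, c7⟩ := e3.exists
  set C : V3 := p z + γ' • p x with hC
  obtain ⟨p', hp1, hp2⟩ := exists_ext U p 3 nm
    (fun r => match r with | 0 => A | 1 => B | _ => C) hnm hinj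
  have p0 : p' (nm 0) = A := hp2 0 (by norm_num)
  have p1 : p' (nm 1) = B := hp2 1 (by norm_num)
  have p2 : p' (nm 2) = C := hp2 2 (by norm_num)
  have n01 : nm 0 ≠ nm 1 := fun h => absurd (hinj 0 (by norm_num) 1 (by norm_num) h) (by norm_num)
  have n02 : nm 0 ≠ nm 2 := fun h => absurd (hinj 0 (by norm_num) 2 (by norm_num) h) (by norm_num)
  have n12 : nm 1 ≠ nm 2 := fun h => absurd (hinj 1 (by norm_num) 2 (by norm_num) h) (by norm_num)
  have u0 : ∀ a ∈ U, a ≠ nm 0 := fun a ha h => hnm 0 (by norm_num) (h ▸ ha)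
  have u1 : ∀ a ∈ U, a ≠ nm 1 := fun a ha h => hnm 1 (by norm_num) (h ▸ ha)
  have u2 : ∀ a ∈ U, a ≠ nm 2 := fun a ha h => hnm 2 (by norm_num) (h ▸ ha)
  have zAA : ∀ a b : V3, dot (crs a b) a = 0 := by intro a b; simp only [dot, crs]; ring
  have zBB : ∀ a b : V3, dot (crs a b) b = 0 := by intro a b; simp only [dot, crs]; ring
  refine ⟨p', crs A B, crs B C, crs A C, ⟨?_, ?_, ?_, ?_, ?_⟩, hp1, ?_, ?_, ?_⟩
  · -- np
    have key : ∀ a ∈ U, NP (p' a) A ∧ NP (p' a) B ∧ NP (p' a) C := fun a ha => by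
      rw [hp1 a ha]; exact ⟨(a1 a ha).symm, (b1 a ha).symm, (c1 a ha).symm⟩
    intro a ha b hb hab
    rcases List.mem_cons.mp ha with ha0 | ha0
    · rcases List.mem_cons.mp hb with hb0 | hb0
      · exact absurd (ha0.trans hb0.symm) hab
      · rcases List.mem_cons.mp hb0 with hb1 | hb1
        · rw [ha0, hb1, p0, p1]; exact b3.symm
        · rcases List.mem_cons.mp hb1 with hb2 | hb2
          · rw [ha0, hb2, p0, p2]; exact c3.symm
          · rw [ha0, p0]; exact (key b hb2).1.symm
    · rcases List.mem_cons.mp ha0 with ha1 | ha1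
      · rcases List.mem_cons.mp hb with hb0 | hb0
        · rw [ha1, hb0, p0, p1]; exact b3
        · rcases List.mem_cons.mp hb0 with hb1 | hb1
          · exact absurd (ha1.trans hb1.symm) hab
          · rcases List.mem_cons.mp hb1 with hb2 | hb2
            · rw [ha1, hb2, p1, p2]; exact c4.symm
            · rw [ha1, p1]; exact (key b hb2).2.1.symm
      · rcases List.mem_cons.mp ha1 with ha2 | ha2
        · rcases List.mem_cons.mp hb with hb0 | hb0
          · rw [ha2, hb0, p0, p2]; exact c3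
          · rcases List.mem_cons.mp hb0 with hb1 | hb1
            · rw [ha2, hb1, p1, p2]; exact c4
            · rcases List.mem_cons.mp hb1 with hb2 | hb2
              · exact absurd (ha2.trans hb2.symm) hab
              · rw [ha2, p2]; exact (key b hb2).2.2.symm
        · rcases List.mem_cons.mp hb with hb0 | hb0
          · rw [hb0, p0]; exact (key a ha2).1
          · rcases List.mem_cons.mp hb0 with hb1 | hb1
            · rw [hb1, p1]; exact (key a ha2).2.1
            · rcases List.mem_cons.mp hb1 with hb2 | hb2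
              · rw [hb2, p2]; exact (key a ha2).2.2
              · rw [hp1 a ha2, hp1 b hb2]; exact h.np a ha2 b hb2 hab
  · intro a ha
    simp only [List.mem_cons] at ha
    rcases ha with rfl | rfl | rfl | ha
    · rw [p0]; exact (a1 x hx).ne_left
    · rw [p1]; exact (b1 x hx).ne_left
    · rw [p2]; exact (c1 x hx).ne_left
    · rw [hp1 a ha]; exact h.ne a ha
  · intro e he
    simp only [List.mem_cons] at he
    rcases he with rfl | rfl | rfl | he
    · exact b3.symm
    · exact c4.symm
    · exact c3.symm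
    · exact h.nz e he
  · intro e he a ha
    simp only [List.mem_cons] at he ha
    rcases he with rfl | rfl | rfl | he
    · rcases ha with rfl | rfl | rfl | ha
      · rw [p0]; simp [zAA]
      · rw [p1]; simp [zBB]
      · rw [p2]
        have : dot (crs A B) C ≠ 0 := by
          change det3 A B C ≠ 0
          intro h0; exact c7 (det3_perm4 h0)
        simp [this, n02.symm, n12.symm]
      · rw [hp1 a ha]
        have : dot (crs A B) (p a) ≠ 0 := b4 a ha
        simp [this, u0 a ha, u1 a ha]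
    · rcases ha with rfl | rfl | rfl | ha
      · rw [p0]
        have : dot (crs B C) A ≠ 0 := by
          change det3 B C A ≠ 0
          intro h0; exact c7 (det3_perm4 (det3_perm2 h0))
        simp [this, n01, n02]
      · rw [p1]; simp [zAA]
      · rw [p2]; simp [zBB]
      · rw [hp1 a ha]
        have : dot (crs B C) (p a) ≠ 0 := c6 a ha
        simp [this, u1 a ha, u2 a ha]
    · rcases ha with rfl | rfl | rfl | ha
      · rw [p0]; simp [zAA]
      · rw [p1]
        have : dot (crs A C) B ≠ 0 := c7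
        simp [this, n01.symm, n12]
      · rw [p2]; simp [zBB]
      · rw [hp1 a ha]
        have : dot (crs A C) (p a) ≠ 0 := c5 a ha
        simp [this, u0 a ha, u2 a ha]
    · have hne : ∀ r < 3, nm r ∉ e.1 := fun r hr hm => hnm r hr (h.sub e he _ hm)
      rcases ha with rfl | rfl | rfl | ha
      · rw [p0]; simp [a2 e he, hne 0 (by norm_num)]
      · rw [p1]; simp [b2 e he, hne 1 (by norm_num)]
      · rw [p2]; simp [c2 e he, hne 2 (by norm_num)]
      · rw [hp1 a ha]; exact h.line e he a ha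
  · intro e he a ha
    simp only [List.mem_cons] at he ⊢
    rcases he with rfl | rfl | rfl | he
    · simp only [List.mem_cons, List.not_mem_nil, or_false] at ha; tauto
    · simp only [List.mem_cons, List.not_mem_nil, or_false] at ha; tauto
    · simp only [List.mem_cons, List.not_mem_nil, or_false] at ha; tauto
    · exact Or.inr (Or.inr (Or.inr (h.sub e he a ha)))
  · rw [hp1 x hx, hp1 y hy, p0, hA]
    simp only [det3, dot, crs, Prod.fst_add, Prod.snd_add, Prod.smul_fst,
        Prod.smul_snd, smul_eq_mul]; ring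
  · rw [hp1 y hy, hp1 z hz, p1, hB]
    simp only [det3, dot, crs, Prod.fst_add, Prod.snd_add, Prod.smul_fst,
        Prod.smul_snd, smul_eq_mul]; ring
  · rw [hp1 x hx, hp1 z hz, p2, hC]
    simp only [det3, dot, crs, Prod.fst_add, Prod.snd_add, Prod.smul_fst,
        Prod.smul_snd, smul_eq_mul]; ring

end Pool.Agent.Helper55
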