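import Pool.Agent.Helper55.Planar

set_option autoImplicit false

/-!
Generic placement of the Pappus gadget.
-/

namespace Pool.Agent.Helper55

/-- the hyperedges of the Pappus gadget -/
def papL {α : Type} (nm : ℕ → α) (X Y Z : α) : List (List α) :=
  [[nm 0, nm 1, nm 2], [nm 3, nm 4, nm 5], [nm 0, nm 4, X], [nm 1, nm 3, X],
    [nm 0, nm 5, Y], [nm 2, nm 3, Y], [nm 1, nm 5, Z], [nm 2, nm 4, Z]]

theorem det3_add_left (a b c d : V3) : det3 (a + b) c d = dot (crs c d) a + dot (crs c d) b := by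
  simp only [det3, dot, crs, Prod.fst_add, Prod.snd_add]; ring

theorem eventually_mc_det {w d s : V3} (h : NP d s) :
    ∀ᶠ t : ℝ in Filter.cofinite, det3 (mc t + w) d s ≠ 0 := by
  filter_upwards [eventually_mc h (-dot (crs d s) w)] with t ht h0
  rw [det3_add_left] at h0
  apply ht; linarith

theorem step2 {α : Type} {U : List α} {E : List (List α × V3)} {p : α → V3} (h : Strong U E p)
    {X Y Z : α} (hX : X ∈ U) (hY : Y ∈ U) (hZ : Z ∈ U) (hXY : X ≠ Y) (hYZ : Y ≠ Z) (hXZ : X ≠ Z)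
    (hdet : det3 (p X) (p Y) (p Z) = 0)
    (nm : ℕ → α) (hnm : ∀ r < 6, nm r ∉ U) (hinj : ∀ r < 6, ∀ r' < 6, nm r = nm r' → r = r') :
    ∃ (p' : α → V3) (E' : List (List α × V3)),
      Strong ((List.range 6).map nm ++ U) (E' ++ E) p' ∧ (∀ a ∈ U, p' a = p a) ∧
      E'.map Prod.fst = papL nm X Y Z := by
  have finU : {a | a ∈ U}.Finite := List.finite_toSet U
  have finE : {a | a ∈ E}.Finite := List.finite_toSet E
  have fin6 : {r : ℕ | r < 6}.Finite := Set.finite_lt_nat 6
  obtain ⟨α', β', hZc⟩ := exists_comb (h.np X hX Y hY hXY) hdet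
  have hα : α' ≠ 0 := by
    rintro rfl
    apply h.np Y hY Z hZ hYZ
    rw [hZc, zero_smul, zero_add]
    simp only [crs, Prod.smul_fst, Prod.smul_snd, smul_eq_mul, Prod.mk_eq_zero]
    refine ⟨by ring, by ring, by ring⟩
  have hβ : β' ≠ 0 := by
    rintro rfl
    apply h.np X hX Z hZ hXZ
    rw [hZc, zero_smul, add_zero]
    simp only [crs, Prod.smul_fst, Prod.smul_snd, smul_eq_mul, Prod.mk_eq_zero]
    refine ⟨by ring, by ring, by ring⟩
  obtain ⟨X', hX'⟩ : ∃ X', X' = α' • p X := ⟨_, rfl⟩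
  obtain ⟨Y', hY'⟩ : ∃ Y', Y' = β' • p Y := ⟨_, rfl⟩
  have hZ' : p Z = X' + Y' := by rw [hX', hY', hZc]
  have npsm : ∀ {x : ℝ} {a b : V3}, x ≠ 0 → NP a b → NP (x • a) b := by
    intro x a b hx hab h0
    apply hab
    have : crs (x • a) b = x • crs a b := by
      simp only [crs, Prod.smul_fst, Prod.smul_snd, smul_eq_mul, Prod.smul_mk, Prod.mk.injEq]
      refine ⟨by ring, by ring, by ring⟩
    rw [this] at h0
    exact (smul_eq_zero.mp h0).resolve_left hx
  have hXY' : NP X' Y' := by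
    rw [hX', hY']
    exact npsm hα (npsm hβ (h.np Y hY X hX hXY.symm)).symm
  obtain ⟨dv, hdv⟩ : ∃ dv : ℝ → ℝ → V3, ∀ dx dy, dv dx dy = dx • X' + dy • Y' :=
    ⟨fun dx dy => dx • X' + dy • Y', fun _ _ => rfl⟩
  have dX : dv 1 0 = α' • p X := by rw [hdv, one_smul, zero_smul, add_zero, hX']
  have dY : dv 0 1 = β' • p Y := by rw [hdv, one_smul, zero_smul, zero_add, hY']
  have dZ : dv 1 1 = p Z := by rw [hdv, one_smul, one_smul, hZ']
  have hdX : ∀ s ∈ U, s ≠ X → NP (dv 1 0) (p s) := fun s hs hsX => by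
    rw [dX]; exact npsm hα (h.np X hX s hs hsX.symm)
  have hdY : ∀ s ∈ U, s ≠ Y → NP (dv 0 1) (p s) := fun s hs hsX => by
    rw [dY]; exact npsm hβ (h.np Y hY s hs hsX.symm)
  have hdZ : ∀ s ∈ U, s ≠ Z → NP (dv 1 1) (p s) := fun s hs hsX => by
    rw [dZ]; exact h.np Z hZ s hs hsX.symm
  -- the parameters
  have eb : ∀ᶠ b : ℝ in Filter.cofinite, ∀ s ∈ {a | a ∈ U}, NP (dv b (b + 1)) (p s) := by
    rw [Filter.eventually_all_finite finU]
    intro s hs
    have h1 : NP Y' (X' + Y') := by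
      intro h0
      apply hXY'.symm
      rw [← h0]
      simp only [crs, Prod.fst_add, Prod.snd_add, Prod.mk.injEq]
      refine ⟨by ring, by ring, by ring⟩
    filter_upwards [eventually_np h1 (h.ne s hs)] with b hb
    have : dv b (b + 1) = Y' + b • (X' + Y') := by rw [hdv]; module
    rw [this]; exact hb
  obtain ⟨b, hb, hdb⟩ := exists_pos_of_eventually eb
  have ee : ∀ᶠ e : ℝ in Filter.cofinite, ∀ s ∈ {a | a ∈ U}, NP (dv e (-1)) (p s) := by
    rw [Filter.eventually_all_finite finU]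
    intro s hs
    have h1 : NP ((-1 : ℝ) • Y') X' := npsm (by norm_num) hXY'.symm
    filter_upwards [eventually_np h1 (h.ne s hs)] with e he
    have : dv e (-1) = (-1 : ℝ) • Y' + e • X' := by rw [hdv]; module
    rw [this]; exact he
  obtain ⟨e, he, hde⟩ := exists_pos_of_eventually ee
  obtain ⟨w, hw⟩ : ∃ w : ℕ → V3, ∀ r, w r = (Wx b e r) • X' + (Wy b e r) • Y' :=
    ⟨fun r => (Wx b e r) • X' + (Wy b e r) • Y', fun _ => rfl⟩
  have et : ∀ᶠ t : ℝ in Filter.cofinite,
      (∀ x ∈ {a | a ∈ E}, ∀ r ∈ {r : ℕ | r < 6}, dot x.2 (mc t) ≠ - dot x.2 (w r)) ∧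
      (∀ s ∈ {a | a ∈ U}, ∀ r ∈ {r : ℕ | r < 6}, det3 (mc t + w r) (dv b (b + 1)) (p s) ≠ 0) ∧
      (∀ s ∈ {a | a ∈ U}, ∀ r ∈ {r : ℕ | r < 6}, det3 (mc t + w r) (dv e (-1)) (p s) ≠ 0) ∧
      (∀ s ∈ {a | a ∈ U}, ∀ r ∈ {r : ℕ | r < 6}, s ≠ X → det3 (mc t + w r) (dv 1 0) (p s) ≠ 0) ∧
      (∀ s ∈ {a | a ∈ U}, ∀ r ∈ {r : ℕ | r < 6}, s ≠ Y → det3 (mc t + w r) (dv 0 1) (p s) ≠ 0) ∧
      (∀ s ∈ {a | a ∈ U}, ∀ r ∈ {r : ℕ | r < 6}, s ≠ Z → det3 (mc t + w r) (dv 1 1) (p s) ≠ 0) ∧
      det3 (mc t + 0) X' Y' ≠ 0 := by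
    refine Filter.Eventually.and ?_ (Filter.Eventually.and ?_ (Filter.Eventually.and ?_
      (Filter.Eventually.and ?_ (Filter.Eventually.and ?_ (Filter.Eventually.and ?_ ?_)))))
    · rw [Filter.eventually_all_finite finE]
      intro x hx
      rw [Filter.eventually_all_finite fin6]
      exact fun r _ => eventually_mc (h.nz x hx) _
    · rw [Filter.eventually_all_finite finU]
      intro s hs
      rw [Filter.eventually_all_finite fin6]
      exact fun r _ => eventually_mc_det (hdb s hs)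
    · rw [Filter.eventually_all_finite finU]
      intro s hs
      rw [Filter.eventually_all_finite fin6]
      exact fun r _ => eventually_mc_det (hde s hs)
    · rw [Filter.eventually_all_finite finU]
      intro s hs
      rw [Filter.eventually_all_finite fin6]
      intro r _
      by_cases hsX : s = X
      · exact Filter.Eventually.of_forall fun t ht => absurd hsX ht
      · filter_upwards [eventually_mc_det (w := w r) (hdX s hs hsX)] with t ht _
        exact ht
    · rw [Filter.eventually_all_finite finU]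
      intro s hs
      rw [Filter.eventually_all_finite fin6]
      intro r _
      by_cases hsX : s = Y
      · exact Filter.Eventually.of_forall fun t ht => absurd hsX ht
      · filter_upwards [eventually_mc_det (w := w r) (hdY s hs hsX)] with t ht _
        exact ht
    · rw [Filter.eventually_all_finite finU]
      intro s hs
      rw [Filter.eventually_all_finite fin6]
      intro r _
      by_cases hsX : s = Z
      · exact Filter.Eventually.of_forall fun t ht => absurd hsX ht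
      · filter_upwards [eventually_mc_det (w := w r) (hdZ s hs hsX)] with t ht _
        exact ht
    · exact eventually_mc_det hXY'
  obtain ⟨t, t1, t2, t3, t4, t5, t6, t7⟩ := et.exists
  rw [add_zero] at t7
  obtain ⟨Q, hQ⟩ : ∃ Q : ℕ → V3, ∀ r, Q r = mc t + w r := ⟨fun r => mc t + w r, fun _ => rfl⟩
  obtain ⟨p', hp1, hp2⟩ := exists_ext U p 6 nm Q hnm hinj
  -- the key identity
  have key : ∀ i j dx dy, det3 (Q i) (dv dx dy) (Q j) =
      (dx * (Wy b e j - Wy b e i) - dy * (Wx b e j - Wx b e i)) * det3 (mc t) X' Y' := by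
    intro i j dx dy
    rw [hQ, hQ, hw, hw, hdv]
    generalize mc t = P
    generalize Wx b e i = xi
    generalize Wx b e j = xj
    generalize Wy b e i = yi
    generalize Wy b e j = yj
    clear * -
    obtain ⟨a1, a2, a3⟩ := P
    obtain ⟨b1, b2, b3⟩ := X'
    obtain ⟨c1, c2, c3⟩ := Y'
    simp only [det3, dot, crs, Prod.smul_mk, smul_eq_mul, Prod.mk_add_mk]
    ring
  have key0 : ∀ i j dx dy, (dot (crs (Q i) (dv dx dy)) (Q j) = 0 ↔
      dx * (Wy b e j - Wy b e i) - dy * (Wx b e j - Wx b e i) = 0) := by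
    intro i j dx dy
    have : dot (crs (Q i) (dv dx dy)) (Q j) = (dx * (Wy b e j - Wy b e i) -
      dy * (Wx b e j - Wx b e i)) * det3 (mc t) X' Y' := key i j dx dy
    rw [this, mul_eq_zero, or_iff_left t7]
  have memN : ∀ a ∈ (List.range 6).map nm ++ U, (∃ r < 6, a = nm r) ∨ a ∈ U := by
    intro a ha
    rcases List.mem_append.mp ha with ha | ha
    · left
      obtain ⟨r, hr, rfl⟩ := List.mem_map.mp ha
      exact ⟨r, List.mem_range.mp hr, rfl⟩
    · exact Or.inr ha
  -- new points and old points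
  have npo : ∀ r < 6, ∀ s ∈ U, NP (Q r) (p s) := by
    intro r hr s hs
    by_cases hsX : s = X
    · have h1 := t5 s hs r hr (by rw [hsX]; exact hXY)
      rw [← hQ] at h1
      have h2 : det3 (Q r) (p s) (dv 0 1) ≠ 0 := fun h0 => h1 (det3_perm4 h0)
      exact np_of_det h2
    · have h1 := t4 s hs r hr hsX
      rw [← hQ] at h1
      have h2 : det3 (Q r) (p s) (dv 1 0) ≠ 0 := fun h0 => h1 (det3_perm4 h0)
      exact np_of_det h2
  have npn : ∀ r < 6, ∀ r' < 6, r ≠ r' → NP (Q r) (Q r') := by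
    intro r hr r' hr' hne
    rcases Wdist' hb he r hr r' hr' hne with h1 | h1
    · have h2 : det3 (Q r) (dv 0 1) (Q r') ≠ 0 := by
        rw [key]
        refine mul_ne_zero ?_ t7
        rw [zero_mul, one_mul, zero_sub]
        exact neg_ne_zero.mpr h1
      have h3 : det3 (Q r) (Q r') (dv 0 1) ≠ 0 := fun h0 => h2 (det3_perm4 h0)
      exact np_of_det h3
    · have h2 : det3 (Q r) (dv 1 0) (Q r') ≠ 0 := by
        rw [key]
        refine mul_ne_zero ?_ t7
        rw [zero_mul, one_mul, sub_zero]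
        exact h1
      have h3 : det3 (Q r) (Q r') (dv 1 0) ≠ 0 := fun h0 => h2 (det3_perm4 h0)
      exact np_of_det h3
  -- lines
  have free : ∀ i < 6, ∀ dx dy, (∀ s ∈ U, det3 (Q i) (dv dx dy) (p s) ≠ 0) →
      ∀ j < 6, ∀ k < 6, ∀ l < 6,
      (∀ r < 6, (dx * (Wy b e r - Wy b e i) - dy * (Wx b e r - Wx b e i) = 0 ↔
        r = j ∨ r = k ∨ r = l)) →
      ∀ a ∈ (List.range 6).map nm ++ U,
        (dot (crs (Q i) (dv dx dy)) (p' a) = 0 ↔ a ∈ [nm j, nm k, nm l]) := by
    intro i hi dx dy hs j hj k hk l hl hpl a ha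
    rcases memN a ha with ⟨r, hr, rfl⟩ | ha
    · rw [hp2 r hr, key0, hpl r hr]
      simp only [List.mem_cons, List.not_mem_nil, or_false]
      constructor
      · rintro (rfl | rfl | rfl) <;> tauto
      · rintro (h1 | h1 | h1)
        · exact Or.inl (hinj _ hr _ hj h1)
        · exact Or.inr (Or.inl (hinj _ hr _ hk h1))
        · exact Or.inr (Or.inr (hinj _ hr _ hl h1))
    · rw [hp1 a ha]
      refine ⟨fun h0 => absurd h0 (hs a ha), fun h0 => ?_⟩
      simp only [List.mem_cons, List.not_mem_nil, or_false] at h0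
      rcases h0 with rfl | rfl | rfl
      · exact absurd ha (hnm _ hj)
      · exact absurd ha (hnm _ hk)
      · exact absurd ha (hnm _ hl)
  have spec : ∀ i < 6, ∀ dx dy, ∀ V ∈ U, det3 (Q i) (dv dx dy) (p V) = 0 →
      (∀ s ∈ U, s ≠ V → det3 (Q i) (dv dx dy) (p s) ≠ 0) →
      ∀ j < 6, ∀ k < 6,
      (∀ r < 6, (dx * (Wy b e r - Wy b e i) - dy * (Wx b e r - Wx b e i) = 0 ↔
        r = j ∨ r = k)) →
      ∀ a ∈ (List.range 6).map nm ++ U,
        (dot (crs (Q i) (dv dx dy)) (p' a) = 0 ↔ a ∈ [nm j, nm k, V]) := by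
    intro i hi dx dy V hV hVd hs j hj k hk hpl a ha
    rcases memN a ha with ⟨r, hr, rfl⟩ | ha
    · rw [hp2 r hr, key0, hpl r hr]
      simp only [List.mem_cons, List.not_mem_nil, or_false]
      constructor
      · rintro (rfl | rfl) <;> tauto
      · rintro (h1 | h1 | h1)
        · exact Or.inl (hinj _ hr _ hj h1)
        · exact Or.inr (hinj _ hr _ hk h1)
        · exact absurd (h1 ▸ hV) (hnm r hr)
    · rw [hp1 a ha]
      by_cases haV : a = V
      · rw [haV]
        exact ⟨fun _ => by simp, fun _ => hVd⟩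
      · refine ⟨fun h0 => absurd h0 (hs a ha haV), fun h0 => ?_⟩
        simp only [List.mem_cons, List.not_mem_nil, or_false] at h0
        rcases h0 with rfl | rfl | rfl
        · exact absurd ha (hnm _ hj)
        · exact absurd ha (hnm _ hk)
        · exact absurd rfl haV
  have zX : ∀ i, det3 (Q i) (dv 1 0) (p X) = 0 := by
    intro i; rw [dX]
    simp only [det3, dot, crs, Prod.smul_fst, Prod.smul_snd, smul_eq_mul]; ring
  have zY : ∀ i, det3 (Q i) (dv 0 1) (p Y) = 0 := by
    intro i; rw [dY]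
    simp only [det3, dot, crs, Prod.smul_fst, Prod.smul_snd, smul_eq_mul]; ring
  have zZ : ∀ i, det3 (Q i) (dv 1 1) (p Z) = 0 := by
    intro i; rw [dZ]
    simp only [det3, dot, crs]; ring
  have l0 := free 0 (by norm_num) b (b + 1) (fun s hs => by
    rw [hQ]; exact t2 s hs 0 (by simp)) 0 (by norm_num) 1 (by norm_num) 2 (by norm_num)
    (planar0 hb he)
  have l1 := free 5 (by norm_num) e (-1) (fun s hs => by
    rw [hQ]; exact t3 s hs 5 (by simp)) 3 (by norm_num) 4 (by norm_num) 5 (by norm_num)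
    (planar1 hb he)
  have l2 := spec 0 (by norm_num) 1 0 X hX (zX 0) (fun s hs hsV => by
    rw [hQ]; exact t4 s hs 0 (by simp) hsV) 0 (by norm_num) 4 (by norm_num) (planar2 hb he)
  have l3 := spec 1 (by norm_num) 1 0 X hX (zX 1) (fun s hs hsV => by
    rw [hQ]; exact t4 s hs 1 (by simp) hsV) 1 (by norm_num) 3 (by norm_num) (planar3 hb he)
  have l4 := spec 0 (by norm_num) 0 1 Y hY (zY 0) (fun s hs hsV => by
    rw [hQ]; exact t5 s hs 0 (by simp) hsV) 0 (by norm_num) 5 (by norm_num) (planar4 hb he)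
  have l5 := spec 2 (by norm_num) 0 1 Y hY (zY 2) (fun s hs hsV => by
    rw [hQ]; exact t5 s hs 2 (by simp) hsV) 2 (by norm_num) 3 (by norm_num) (planar5 hb he)
  have l6 := spec 1 (by norm_num) 1 1 Z hZ (zZ 1) (fun s hs hsV => by
    rw [hQ]; exact t6 s hs 1 (by simp) hsV) 1 (by norm_num) 5 (by norm_num) (planar6 hb he)
  have l7 := spec 2 (by norm_num) 1 1 Z hZ (zZ 2) (fun s hs hsV => by
    rw [hQ]; exact t6 s hs 2 (by simp) hsV) 2 (by norm_num) 4 (by norm_num) (planar7 hb he)
  -- normals are nonzero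
  have nz1 : ∀ i < 6, crs (Q i) (dv 1 0) ≠ 0 := fun i hi => by
    have h1 := t4 Y hY i hi hXY.symm
    rw [← hQ] at h1
    exact np_of_det h1
  have nz2 : ∀ i < 6, crs (Q i) (dv 0 1) ≠ 0 := fun i hi => by
    have h1 := t5 X hX i hi hXY
    rw [← hQ] at h1
    exact np_of_det h1
  have nz3 : ∀ i < 6, crs (Q i) (dv 1 1) ≠ 0 := fun i hi => by
    have h1 := t6 X hX i hi hXZ
    rw [← hQ] at h1
    exact np_of_det h1
  have nz4 : ∀ i < 6, crs (Q i) (dv b (b + 1)) ≠ 0 := fun i hi => by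
    have h1 := t2 X hX i hi
    rw [← hQ] at h1
    exact np_of_det h1
  have nz5 : ∀ i < 6, crs (Q i) (dv e (-1)) ≠ 0 := fun i hi => by
    have h1 := t3 X hX i hi
    rw [← hQ] at h1
    exact np_of_det h1
  refine ⟨p', [([nm 0, nm 1, nm 2], crs (Q 0) (dv b (b + 1))),
    ([nm 3, nm 4, nm 5], crs (Q 5) (dv e (-1))),
    ([nm 0, nm 4, X], crs (Q 0) (dv 1 0)), ([nm 1, nm 3, X], crs (Q 1) (dv 1 0)),
    ([nm 0, nm 5, Y], crs (Q 0) (dv 0 1)), ([nm 2, nm 3, Y], crs (Q 2) (dv 0 1)),
    ([nm 1, nm 5, Z], crs (Q 1) (dv 1 1)), ([nm 2, nm 4, Z], crs (Q 2) (dv 1 1))],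
    ⟨?_, ?_, ?_, ?_, ?_⟩, hp1, rfl⟩
  · intro a ha c hc hac
    rcases memN a ha with ⟨r, hr, rfl⟩ | ha <;> rcases memN c hc with ⟨r', hr', rfl⟩ | hc
    · rw [hp2 r hr, hp2 r' hr']
      exact npn r hr r' hr' (fun h0 => hac (by rw [h0]))
    · rw [hp2 r hr, hp1 c hc]
      exact npo r hr c hc
    · rw [hp2 r' hr', hp1 a ha]
      exact (npo r' hr' a ha).symm
    · rw [hp1 a ha, hp1 c hc]
      exact h.np a ha c hc hac
  · intro a ha
    rcases memN a ha with ⟨r, hr, rfl⟩ | ha
    · rw [hp2 r hr]; exact (npo r hr X hX).ne_left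
    · rw [hp1 a ha]; exact h.ne a ha
  · intro x hx
    rcases List.mem_append.mp hx with hx | hx
    · simp only [List.mem_cons, List.not_mem_nil, or_false] at hx
      rcases hx with rfl | rfl | rfl | rfl | rfl | rfl | rfl | rfl
      · exact nz4 0 (by norm_num)
      · exact nz5 5 (by norm_num)
      · exact nz1 0 (by norm_num)
      · exact nz1 1 (by norm_num)
      · exact nz2 0 (by norm_num)
      · exact nz2 2 (by norm_num)
      · exact nz3 1 (by norm_num)
      · exact nz3 2 (by norm_num)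
    · exact h.nz x hx
  · intro x hx
    rcases List.mem_append.mp hx with hx | hx
    · simp only [List.mem_cons, List.not_mem_nil, or_false] at hx
      rcases hx with rfl | rfl | rfl | rfl | rfl | rfl | rfl | rfl
      · exact l0
      · exact l1
      · exact l2
      · exact l3
      · exact l4
      · exact l5
      · exact l6
      · exact l7
    · intro a ha
      rcases memN a ha with ⟨r, hr, rfl⟩ | ha
      · rw [hp2 r hr, hQ, dot_add]
        have h1 := t1 x hx r hr
        refine ⟨fun h0 => absurd (by linarith) h1, fun h0 => absurd (h.sub x hx _ h0) (hnm r hr)⟩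
      · rw [hp1 a ha]; exact h.line x hx a ha
  · intro x hx a ha
    have hr6 : ∀ r < 6, nm r ∈ (List.range 6).map nm ++ U := fun r hr =>
      List.mem_append_left _ (List.mem_map_of_mem (List.mem_range.mpr hr))
    rcases List.mem_append.mp hx with hx | hx
    · simp only [List.mem_cons, List.not_mem_nil, or_false] at hx
      rcases hx with rfl | rfl | rfl | rfl | rfl | rfl | rfl | rfl <;>
        simp only [List.mem_cons, List.not_mem_nil, or_false] at ha <;>
        rcases ha with rfl | rfl | rfl <;> first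
          | exact List.mem_append_right _ hX
          | exact List.mem_append_right _ hY
          | exact List.mem_append_right _ hZ
          | exact hr6 _ (by norm_num)
    · exact List.mem_append_right _ (h.sub x hx a ha)

end Pool.Agent.Helper55
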