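import Pool.Agent.Helper55.Real
import Pool.Agent.Helper55.Sound2

set_option autoImplicit false

/-!
The whole reduction on the level of systems of equations.
-/

namespace Pool.Agent.Helper55

/-- the hyperedges of a system of equations -/
def hedges {N T : Type} (L : List (T × SCon N)) :
    List (List (HN (PN (AN N T) (Option T × ℕ)) (Option (Option T × ℕ) × ℕ))) :=
  lay3 (lay2 (lay1 L))

theorem wf2 {N T : Type} (L : List (T × ACon N)) : ∀ x ∈ lay2 L, x.2.WF := by
  intro x hx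
  rcases List.mem_append.mp hx with hx | hx
  · have := mem_of_mem_tag hx
    simp only [glob2, List.mem_cons, List.not_mem_nil, or_false] at this
    rcases this with h | h | h <;> rw [h] <;> simp [PCon.WF]
  · obtain ⟨c, _, hx⟩ := List.mem_flatMap.mp hx
    have := mem_of_mem_tag hx
    obtain ⟨t, c⟩ := c
    cases c with
    | add a b c =>
      simp only [expand2, addlike, List.mem_cons, List.not_mem_nil, or_false] at this
      rcases this with h | h | h | h | h | h | h | h | h | h | h | h <;> rw [h] <;>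
        simp [PCon.WF]
    | mul a b c =>
      simp only [expand2, List.mem_cons, List.not_mem_nil, or_false] at this
      rcases this with h | h | h | h | h | h | h | h | h | h | h | h <;> rw [h] <;>
        simp [PCon.WF]
    | one a b =>
      simp only [expand2, addlike, List.mem_cons, List.not_mem_nil, or_false] at this
      rcases this with h | h | h | h | h | h | h | h | h | h | h | h <;> rw [h] <;>
        simp [PCon.WF]

/-- the incidences of the Pappus gadget -/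
def papN : List (List (Fin 9)) :=
  [[0, 1, 2], [3, 4, 5], [0, 4, 6], [1, 3, 6], [0, 5, 7], [2, 3, 7], [1, 5, 8], [2, 4, 8]]

theorem papN_linear : ∀ e ∈ papN, ∀ f ∈ papN, ∀ a ∈ e, ∀ b ∈ e, a ≠ b → a ∈ f → b ∈ f →
    e = f := by decide

/-- the nine vertices of a Pappus gadget -/
def papV {N T : Type} (t : T) (s : ℕ) (X Y Z : HN N T) : List (HN N T) :=
  [.q t s 0, .q t s 1, .q t s 2, .q t s 3, .q t s 4, .q t s 5, X, Y, Z]

theorem pap_eq {N T : Type} (t : T) (s : ℕ) (X Y Z : HN N T) :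
    pap t s X Y Z = papN.map fun e => e.map fun i => (papV t s X Y Z)[i.1]'i.2 := by
  rfl

theorem papV_nodup {N T : Type} {t : T} {s : ℕ} {X Y Z : HN N T}
    (hX : ∀ r, X ≠ .q t s r) (hY : ∀ r, Y ≠ .q t s r) (hZ : ∀ r, Z ≠ .q t s r)
    (hXY : X ≠ Y) (hYZ : Y ≠ Z) (hXZ : X ≠ Z) : (papV t s X Y Z).Nodup := by
  simp only [papV, List.nodup_cons, List.mem_cons, List.not_mem_nil, or_false, not_or,
    HN.q.injEq, true_and, not_false_eq_true, List.nodup_nil, and_true]
  refine ⟨⟨by decide, by decide, by decide, by decide, by decide, ?_, ?_, ?_⟩,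
    ⟨by decide, by decide, by decide, by decide, ?_, ?_, ?_⟩,
    ⟨by decide, by decide, by decide, ?_, ?_, ?_⟩, ⟨by decide, by decide, ?_, ?_, ?_⟩,
    ⟨by decide, ?_, ?_, ?_⟩, ⟨?_, ?_, ?_⟩, ⟨hXY, hXZ⟩, hYZ⟩ <;>
  first
    | exact (hX _).symm
    | exact (hY _).symm
    | exact (hZ _).symm

theorem papV_inj {N T : Type} {t : T} {s : ℕ} {X Y Z : HN N T}
    (h : (papV t s X Y Z).Nodup) (i j : Fin 9)
    (hij : (papV t s X Y Z)[i.1]'i.2 = (papV t s X Y Z)[j.1]'j.2) : i = j :=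
  Fin.ext ((List.Nodup.getElem_inj_iff h).mp hij)

theorem pap_linear {N T : Type} {t : T} {s : ℕ} {X Y Z : HN N T}
    (h : (papV t s X Y Z).Nodup) {e f : List (HN N T)} (he : e ∈ pap t s X Y Z)
    (hf : f ∈ pap t s X Y Z) {a b : HN N T} (ha : a ∈ e) (hb : b ∈ e) (hab : a ≠ b)
    (ha' : a ∈ f) (hb' : b ∈ f) : e = f := by
  rw [pap_eq] at he hf
  obtain ⟨e, he', rfl⟩ := List.mem_map.mp he
  obtain ⟨f, hf', rfl⟩ := List.mem_map.mp hf
  obtain ⟨i, hi, rfl⟩ := List.mem_map.mp ha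
  obtain ⟨j, hj, rfl⟩ := List.mem_map.mp hb
  obtain ⟨i', hi', hii⟩ := List.mem_map.mp ha'
  obtain ⟨j', hj', hjj⟩ := List.mem_map.mp hb'
  have h1 := papV_inj h _ _ hii
  have h2 := papV_inj h _ _ hjj
  subst h1 h2
  rw [papN_linear e he' f hf' i' hi j' hj (fun h => hab (by rw [h])) hi' hj']

theorem pap_shape {N T : Type} {t : T} {s : ℕ} {X Y Z : HN N T}
    (h : (papV t s X Y Z).Nodup) {e : List (HN N T)} (he : e ∈ pap t s X Y Z) :
    ∃ a b c, a ≠ b ∧ a ≠ c ∧ b ≠ c ∧ e = [a, b, c] := by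
  have h' := h
  simp only [papV, List.nodup_cons, List.mem_cons, List.not_mem_nil, or_false, not_or,
    HN.q.injEq, true_and, not_false_eq_true, List.nodup_nil, and_true] at h'
  simp only [pap, List.mem_cons, List.not_mem_nil, or_false] at he
  rcases he with rfl | rfl | rfl | rfl | rfl | rfl | rfl | rfl <;>
    refine ⟨_, _, _, ?_, ?_, ?_, rfl⟩ <;> simp <;> tauto

/-- two different vertices of a hyperedge of a Pappus gadget: one of them is internal -/
theorem pap_pair {N T : Type} {t : T} {s : ℕ} {X Y Z : HN N T} {e : List (HN N T)}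
    (he : e ∈ pap t s X Y Z) {a b : HN N T} (ha : a ∈ e) (hb : b ∈ e) (hab : a ≠ b) :
    (∃ i, a = .q t s i) ∨ ∃ i, b = .q t s i := by
  simp only [pap, List.mem_cons, List.not_mem_nil, or_false] at he
  rcases he with rfl | rfl | rfl | rfl | rfl | rfl | rfl | rfl <;>
  · simp only [List.mem_cons, List.not_mem_nil, or_false] at ha hb
    rcases ha with rfl | rfl | rfl
    · exact Or.inl ⟨_, rfl⟩
    · exact Or.inl ⟨_, rfl⟩
    · rcases hb with rfl | rfl | rfl
      · exact Or.inr ⟨_, rfl⟩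
      · exact Or.inr ⟨_, rfl⟩
      · first
          | exact absurd rfl hab
          | exact Or.inl ⟨_, rfl⟩

theorem pap_q {N T : Type} {t t' : T} {s s' i : ℕ} {X Y Z : HN N T} {e : List (HN N T)}
    (he : e ∈ pap t s X Y Z) (ha : HN.q t' s' i ∈ e)
    (hX : ∀ t s r, X ≠ .q t s r) (hY : ∀ t s r, Y ≠ .q t s r) (hZ : ∀ t s r, Z ≠ .q t s r) :
    t' = t ∧ s' = s := by
  simp only [pap, List.mem_cons, List.not_mem_nil, or_false] at he
  rcases he with rfl | rfl | rfl | rfl | rfl | rfl | rfl | rfl <;>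
  · simp only [List.mem_cons, List.not_mem_nil, or_false, HN.q.injEq] at ha
    rcases ha with ha | ha | ha <;>
    first
      | exact ⟨ha.1, ha.2.1⟩
      | exact absurd ha.symm (hX _ _ _)
      | exact absurd ha.symm (hY _ _ _)
      | exact absurd ha.symm (hZ _ _ _)

/-- what is known of a Pappus gadget of a condition -/
theorem gad_facts {N T : Type} {x : T × PCon N} (hw : x.2.WF)
    {g : (T × ℕ) × (HN N T × HN N T × HN N T)} (hg : g ∈ gad x) :
    g.1.1 = x.1 ∧ (∀ t s r, g.2.1 ≠ .q t s r) ∧ (∀ t s r, g.2.2.1 ≠ .q t s r) ∧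
      (∀ t s r, g.2.2.2 ≠ .q t s r) ∧ g.2.1 ≠ g.2.2.1 ∧ g.2.2.1 ≠ g.2.2.2 ∧
      g.2.1 ≠ g.2.2.2 := by
  obtain ⟨t, c⟩ := x
  cases c with
  | col a b c =>
    obtain ⟨w1, w2, w3⟩ := hw
    simp only [gad, List.mem_cons, List.not_mem_nil, or_false] at hg
    rw [hg]
    refine ⟨rfl, ?_, ?_, ?_, ?_, ?_, ?_⟩ <;> simpa
  | non a b c =>
    obtain ⟨w1, w2, w3⟩ := hw
    simp only [gad, List.mem_cons, List.not_mem_nil, or_false] at hg
    rcases hg with rfl | rfl | rfl <;> refine ⟨rfl, ?_, ?_, ?_, ?_, ?_, ?_⟩ <;> simpa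

theorem mem_lay3 {N T : Type} {L : List (T × PCon N)} {e : List (HN N T)} :
    e ∈ lay3 L ↔ (∃ g ∈ L.flatMap gad, e ∈ pap g.1.1 g.1.2 g.2.1 g.2.2.1 g.2.2.2) ∨
      ∃ t a b c, (t, PCon.non a b c) ∈ L ∧ e ∈ tri t := by
  constructor
  · intro he
    obtain ⟨x, hx, he⟩ := List.mem_flatMap.mp he
    obtain ⟨t, c⟩ := x
    cases c with
    | col a b c =>
      exact Or.inl ⟨((t, 0), (.b a, .b b, .b c)), List.mem_flatMap.mpr ⟨_, hx, by simp [gad]⟩, he⟩
    | non a b c =>
      simp only [expand3, List.mem_append] at he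
      rcases he with he | he | he | he
      · exact Or.inl ⟨((t, 0), (.b a, .b b, .u t 0)),
          List.mem_flatMap.mpr ⟨_, hx, by simp [gad]⟩, he⟩
      · exact Or.inl ⟨((t, 1), (.b b, .b c, .u t 1)),
          List.mem_flatMap.mpr ⟨_, hx, by simp [gad]⟩, he⟩
      · exact Or.inl ⟨((t, 2), (.b a, .b c, .u t 2)),
          List.mem_flatMap.mpr ⟨_, hx, by simp [gad]⟩, he⟩
      · exact Or.inr ⟨t, a, b, c, hx, he⟩
  · rintro (⟨g, hg, he⟩ | ⟨t, a, b, c, hx, he⟩)
    · obtain ⟨x, hx, hg⟩ := List.mem_flatMap.mp hg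
      refine List.mem_flatMap.mpr ⟨x, hx, ?_⟩
      obtain ⟨t, c⟩ := x
      cases c with
      | col a b c =>
        simp only [gad, List.mem_cons, List.not_mem_nil, or_false] at hg
        rw [hg] at he; exact he
      | non a b c =>
        simp only [gad, List.mem_cons, List.not_mem_nil, or_false] at hg
        simp only [expand3, List.mem_append]
        rcases hg with rfl | rfl | rfl
        · exact Or.inl he
        · exact Or.inr (Or.inl he)
        · exact Or.inr (Or.inr (Or.inl he))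
    · refine List.mem_flatMap.mpr ⟨_, hx, ?_⟩
      simp only [expand3, List.mem_append]
      exact Or.inr (Or.inr (Or.inr he))

theorem tri_u {N T : Type} {t : T} {e : List (HN N T)} (he : e ∈ tri t) {a : HN N T}
    (ha : a ∈ e) : ∃ i, a = .u t i := by
  simp only [tri, List.mem_cons, List.not_mem_nil, or_false] at he
  rcases he with rfl | rfl | rfl <;>
  · simp only [List.mem_cons, List.not_mem_nil, or_false] at ha
    rcases ha with rfl | rfl <;> exact ⟨_, rfl⟩

theorem tri_shape {N T : Type} {t : T} {e : List (HN N T)} (he : e ∈ tri t) :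
    ∃ a b, a ≠ b ∧ e = [a, b] := by
  simp only [tri, List.mem_cons, List.not_mem_nil, or_false] at he
  rcases he with rfl | rfl | rfl <;> exact ⟨_, _, by simp, rfl⟩

theorem tri_linear {N T : Type} {t : T} {e f : List (HN N T)} (he : e ∈ tri t)
    (hf : f ∈ tri t) {a b : HN N T} (ha : a ∈ e) (hb : b ∈ e) (hab : a ≠ b)
    (ha' : a ∈ f) (hb' : b ∈ f) : e = f := by
  simp only [tri, List.mem_cons, List.not_mem_nil, or_false] at he hf
  rcases he with rfl | rfl | rfl <;> rcases hf with rfl | rfl | rfl <;>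
  first
    | rfl
    | (simp only [List.mem_cons, List.not_mem_nil, or_false] at ha hb ha' hb'
       rcases ha with rfl | rfl <;> rcases hb with rfl | rfl <;> simp at *)

section Lay3

variable {N T : Type} {L : List (T × PCon N)} (hnd : (L.map Prod.fst).Nodup)
  (hwf : ∀ x ∈ L, x.2.WF)

include hwf in
theorem lay3_shape {e : List (HN N T)} (he : e ∈ lay3 L) :
    (∃ a b, a ≠ b ∧ e = [a, b]) ∨ ∃ a b c, a ≠ b ∧ a ≠ c ∧ b ≠ c ∧ e = [a, b, c] := by
  rcases mem_lay3.mp he with ⟨g, hg, he⟩ | ⟨t, a, b, c, hx, he⟩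
  · right
    obtain ⟨x, hx, hg⟩ := List.mem_flatMap.mp hg
    obtain ⟨_, f1, f2, f3, f4, f5, f6⟩ := gad_facts (hwf x hx) hg
    exact pap_shape (papV_nodup (f1 _ _) (f2 _ _) (f3 _ _) f4 f5 f6) he
  · exact Or.inl (tri_shape he)

theorem gad_nodup (hnd : (L.map Prod.fst).Nodup) : ((L.flatMap gad).map Prod.fst).Nodup := by
  refine nodup_flat L hnd id (fun a b h => h) gad ?_ ?_
  · intro x _ y hy
    obtain ⟨t, c⟩ := x
    cases c <;> simp only [gad, List.mem_cons, List.not_mem_nil, or_false] at hy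
    · rw [hy]; rfl
    · rcases hy with rfl | rfl | rfl <;> rfl
  · intro x _
    obtain ⟨t, c⟩ := x
    cases c <;> simp [gad]

theorem eq_of_fst_eq {A B : Type} {l : List (A × B)} (h : (l.map Prod.fst).Nodup) {x y : A × B}
    (hx : x ∈ l) (hy : y ∈ l) (hxy : x.1 = y.1) : x = y :=
  List.inj_on_of_nodup_map h hx hy hxy

include hnd hwf in
theorem lay3_linear {e f : List (HN N T)} (he : e ∈ lay3 L) (hf : f ∈ lay3 L) {a b : HN N T}
    (ha : a ∈ e) (hb : b ∈ e) (hab : a ≠ b) (ha' : a ∈ f) (hb' : b ∈ f) : e = f := by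
  have hG := gad_nodup hnd
  rcases mem_lay3.mp he with ⟨g, hg, he⟩ | ⟨t, x, y, z, hx, he⟩
  · obtain ⟨w, hw, hg'⟩ := List.mem_flatMap.mp hg
    obtain ⟨_, f1, f2, f3, f4, f5, f6⟩ := gad_facts (hwf w hw) hg'
    have hnv := papV_nodup (f1 g.1.1 g.1.2) (f2 g.1.1 g.1.2) (f3 g.1.1 g.1.2) f4 f5 f6
    have hq := pap_pair he ha hb hab
    rcases mem_lay3.mp hf with ⟨g', hgg, hf⟩ | ⟨t, x, y, z, hx, hf⟩
    · obtain ⟨w', hw', hgg'⟩ := List.mem_flatMap.mp hgg
      obtain ⟨_, d1, d2, d3, d4, d5, d6⟩ := gad_facts (hwf w' hw') hgg'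
      have : g = g' := by
        apply eq_of_fst_eq hG hg hgg
        rcases hq with ⟨i, rfl⟩ | ⟨i, rfl⟩
        · obtain ⟨h1, h2⟩ := pap_q hf ha' d1 d2 d3
          exact Prod.ext h1 h2
        · obtain ⟨h1, h2⟩ := pap_q hf hb' d1 d2 d3
          exact Prod.ext h1 h2
      rw [← this] at hf
      exact pap_linear hnv he hf ha hb hab ha' hb'
    · exfalso
      rcases hq with ⟨i, rfl⟩ | ⟨i, rfl⟩
      · obtain ⟨j, hj⟩ := tri_u hf ha'
        exact absurd hj (by simp)
      · obtain ⟨j, hj⟩ := tri_u hf hb'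
        exact absurd hj (by simp)
  · obtain ⟨i, rfl⟩ := tri_u he ha
    obtain ⟨j, rfl⟩ := tri_u he hb
    rcases mem_lay3.mp hf with ⟨g', hgg, hf⟩ | ⟨t', x', y', z', hx', hf⟩
    · exfalso
      rcases pap_pair hf ha' hb' hab with ⟨i, h⟩ | ⟨i, h⟩
      · exact absurd h (by simp)
      · exact absurd h (by simp)
    · obtain ⟨k, hk⟩ := tri_u hf ha'
      simp only [HN.u.injEq] at hk
      rw [← hk.1] at hf
      exact tri_linear he hf ha hb hab ha' hb'

end Lay3

theorem Strong.mono {α : Type} {U U' : List α} {E E' : List (List α × V3)} {p : α → V3}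
    (h : Strong U E p) (hU : ∀ a ∈ U', a ∈ U) (hE : ∀ x ∈ E', x ∈ E)
    (hs : ∀ x ∈ E', ∀ a ∈ x.1, a ∈ U') : Strong U' E' p :=
  ⟨fun a ha b hb hab => h.np a (hU a ha) b (hU b hb) hab, fun a ha => h.ne a (hU a ha),
    fun x hx => h.nz x (hE x hx), fun x hx a ha => h.line x (hE x hx) a (hU a ha), hs⟩

/-- the reduction, on the level of systems of equations -/
theorem system_iff {N T : Type} (L : List (T × SCon N)) (hnd : (L.map Prod.fst).Nodup)
    (ν : HN (PN (AN N T) (Option T × ℕ)) (Option (Option T × ℕ) × ℕ) → ℕ) (n : ℕ)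
    (hν : ∀ e ∈ hedges L, ∀ a ∈ e, ∀ f ∈ hedges L, ∀ b ∈ f, ν a = ν b → a = b)
    (hn : ∀ e ∈ hedges L, ∀ a ∈ e, ν a < n) :
    (∃ v : N → ℝ, ∀ x ∈ L, x.2.Holds v) ↔
      ∃ pt : ℕ → ℝ × ℝ, (∀ u < n, ∀ v < n, pt u = pt v → u = v) ∧
        ∀ e ∈ (hedges L).map (List.map ν), ∃ a b : ℝ × ℝ, ∀ v < n,
          (pt v ∈ segment ℝ a b ↔ v ∈ e) := by
  constructor
  · rintro ⟨v, hv⟩
    obtain ⟨w, hw⟩ := complete1 L hnd v hv
    obtain ⟨p, hp1, hp2⟩ := complete2 (lay1 L) (nodup_lay1 L hnd) w (fun x hx => (hw x hx).1)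
      (fun x hx => (hw x hx).2)
    obtain ⟨U, E, q, hS, hE⟩ := complete3 (lay2 (lay1 L)) (nodup_lay2 _ (nodup_lay1 L hnd))
      (wf2 _) p hp1 hp2
    classical
    have hS' : Strong (hedges L).flatten (E.filter fun x => x.1 ∈ hedges L) q := by
      refine hS.mono ?_ (fun x hx => (List.mem_filter.mp hx).1) ?_
      · intro a ha
        obtain ⟨e, he, ha⟩ := List.mem_flatten.mp ha
        obtain ⟨m, hm⟩ := hE e he
        exact hS.sub _ hm a ha
      · intro x hx a ha
        have := (List.mem_filter.mp hx).2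
        exact List.mem_flatten.mpr ⟨x.1, by simpa using this, ha⟩
    obtain ⟨q', hS''⟩ := map_strong hS' ν (by
      intro a ha b hb
      obtain ⟨e, he, ha⟩ := List.mem_flatten.mp ha
      obtain ⟨f, hf, hb⟩ := List.mem_flatten.mp hb
      exact hν e he a ha f hf b hb)
    obtain ⟨U', q'', hS3, hU'⟩ := extend_all hS'' n
    obtain ⟨pt, h1, h2⟩ := realize hS3 hU' (by
      intro x hx
      obtain ⟨y, hy, rfl⟩ := List.mem_map.mp hx
      have hy' : y.1 ∈ hedges L := by simpa using (List.mem_filter.mp hy).2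
      have hinj : ∀ a ∈ y.1, ∀ b ∈ y.1, a ≠ b → ν a ≠ ν b := fun a ha b hb hab h =>
        hab (hν _ hy' a ha _ hy' b hb h)
      rcases lay3_shape (wf2 _) hy' with ⟨a, b, hab, h⟩ | ⟨a, b, c, hab, hac, hbc, h⟩
      · left
        refine ⟨ν a, ν b, hinj a (by simp [h]) b (by simp [h]) hab, ?_⟩
        simp [h]
      · right
        refine ⟨ν a, ν b, ν c, hinj a (by simp [h]) b (by simp [h]) hab,
          hinj a (by simp [h]) c (by simp [h]) hac,
          hinj b (by simp [h]) c (by simp [h]) hbc, ?_⟩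
        simp [h])
    refine ⟨pt, h1, fun e he => ?_⟩
    obtain ⟨f, hf, rfl⟩ := List.mem_map.mp he
    obtain ⟨m, hm⟩ := hE f hf
    exact h2 (f.map ν, m) (List.mem_map.mpr ⟨(f, m), List.mem_filter.mpr ⟨hm, by simpa using hf⟩,
      rfl⟩)
  · rintro ⟨pt, h1, h2⟩
    have hV := vreal_of_realizable (hedges L) ν n hν hn pt h1
      (fun e he => h2 _ (List.mem_map_of_mem he))
    have h3 := sound3 (lay2 (lay1 L)) (wf2 _) _ hV
    obtain ⟨w, hw⟩ := sound2 (lay1 L) _ h3
    exact sound1 L w hw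

end Pool.Agent.Helper55
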